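import Pool.Agent.WeilH_h6.Corr

set_option autoImplicit false

/-!
# The parity operator
-/

noncomputable section

namespace Pool.Agent.WeilH_h6

open AlgebraicGeometry CategoryTheory MonoidalCategory
open scoped TensorProduct DirectSum
open VarClass

universe u v w

namespace Weil

variable {k : Type u} [Field k] {𝒱 : VarClass k} {K : Type v} [Field K] (W : Weil.{u, v, w} 𝒱 K)

/-- The parity operator on `H(X)`: multiplication by `(-1)^i` on `H^i(X)`. -/
def par (X : 𝒱.Obj) : W.H X →ₗ[K] W.H X :=
  (DirectSum.toModule K ℕ (W.H X) fun i => ((-1 : K) ^ i) • (W.grad X i).subtype) ∘ₗ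
    (LinearEquiv.ofBijective (DirectSum.coeLinearMap (W.grad X)) (W.isInternal X)).symm.toLinearMap

lemma par_apply {X : 𝒱.Obj} {i : ℕ} {x : W.H X} (hx : x ∈ W.grad X i) :
    W.par X x = ((-1 : K) ^ i) • x := by
  have h : (LinearEquiv.ofBijective (DirectSum.coeLinearMap (W.grad X)) (W.isInternal X)).symm x =
      DirectSum.lof K ℕ (fun i => W.grad X i) i ⟨x, hx⟩ := by
    rw [LinearEquiv.symm_apply_eq]
    change x = DirectSum.coeLinearMap (W.grad X) _
    rw [DirectSum.coeLinearMap_lof]
  change (DirectSum.toModule K ℕ (W.H X) fun i => ((-1 : K) ^ i) • (W.grad X i).subtype)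
    ((LinearEquiv.ofBijective (DirectSum.coeLinearMap (W.grad X)) (W.isInternal X)).symm x) = _
  rw [h, DirectSum.toModule_lof]
  rfl

@[simp] lemma par_par {X : 𝒱.Obj} (x : W.H X) : W.par X (W.par X x) = x := by
  refine W.hom_induction (P := fun x => W.par X (W.par X x) = x) (by simp) ?_ ?_ x
  · intro x y hx hy; rw [map_add, map_add, hx, hy]
  · intro i x hx
    rw [W.par_apply hx, map_smul, W.par_apply hx, smul_smul, ← mul_pow]
    simp

lemma par_mul {X : 𝒱.Obj} (x y : W.H X) : W.par X (x * y) = W.par X x * W.par X y := by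
  refine W.hom_induction (P := fun x => W.par X (x * y) = W.par X x * W.par X y) (by simp) ?_ ?_ x
  · intro x x' hx hy; rw [add_mul, map_add, map_add, hx, hy, add_mul]
  · intro i x hx
    refine W.hom_induction (P := fun y => W.par X (x * y) = W.par X x * W.par X y) (by simp) ?_ ?_ y
    · intro y y' hx hy; rw [mul_add, map_add, map_add, hx, hy, mul_add]
    · intro j y hy
      rw [W.par_apply hx, W.par_apply hy, W.par_apply (W.mul_mem_grad hx hy), smul_mul_smul_comm,
        pow_add]

lemma par_pull {X Y : 𝒱.Obj} (f : X ⟶ Y) (y : W.H Y) : W.par X (W.pull f y) =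
    W.pull f (W.par Y y) := by
  refine W.hom_induction (P := fun y => W.par X (W.pull f y) = W.pull f (W.par Y y)) (by simp) ?_ ?_ y
  · intro x y hx hy; simp only [map_add, hx, hy]
  · intro i y hy
    rw [W.par_apply hy, W.par_apply (W.pull_grad f i y hy), map_smul]

lemma tr_par {X : 𝒱.Obj} (x : W.H X) : W.tr X (W.par X x) = W.tr X x := by
  refine W.hom_induction (P := fun x => W.tr X (W.par X x) = W.tr X x) (by simp) ?_ ?_ x
  · intro x y hx hy; simp only [map_add, hx, hy]
  · intro i x hx
    rw [W.par_apply hx, map_smul]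
    by_cases h : i = 2 * X.dim
    · subst h; simp [pow_mul]
    · rw [W.tr_grad X i x hx h, smul_zero]

lemma par_algSpan {X : 𝒱.Obj} {a : W.H X} (ha : a ∈ W.algSpan X) : W.par X a = a := by
  induction ha using Submodule.span_induction with
  | mem a ha =>
    obtain ⟨i, z, rfl⟩ := ha
    rw [W.par_apply (W.cl_mem_grad z)]
    simp [pow_mul]
  | zero => simp
  | add a b _ _ ha hb => rw [map_add, ha, hb]
  | smul c a _ ha => rw [map_smul, ha]

/-- Algebraic homomorphisms commute with the parity operators. -/
lemma par_algHom {Y Z : 𝒱.Obj} {φ : W.H Y →ₗ[K] W.H Z} (hφ : φ ∈ W.algHom Y Z) (v : W.H Y) :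
    φ (W.par Y v) = W.par Z (φ v) := by
  obtain ⟨α, hα, rfl⟩ := hφ
  refine W.ext_tr fun w => ?_
  have h1 : W.par _ (α * (W.p1 Y Z v * W.p2 Y Z (W.par Z w))) =
      α * (W.p1 Y Z (W.par Y v) * W.p2 Y Z w) := by
    rw [W.par_mul, W.par_mul, W.par_algSpan hα, W.par_pull, W.par_pull, W.par_par]
  have h2 : W.par _ (W.act α v * W.par Z w) = W.par Z (W.act α v) * w := by
    rw [W.par_mul, W.par_par]
  rw [W.tr_act, ← h1, W.tr_par, ← W.tr_act, ← W.tr_par, h2]

/-- even elements are central -/
lemma even_central {X : 𝒱.Obj} (x y : W.H X) : (x + W.par X x) * y = y * (x + W.par X x) := by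
  refine W.hom_induction (P := fun x => (x + W.par X x) * y = y * (x + W.par X x)) (by simp) ?_ ?_ x
  · intro x x' hx hy
    have e : x + x' + W.par X (x + x') = (x + W.par X x) + (x' + W.par X x') := by
      rw [map_add]; abel
    rw [e, add_mul, mul_add, hx, hy]
  · intro i x hx
    rcases Nat.even_or_odd i with hi | hi
    · refine W.hom_induction (P := fun y => (x + W.par X x) * y = y * (x + W.par X x)) (by simp)
        ?_ ?_ y
      · intro y y' hx hy
        rw [mul_add (x + W.par X x) y y', add_mul y y' (x + W.par X x), hx, hy]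
      · intro j y hy
        rw [W.par_apply hx, hi.neg_one_pow, one_smul]
        have := W.graded_comm X i j x y hx hy
        rw [(hi.mul_right j).neg_one_pow, one_mul] at this
        rw [add_mul, mul_add, this]
    · rw [W.par_apply hx, hi.neg_one_pow]
      simp

/-- odd elements anticommute -/
lemma odd_anticomm {X : 𝒱.Obj} (x y : W.H X) :
    (x - W.par X x) * (y - W.par X y) = - ((y - W.par X y) * (x - W.par X x)) := by
  refine W.hom_induction (P := fun x => (x - W.par X x) * (y - W.par X y) =
    - ((y - W.par X y) * (x - W.par X x))) (by simp) ?_ ?_ x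
  · intro x x' hx hy
    have e : x + x' - W.par X (x + x') = (x - W.par X x) + (x' - W.par X x') := by
      rw [map_add]; abel
    rw [e, add_mul, mul_add, hx, hy, neg_add]
  · intro i x hx
    rcases Nat.even_or_odd i with hi | hi
    · rw [W.par_apply hx, hi.neg_one_pow]
      simp
    · refine W.hom_induction (P := fun y => (x - W.par X x) * (y - W.par X y) =
        - ((y - W.par X y) * (x - W.par X x))) (by simp) ?_ ?_ y
      · intro y y' hx hy
        have e : y + y' - W.par X (y + y') = (y - W.par X y) + (y' - W.par X y') := by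
          rw [map_add]; abel
        rw [e, add_mul, mul_add, hx, hy, neg_add]
      · intro j y hy
        rcases Nat.even_or_odd j with hj | hj
        · rw [W.par_apply hy, hj.neg_one_pow]
          simp
        · have := W.graded_comm X i j x y hx hy
          rw [(hi.mul hj).neg_one_pow] at this
          rw [W.par_apply hx, W.par_apply hy, hi.neg_one_pow, hj.neg_one_pow]
          simp only [neg_smul, one_smul, sub_neg_eq_add]
          simp only [add_mul, mul_add, this]
          noncomm_ring

end Weil

end Pool.Agent.WeilH_h6
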