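import Pool.Agent.WeilH_h6.NT

set_option autoImplicit false

/-!
# Adjoints and dual bases
-/

noncomputable section

namespace Pool.Agent.WeilH_h6

open AlgebraicGeometry CategoryTheory MonoidalCategory
open scoped TensorProduct DirectSum
open VarClass

universe u v w

namespace Weil

variable {k : Type u} [Field k] {𝒱 : VarClass k} {K : Type v} [Field K] (W : Weil.{u, v, w} 𝒱 K)

lemma dual_tr_par_left {X : 𝒱.Obj} (x y : W.H X) :
    W.tr X (W.par X x * y) = W.tr X (x * W.par X y) := by
  rw [← W.tr_par (W.par X x * y), W.par_mul, W.par_par]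

/-- the trace is invariant under the swap -/
lemma dual_tr_swap {X : 𝒱.Obj} (u : W.H (X.prod X)) :
    W.tr (X.prod X) (W.pull (swapM X X) u) = W.tr (X.prod X) u := by
  refine W.kunneth_induction X X (P := fun u => W.tr (X.prod X) (W.pull (swapM X X) u) =
    W.tr (X.prod X) u) ?_ ?_ u
  · intro a b ha hb; rw [map_add, map_add, map_add, ha, hb]
  · intro a b
    rw [W.pull_swapM, W.tr_comm, W.par_pull, W.tr_prod, W.tr_prod, W.tr_par, mul_comm]

/-- The adjoint of an algebraic endomorphism is algebraic.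

Proof.  Let `α` be the kernel of `φ` and `α' = pull (swapM X X) α` (algebraic).  For `v`, `v'`
homogeneous of degrees `i`, `j`:
`Tr (act α' v' * v) = Tr (α' * (p1 v' * p2 v)) = Tr (α * (p2 v' * p1 v)) = ± Tr (φ v * v')`
with the sign `(-1)^(i j)` (`p2_mul_p1`, and the trace is invariant under the swap, which is proved
like `tr_pull_assocM`; the two signs agree).  By `tr_comm` and `par_algHom` this is
`Tr (v * φ' v')`. -/
lemma adj_mem_algHom [CharZero K] {X : 𝒱.Obj} {φ φ' : Module.End K (W.H X)}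
    (hφ : φ ∈ W.algHom X X) (hadj : ∀ v v', W.tr X (φ v * v') = W.tr X (v * φ' v')) :
    φ' ∈ W.algHom X X := by
  obtain ⟨α, hα, hα'⟩ := W.mem_algHom_iff.1 hφ
  rw [W.mem_algHom_iff]
  refine ⟨W.pull (swapM X X) α, W.pull_mem_algSpan _ hα, fun v w => ?_⟩
  -- left hand side
  have h1 : W.tr X (φ' v * w) = W.tr (X.prod X) (α * (W.p1 X X (W.par X w) * W.p2 X X v)) := by
    rw [W.tr_comm, ← W.dual_tr_par_left, ← hadj, hα']
  -- right hand side
  have h2 : W.pull (swapM X X) α * (W.p1 X X v * W.p2 X X w) =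
      W.pull (swapM X X) (α * (W.p2 X X v * W.p1 X X w)) := by
    simp only [map_mul, ← W.pull_comp, Obj.lift_fst, Obj.lift_snd]
  have h3 : W.tr (X.prod X) (α * (W.p2 X X v * W.p1 X X w)) =
      W.tr (X.prod X) (α * (W.p1 X X (W.par X w) * W.p2 X X v)) := by
    rw [← mul_assoc, W.tr_comm, W.par_mul, W.par_algSpan hα, W.par_pull, ← mul_assoc,
      ← W.central hα, mul_assoc, ← W.tr_par, W.par_mul, W.par_mul, W.par_algSpan hα, W.par_pull,
      W.par_pull, W.par_par]
  rw [h1, h2, W.dual_tr_swap, h3]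

/-- The adjoint relation is symmetric (for algebraic `φ'`): `tr_comm`, `par_algHom`, `par_par`. -/
lemma adj_symm {X : 𝒱.Obj} {φ φ' : Module.End K (W.H X)} (hφ : φ ∈ W.algHom X X)
    (hφ' : φ' ∈ W.algHom X X)
    (hadj : ∀ v v', W.tr X (φ v * v') = W.tr X (v * φ' v')) (v v' : W.H X) :
    W.tr X (φ' v * v') = W.tr X (v * φ v') := by
  rw [W.tr_comm, ← W.dual_tr_par_left, ← hadj, W.par_algHom hφ, W.tr_comm, W.par_par]

/-- The adjoint of an idempotent is idempotent. -/
lemma adj_idem {X : 𝒱.Obj} {φ φ' : Module.End K (W.H X)} (h : φ ∘ₗ φ = φ)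
    (hadj : ∀ v v', W.tr X (φ v * v') = W.tr X (v * φ' v')) : φ' ∘ₗ φ' = φ' := by
  ext w
  refine W.ext_tr' fun v => ?_
  rw [LinearMap.comp_apply, ← hadj, ← hadj, ← hadj, ← LinearMap.comp_apply, h]

/-- Dual bases.  For an algebraic idempotent `p` with adjoint `p'` there are finite bases `b` of the
range of `p` and `b'` of the range of `p'` with `Tr (b' j * b j') = δ_{j j'}`.

Proof.  `b` a basis of the range of `p` (`Fin n`, `n = finrank`), `b' j` := the element `x` of
`H(X)` with `Tr (x * v) = ` the `j`-th coordinate of `p v` (it exists by `pd`); then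
`Tr (p' x * v) = Tr (x * p v) = Tr (x * v)`, so that `x = p' x`; and the `b' j` span the range of `p'`:
for `y = p' y`, `y - ∑_j Tr (y * b j) • b' j` is orthogonal to the range of `p` and hence (being
fixed by `p'`) zero. -/
lemma exists_dual_bases [CharZero K] {X : 𝒱.Obj} {p p' : Module.End K (W.H X)}
    (hp : p ∈ W.algHom X X) (hpp : p ∘ₗ p = p)
    (hadj : ∀ v v', W.tr X (p v * v') = W.tr X (v * p' v')) :
    ∃ (n : ℕ) (b b' : Fin n → W.H X), (∀ j, p (b j) = b j) ∧ (∀ j, p' (b' j) = b' j) ∧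
      (∀ v, p v ∈ Submodule.span K (Set.range b)) ∧
      (∀ v, p' v ∈ Submodule.span K (Set.range b')) ∧
      (∀ j j', W.tr X (b' j * b j') = if j = j' then 1 else 0) := by
  classical
  have hp' : p' ∈ W.algHom X X := W.adj_mem_algHom hp hadj
  have hpp' : p' ∘ₗ p' = p' := W.adj_idem hpp hadj
  have hsym := W.adj_symm hp hp' hadj
  have hpv : ∀ v, p (p v) = p v := fun v => by rw [← LinearMap.comp_apply, hpp]
  have hpv' : ∀ v, p' (p' v) = p' v := fun v => by rw [← LinearMap.comp_apply, hpp']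
  let bas := Module.finBasis K (LinearMap.range p)
  let l : Fin (Module.finrank K (LinearMap.range p)) → Module.Dual K (W.H X) :=
    fun j => (bas.coord j) ∘ₗ p.rangeRestrict
  have hb : ∀ j, p (bas j : W.H X) = bas j := by
    intro j
    obtain ⟨u, hu⟩ := (bas j).2
    rw [← hu, hpv]
  have hl : ∀ j v, W.tr X ((W.pd X).symm (l j) * v) = bas.coord j (p.rangeRestrict v) := by
    intro j v
    rw [← pd_apply, LinearEquiv.apply_symm_apply]
    rfl
  have hrr : ∀ v, p.rangeRestrict (p v) = p.rangeRestrict v := by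
    intro v
    apply Subtype.ext
    simp [hpv]
  have hb' : ∀ j, p' ((W.pd X).symm (l j)) = (W.pd X).symm (l j) := by
    intro j
    refine W.ext_tr fun w => ?_
    rw [hsym, hl, hl, hrr]
  have hexp : ∀ v, p v = ∑ j, bas.coord j (p.rangeRestrict v) • (bas j : W.H X) := by
    intro v
    have h := congrArg Subtype.val (bas.sum_repr (p.rangeRestrict v))
    rw [Submodule.coe_sum] at h
    exact h.symm
  refine ⟨Module.finrank K (LinearMap.range p), fun j => (bas j : W.H X),
    fun j => (W.pd X).symm (l j), hb, hb', fun v => ?_, fun v => ?_, fun j j' => ?_⟩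
  · rw [hexp v]
    exact Submodule.sum_mem _ fun j _ => Submodule.smul_mem _ _ (Submodule.subset_span ⟨j, rfl⟩)
  · have h : p' v = ∑ j, W.tr X (p' v * bas j) • (W.pd X).symm (l j) := by
      refine W.ext_tr fun w => ?_
      rw [Finset.sum_mul, map_sum]
      have h1 : W.tr X (p' v * w) = W.tr X (p' v * p w) := by
        rw [← hsym, hpv']
      rw [h1, hexp w, Finset.mul_sum, map_sum]
      refine Finset.sum_congr rfl fun j _ => ?_
      rw [mul_smul_comm, map_smul, smul_mul_assoc, map_smul, hl, smul_eq_mul, smul_eq_mul, mul_comm]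
    rw [h]
    exact Submodule.sum_mem _ fun j _ => Submodule.smul_mem _ _ (Submodule.subset_span ⟨j, rfl⟩)
  · rw [hl]
    have h : p.rangeRestrict (bas j' : W.H X) = bas j' := Subtype.ext (hb j')
    rw [h, bas.coord_apply, bas.repr_self, Finsupp.single_apply]
    by_cases hjj : j = j'
    · simp [hjj]
    · rw [if_neg hjj, if_neg fun h => hjj h.symm]

/-- The parity of the dual: if the range of `p` has parity `i`, so has the range of `p'`.
Proof: `Tr (par (p' v) * w) = Tr (p' v * par w) = Tr (v * p (par w)) = Tr (v * par (p w)) =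
(-1)^i Tr (v * p w)`. -/
lemma adj_parity {X : 𝒱.Obj} {p p' : Module.End K (W.H X)} (hp : p ∈ W.algHom X X)
    (hp' : p' ∈ W.algHom X X) {i : ℕ}
    (hadj : ∀ v v', W.tr X (p v * v') = W.tr X (v * p' v'))
    (hpar : ∀ v, W.par X (p v) = ((-1 : K) ^ i) • p v) (v : W.H X) :
    W.par X (p' v) = ((-1 : K) ^ i) • p' v := by
  refine W.ext_tr fun w => ?_
  rw [W.dual_tr_par_left, W.adj_symm hp hp' hadj, W.par_algHom hp, hpar, mul_smul_comm, map_smul,
    smul_mul_assoc, map_smul, W.adj_symm hp hp' hadj]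

end Weil

end Pool.Agent.WeilH_h6
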