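import Pool.Agent.WeilH_h6.NT

set_option autoImplicit false

/-!
# `D(X)` implies the non-degeneracy of the trace form on the `K`-span of the algebraic classes
-/

noncomputable section

namespace Pool.Agent.WeilH_h6

open AlgebraicGeometry CategoryTheory MonoidalCategory
open scoped TensorProduct DirectSum
open VarClass

universe u v w

namespace Weil

variable {k : Type u} [Field k] {𝒱 : VarClass k} {K : Type v} [Field K] (W : Weil.{u, v, w} 𝒱 K)

/-- `cl` is `ℚ`-linear. -/
lemma cl_add [CharZero K] {X : 𝒱.Obj} {i : ℕ} (z z' : Cyc X i) :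
    W.cl (z + z') = W.cl z + W.cl z' := by
  unfold cl cycSum
  refine Finsupp.sum_add_index' (fun x => ?_) (fun x q r => ?_)
  · rw [Rat.cast_zero, zero_smul]
  · rw [Rat.cast_add, add_smul]

lemma cl_smul [CharZero K] {X : 𝒱.Obj} {i : ℕ} (q : ℚ) (z : Cyc X i) :
    W.cl (q • z) = (q : K) • W.cl z := by
  unfold cl cycSum
  rw [Finsupp.sum_smul_index (fun x => by rw [Rat.cast_zero, zero_smul]), Finsupp.smul_sum]
  refine Finsupp.sum_congr fun x _ => ?_
  rw [Rat.cast_mul, smul_smul]

/-- Intersection numbers of complementary cycles are rational: `alg_mul` and `tr_clPt`. -/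
lemma exists_rat [CharZero K] {X : 𝒱.Obj} {i j : ℕ} (h : i + j = X.dim) (z : Cyc X i)
    (z' : Cyc X j) : ∃ q : ℚ, W.tr X (W.cl z * W.cl z') = q := by
  obtain ⟨t, ht⟩ := W.alg_mul X i j z z'
  refine ⟨t.sum fun _ q => q, ?_⟩
  have h1 : W.tr X (W.cl z * W.cl z') = W.tr X (cycSum K (W.clPt X) t) := by rw [ht]; rfl
  rw [h1]
  unfold cycSum Finsupp.sum
  rw [map_sum, Rat.cast_sum]
  refine Finset.sum_congr rfl fun x _ => ?_
  rw [map_smul, W.tr_clPt X x.1 (by rw [x.2, h]), smul_eq_mul, mul_one]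

lemma RatNT_cl_zero [CharZero K] {X : 𝒱.Obj} {i : ℕ} : W.cl (0 : Cyc X i) = 0 := by
  unfold cl cycSum
  exact Finsupp.sum_zero_index

/-- an element of the span of the classes in codimension `i`, in coordinates with respect to a
`ℚ`-basis of `K` -/
lemma RatNT_repr [CharZero K] {X : 𝒱.Obj} {i : ℕ} {ι : Type v} (β : Module.Basis ι ℚ K)
    {b : W.H X} (hb : b ∈ Submodule.span K {a | ∃ z : Cyc X i, W.cl z = a}) :
    ∀ c : K, ∃ w : ι →₀ Cyc X i, c • b = w.sum fun t z => β t • W.cl z := by
  induction hb using Submodule.span_induction with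
  | mem a ha =>
    obtain ⟨z, rfl⟩ := ha
    intro c
    refine ⟨(β.repr c).mapRange (fun q => q • z) (zero_smul _ _), ?_⟩
    rw [Finsupp.sum_mapRange_index (fun t => by rw [W.RatNT_cl_zero, smul_zero])]
    have h1 : c = (β.repr c).sum fun t q => q • β t := by
      conv_lhs => rw [← β.linearCombination_repr c]
      rfl
    conv_lhs => rw [h1]
    unfold Finsupp.sum
    rw [Finset.sum_smul]
    refine Finset.sum_congr rfl fun t _ => ?_
    change (((β.repr c) t) • β t) • W.cl z = β t • W.cl (((β.repr c) t) • z)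
    rw [W.cl_smul, smul_smul]
    congr 1
    rw [Rat.smul_def, mul_comm]
  | zero =>
    intro c
    exact ⟨0, by rw [smul_zero, Finsupp.sum_zero_index]⟩
  | add x y _ _ hx hy =>
    intro c
    obtain ⟨w, hw⟩ := hx c
    obtain ⟨w', hw'⟩ := hy c
    refine ⟨w + w', ?_⟩
    rw [smul_add, hw, hw', Finsupp.sum_add_index']
    · intro t
      rw [W.RatNT_cl_zero, smul_zero]
    · intro t z z'
      rw [W.cl_add, smul_add]
  | smul r x _ hx =>
    intro c
    obtain ⟨w, hw⟩ := hx (c * r)
    exact ⟨w, by rw [smul_smul]; exact hw⟩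

lemma RatNT_span [CharZero K] {X : 𝒱.Obj} (h : W.HomEqNum X) {i : ℕ} {b : W.H X}
    (hb : b ∈ Submodule.span K {a | ∃ z : Cyc X i, W.cl z = a})
    (hn : ∀ (j : ℕ) (z' : Cyc X j), i + j = X.dim → W.tr X (b * W.cl z') = 0) : b = 0 := by
  obtain ⟨w, hw⟩ := W.RatNT_repr (Module.Basis.ofVectorSpace ℚ K) hb 1
  rw [one_smul] at hw
  obtain ⟨β, hβ⟩ : ∃ β, β = Module.Basis.ofVectorSpace ℚ K := ⟨_, rfl⟩
  rw [← hβ] at hw
  have hcl : ∀ t ∈ w.support, W.cl (w t) = 0 := by
    intro t ht
    rw [← h i (w t)]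
    intro j z' hij
    choose q hq using fun s => W.exists_rat hij (w s) z'
    have h1 := hn j z' hij
    rw [hw, Finsupp.sum, Finset.sum_mul, map_sum] at h1
    have h2 : ∑ s ∈ w.support, q s • β s = 0 := by
      rw [← h1]
      refine Finset.sum_congr rfl fun s _ => ?_
      rw [smul_mul_assoc, map_smul, hq, smul_eq_mul, Rat.smul_def, mul_comm]
    have h3 := linearIndependent_iff'.1 β.linearIndependent w.support q h2 t ht
    rw [hq, h3, Rat.cast_zero]
  rw [hw]
  refine Finset.sum_eq_zero fun t ht => ?_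
  change β t • W.cl (w t) = 0
  rw [hcl t ht, smul_zero]

/-- If `D(X)` holds then no nonzero element of the `K`-span of the algebraic classes is numerically
trivial.

Proof.  Let `a` be in `NT`.  The homogeneous components of `a` are in `algSpan` (they are in the
`K`-span of the classes of cycles of codimension `i`) and `Tr (a_i * cl z') = 0` for all cycles `z'`
of codimension `dim X - i` (degree reasons).  Write `a_i = ∑_s c_s • cl z_s` with `c_s ∈ K`, choose a
basis `e_t` of the `ℚ`-span of the `c_s` (finite-dimensional), `c_s = ∑_t q_{s t} e_t`; so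
`a_i = ∑_t e_t • cl w_t`, `w_t = ∑_s q_{s t} z_s`.  Then
`0 = ∑_t e_t * Tr (cl w_t * cl z')` with rational numbers `Tr (cl w_t * cl z')` (`exists_rat`), so
all of them are zero, `w_t` is numerically trivial, `cl w_t = 0` by `D(X)`, and `a_i = 0`. -/
theorem nt_eq_zero_of_homEqNum [CharZero K] {X : 𝒱.Obj} (h : W.HomEqNum X) {a : W.H X}
    (ha : W.NT a) : a = 0 := by
  obtain ⟨V, hV⟩ : ∃ V : ℕ → Submodule K (W.H X),
    ∀ i, V i = Submodule.span K {a | ∃ z : Cyc X i, W.cl z = a} := ⟨_, fun _ => rfl⟩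
  have hVg : ∀ i, V i ≤ W.grad X (2 * i) := by
    intro i
    rw [hV, Submodule.span_le]
    rintro _ ⟨z, rfl⟩
    exact W.cl_mem_grad z
  have hle : W.algSpan X ≤ ⨆ i, V i := by
    unfold algSpan
    rw [Submodule.span_le]
    rintro _ ⟨i, z, rfl⟩
    refine (le_iSup V i) ?_
    rw [hV]
    exact Submodule.subset_span ⟨z, rfl⟩
  obtain ⟨f, hf, hfa⟩ := (Submodule.mem_iSup_iff_exists_finsupp V a).1 (hle ha.1)
  have hzero : ∀ i, f i = 0 := by
    intro i
    refine W.RatNT_span h (by rw [← hV]; exact hf i) ?_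
    intro j z' hij
    have h1 : W.tr X (a * W.cl z') = 0 := ha.2 _ (W.cl_mem_algSpan z')
    rw [← hfa, Finsupp.sum, Finset.sum_mul, map_sum, Finset.sum_eq_single i] at h1
    · exact h1
    · intro l _ hl
      refine W.tr_grad X (2 * l + 2 * j) _ (W.mul_mem_grad (hVg l (hf l)) (W.cl_mem_grad z')) ?_
      omega
    · intro hi
      rw [Finsupp.notMem_support_iff] at hi
      rw [hi, zero_mul, map_zero]
  rw [← hfa]
  refine Finset.sum_eq_zero fun i _ => hzero i

end Weil

end Pool.Agent.WeilH_h6
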