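import Pool.Agent.WeilH_h6.CondIDefs
import Pool.Agent.WeilH_h6.RatNT
import Pool.Agent.WeilH_h6.Dual

set_option autoImplicit false

/-!
# Classes of cycles with rational coefficients: products, pull-backs, push-forwards
-/

noncomputable section

namespace Pool.Agent.WeilH_h6

open AlgebraicGeometry CategoryTheory MonoidalCategory
open scoped TensorProduct DirectSum
open VarClass

universe u v w

namespace Weil

variable {k : Type u} [Field k] {𝒱 : VarClass k} {K : Type v} [Field K] (W : Weil.{u, v, w} 𝒱 K)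

lemma cl_mem_ratSpan {X : 𝒱.Obj} {i : ℕ} (z : Cyc X i) : W.cl z ∈ W.ratSpan X :=
  AddSubmonoid.subset_closure ⟨i, z, rfl⟩

/-- `AddSubmonoid.closure_induction`. -/
lemma ratSpan_le {X : 𝒱.Obj} {a : W.H X} (ha : a ∈ W.ratSpan X) : a ∈ W.algSpan X := by
  refine AddSubmonoid.closure_induction (motive := fun a _ => a ∈ W.algSpan X) ?_ ?_ ?_ ha
  · rintro _ ⟨i, z, rfl⟩
    exact W.cl_mem_algSpan z
  · exact Submodule.zero_mem _
  · intro x y _ _ hx hy
    exact Submodule.add_mem _ hx hy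

/-- `cl_smul`, closure induction. -/
lemma ratSpan_smul [CharZero K] {X : 𝒱.Obj} {a : W.H X} (ha : a ∈ W.ratSpan X) (q : ℚ) :
    (q : K) • a ∈ W.ratSpan X := by
  refine AddSubmonoid.closure_induction (motive := fun a _ => (q : K) • a ∈ W.ratSpan X) ?_ ?_ ?_ ha
  · rintro _ ⟨i, z, rfl⟩
    rw [← W.cl_smul]
    exact W.cl_mem_ratSpan _
  · rw [smul_zero]
    exact zero_mem _
  · intro x y _ _ hx hy
    rw [smul_add]
    exact add_mem hx hy

/-- `alg_mul`; cf. `mul_mem_algSpan`. -/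
lemma mul_mem_ratSpan {X : 𝒱.Obj} {a b : W.H X} (ha : a ∈ W.ratSpan X) (hb : b ∈ W.ratSpan X) :
    a * b ∈ W.ratSpan X := by
  refine AddSubmonoid.closure_induction (motive := fun a _ => a * b ∈ W.ratSpan X) ?_ ?_ ?_ ha
  · rintro _ ⟨i, z, rfl⟩
    refine AddSubmonoid.closure_induction (motive := fun b _ => W.cl z * b ∈ W.ratSpan X) ?_ ?_ ?_ hb
    · rintro _ ⟨j, z', rfl⟩
      obtain ⟨t, ht⟩ := W.alg_mul X i j z z'
      exact AddSubmonoid.subset_closure ⟨i + j, t, ht⟩
    · rw [mul_zero]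
      exact zero_mem _
    · intro x y _ _ hx hy
      rw [mul_add]
      exact add_mem hx hy
  · rw [zero_mul]
    exact zero_mem _
  · intro x y _ _ hx hy
    rw [add_mul]
    exact add_mem hx hy

/-- cf. `one_mem_algSpan`. -/
lemma one_mem_ratSpan [CharZero K] (X : 𝒱.Obj) : (1 : W.H X) ∈ W.ratSpan X := by
  have := 𝒱.integral X.X X.mem
  let x : X.X.left := genericPoint X.X.left
  have hx : Order.coheight x = 0 := by
    rw [Order.coheight_eq_zero]
    intro y _
    exact genericPoint_specializes y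
  have h1 : W.cl (Finsupp.single (⟨x, by simpa using hx⟩ : {x : X.X.left //
      Order.coheight x = ((0 : ℕ) : ℕ∞)}) 1 : Cyc X 0) = 1 := by
    unfold cl cycSum
    rw [Finsupp.sum_single_index]
    · simp only [Rat.cast_one, one_smul]; exact W.clPt_generic X x hx
    · simp
  rw [← h1]
  exact W.cl_mem_ratSpan _

/-- `alg_pull`; cf. `pull_mem_algSpan`. -/
lemma pull_mem_ratSpan {X Y : 𝒱.Obj} (f : X ⟶ Y) {a : W.H Y} (ha : a ∈ W.ratSpan Y) :
    W.pull f a ∈ W.ratSpan X := by
  refine AddSubmonoid.closure_induction (motive := fun a _ => W.pull f a ∈ W.ratSpan X) ?_ ?_ ?_ ha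
  · rintro _ ⟨i, z, rfl⟩
    obtain ⟨t, ht⟩ := W.alg_pull f i z
    exact AddSubmonoid.subset_closure ⟨i, t, ht⟩
  · rw [map_zero]
    exact zero_mem _
  · intro x y _ _ hx hy
    rw [map_add]
    exact add_mem hx hy

/-- `alg_push`; cf. `push_algSpan`. -/
lemma push_ratSpan {X Y : 𝒱.Obj} (f : X ⟶ Y) {a : W.H X} (ha : a ∈ W.ratSpan X) :
    ∃ b ∈ W.ratSpan Y, ∀ y, W.tr Y (b * y) = W.tr X (a * W.pull f y) := by
  refine AddSubmonoid.closure_induction (motive := fun a _ => ∃ b ∈ W.ratSpan Y, ∀ y,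
    W.tr Y (b * y) = W.tr X (a * W.pull f y)) ?_ ?_ ?_ ha
  · rintro _ ⟨i, z, rfl⟩
    by_cases h : X.dim ≤ i + Y.dim
    · obtain ⟨t, ht⟩ := W.alg_push f i (i + Y.dim - X.dim) (by omega) z
      exact ⟨_, W.cl_mem_ratSpan t, ht⟩
    · refine ⟨0, zero_mem _, fun y => ?_⟩
      rw [zero_mul, map_zero]
      refine W.hom_induction (P := fun y => 0 = W.tr X (W.cl z * W.pull f y)) (by simp) ?_ ?_ y
      · intro x y hx hy; rw [map_add, mul_add, map_add, ← hx, ← hy, add_zero]
      · intro j y hy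
        by_cases hj : 2 * i + j = 2 * X.dim
        · have : y = 0 := by
            have h2 : W.grad Y j = ⊥ := W.vanish Y j (by omega)
            rw [h2] at hy; simpa using hy
          simp [this]
        · exact (W.tr_grad X _ _ (W.mul_mem_grad (W.cl_mem_grad z) (W.pull_grad f j y hy)) hj).symm
  · exact ⟨0, zero_mem _, fun y => by simp⟩
  · intro a b _ _ ha hb
    obtain ⟨a', ha', h1⟩ := ha
    obtain ⟨b', hb', h2⟩ := hb
    exact ⟨a' + b', add_mem ha' hb', fun y => by
      simp only [add_mul, map_add, h1, h2]⟩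

end Weil

end Pool.Agent.WeilH_h6
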