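import Pool.Agent.WeilH_h6.Words

set_option autoImplicit false

/-!
# Multidegrees of words, two lemmas
-/

namespace Pool.Agent.WeilH_h6

/-- Proof: the equivalences `{s // ((l s).1, !(l s).2) = (i, b)} ≃ {s // l s = (i, !b)}`. -/
lemma wdeg_flip {I : Type} {m : ℕ} (l : Fin m → I × Bool) (i : I) :
    wdeg (fun s => ((l s).1, !(l s).2)) i = -wdeg l i := by
  have key : ∀ b : Bool, Nat.card {s // ((l s).1, !(l s).2) = (i, b)}
      = Nat.card {s // l s = (i, !b)} := by
    intro b
    refine Nat.card_congr (Equiv.subtypeEquivRight fun s => ?_)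
    rw [Prod.ext_iff, Prod.ext_iff]
    simp only
    constructor
    · rintro ⟨h1, h2⟩
      exact ⟨h1, by rw [← h2, Bool.not_not]⟩
    · rintro ⟨h1, h2⟩
      exact ⟨h1, by rw [h2, Bool.not_not]⟩
  unfold wdeg
  rw [key, key]
  simp only [Bool.not_true, Bool.not_false]
  ring

/-- Proof: `wdeg_append` for `Fin.append l ![x]` (or directly, `Fin.snoc`), and the case `m = 1`. -/
lemma wdeg_last {I : Type} [DecidableEq I] {m : ℕ} (l : Fin (m + 1) → I × Bool) (i : I) :
    wdeg l i = wdeg (fun s => l s.castSucc) i +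
      if (l (Fin.last m)).1 = i then (if (l (Fin.last m)).2 then 1 else -1) else 0 := by
  have hl : l = Fin.append (fun s => l s.castSucc) (fun _ : Fin 1 => l (Fin.last m)) := by
    funext s
    refine Fin.lastCases ?_ (fun s => ?_) s
    · have h1 : (Fin.last m : Fin (m + 1)) = Fin.natAdd m (0 : Fin 1) := rfl
      rw [h1, Fin.append_right]
    · have h1 : (s.castSucc : Fin (m + 1)) = Fin.castAdd 1 s := rfl
      rw [h1, Fin.append_left]
      rfl
  have h2 : wdeg l i = wdeg (Fin.append (fun s => l s.castSucc)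
      (fun _ : Fin 1 => l (Fin.last m))) i := congrArg (fun x => wdeg x i) hl
  rw [h2, wdeg_append]
  congr 1
  have key : ∀ x : I × Bool, Nat.card {s : Fin 1 // l (Fin.last m) = x}
      = if l (Fin.last m) = x then 1 else 0 := by
    intro x
    split_ifs with h
    · rw [Nat.card_eq_one_iff_unique]
      exact ⟨⟨fun a b => Subtype.ext (Subsingleton.elim _ _)⟩, ⟨⟨0, h⟩⟩⟩
    · rw [Nat.card_eq_zero]
      exact Or.inl ⟨fun a => h a.2⟩
  unfold wdeg
  rw [key, key]
  generalize l (Fin.last m) = x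
  obtain ⟨j, b⟩ := x
  by_cases hj : j = i
  · subst hj
    cases b <;> simp
  · have h3 : ∀ b', ¬ ((j, b) = (i, b')) := fun b' h4 => hj (congrArg Prod.fst h4)
    simp [h3, hj]

end Pool.Agent.WeilH_h6
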