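import Pool.Agent.WeilH_h6.Adj
import Pool.Agent.WeilH_h6.ConvA
import Pool.Agent.WeilH_h6.RatNT

set_option autoImplicit false

/-!
# The condition on degrees is necessary
-/

noncomputable section

namespace Pool.Agent.WeilH_h6

open AlgebraicGeometry CategoryTheory MonoidalCategory
open scoped TensorProduct DirectSum
open VarClass

universe u v w

namespace Weil

variable {k : Type u} [Field k] {𝒱 : VarClass k} {K : Type v} [Field K] {W : Weil.{u, v, w} 𝒱 K}

namespace Pieces

variable {X : 𝒱.Obj} {I : Type} (P : W.Pieces X I)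

/-- If `D(X^m)` holds for all `m` then the degrees are symmetric (`N = 1`).

Proof.  Let `z ≠ 0` be algebraic in `wordPart l`.  By `nt_eq_zero_of_homEqNum` it is not numerically
trivial: there is `b ∈ algSpan` with `tr (z * b) ≠ 0`.  `z = powMap (proj l) z` (`powMap_proj_eq`), so
by `powMap_proj_adj` the class `z' = powMap (proj l^∨) b` is not zero; it is in `wordPart l^∨`
(`powMap_proj_mem`) and in `algSpan` (`algHom_apply_mem`, `powMap_mem_algHom`, `proj_mem`), where
`l^∨ s = ((l s).1, !(l s).2)`; `wdeg_flip`. -/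
theorem degSymm_of_homEqNum [CharZero K] (h : ∀ m, W.HomEqNum (X.pow m)) : P.DegSymmX := by
  intro m l z hz hzalg hz0
  have h1 : ∃ b ∈ W.algSpan (X.pow m), W.tr (X.pow m) (z * b) ≠ 0 := by
    by_contra hcon
    push Not at hcon
    exact hz0 (W.nt_eq_zero_of_homEqNum (h m) ⟨hzalg, hcon⟩)
  obtain ⟨b, hb, hzb⟩ := h1
  refine ⟨1, m, fun s => ((l s).1, !(l s).2),
    W.powMap m (fun s => P.proj ((l s).1, !(l s).2)) b, le_refl _, P.powMap_proj_mem _ b,
    W.algHom_apply_mem (W.powMap_mem_algHom fun s => P.proj_mem _) hb, ?_, fun i => ?_⟩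
  · intro h0
    apply hzb
    rw [← P.powMap_proj_eq hz, P.powMap_proj_adj, h0, mul_zero, map_zero]
  · rw [wdeg_flip]
    simp

end Pieces

end Weil

end Pool.Agent.WeilH_h6
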