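import Pool.Agent.WeilH_h6.Box

set_option autoImplicit false

/-!
# External products of nonzero algebraic classes are not zero
-/

noncomputable section

namespace Pool.Agent.WeilH_h6

open AlgebraicGeometry CategoryTheory MonoidalCategory
open scoped TensorProduct DirectSum
open VarClass

universe u v w

namespace Weil

variable {k : Type u} [Field k] {𝒱 : VarClass k} {K : Type v} [Field K] (W : Weil.{u, v, w} 𝒱 K)

lemma boxNZ_box2_add_left {X : 𝒱.Obj} {m m' : ℕ} (a a' : W.H (X.pow m)) (b : W.H (X.pow m')) :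
    W.box2 (a + a') b = W.box2 a b + W.box2 a' b := by
  unfold box2; rw [map_add, add_mul]

lemma boxNZ_box2_add_right {X : 𝒱.Obj} {m m' : ℕ} (a : W.H (X.pow m)) (b b' : W.H (X.pow m')) :
    W.box2 a (b + b') = W.box2 a b + W.box2 a b' := by
  unfold box2; rw [map_add, mul_add]

lemma boxNZ_box2_smul_left {X : 𝒱.Obj} {m m' : ℕ} (c : K) (a : W.H (X.pow m))
    (b : W.H (X.pow m')) : W.box2 (c • a) b = c • W.box2 a b := by
  unfold box2; rw [map_smul, smul_mul_assoc]

lemma boxNZ_box2_smul_right {X : 𝒱.Obj} {m m' : ℕ} (c : K) (a : W.H (X.pow m))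
    (b : W.H (X.pow m')) : W.box2 a (c • b) = c • W.box2 a b := by
  unfold box2; rw [map_smul, mul_smul_comm]

lemma boxNZ_tr_box2 {X : 𝒱.Obj} {m m' : ℕ} (a : W.H (X.pow m)) (b : W.H (X.pow m')) :
    W.tr _ (W.box2 a b) = W.tr _ a * W.tr _ b := by
  refine W.pure_induction (P := fun a => W.tr _ (W.box2 a b) = W.tr _ a * W.tr _ b) ?_ ?_ ?_ a
  · intro x y hx hy
    rw [boxNZ_box2_add_left, map_add, hx, hy, map_add, add_mul]
  · intro c x hx
    rw [boxNZ_box2_smul_left, map_smul, hx, map_smul, smul_mul_assoc]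
  intro u
  refine W.pure_induction (P := fun b => W.tr _ (W.box2 (W.pureT u) b) =
    W.tr _ (W.pureT u) * W.tr _ b) ?_ ?_ ?_ b
  · intro x y hx hy
    rw [boxNZ_box2_add_right, map_add, hx, hy, map_add, mul_add]
  · intro c x hx
    rw [boxNZ_box2_smul_right, map_smul, hx, map_smul, mul_smul_comm]
  intro v
  rw [box2_pureT, tr_pureT, tr_pureT, tr_pureT, Fin.prod_univ_add]
  congr 1
  · exact Finset.prod_congr rfl fun s _ => by rw [Fin.append_left]
  · exact Finset.prod_congr rfl fun s _ => by rw [Fin.append_right]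

/-- If `a` and `b` are elements of `algSpan` (or arbitrary) and not zero then `a ⊠ b ≠ 0`.

Proof.  By duality there are `u`, `v` with `Tr (a u) ≠ 0`, `Tr (b v) ≠ 0`.  As `b` is in
`algSpan`, `pull b` is central, so `(a ⊠ b) (u ⊠ v) = (a u) ⊠ (b v)`, and
`Tr (a' ⊠ b') = Tr a' * Tr b'` for all `a'`, `b'` (by `pure_induction` twice, `box2_pureT`,
`tr_pureT`, `Fin.prod_univ_add`). -/
lemma box2_ne_zero {X : 𝒱.Obj} {m m' : ℕ} {a : W.H (X.pow m)} {b : W.H (X.pow m')}
    (hb' : b ∈ W.algSpan _) (ha : a ≠ 0) (hb : b ≠ 0) : W.box2 a b ≠ 0 := by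
  obtain ⟨u, hu⟩ : ∃ u, W.tr _ (a * u) ≠ 0 := by
    by_contra hcon
    push Not at hcon
    exact ha (W.duality _ a hcon)
  obtain ⟨v, hv⟩ : ∃ v, W.tr _ (b * v) ≠ 0 := by
    by_contra hcon
    push Not at hcon
    exact hb (W.duality _ b hcon)
  intro h0
  have h1 : W.box2 a b * W.box2 u v = W.box2 (a * u) (b * v) := by
    unfold box2
    rw [map_mul, map_mul, mul_assoc, ← mul_assoc (W.pull _ b),
      W.central (W.pull_mem_algSpan _ hb'), mul_assoc, mul_assoc]
  have h2 := W.boxNZ_tr_box2 (a * u) (b * v)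
  rw [← h1, h0, zero_mul, map_zero] at h2
  exact mul_ne_zero hu hv h2.symm

lemma boxNZ_list {R : Type*} [Ring R] (N : ℕ) (f g : Fin N → R)
    (hf : ∀ k x, f k * x = x * f k) :
    (List.ofFn f).prod * (List.ofFn g).prod = (List.ofFn fun k => f k * g k).prod := by
  induction N with
  | zero => simp
  | succ N ih =>
    rw [List.ofFn_succ, List.ofFn_succ, List.ofFn_succ, List.prod_cons, List.prod_cons,
      List.prod_cons, ← ih (fun k => f k.succ) (fun k => g k.succ) fun k => hf k.succ]
    have hc : Commute (List.ofFn fun k => f (Fin.succ k)).prod (g 0) := by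
      refine Commute.list_prod_left _ _ fun x hx => ?_
      obtain ⟨k, rfl⟩ := (List.mem_ofFn' _ _).1 hx
      exact hf k.succ _
    rw [mul_assoc, ← mul_assoc _ (g 0), hc.eq, mul_assoc, mul_assoc]

lemma boxNZ_box_mul {X : 𝒱.Obj} {N m : ℕ} {Z U : Fin N → W.H (X.pow m)}
    (h : ∀ k, Z k ∈ W.algSpan _) : W.box Z * W.box U = W.box fun k => Z k * U k := by
  unfold box
  rw [boxNZ_list]
  · congr 2
    funext k
    rw [map_mul]
  · intro k x
    exact W.central (W.pull_mem_algSpan _ (h k)) x

/-- the product of the traces as a multilinear map -/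
def boxNZ_trM (X : 𝒱.Obj) (N m : ℕ) :
    MultilinearMap K (fun _ : Fin N => W.H (X.pow m)) K :=
  (MultilinearMap.mkPiAlgebra K (Fin N) K).compLinearMap fun _ => W.tr (X.pow m)

lemma boxNZ_trM_apply {X : 𝒱.Obj} {N m : ℕ} (Z : Fin N → W.H (X.pow m)) :
    W.boxNZ_trM X N m Z = ∏ k, W.tr _ (Z k) := by
  simp [boxNZ_trM]

lemma boxNZ_tr_box {X : 𝒱.Obj} {N m : ℕ} (Z : Fin N → W.H (X.pow m)) :
    W.tr _ (W.box Z) = ∏ k, W.tr _ (Z k) := by
  classical
  have key : ∀ s : Finset (Fin N), ∀ Z : Fin N → W.H (X.pow m),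
      (∀ k, k ∉ s → ∃ u, Z k = W.pureT u) →
        W.tr _ (W.boxM X N m Z) = W.boxNZ_trM X N m Z := by
    intro s
    induction s using Finset.induction_on with
    | empty =>
      intro Z hZ
      choose u hu using fun k => hZ k (Finset.notMem_empty k)
      have hZu : Z = fun k => W.pureT (u k) := funext hu
      rw [boxM_apply, boxNZ_trM_apply, hZu, box_pureT, tr_pureT,
        Equiv.prod_comp finProdFinEquiv.symm fun p : Fin N × Fin m => W.tr X (u p.1 p.2),
        Fintype.prod_prod_type]
      exact Finset.prod_congr rfl fun k _ => (W.tr_pureT (u k)).symm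
    | insert i s hi ih =>
      intro Z hZ
      have h1 : ∀ a : W.H (X.pow m), W.tr _ (W.boxM X N m (Function.update Z i a)) =
          W.boxNZ_trM X N m (Function.update Z i a) := by
        intro a
        refine W.pure_induction (P := fun a => W.tr _ (W.boxM X N m (Function.update Z i a)) =
          W.boxNZ_trM X N m (Function.update Z i a)) ?_ ?_ ?_ a
        · intro x y hx hy
          rw [MultilinearMap.map_update_add, MultilinearMap.map_update_add, map_add, hx, hy]
        · intro c x hx
          rw [MultilinearMap.map_update_smul, MultilinearMap.map_update_smul, map_smul, hx]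
        · intro v
          refine ih _ fun k hk => ?_
          by_cases hki : k = i
          · subst hki
            exact ⟨v, Function.update_self _ _ _⟩
          · rw [Function.update_of_ne hki]
            exact hZ k fun h => (Finset.mem_insert.1 h).elim hki hk
      have := h1 (Z i)
      rwa [Function.update_eq_self] at this
  have h2 := key Finset.univ Z fun k hk => absurd (Finset.mem_univ k) hk
  rwa [boxM_apply, boxNZ_trM_apply] at h2

/-- A product of nonzero algebraic classes is not zero.  Proof: for `W.box (fun _ => z)`, induction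
on `N`; or directly as in `box2_ne_zero`: choose `u k` with `Tr (Z k * u k) ≠ 0`; as the `Z k` are
central, `box Z * box u = box (Z * u)`, and `Tr (box Z') = ∏ Tr (Z' k)` (both sides are
multilinear: it is enough to check it on `pureT`s, `box_pureT`, `tr_pureT`). -/
lemma box_ne_zero {X : 𝒱.Obj} {N m : ℕ} {Z : Fin N → W.H (X.pow m)} (h : ∀ k, Z k ∈ W.algSpan _)
    (h0 : ∀ k, Z k ≠ 0) : W.box Z ≠ 0 := by
  have hex : ∀ k, ∃ u, W.tr _ (Z k * u) ≠ 0 := by
    intro k
    by_contra hcon
    push Not at hcon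
    exact h0 k (W.duality _ (Z k) hcon)
  choose u hu using hex
  intro hz
  have h2 := W.boxNZ_tr_box fun k => Z k * u k
  rw [← W.boxNZ_box_mul h, hz, zero_mul, map_zero] at h2
  exact Finset.prod_ne_zero_iff.2 (fun k _ => hu k) h2.symm

end Weil

end Pool.Agent.WeilH_h6
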