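import Pool.Agent.WeilH_h6.NT

set_option autoImplicit false

/-!
# Reduction to the word parts, if `H(X)` is generated by the pieces
-/

noncomputable section

namespace Pool.Agent.WeilH_h6

open AlgebraicGeometry CategoryTheory MonoidalCategory
open scoped TensorProduct DirectSum
open VarClass

universe u v w

/-- A multilinear form which does not vanish does not vanish on some family of elements of a
spanning set.

Proof.  Show by induction on the finset `s` of indices `j` for which `v j ∉ S`: if `f` vanishes on
all families in `S` then `f v = 0` (write `v j` as a combination of elements of `S`, span induction,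
`MultilinearMap.map_update_add`, `map_update_smul`, `map_update_zero`). -/
lemma multilinear_exists {K V : Type*} [Field K] [AddCommGroup V] [Module K V] {m : ℕ}
    (f : MultilinearMap K (fun _ : Fin m => V) K) (S : Set V) (hS : Submodule.span K S = ⊤)
    (v : Fin m → V) (hv : f v ≠ 0) : ∃ v' : Fin m → V, (∀ s, v' s ∈ S) ∧ f v' ≠ 0 := by
  by_contra hcon
  push Not at hcon
  let b := Module.Basis.ofSpan hS.ge
  have hb : ∀ i, b i ∈ S := fun i => Module.Basis.ofSpan_subset hS.ge ⟨i, rfl⟩
  have h0 : f = 0 := by
    refine Module.Basis.ext_multilinear (fun _ => b) fun w => ?_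
    exact hcon _ fun s => hb _
  apply hv
  rw [h0]
  rfl

namespace Weil

variable {k : Type u} [Field k] {𝒱 : VarClass k} {K : Type v} [Field K] (W : Weil.{u, v, w} 𝒱 K)

/-- The product class of products is the pull-back of a product class along a small diagonal.

Proof.  Consider the list `Λ = (List.ofFn fun s => (L s).map (Prod.mk s)).flatten` of pairs, take
`M = Λ.length`, `f j = (Λ.get j).1`, `u j = (Λ.get j).2`.  By `pull_pureT` and `Obj.sel_proj` the left
hand side is the product of the list `List.ofFn fun j => W.pull (Obj.proj X m (f j)) (u j)`, which is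
`Λ.map fun p => W.pull (Obj.proj X m p.1) p.2` (`List.ofFn_get` type lemmas), and the right hand side
is the product over `s` of `W.pull (Obj.proj X m s) (L s).prod` (`map_list_prod`,
`List.prod_flatten`). -/
lemma exists_sel_diag {X : 𝒱.Obj} {m : ℕ} (L : Fin m → List (W.H X)) :
    ∃ (M : ℕ) (f : Fin M → Fin m) (u : Fin M → W.H X), (∀ j, u j ∈ L (f j)) ∧
      W.pull (Obj.sel X f) (W.pureT u) = W.pureT fun s => (L s).prod := by
  let Λ : List (Fin m × W.H X) := (List.ofFn fun s => (L s).map (Prod.mk s)).flatten
  let g : Fin m × W.H X → W.H (X.pow m) := fun p => W.pull (Obj.proj X m p.1) p.2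
  refine ⟨Λ.length, fun j => (Λ.get j).1, fun j => (Λ.get j).2, fun j => ?_, ?_⟩
  · have h1 : Λ.get j ∈ Λ := List.get_mem _ _
    obtain ⟨l, hl, h2⟩ := List.mem_flatten.1 h1
    obtain ⟨s, rfl⟩ := (List.mem_ofFn' _ _).1 hl
    obtain ⟨x, hx, h3⟩ := List.mem_map.1 h2
    show (Λ.get j).2 ∈ L (Λ.get j).1
    rw [← h3]
    exact hx
  · rw [pull_pureT]
    have h1 : (List.ofFn fun j : Fin Λ.length => W.pull (Obj.sel X (fun j => (Λ.get j).1) ≫
        Obj.proj X Λ.length j) (Λ.get j).2) = Λ.map g := by
      have h2 : Λ.map g = List.ofFn (g ∘ Λ.get) := by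
        rw [← List.map_ofFn, List.ofFn_get]
      rw [h2]
      congr 1
      funext j
      rw [Obj.sel_proj]
      rfl
    rw [h1]
    unfold pureT
    show (((List.ofFn fun s => (L s).map (Prod.mk s)).flatten).map g).prod = _
    rw [List.map_flatten, List.prod_flatten, List.map_map, List.map_ofFn]
    congr 2
    funext s
    show (((L s).map (Prod.mk s)).map g).prod = W.pull (Obj.proj X m s) (L s).prod
    rw [map_list_prod, List.map_map]
    rfl

end Weil

end Pool.Agent.WeilH_h6
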