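import Pool.Agent.WeilH_h6.Adj
import Pool.Agent.WeilH_h6.GenA

set_option autoImplicit false

/-!
# Symmetries and the matrices of algebraic classes (reduction to the word parts)
-/

noncomputable section

namespace Pool.Agent.WeilH_h6

open AlgebraicGeometry CategoryTheory MonoidalCategory
open scoped TensorProduct DirectSum
open VarClass

universe u v w

namespace Weil

variable {k : Type u} [Field k] {𝒱 : VarClass k} {K : Type v} [Field K] (W : Weil.{u, v, w} 𝒱 K)

variable {W}

namespace Pieces

variable {X : 𝒱.Obj} {I : Type} (P : W.Pieces X I)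

/-- If `H(X)` is generated by the pieces and there is no nonzero numerically trivial class in the
parts `V_{i_1}^∨ ⊗ ⋯ ⊗ V_{i_M}^∨`, then there is no nonzero numerically trivial element of `algSpan` on any
power of `X`.

Proof.  Suppose `NT a`, `a ≠ 0`.  By `duality` and `pure_induction` there is `v` with
`tr (a * pureT v) ≠ 0`.  By `multilinear_exists` (for `pureM` composed with `b ↦ tr (a * b)`) and
`Algebra.adjoin_eq_span` one can take `v s` in `Submonoid.closure (⋃ i, range (P.p i))`, hence
`v s = (L s).prod` with the elements of the list `L s` in `⋃ i, range (P.p i)`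
(`Submonoid.exists_list_of_mem_closure`).  With `exists_sel_diag` and `exists_push` for `sel X f`
(push-forward `φ`) one has `tr (φ a * pureT u) = tr (a * pull (sel X f) (pureT u)) ≠ 0`; here
`u j = P.p (i j) (u j)` for suitable `i j`.  By `powMap_pureT` and `powMap_proj_adj` (for
`l j = (i j, false)`, whose dual letter is `(i j, true)`)
`tr (powMap (fun j => P.proj (i j, false)) (φ a) * pureT u) = tr (φ a * pureT u) ≠ 0`.  So
`powMap .. (φ a)` is a nonzero element of `wordPart (fun j => (i j, false))`, and it is numerically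
trivial by `NT.algHom` (twice).  Contradiction. -/
lemma nt_eq_zero_of_words [CharZero K]
    (hgen : Algebra.adjoin K (⋃ i, (LinearMap.range (P.p i) : Set (W.H X))) = ⊤)
    (h : ∀ (M : ℕ) (l : Fin M → I × Bool) (z : W.H (X.pow M)), z ∈ P.wordPart l → W.NT z → z = 0)
    {m : ℕ} {a : W.H (X.pow m)} (ha : W.NT a) : a = 0 := by
  by_contra hne
  -- a product class which detects `a`
  obtain ⟨v, hv⟩ : ∃ v : Fin m → W.H X, W.tr (X.pow m) (a * W.pureT v) ≠ 0 := by
    by_contra hcon
    push Not at hcon
    apply hne
    refine W.duality _ a fun b => ?_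
    refine W.pure_induction (P := fun b => W.tr (X.pow m) (a * b) = 0) ?_ ?_ hcon b
    · intro b b' hb hb'; rw [mul_add, map_add, hb, hb', add_zero]
    · intro c b hb; rw [mul_smul_comm, map_smul, hb, smul_zero]
  -- take it in the submonoid generated by the pieces
  have hS : Submodule.span K ((Submonoid.closure
      (⋃ i, (LinearMap.range (P.p i) : Set (W.H X))) : Submonoid (W.H X)) : Set (W.H X)) = ⊤ := by
    rw [← Algebra.adjoin_eq_span, hgen, Algebra.top_toSubmodule]
  obtain ⟨v', hv'S, hv'⟩ := multilinear_exists
    ((W.tr (X.pow m) ∘ₗ LinearMap.mulLeft K a).compMultilinearMap (W.pureM X m)) _ hS v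
    (by simpa using hv)
  replace hv' : W.tr (X.pow m) (a * W.pureT v') ≠ 0 := by simpa using hv'
  have hL : ∀ s, ∃ l : List (W.H X), (∀ y ∈ l, y ∈ ⋃ i, (LinearMap.range (P.p i) : Set (W.H X))) ∧
      l.prod = v' s := fun s => Submonoid.exists_list_of_mem_closure (hv'S s)
  choose L hL1 hL2 using hL
  obtain ⟨M, f, u, hu, hpull⟩ := W.exists_sel_diag L
  have hLv : (fun s => (L s).prod) = v' := funext hL2
  rw [hLv] at hpull
  have hi : ∀ j, ∃ i, u j ∈ LinearMap.range (P.p i) := by
    intro j
    have := hL1 (f j) (u j) (hu j)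
    rw [Set.mem_iUnion] at this
    exact this
  choose i hi using hi
  obtain ⟨φ, hφ, hφ'⟩ := W.exists_push (Obj.sel X f)
  have hz0 : W.powMap M (fun s => P.proj (i s, false)) (φ a) = 0 :=
    h M (fun s => (i s, false)) _ (P.powMap_proj_mem (fun s => (i s, false)) (φ a))
      ((ha.algHom W hφ).algHom W (W.powMap_mem_algHom fun s => P.proj_mem _))
  have h1 := P.powMap_proj_adj (fun s => (i s, false)) (φ a) (W.pureT u)
  rw [hz0, zero_mul, map_zero, W.powMap_pureT] at h1
  have h2 : (fun s => P.proj (i s, !false) (u s)) = u := by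
    funext s
    apply P.proj_eq_self
    simpa [letter] using hi s
  rw [h2, hφ', hpull] at h1
  exact hv' h1.symm

end Pieces

end Weil

end Pool.Agent.WeilH_h6
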