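import Pool.Agent.WeilH_h6.NT

set_option autoImplicit false

/-!
# External products of classes on powers of `X`
-/

noncomputable section

namespace Pool.Agent.WeilH_h6

open AlgebraicGeometry CategoryTheory MonoidalCategory
open scoped TensorProduct DirectSum
open VarClass

universe u v w

namespace Weil

variable {k : Type u} [Field k] {𝒱 : VarClass k} {K : Type v} [Field K] (W : Weil.{u, v, w} 𝒱 K)

/-- The external product of two classes. -/
def box2 {X : 𝒱.Obj} {m m' : ℕ} (a : W.H (X.pow m)) (b : W.H (X.pow m')) : W.H (X.pow (m + m')) :=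
  W.pull (Obj.sel X (Fin.castAdd m')) a * W.pull (Obj.sel X (Fin.natAdd m)) b

/-- By `pull_pureT`, `Obj.sel_proj`, `List.ofFn_fin_append` (or `List.ofFn_add`). -/
lemma box2_pureT {X : 𝒱.Obj} {m m' : ℕ} (u : Fin m → W.H X) (v : Fin m' → W.H X) :
    W.box2 (W.pureT u) (W.pureT v) = W.pureT (Fin.append u v) := by
  unfold box2
  rw [W.pull_pureT, W.pull_pureT, ← List.prod_append]
  simp only [Obj.sel_proj]
  rw [← List.ofFn_fin_append]
  unfold pureT
  congr 2
  funext s
  refine Fin.addCases (fun i => ?_) (fun i => ?_) s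
  · rw [Fin.append_left, Fin.append_left]
  · rw [Fin.append_right, Fin.append_right]

lemma box2_mem {X : 𝒱.Obj} {m m' : ℕ} {a : W.H (X.pow m)} {b : W.H (X.pow m')}
    (ha : a ∈ W.algSpan _) (hb : b ∈ W.algSpan _) : W.box2 a b ∈ W.algSpan _ :=
  W.mul_mem_algSpan (W.pull_mem_algSpan _ ha) (W.pull_mem_algSpan _ hb)

lemma NT.box2 {X : 𝒱.Obj} {m m' : ℕ} {a : W.H (X.pow m)} {b : W.H (X.pow m')}
    (ha : W.NT a) (hb : b ∈ W.algSpan _) : W.NT (W.box2 a b) :=
  (ha.pull W _).mul W (W.pull_mem_algSpan _ hb)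

/-- The external product of `N` classes on `X^m` (the factors are numbered lexicographically by
`finProdFinEquiv : Fin N × Fin m ≃ Fin (N * m)`). -/
def box {X : 𝒱.Obj} {N m : ℕ} (Z : Fin N → W.H (X.pow m)) : W.H (X.pow (N * m)) :=
  (List.ofFn fun k => W.pull (Obj.sel X fun s => finProdFinEquiv (k, s)) (Z k)).prod

/-- `box` as a multilinear map (`MultilinearMap.mkPiAlgebraFin` composed with the pull-backs). -/
def boxM (X : 𝒱.Obj) (N m : ℕ) :
    MultilinearMap K (fun _ : Fin N => W.H (X.pow m)) (W.H (X.pow (N * m))) :=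
  (MultilinearMap.mkPiAlgebraFin K N (W.H (X.pow (N * m)))).compLinearMap
    fun k => (W.pull (Obj.sel X fun s => finProdFinEquiv (k, s))).toLinearMap

@[simp] lemma boxM_apply {X : 𝒱.Obj} {N m : ℕ} (Z : Fin N → W.H (X.pow m)) :
    W.boxM X N m Z = W.box Z := by
  simp [boxM, box]

/-- By `pull_pureT`, `Obj.sel_proj` and `List.ofFn_mul` (`finProdFinEquiv (k, s)` has the value
`s + m * k`), `List.prod_flatten`. -/
lemma box_pureT {X : 𝒱.Obj} {N m : ℕ} (u : Fin N → Fin m → W.H X) :
    W.box (fun k => W.pureT (u k)) =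
      W.pureT fun j => u (finProdFinEquiv.symm j).1 (finProdFinEquiv.symm j).2 := by
  unfold box
  have h1 : (fun k => W.pull (Obj.sel X fun s => finProdFinEquiv (k, s)) (W.pureT (u k))) =
      fun k => (List.ofFn fun s => W.pull (Obj.proj X (N * m) (finProdFinEquiv (k, s)))
        (u k s)).prod := by
    funext k
    rw [W.pull_pureT]
    simp only [Obj.sel_proj]
  rw [h1]
  unfold pureT
  rw [List.ofFn_mul, List.prod_flatten, List.map_ofFn]
  congr 2
  funext k
  simp only [Function.comp_apply]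
  congr 2
  funext s
  have h2 : ∀ h : (k : ℕ) * m + (s : ℕ) < N * m,
      (⟨(k : ℕ) * m + (s : ℕ), h⟩ : Fin (N * m)) = finProdFinEquiv (k, s) := by
    intro h
    apply Fin.ext
    simp only [finProdFinEquiv_apply_val]
    ring
  rw [h2, Equiv.symm_apply_apply]

lemma box_list_prod_mem {Y : 𝒱.Obj} (l : List (W.H Y)) (h : ∀ x ∈ l, x ∈ W.algSpan Y) :
    l.prod ∈ W.algSpan Y := by
  induction l with
  | nil => rw [List.prod_nil]; exact W.one_mem_algSpan Y
  | cons a l ih =>
    rw [List.prod_cons]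
    exact W.mul_mem_algSpan (h a (by simp)) (ih fun x hx => h x (by simp [hx]))

/-- By induction on the list, `mul_mem_algSpan`. -/
lemma box_mem {X : 𝒱.Obj} {N m : ℕ} {Z : Fin N → W.H (X.pow m)} (h : ∀ k, Z k ∈ W.algSpan _) :
    W.box Z ∈ W.algSpan _ := by
  unfold box
  refine W.box_list_prod_mem _ fun x hx => ?_
  obtain ⟨k, rfl⟩ := (List.mem_ofFn' _ _).1 hx
  exact W.pull_mem_algSpan _ (h k)

/-- If all factors are algebraic and the first one is numerically trivial (`N ≥ 1`) then the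
product is numerically trivial. -/
lemma NT.box {X : 𝒱.Obj} {N m : ℕ} {Z : Fin (N + 1) → W.H (X.pow m)} (h : ∀ k, W.NT (Z k)) :
    W.NT (W.box Z) := by
  unfold Weil.box
  rw [List.ofFn_succ, List.prod_cons]
  refine ((h 0).pull W _).mul W (W.box_list_prod_mem _ fun x hx => ?_)
  obtain ⟨k, rfl⟩ := (List.mem_ofFn' _ _).1 hx
  exact W.pull_mem_algSpan _ (h k.succ).1

end Weil

end Pool.Agent.WeilH_h6
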