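import Mathlib

set_option autoImplicit false

/-!
# The Koszul sign
-/

namespace Pool.Agent.WeilH_h6

theorem Koszul_adj {A : Type*} [Ring A] : ∀ (n : ℕ) (i : Fin n) (x : Fin (n + 1) → A) (ε : A),
    (∀ a, ε * a = a * ε) → x i.succ * x i.castSucc = ε * (x i.castSucc * x i.succ) →
    (List.ofFn (x ∘ Equiv.swap i.castSucc i.succ)).prod = ε * (List.ofFn x).prod := by
  intro n
  induction n with
  | zero => intro i; exact i.elim0
  | succ n ih =>
    intro i x ε hε h
    induction i using Fin.cases with
    | zero =>
      have e1 : (0 : Fin (n + 1)).castSucc = 0 := rfl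
      have e2 : ∀ k : Fin n, Equiv.swap (0 : Fin (n + 1)).castSucc (0 : Fin (n + 1)).succ k.succ.succ =
          k.succ.succ := by
        intro k
        refine Equiv.swap_apply_of_ne_of_ne (Fin.succ_ne_zero _) ?_
        intro hh
        exact Fin.succ_ne_zero k (Fin.succ_injective _ hh)
      rw [List.ofFn_succ, List.ofFn_succ, List.ofFn_succ (f := x), List.ofFn_succ (f := fun i => x i.succ)]
      simp only [List.prod_cons, Function.comp_apply]
      have e3 : Equiv.swap (0 : Fin (n + 1)).castSucc (0 : Fin (n + 1)).succ 0 = (0 : Fin (n + 1)).succ :=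
        Equiv.swap_apply_left _ _
      have e4 : Equiv.swap (0 : Fin (n + 1)).castSucc (0 : Fin (n + 1)).succ (0 : Fin (n + 1)).succ = 0 :=
        Equiv.swap_apply_right _ _
      rw [e3, e4]
      have e5 : (fun i : Fin n => x (Equiv.swap (0 : Fin (n + 1)).castSucc (0 : Fin (n + 1)).succ i.succ.succ)) =
          fun i : Fin n => x i.succ.succ := by
        funext k
        rw [e2]
      rw [e5, ← mul_assoc]
      rw [e1] at h
      rw [h, mul_assoc, mul_assoc]
    | succ j =>
      have e0 : (j.succ).castSucc = (j.castSucc).succ := rfl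
      rw [e0] at h ⊢
      rw [List.ofFn_succ, List.ofFn_succ (f := x)]
      simp only [List.prod_cons, Function.comp_apply]
      have e3 : Equiv.swap (j.castSucc).succ (j.succ).succ 0 = 0 :=
        Equiv.swap_apply_of_ne_of_ne (Fin.succ_ne_zero _).symm (Fin.succ_ne_zero _).symm
      have e4 : (fun i : Fin (n + 1) => x (Equiv.swap (j.castSucc).succ (j.succ).succ i.succ)) =
          (fun i => x i.succ) ∘ Equiv.swap j.castSucc j.succ := by
        funext k
        rw [(Fin.succ_injective (n + 1)).swap_apply]
        rfl
      rw [e3, e4, ih j (fun i => x i.succ) ε hε h, ← mul_assoc, ← hε, mul_assoc]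

/-- Permuting the factors of a product of elements which commute up to the signs
`(-1) ^ (π s * π t)` changes the product by a sign which depends only on `π` and the permutation.

Proof.  Induction on the permutation (`Equiv.Perm.mclosure_swap_castSucc_succ`: the adjacent
transpositions generate) with `P σ := ∀ π, ∃ ε, ∀ x, ...`.  For `σ * τ`: `x ∘ (σ * τ) = (x ∘ σ) ∘ τ`
and `x ∘ σ` satisfies the commutation relations for `π ∘ σ`.  For an adjacent transposition:
induction on `m` with `List.ofFn_succ'` (the last factors); if the transposition exchanges the last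
two factors use the relation, otherwise it fixes the last factor. -/
theorem koszul {A : Type*} [Ring A] (m : ℕ) (σ : Equiv.Perm (Fin m)) (π : Fin m → ℕ) :
    ∃ ε : ℤ, (ε = 1 ∨ ε = -1) ∧ ∀ x : Fin m → A,
      (∀ s t, s ≠ t → x s * x t = (-1 : A) ^ (π s * π t) * (x t * x s)) →
      (List.ofFn (x ∘ σ)).prod = (ε : A) * (List.ofFn x).prod := by
  cases m with
  | zero =>
    refine ⟨1, Or.inl rfl, fun x _ => ?_⟩
    simp
  | succ n =>
    have hσ : σ ∈ Submonoid.closure (Set.range fun i : Fin n => Equiv.swap i.castSucc i.succ) := by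
      rw [Equiv.Perm.mclosure_swap_castSucc_succ]
      exact Submonoid.mem_top σ
    revert π
    induction hσ using Submonoid.closure_induction with
    | mem τ hτ =>
      obtain ⟨i, rfl⟩ := hτ
      intro π
      refine ⟨(-1) ^ (π i.succ * π i.castSucc), ?_, fun x hx => ?_⟩
      · exact neg_one_pow_eq_or ℤ _
      · have h := Koszul_adj n i x ((-1 : A) ^ (π i.succ * π i.castSucc)) (fun a => by
          exact ((Commute.neg_one_left a).pow_left _).eq) (hx _ _ (by
            intro hh
            have := congrArg Fin.val hh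
            simp at this))
        rw [h]
        push_cast
        rfl
    | one =>
      intro π
      refine ⟨1, Or.inl rfl, fun x _ => ?_⟩
      rw [Int.cast_one, one_mul]
      rfl
    | mul σ τ _ _ hσ hτ =>
      intro π
      obtain ⟨ε1, h1, h2⟩ := hσ π
      obtain ⟨ε2, h3, h4⟩ := hτ (π ∘ σ)
      refine ⟨ε2 * ε1, ?_, fun x hx => ?_⟩
      · rcases h1 with rfl | rfl <;> rcases h3 with rfl | rfl <;> simp
      · have h5 := h4 (x ∘ σ) (fun s t hst => hx (σ s) (σ t) fun hh => hst (σ.injective hh))
        have h6 : x ∘ (σ * τ : Equiv.Perm (Fin (n + 1))) = (x ∘ σ) ∘ τ := rfl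
        rw [h6, h5, h2 x hx, Int.cast_mul, mul_assoc]

end Pool.Agent.WeilH_h6
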