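import Pool.Agent.WeilH_h6.NT
import Pool.Agent.WeilH_h6.Koszul

set_option autoImplicit false

/-!
# Permutation of the factors of `X^m`
-/

noncomputable section

namespace Pool.Agent.WeilH_h6

open AlgebraicGeometry CategoryTheory MonoidalCategory
open scoped TensorProduct DirectSum
open VarClass

universe u v w

namespace Weil

variable {k : Type u} [Field k] {𝒱 : VarClass k} {K : Type v} [Field K] (W : Weil.{u, v, w} 𝒱 K)

/-- The pull-back of a product class along a permutation of the factors, up to a sign which depends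
only on the parities.

Proof.  `m = M` (cardinality), `subst`.  By `pull_pureT` and `Obj.sel_proj` the left hand side is
`(List.ofFn fun s => q_{e s}^* (v s)).prod = (List.ofFn (x ∘ e)).prod` with
`x t = q_t^* (v (e.symm t))`; apply `koszul` (with `π ∘ e.symm`); the relations for `x` are
`supercomm` together with `par_pull`. -/
lemma pull_sel_pureT [CharZero K] {X : 𝒱.Obj} {m M : ℕ} (e : Fin m ≃ Fin M) (π : Fin m → ℕ) :
    ∃ ε : K, (ε = 1 ∨ ε = -1) ∧ ∀ v : Fin m → W.H X,
      (∀ s, W.par X (v s) = ((-1 : K) ^ (π s)) • v s) →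
      W.pull (Obj.sel X e) (W.pureT v) = ε • W.pureT fun t => v (e.symm t) := by
  have hmM : m = M := by simpa using Fintype.card_congr e
  subst hmM
  obtain ⟨ε, hε, hk⟩ := koszul (A := W.H (X.pow m)) m e fun t => π (e.symm t)
  refine ⟨(ε : K), ?_, fun v hv => ?_⟩
  · rcases hε with rfl | rfl <;> simp
  · have h1 := hk (fun t => W.pull (Obj.proj X m t) (v (e.symm t))) (fun s t _ => by
      have h := W.supercomm (x := W.pull (Obj.proj X m s) (v (e.symm s)))
        (y := W.pull (Obj.proj X m t) (v (e.symm t))) (i := π (e.symm s)) (j := π (e.symm t))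
        (by rw [W.par_pull, hv, map_smul]) (by rw [W.par_pull, hv, map_smul])
      rw [h]
      rcases Nat.even_or_odd (π (e.symm s) * π (e.symm t)) with h' | h'
      · rw [h'.neg_one_pow, h'.neg_one_pow, one_mul, one_smul]
      · rw [h'.neg_one_pow, h'.neg_one_pow, neg_one_mul, neg_one_smul])
    have h2 : W.pull (Obj.sel X e) (W.pureT v) =
        (List.ofFn ((fun t => W.pull (Obj.proj X m t) (v (e.symm t))) ∘ e)).prod := by
      rw [W.pull_pureT]
      congr 2
      funext s
      rw [Obj.sel_proj, Function.comp_apply, Equiv.symm_apply_apply]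
    rw [h2, h1]
    rcases hε with rfl | rfl
    · rw [Int.cast_one, Int.cast_one, one_mul, one_smul]
      rfl
    · rw [Int.cast_neg, Int.cast_neg, Int.cast_one, Int.cast_one, neg_one_mul, neg_one_smul]
      rfl

/-- Permutations of the factors act injectively (`sel e` is an isomorphism with inverse
`sel e.symm`; use `pow_hom_ext`). -/
lemma pull_sel_injective {X : 𝒱.Obj} {m M : ℕ} (e : Fin m ≃ Fin M) {a : W.H (X.pow m)}
    (h : W.pull (Obj.sel X e) a = 0) : a = 0 := by
  have h1 : Obj.sel X e.symm ≫ Obj.sel X e = 𝟙 (X.pow m) := by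
    refine Obj.pow_hom_ext fun s => ?_
    rw [Category.assoc, Obj.sel_proj, Obj.sel_proj, Equiv.symm_apply_apply, Category.id_comp]
  rw [← W.pull_id (X.pow m) a, ← h1, W.pull_comp, h, map_zero]

end Weil

end Pool.Agent.WeilH_h6
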