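import Pool.Agent.WeilH_h6.Setup
import Pool.Agent.WeilH_h6.Sel
import Pool.Agent.WeilH_h6.Box

set_option autoImplicit false

/-!
# External products and permutations of classes in word parts
-/

noncomputable section

namespace Pool.Agent.WeilH_h6

open AlgebraicGeometry CategoryTheory MonoidalCategory
open scoped TensorProduct DirectSum
open VarClass

universe u v w

namespace Weil

variable {k : Type u} [Field k] {𝒱 : VarClass k} {K : Type v} [Field K] (W : Weil.{u, v, w} 𝒱 K)

/-- Proof: span induction in both variables, `box2_pureT`. -/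
lemma box2_mem_partOf {X : 𝒱.Obj} {m m' : ℕ} {U : Fin m → Submodule K (W.H X)}
    {U' : Fin m' → Submodule K (W.H X)} {a : W.H (X.pow m)} {b : W.H (X.pow m')}
    (ha : a ∈ W.partOf U) (hb : b ∈ W.partOf U') : W.box2 a b ∈ W.partOf (Fin.append U U') := by
  unfold partOf at ha hb
  induction ha using Submodule.span_induction with
  | mem a ha =>
    obtain ⟨u, hu, rfl⟩ := ha
    induction hb using Submodule.span_induction with
    | mem b hb =>
      obtain ⟨v, hv, rfl⟩ := hb
      rw [box2_pureT]
      refine Submodule.subset_span ⟨_, fun s => ?_, rfl⟩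
      refine Fin.addCases (fun i => ?_) (fun i => ?_) s
      · rw [Fin.append_left, Fin.append_left]; exact hu i
      · rw [Fin.append_right, Fin.append_right]; exact hv i
    | zero =>
      have h0 : W.box2 (W.pureT u) (0 : W.H (X.pow m')) = 0 := by
        unfold box2; rw [map_zero, mul_zero]
      rw [h0]; exact Submodule.zero_mem _
    | add b b' _ _ h h' =>
      have h0 : W.box2 (W.pureT u) (b + b') = W.box2 (W.pureT u) b + W.box2 (W.pureT u) b' := by
        unfold box2; rw [map_add, mul_add]
      rw [h0]; exact Submodule.add_mem _ h h'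
    | smul c b _ h =>
      have h0 : W.box2 (W.pureT u) (c • b) = c • W.box2 (W.pureT u) b := by
        unfold box2; rw [map_smul, mul_smul_comm]
      rw [h0]; exact Submodule.smul_mem _ _ h
  | zero =>
    have h0 : W.box2 (0 : W.H (X.pow m)) b = 0 := by
      unfold box2; rw [map_zero, zero_mul]
    rw [h0]; exact Submodule.zero_mem _
  | add a a' _ _ h h' =>
    have h0 : W.box2 (a + a') b = W.box2 a b + W.box2 a' b := by
      unfold box2; rw [map_add, add_mul]
    rw [h0]; exact Submodule.add_mem _ h h'
  | smul c a _ h =>
    have h0 : W.box2 (c • a) b = c • W.box2 a b := by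
      unfold box2; rw [map_smul, smul_mul_assoc]
    rw [h0]; exact Submodule.smul_mem _ _ h

/-- Proof: for `Z k = pureT (u k)` this is `box_pureT`; in general use multilinearity (`boxM`), for
instance by induction on the number of `k` for which `Z k` is not yet of this form
(`Function.update`, span induction), as in `boxNZ_tr_box`. -/
lemma box_mem_partOf {X : 𝒱.Obj} {N m : ℕ} {U : Fin m → Submodule K (W.H X)}
    {Z : Fin N → W.H (X.pow m)} (h : ∀ k, Z k ∈ W.partOf U) :
    W.box Z ∈ W.partOf fun j : Fin (N * m) => U (finProdFinEquiv.symm j).2 := by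
  classical
  have key : ∀ s : Finset (Fin N), ∀ Z : Fin N → W.H (X.pow m), (∀ k, Z k ∈ W.partOf U) →
      (∀ k, k ∉ s → ∃ u : Fin m → W.H X, (∀ t, u t ∈ U t) ∧ Z k = W.pureT u) →
        W.boxM X N m Z ∈ W.partOf fun j : Fin (N * m) => U (finProdFinEquiv.symm j).2 := by
    intro s
    induction s using Finset.induction_on with
    | empty =>
      intro Z _ hZ
      choose u hu using fun k => hZ k (Finset.notMem_empty k)
      have hZu : Z = fun k => W.pureT (u k) := funext fun k => (hu k).2
      rw [boxM_apply, hZu, box_pureT]
      exact Submodule.subset_span ⟨_, fun j => (hu _).1 _, rfl⟩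
    | insert i s hi ih =>
      intro Z hmem hZ
      have h1 : ∀ a : W.H (X.pow m), a ∈ W.partOf U → W.boxM X N m (Function.update Z i a) ∈
          W.partOf fun j : Fin (N * m) => U (finProdFinEquiv.symm j).2 := by
        intro a ha
        have ha' := ha
        unfold partOf at ha
        induction ha using Submodule.span_induction with
        | mem a ha2 =>
          obtain ⟨v, hv, rfl⟩ := ha2
          refine ih _ (fun k => ?_) fun k hk => ?_
          · by_cases hki : k = i
            · subst hki
              rw [Function.update_self]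
              exact ha'
            · rw [Function.update_of_ne hki]
              exact hmem k
          · by_cases hki : k = i
            · subst hki
              exact ⟨v, hv, Function.update_self _ _ _⟩
            · rw [Function.update_of_ne hki]
              exact hZ k fun h => (Finset.mem_insert.1 h).elim hki hk
        | zero =>
          rw [MultilinearMap.map_update_zero]
          exact Submodule.zero_mem _
        | add x y hx hy h h' =>
          rw [MultilinearMap.map_update_add]
          exact Submodule.add_mem _ (h hx) (h' hy)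
        | smul c x hx h =>
          rw [MultilinearMap.map_update_smul]
          exact Submodule.smul_mem _ _ (h hx)
      have h2 := h1 (Z i) (hmem i)
      rwa [Function.update_eq_self] at h2
  have h2 := key Finset.univ Z h fun k hk => absurd (Finset.mem_univ k) hk
  rwa [boxM_apply] at h2

/-- Proof: `pull_sel_pureT`, span induction. -/
lemma pull_sel_mem_partOf [CharZero K] {X : 𝒱.Obj} {m M : ℕ} (e : Fin m ≃ Fin M)
    {U : Fin m → Submodule K (W.H X)} (π : Fin m → ℕ)
    (hU : ∀ s, ∀ v ∈ U s, W.par X v = ((-1 : K) ^ (π s)) • v) {a : W.H (X.pow m)}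
    (ha : a ∈ W.partOf U) : W.pull (Obj.sel X e) a ∈ W.partOf fun t => U (e.symm t) := by
  obtain ⟨ε, -, hε⟩ := W.pull_sel_pureT (X := X) e π
  unfold partOf at ha
  induction ha using Submodule.span_induction with
  | mem a ha =>
    obtain ⟨v, hv, rfl⟩ := ha
    rw [hε v fun s => hU s _ (hv s)]
    exact Submodule.smul_mem _ _ (Submodule.subset_span ⟨_, fun t => hv _, rfl⟩)
  | zero => rw [map_zero]; exact Submodule.zero_mem _
  | add a b _ _ ha hb => rw [map_add]; exact Submodule.add_mem _ ha hb
  | smul c a _ ha => rw [map_smul]; exact Submodule.smul_mem _ _ ha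

variable {W}

namespace Pieces

variable {X : 𝒱.Obj} {I : Type} (P : W.Pieces X I)

lemma box2_mem_wordPart {m m' : ℕ} {l : Fin m → I × Bool} {l' : Fin m' → I × Bool}
    {a : W.H (X.pow m)} {b : W.H (X.pow m')} (ha : a ∈ P.wordPart l) (hb : b ∈ P.wordPart l') :
    W.box2 a b ∈ P.wordPart (Fin.append l l') := by
  have h := W.box2_mem_partOf ha hb
  unfold wordPart
  convert h using 2
  funext s
  refine Fin.addCases (fun i => ?_) (fun i => ?_) s
  · rw [Fin.append_left, Fin.append_left]
  · rw [Fin.append_right, Fin.append_right]

lemma box_mem_wordPart {N m : ℕ} {l : Fin m → I × Bool} {Z : Fin N → W.H (X.pow m)}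
    (h : ∀ k, Z k ∈ P.wordPart l) :
    W.box Z ∈ P.wordPart fun j : Fin (N * m) => l (finProdFinEquiv.symm j).2 :=
  W.box_mem_partOf (U := fun s => P.letter (l s)) h

lemma sel_mem_wordPart [CharZero K] {m M : ℕ} (e : Fin m ≃ Fin M) {l : Fin m → I × Bool}
    {a : W.H (X.pow m)} (ha : a ∈ P.wordPart l) :
    W.pull (Obj.sel X e) a ∈ P.wordPart fun t => l (e.symm t) :=
  W.pull_sel_mem_partOf e (U := fun s => P.letter (l s)) (fun s => P.n (l s).1)
    (fun s v hv => P.par_letter (l s) v hv) ha

end Pieces

end Weil

end Pool.Agent.WeilH_h6
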