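import Pool.Agent.WeilH_h6.Setup

set_option autoImplicit false

/-!
# Combinatorics of words
-/

namespace Pool.Agent.WeilH_h6

lemma Words_append_card {I : Type} {m m' : ℕ} (l : Fin m → I × Bool) (l' : Fin m' → I × Bool)
    (x : I × Bool) : Nat.card {s // Fin.append l l' s = x} =
      Nat.card {s // l s = x} + Nat.card {s // l' s = x} := by
  have e1 : {s // Fin.append l l' s = x} ≃ {t : Fin m ⊕ Fin m' // Sum.elim l l' t = x} :=
    (finSumFinEquiv.subtypeEquiv (by
      rintro (a | a)
      · rw [finSumFinEquiv_apply_left, Fin.append_left, Sum.elim_inl]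
      · rw [finSumFinEquiv_apply_right, Fin.append_right, Sum.elim_inr])).symm
  have e2 : {t : Fin m ⊕ Fin m' // Sum.elim l l' t = x} ≃ {s // l s = x} ⊕ {s // l' s = x} :=
    Equiv.subtypeSum
  rw [Nat.card_congr (e1.trans e2), Nat.card_sum]

lemma Words_box_card {I : Type} {N m : ℕ} (l : Fin m → I × Bool) (x : I × Bool) :
    Nat.card {j : Fin (N * m) // l (finProdFinEquiv.symm j).2 = x} =
      N * Nat.card {s // l s = x} := by
  have e1 : {j : Fin (N * m) // l (finProdFinEquiv.symm j).2 = x} ≃
      {t : Fin N × Fin m // l t.2 = x} :=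
    finProdFinEquiv.symm.subtypeEquiv (fun a => Iff.rfl)
  have e2 : {t : Fin N × Fin m // l t.2 = x} ≃ Fin N × {s // l s = x} :=
    { toFun := fun t => (t.1.1, ⟨t.1.2, t.2⟩)
      invFun := fun t => ⟨(t.1, t.2.1), t.2.2⟩
      left_inv := fun t => rfl
      right_inv := fun t => rfl }
  rw [Nat.card_congr (e1.trans e2), Nat.card_prod, Nat.card_eq_fintype_card, Fintype.card_fin]

/-- Proof: `finSumFinEquiv : Fin m ⊕ Fin m' ≃ Fin (m + m')` gives an equivalence
`{s // Fin.append l l' s = x} ≃ {s // l s = x} ⊕ {s // l' s = x}`; `Nat.card_sum`. -/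
lemma wdeg_append {I : Type} {m m' : ℕ} (l : Fin m → I × Bool) (l' : Fin m' → I × Bool) (i : I) :
    wdeg (Fin.append l l') i = wdeg l i + wdeg l' i := by
  unfold wdeg
  rw [Words_append_card, Words_append_card]
  push_cast
  ring

/-- Proof: `finProdFinEquiv` gives an equivalence `{j // l (..).2 = x} ≃ Fin N × {s // l s = x}`;
`Nat.card_prod`. -/
lemma wdeg_box {I : Type} {N m : ℕ} (l : Fin m → I × Bool) (i : I) :
    wdeg (fun j : Fin (N * m) => l (finProdFinEquiv.symm j).2) i = N * wdeg l i := by
  unfold wdeg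
  rw [Words_box_card, Words_box_card]
  push_cast
  ring

/-- A word of multidegree `0` can be rearranged in such a way that the letters of the first half are
`(w s, false)` and the letters of the second half are `(w s, true)`.

Proof.  Let `A = {s // (l s).2 = false}` and `B = {s // (l s).2 = true}`.  For each `i` the fibers of
`s ↦ (l s).1` over `i` in `A` and `B` have the same (finite) cardinality, so there is an equivalence
`f : A ≃ B` with `(l (f a)).1 = (l a).1` (`Equiv.sigmaFiberEquiv` twice and `Finite.card_eq` /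
`Fintype.equivOfCardEq` on the fibers).  Take `r = card A`, `g : Fin r ≃ A` (`Fintype.equivFin`),
`w s = (l (g s)).1` and for `e` the composition of `finSumFinEquiv.symm`, `g ⊕ (g.trans f)` and
`A ⊕ B ≃ Fin M` (`Equiv.sumCompl` type equivalence). -/
lemma sort_word {I : Type} {M : ℕ} (l : Fin M → I × Bool) (h : ∀ i, wdeg l i = 0) :
    ∃ (r : ℕ) (w : Fin r → I) (e : Fin (r + r) ≃ Fin M), ∀ s,
      l (e s) = Fin.append (fun s => (w s, false)) (fun s => (w s, true)) s := by
  classical
  let p : Fin M → Prop := fun s => (l s).2 = false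
  have hc : ∀ i : I, Nonempty ({a : {s // p s} // (l a.1).1 = i} ≃
      {b : {s // ¬ p s} // (l b.1).1 = i}) := by
    intro i
    have h1 := h i
    unfold wdeg at h1
    have e1 : {a : {s // p s} // (l a.1).1 = i} ≃ {s // l s = (i, false)} :=
      { toFun := fun a => ⟨a.1.1, Prod.ext a.2 a.1.2⟩
        invFun := fun s => ⟨⟨s.1, by show (l s.1).2 = false; rw [s.2]⟩, by
          show (l s.1).1 = i
          rw [s.2]⟩
        left_inv := fun a => rfl
        right_inv := fun a => rfl }
    have e2 : {b : {s // ¬ p s} // (l b.1).1 = i} ≃ {s // l s = (i, true)} :=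
      { toFun := fun a => ⟨a.1.1, Prod.ext a.2 (by
          have := a.1.2
          show (l a.1.1).2 = true
          simpa [p] using this)⟩
        invFun := fun s => ⟨⟨s.1, by
          show ¬ (l s.1).2 = false
          rw [s.2]
          simp⟩, by
          show (l s.1).1 = i
          rw [s.2]⟩
        left_inv := fun a => rfl
        right_inv := fun a => rfl }
    have h2 : Nat.card {a : {s // p s} // (l a.1).1 = i} =
        Nat.card {b : {s // ¬ p s} // (l b.1).1 = i} := by
      rw [Nat.card_congr e1, Nat.card_congr e2]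
      omega
    exact Finite.card_eq.1 h2
  let F := fun i => (hc i).some
  let f : {s // p s} ≃ {s // ¬ p s} :=
    ((Equiv.sigmaFiberEquiv (fun a : {s // p s} => (l a.1).1)).symm.trans
      (Equiv.sigmaCongrRight F)).trans
      (Equiv.sigmaFiberEquiv (fun b : {s // ¬ p s} => (l b.1).1))
  have hf : ∀ a, (l (f a).1).1 = (l a.1).1 := by
    intro a
    exact (F ((l a.1).1) ⟨a, rfl⟩).2
  let g : Fin (Fintype.card {s // p s}) ≃ {s // p s} := (Fintype.equivFin _).symm
  refine ⟨Fintype.card {s // p s}, fun s => (l (g s).1).1,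
    finSumFinEquiv.symm.trans ((Equiv.sumCongr g (g.trans f)).trans (Equiv.sumCompl p)), ?_⟩
  intro s
  obtain ⟨t, rfl⟩ := finSumFinEquiv.surjective s
  rcases t with t | t
  · rw [Equiv.trans_apply, Equiv.symm_apply_apply, finSumFinEquiv_apply_left, Fin.append_left]
    show l (g t).1 = ((l (g t).1).1, false)
    exact Prod.ext rfl (g t).2
  · rw [Equiv.trans_apply, Equiv.symm_apply_apply, finSumFinEquiv_apply_right, Fin.append_right]
    show l (f (g t)).1 = ((l (g t).1).1, true)
    refine Prod.ext (hf (g t)) ?_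
    have := (f (g t)).2
    simpa [p] using this

end Pool.Agent.WeilH_h6
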