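import Pool.Agent.WeilH_h6.ActMat
import Pool.Agent.WeilH_h6.PartsB
import Pool.Agent.WeilH_h6.Words
import Pool.Agent.WeilH_h6.Gen
import Pool.Agent.WeilH_h6.BoxNZ
import Pool.Agent.W_f569db_h69.Core

set_option autoImplicit false

/-!
# Numerically trivial classes in the word parts vanish
-/

noncomputable section

namespace Pool.Agent.WeilH_h6

open AlgebraicGeometry CategoryTheory MonoidalCategory
open scoped TensorProduct DirectSum
open VarClass

universe u v w

namespace Weil

variable {k : Type u} [Field k] {𝒱 : VarClass k} {K : Type v} [Field K] {W : Weil.{u, v, w} 𝒱 K}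

namespace Pieces

variable {X : 𝒱.Obj} {I : Type} (P : W.Pieces X I)

/-- A numerically trivial class in a part of degree `0`, of the sorted form, vanishes. -/
lemma sorted_eq_zero [CharZero K] [Fintype I] {S : Set (Module.End K (W.H X))} (hS : P.AbsIrr S) {r : ℕ}
    (w : Fin r → I) {z : W.H (X.pow (r + r))}
    (hz : z ∈ P.wordPart (Fin.append (fun s => (w s, false)) fun s => (w s, true)))
    (hnt : W.NT z) : z = 0 := by
  classical
  obtain ⟨B⟩ := P.exists_bases
  obtain ⟨x, hx, rfl⟩ := B.exists_mat w hz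
  by_contra hz0
  have hx0 : x ≠ 0 := by
    rintro rfl
    apply hz0
    simp [ofMat]
  -- the matrices of the symmetries
  have hmat : ∀ g : S, ∃ γ : (Matrix B.α B.α K)ˣ, γ ∈ H69.BG B.col K ∧
      (∀ a, (g : Module.End K (W.H X)) (B.b a) = ∑ a', (γ : Matrix B.α B.α K) a' a • B.b a') ∧
      H69.ten (Fin r) (γ : Matrix B.α B.α K) * x = x * H69.ten (Fin r) (γ : Matrix B.α B.α K) := by
    intro g
    obtain ⟨c, hc⟩ := hS.symm g g.2
    obtain ⟨γ, h1, h2, h3⟩ := B.exists_matrix hc (hS.comm g g.2)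
    exact ⟨γ, h1, h2, B.commute hc γ h1 h2 h3 w x hx hnt.1⟩
  choose γ hγ1 hγ2 hγ3 using hmat
  have hunit : ∀ a b, B.col a = B.col b → ∃ T ∈ Submodule.span K
      ((fun g : (Matrix B.α B.α K)ˣ => (g : Matrix B.α B.α K)) '' Set.range γ),
        ∀ a' b', B.col a' = B.col a → B.col b' = B.col a →
          T a' b' = if a' = a ∧ b' = b then 1 else 0 := by
    intro a b hab
    obtain ⟨T0, hT0, hT0'⟩ := hS.span (B.col a)
      ((W.tr X ∘ₗ LinearMap.mulLeft K (B.b' b)).smulRight (B.b a))
    have hind : ∃ T ∈ Submodule.span K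
        ((fun g : (Matrix B.α B.α K)ˣ => (g : Matrix B.α B.α K)) '' Set.range γ),
          ∀ a' b', B.col a' = B.col a → B.col b' = B.col a →
            T a' b' = W.tr X (B.b' a' * T0 (B.b b')) := by
      clear hT0'
      induction hT0 using Submodule.span_induction with
      | mem g hg =>
        refine ⟨_, Submodule.subset_span ⟨_, ⟨⟨g, hg⟩, rfl⟩, rfl⟩, fun a' b' ha' hb' => ?_⟩
        have h1 := hγ2 ⟨g, hg⟩ b'
        change g (B.b b') = _ at h1
        rw [h1, Finset.mul_sum, map_sum, Finset.sum_eq_single a']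
        · rw [mul_smul_comm, map_smul, B.dual a' a' rfl, if_pos rfl, smul_eq_mul, mul_one]
        · intro a'' _ hne
          rw [mul_smul_comm, map_smul]
          by_cases hcol : B.col a'' = B.col b'
          · rw [B.dual a' a'' (by rw [ha', hcol, hb']), if_neg (Ne.symm hne), smul_zero]
          · have : ((γ ⟨g, hg⟩ : (Matrix B.α B.α K)ˣ) : Matrix B.α B.α K) a'' b' = 0 := by
              by_contra h0
              exact hcol ((H69.mem_BG.1 (hγ1 ⟨g, hg⟩)).1 _ _ h0)
            rw [this, zero_smul]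
        · intro h; exact absurd (Finset.mem_univ _) h
      | zero => exact ⟨0, Submodule.zero_mem _, fun a' b' _ _ => by simp⟩
      | add T1 T2 _ _ h1 h2 =>
        obtain ⟨M1, hM1, hM1'⟩ := h1
        obtain ⟨M2, hM2, hM2'⟩ := h2
        refine ⟨M1 + M2, Submodule.add_mem _ hM1 hM2, fun a' b' ha' hb' => ?_⟩
        rw [Matrix.add_apply, hM1' a' b' ha' hb', hM2' a' b' ha' hb', LinearMap.add_apply, mul_add,
          map_add]
      | smul t T1 _ h1 =>
        obtain ⟨M1, hM1, hM1'⟩ := h1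
        refine ⟨t • M1, Submodule.smul_mem _ _ hM1, fun a' b' ha' hb' => ?_⟩
        rw [Matrix.smul_apply, hM1' a' b' ha' hb', LinearMap.smul_apply, mul_smul_comm, map_smul]
    obtain ⟨T, hT, hT'⟩ := hind
    refine ⟨T, hT, fun a' b' ha' hb' => ?_⟩
    rw [hT' a' b' ha' hb']
    have h2 : T0 (B.b b') = (if b = b' then (1 : K) else 0) • B.b a := by
      have h3 := hT0' (B.b b')
      rw [← hb', B.p_b b', hb'] at h3
      rw [h3, LinearMap.smulRight_apply, LinearMap.comp_apply, LinearMap.mulLeft_apply,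
        B.dual b b' (by rw [← hab, hb']), map_smul, B.p_b a]
    rw [h2, mul_smul_comm, map_smul, B.dual a' a ha', smul_eq_mul]
    by_cases h3 : b = b'
    · subst h3
      by_cases h4 : a' = a
      · simp [h4]
      · simp [h4]
    · rw [if_neg h3, zero_mul, if_neg (fun h => h3 h.2.symm)]
  obtain ⟨d, σ, hd⟩ := H69.core B.col w x hx0 hx (Set.range γ) (by rintro _ ⟨g, rfl⟩; exact hγ1 g)
    hunit (by rintro _ ⟨g, rfl⟩; exact hγ3 g)
  apply hd
  refine W.contract B.col P.n B.b B.b' ?_ ?_ B.dual w x hx d σ ?_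
  · intro a
    rw [← B.p_b a]
    exact P.par_p _ _
  · intro a
    rw [← B.p'_b' a]
    exact P.par_p' _ _
  · exact (((NT.box W fun _ => hnt).pull W _).mul W (W.theta_mem X _)).tr_eq_zero W

/-- Main theorem, on the parts. -/
theorem nt_word_eq_zero [CharZero K] [Fintype I] {S : Set (Module.End K (W.H X))} (hS : P.AbsIrr S)
    (hdeg : P.DegSymmX) {m : ℕ} {l : Fin m → I × Bool} {z : W.H (X.pow m)} (hz : z ∈ P.wordPart l)
    (hnt : W.NT z) : z = 0 := by
  by_contra hz0
  obtain ⟨N, m', l', z', hN, hz', ha', hz'0, hd⟩ := hdeg m l z hz hnt.1 hz0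
  obtain ⟨N, rfl⟩ : ∃ M, N = M + 1 := ⟨N - 1, by omega⟩
  set Z := W.box2 (W.box fun _ : Fin (N + 1) => z) z' with hZ
  set L := Fin.append (fun j : Fin ((N + 1) * m) => l (finProdFinEquiv.symm j).2) l' with hL
  have hZw : Z ∈ P.wordPart L := P.box2_mem_wordPart (P.box_mem_wordPart fun _ => hz) hz'
  have hZnt : W.NT Z := NT.box2 W (NT.box W fun _ => hnt) ha'
  have hZ0 : Z ≠ 0 := W.box2_ne_zero ha' (W.box_ne_zero (fun _ => hnt.1) fun _ => hz0) hz'0
  have hL0 : ∀ i, wdeg L i = 0 := by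
    intro i
    rw [hL, wdeg_append, wdeg_box, hd i]
    push_cast
    ring
  obtain ⟨r, w, e, he⟩ := sort_word L hL0
  have h1 := P.sel_mem_wordPart e.symm hZw
  rw [Equiv.symm_symm] at h1
  have h2 : (fun t => L (e t)) = Fin.append (fun s => (w s, false)) fun s => (w s, true) :=
    funext he
  rw [h2] at h1
  exact hZ0 (W.pull_sel_injective e.symm (P.sorted_eq_zero hS w h1 (hZnt.pull W _)))

theorem homEqNum_of_degSymm [CharZero K] [Fintype I] {S : Set (Module.End K (W.H X))}
    (hgen : P.Generate)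
    (hS : P.AbsIrr S) (hdeg : P.DegSymmX) (m : ℕ) : W.HomEqNum (X.pow m) :=
  W.homEqNum_of_nondeg fun _ ha hb => P.nt_eq_zero_of_words hgen
    (fun _ _ _ hz hnt => P.nt_word_eq_zero hS hdeg hz hnt) ⟨ha, hb⟩

end Pieces

end Weil

end Pool.Agent.WeilH_h6
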