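import Pool.Agent.WeilH_h6.Defs

set_option autoImplicit false

/-!
# Weil cohomology theories: morphisms into products, the axioms in expanded form
-/

noncomputable section

namespace Pool.Agent.WeilH_h6

open AlgebraicGeometry CategoryTheory MonoidalCategory
open scoped TensorProduct

universe u v w

namespace VarClass

variable {k : Type u} [Field k] {𝒱 : VarClass k}

/-- The morphism `T → X × Y` with components `f` and `g`. -/
def Obj.lift {T X Y : 𝒱.Obj} (f : T ⟶ X) (g : T ⟶ Y) : T ⟶ X.prod Y :=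
  CartesianMonoidalCategory.lift (T := T.X) (X := X.X) (Y := Y.X) f g

lemma Obj.lift_fst {T X Y : 𝒱.Obj} (f : T ⟶ X) (g : T ⟶ Y) : Obj.lift f g ≫ Obj.fst X Y = f :=
  CartesianMonoidalCategory.lift_fst (T := T.X) (X := X.X) (Y := Y.X) f g

lemma Obj.lift_snd {T X Y : 𝒱.Obj} (f : T ⟶ X) (g : T ⟶ Y) : Obj.lift f g ≫ Obj.snd X Y = g :=
  CartesianMonoidalCategory.lift_snd (T := T.X) (X := X.X) (Y := Y.X) f g

lemma Obj.hom_ext {T X Y : 𝒱.Obj} {f g : T ⟶ X.prod Y} (h1 : f ≫ Obj.fst X Y = g ≫ Obj.fst X Y)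
    (h2 : f ≫ Obj.snd X Y = g ≫ Obj.snd X Y) : f = g :=
  CartesianMonoidalCategory.hom_ext (T := T.X) (X := X.X) (Y := Y.X) f g h1 h2

end VarClass

open VarClass

namespace Weil

variable {k : Type u} [Field k] {𝒱 : VarClass k} {K : Type v} [Field K] (W : Weil.{u, v, w} 𝒱 K)

/-! The axioms in expanded form. -/

instance finite (X : 𝒱.Obj) : FiniteDimensional K (W.H X) := W.axFinite X

instance gradedMonoid (X : 𝒱.Obj) : SetLike.GradedMonoid (W.grad X) := W.axGraded X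

theorem isInternal (X : 𝒱.Obj) : DirectSum.IsInternal (W.grad X) := W.axInternal X

theorem vanish (X : 𝒱.Obj) (i : ℕ) (h : 2 * X.dim < i) : W.grad X i = ⊥ := W.axVanish X i h

theorem graded_comm (X : 𝒱.Obj) (i j : ℕ) (x y : W.H X) (hx : x ∈ W.grad X i)
    (hy : y ∈ W.grad X j) : x * y = (-1) ^ (i * j) * (y * x) := W.axComm X i j x y hx hy

theorem pull_id (X : 𝒱.Obj) (x : W.H X) : W.pull (𝟙 X) x = x := W.axPullId X x

theorem pull_comp {X Y Z : 𝒱.Obj} (f : X ⟶ Y) (g : Y ⟶ Z) (z : W.H Z) :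
    W.pull (f ≫ g) z = W.pull f (W.pull g z) := W.axPullComp X Y Z f g z

theorem pull_grad {X Y : 𝒱.Obj} (f : X ⟶ Y) (i : ℕ) (y : W.H Y) (hy : y ∈ W.grad Y i) :
    W.pull f y ∈ W.grad X i := W.axPullGrad X Y f i y hy

theorem tr_grad (X : 𝒱.Obj) (i : ℕ) (x : W.H X) (hx : x ∈ W.grad X i) (hi : i ≠ 2 * X.dim) :
    W.tr X x = 0 := W.axTrGrad X i x hx hi

theorem tr_bij (X : 𝒱.Obj) :
    Function.Bijective fun x : W.grad X (2 * X.dim) => W.tr X (x : W.H X) := W.axTrBij X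

/-- Poincaré duality -/
theorem duality (X : 𝒱.Obj) (x : W.H X) (h : ∀ y, W.tr X (x * y) = 0) : x = 0 :=
  W.axDuality X x h

/-- the Künneth formula `H(X) ⊗ H(Y) ≅ H(X × Y)` -/
theorem kunneth (X Y : 𝒱.Obj) : Function.Bijective
    (TensorProduct.lift ((LinearMap.mul K (W.H (X.prod Y))).compl₁₂
      (W.pull (Obj.fst X Y)).toLinearMap (W.pull (Obj.snd X Y)).toLinearMap)) :=
  W.axKunneth X Y

theorem tr_prod (X Y : 𝒱.Obj) (x : W.H X) (y : W.H Y) :
    W.tr (X.prod Y) (W.pull (Obj.fst X Y) x * W.pull (Obj.snd X Y) y) = W.tr X x * W.tr Y y :=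
  W.axTrProd X Y x y

theorem clPt_mem (X : 𝒱.Obj) (x : X.X.left) (i : ℕ) (h : Order.coheight x = (i : ℕ∞)) :
    W.clPt X x ∈ W.grad X (2 * i) := W.axClMem X x i h

theorem clPt_generic (X : 𝒱.Obj) (x : X.X.left) (h : Order.coheight x = 0) : W.clPt X x = 1 :=
  W.axClGeneric X x h

theorem tr_clPt (X : 𝒱.Obj) (x : X.X.left) (h : Order.coheight x = (X.dim : ℕ∞)) :
    W.tr X (W.clPt X x) = 1 := W.axTrPt X x h

theorem alg_mul (X : 𝒱.Obj) (i j : ℕ) (z : Cyc X i) (z' : Cyc X j) : ∃ t : Cyc X (i + j),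
    cycSum K (W.clPt X) t = cycSum K (W.clPt X) z * cycSum K (W.clPt X) z' :=
  W.axAlgMul X i j z z'

theorem alg_pull {X Y : 𝒱.Obj} (f : X ⟶ Y) (i : ℕ) (z : Cyc Y i) : ∃ t : Cyc X i,
    cycSum K (W.clPt X) t = W.pull f (cycSum K (W.clPt Y) z) := W.axAlgPull X Y f i z

theorem alg_push {X Y : 𝒱.Obj} (f : X ⟶ Y) (i j : ℕ) (h : i + Y.dim = j + X.dim) (z : Cyc X i) :
    ∃ t : Cyc Y j, ∀ y : W.H Y,
      W.tr Y (cycSum K (W.clPt Y) t * y) = W.tr X (cycSum K (W.clPt X) z * W.pull f y) :=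
  W.axAlgPush X Y f i j h z

end Weil

end Pool.Agent.WeilH_h6
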