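import Pool.Agent.WeilH_h6.Par

set_option autoImplicit false

/-!
# External products of algebraic homomorphisms, pull-backs, and the trace formula
-/

noncomputable section

namespace Pool.Agent.WeilH_h6

open AlgebraicGeometry CategoryTheory MonoidalCategory
open scoped TensorProduct DirectSum
open VarClass

universe u v w

namespace Weil

variable {k : Type u} [Field k] {𝒱 : VarClass k} {K : Type v} [Field K] (W : Weil.{u, v, w} 𝒱 K)

/-- The Künneth isomorphism `H(X) ⊗ H(Y) ≅ H(X × Y)`. -/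
def ku (X Y : 𝒱.Obj) : W.H X ⊗[K] W.H Y ≃ₗ[K] W.H (X.prod Y) :=
  LinearEquiv.ofBijective _ (W.kunneth X Y)

@[simp] lemma ku_tmul {X Y : 𝒱.Obj} (x : W.H X) (y : W.H Y) :
    W.ku X Y (x ⊗ₜ y) = W.p1 X Y x * W.p2 X Y y := by
  simp [ku]

@[simp] lemma ku_symm {X Y : 𝒱.Obj} (x : W.H X) (y : W.H Y) :
    (W.ku X Y).symm (W.p1 X Y x * W.p2 X Y y) = x ⊗ₜ y := by
  rw [LinearEquiv.symm_apply_eq, ku_tmul]

/-- The external product of two linear maps. -/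
def extHom {Y Z Y' Z' : 𝒱.Obj} (φ : W.H Y →ₗ[K] W.H Z) (ψ : W.H Y' →ₗ[K] W.H Z') :
    W.H (Y.prod Y') →ₗ[K] W.H (Z.prod Z') :=
  (W.ku Z Z').toLinearMap ∘ₗ TensorProduct.map φ ψ ∘ₗ (W.ku Y Y').symm.toLinearMap

@[simp] lemma extHom_apply {Y Z Y' Z' : 𝒱.Obj} (φ : W.H Y →ₗ[K] W.H Z) (ψ : W.H Y' →ₗ[K] W.H Z')
    (y : W.H Y) (y' : W.H Y') :
    W.extHom φ ψ (W.p1 Y Y' y * W.p2 Y Y' y') = W.p1 Z Z' (φ y) * W.p2 Z Z' (ψ y') := by
  simp [extHom]

/-- Supercommutativity, for eigenvectors of the parity operator. -/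
lemma supercomm [CharZero K] {X : 𝒱.Obj} {i j : ℕ} {x y : W.H X}
    (hx : W.par X x = ((-1 : K) ^ i) • x) (hy : W.par X y = ((-1 : K) ^ j) • y) :
    x * y = ((-1 : K) ^ (i * j)) • (y * x) := by
  have h2 : (2 : K) ≠ 0 := two_ne_zero
  rcases Nat.even_or_odd i with hi | hi
  · rw [hi.neg_one_pow, one_smul] at hx
    have := W.even_central x y
    rw [hx, ← two_smul K x, smul_mul_assoc, mul_smul_comm] at this
    rw [(hi.mul_right j).neg_one_pow, one_smul]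
    exact smul_right_injective _ h2 this
  · rcases Nat.even_or_odd j with hj | hj
    · rw [hj.neg_one_pow, one_smul] at hy
      have := W.even_central y x
      rw [hy, ← two_smul K y, smul_mul_assoc, mul_smul_comm] at this
      rw [(hj.mul_left i).neg_one_pow, one_smul]
      exact (smul_right_injective _ h2 this).symm
    · rw [hi.neg_one_pow, neg_one_smul] at hx
      rw [hj.neg_one_pow, neg_one_smul] at hy
      have := W.odd_anticomm x y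
      rw [hx, hy, sub_neg_eq_add, sub_neg_eq_add, ← two_smul K x, ← two_smul K y,
        smul_mul_smul_comm, smul_mul_smul_comm, ← smul_neg] at this
      rw [(hi.mul hj).neg_one_pow, neg_one_smul]
      exact smul_right_injective _ (mul_ne_zero h2 h2) this

section middle

variable (Y Y' Z Z' : 𝒱.Obj)

/-- `(Y × Y') × (Z × Z') → Y × Z` -/
abbrev mid1 : (Y.prod Y').prod (Z.prod Z') ⟶ Y.prod Z :=
  Obj.lift (Obj.fst (Y.prod Y') (Z.prod Z') ≫ Obj.fst Y Y')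
    (Obj.snd (Y.prod Y') (Z.prod Z') ≫ Obj.fst Z Z')

/-- `(Y × Y') × (Z × Z') → Y' × Z'` -/
abbrev mid2 : (Y.prod Y').prod (Z.prod Z') ⟶ Y'.prod Z' :=
  Obj.lift (Obj.fst (Y.prod Y') (Z.prod Z') ≫ Obj.snd Y Y')
    (Obj.snd (Y.prod Y') (Z.prod Z') ≫ Obj.snd Z Z')

/-- the middle swap `(Y × Y') × (Z × Z') → (Y × Z) × (Y' × Z')` -/
abbrev midM : (Y.prod Y').prod (Z.prod Z') ⟶ (Y.prod Z).prod (Y'.prod Z') :=
  Obj.lift (mid1 Y Y' Z Z') (mid2 Y Y' Z Z')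

variable {Y Y' Z Z'}

lemma pull_mid (y : W.H Y) (y' : W.H Y') (z : W.H Z) (z' : W.H Z') :
    W.pull (midM Y Y' Z Z') (W.p1 (Y.prod Z) (Y'.prod Z') (W.p1 Y Z y * W.p2 Y Z z) *
      W.p2 (Y.prod Z) (Y'.prod Z') (W.p1 Y' Z' y' * W.p2 Y' Z' z')) =
    W.p1 (Y.prod Y') (Z.prod Z') (W.p1 Y Y' y) * W.p2 (Y.prod Y') (Z.prod Z') (W.p1 Z Z' z) *
      (W.p1 (Y.prod Y') (Z.prod Z') (W.p2 Y Y' y') *
        W.p2 (Y.prod Y') (Z.prod Z') (W.p2 Z Z' z')) := by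
  simp only [map_mul, ← W.pull_comp, Obj.lift_fst, Obj.lift_snd, ← Category.assoc]

/-- The sign in the middle swap. -/
lemma mid_comm [CharZero K] {i j : ℕ} {a : W.H (Y.prod Y')} {b : W.H (Z.prod Z')}
    (ha : W.par _ a = ((-1 : K) ^ i) • a) (hb : W.par _ b = ((-1 : K) ^ j) • b) :
    W.p2 (Y.prod Y') (Z.prod Z') b * W.p1 (Y.prod Y') (Z.prod Z') a =
      ((-1 : K) ^ (i * j)) • (W.p1 (Y.prod Y') (Z.prod Z') a * W.p2 (Y.prod Y') (Z.prod Z') b) := by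
  rw [mul_comm i j]
  refine W.supercomm ?_ ?_
  · rw [W.par_pull, hb, map_smul]
  · rw [W.par_pull, ha, map_smul]

lemma tr_pull_mid [CharZero K] (u : W.H ((Y.prod Z).prod (Y'.prod Z'))) :
    W.tr ((Y.prod Y').prod (Z.prod Z')) (W.pull (midM Y Y' Z Z') u) =
      W.tr ((Y.prod Z).prod (Y'.prod Z')) u := by
  refine W.kunneth_induction (Y.prod Z) (Y'.prod Z') (P := fun u =>
    W.tr ((Y.prod Y').prod (Z.prod Z')) (W.pull (midM Y Y' Z Z') u) =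
      W.tr ((Y.prod Z).prod (Y'.prod Z')) u) ?_ ?_ u
  · intro a b ha hb; simp only [map_add, ha, hb]
  intro a b
  refine W.kunneth_induction Y Z (P := fun a =>
    W.tr ((Y.prod Y').prod (Z.prod Z')) (W.pull (midM Y Y' Z Z')
      (W.p1 (Y.prod Z) (Y'.prod Z') a * W.p2 (Y.prod Z) (Y'.prod Z') b)) =
      W.tr ((Y.prod Z).prod (Y'.prod Z'))
        (W.p1 (Y.prod Z) (Y'.prod Z') a * W.p2 (Y.prod Z) (Y'.prod Z') b)) ?_ ?_ a
  · intro a b ha hb
    simp only [map_add, add_mul] at ha hb ⊢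
    rw [ha, hb]
  intro y z
  refine W.kunneth_induction Y' Z' (P := fun b =>
    W.tr ((Y.prod Y').prod (Z.prod Z')) (W.pull (midM Y Y' Z Z')
      (W.p1 (Y.prod Z) (Y'.prod Z') (W.p1 Y Z y * W.p2 Y Z z) *
        W.p2 (Y.prod Z) (Y'.prod Z') b)) =
      W.tr ((Y.prod Z).prod (Y'.prod Z'))
        (W.p1 (Y.prod Z) (Y'.prod Z') (W.p1 Y Z y * W.p2 Y Z z) *
          W.p2 (Y.prod Z) (Y'.prod Z') b)) ?_ ?_ b
  · intro a b ha hb
    simp only [map_add, mul_add] at ha hb ⊢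
    rw [ha, hb]
  intro y' z'
  rw [W.pull_mid, W.tr_prod, W.tr_prod, W.tr_prod]
  refine W.hom_induction (P := fun z =>
    W.tr ((Y.prod Y').prod (Z.prod Z')) (W.p1 (Y.prod Y') (Z.prod Z') (W.p1 Y Y' y) *
      W.p2 (Y.prod Y') (Z.prod Z') (W.p1 Z Z' z) *
      (W.p1 (Y.prod Y') (Z.prod Z') (W.p2 Y Y' y') *
        W.p2 (Y.prod Y') (Z.prod Z') (W.p2 Z Z' z'))) =
      W.tr Y y * W.tr Z z * (W.tr Y' y' * W.tr Z' z')) (by simp) ?_ ?_ z
  · intro a b ha hb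
    simp only [map_add, mul_add, add_mul] at ha hb ⊢
    rw [ha, hb]
  intro j z hz
  refine W.hom_induction (P := fun y' =>
    W.tr ((Y.prod Y').prod (Z.prod Z')) (W.p1 (Y.prod Y') (Z.prod Z') (W.p1 Y Y' y) *
      W.p2 (Y.prod Y') (Z.prod Z') (W.p1 Z Z' z) *
      (W.p1 (Y.prod Y') (Z.prod Z') (W.p2 Y Y' y') *
        W.p2 (Y.prod Y') (Z.prod Z') (W.p2 Z Z' z'))) =
      W.tr Y y * W.tr Z z * (W.tr Y' y' * W.tr Z' z')) (by simp) ?_ ?_ y'
  · intro a b ha hb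
    simp only [map_add, mul_add, add_mul] at ha hb ⊢
    rw [ha, hb]
  intro i y' hy'
  have e : W.p1 (Y.prod Y') (Z.prod Z') (W.p1 Y Y' y) *
      W.p2 (Y.prod Y') (Z.prod Z') (W.p1 Z Z' z) *
      (W.p1 (Y.prod Y') (Z.prod Z') (W.p2 Y Y' y') *
        W.p2 (Y.prod Y') (Z.prod Z') (W.p2 Z Z' z')) = ((-1 : K) ^ (i * j)) •
      (W.p1 (Y.prod Y') (Z.prod Z') (W.p1 Y Y' y * W.p2 Y Y' y') *
        W.p2 (Y.prod Y') (Z.prod Z') (W.p1 Z Z' z * W.p2 Z Z' z')) := by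
    have h := W.mid_comm (Y := Y) (Y' := Y') (Z := Z) (Z' := Z') (a := W.p2 Y Y' y')
      (b := W.p1 Z Z' z) (i := i) (j := j)
      (by rw [W.par_pull, W.par_apply hy', map_smul])
      (by rw [W.par_pull, W.par_apply hz, map_smul])
    rw [map_mul, map_mul, mul_assoc, ← mul_assoc (W.p2 (Y.prod Y') (Z.prod Z') (W.p1 Z Z' z)), h,
      smul_mul_assoc, mul_smul_comm, mul_assoc, mul_assoc]
  rw [e, map_smul, W.tr_prod, W.tr_prod, W.tr_prod]
  by_cases hj : j = 2 * Z.dim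
  · subst hj
    have : Even (i * (2 * Z.dim)) := ⟨i * Z.dim, by ring⟩
    rw [this.neg_one_pow, one_smul]; ring
  · rw [W.tr_grad Z j z hz hj]; simp

end middle

/-- External products of algebraic homomorphisms are algebraic. -/
lemma extHom_mem_algHom [CharZero K] {Y Z Y' Z' : 𝒱.Obj} {φ : W.H Y →ₗ[K] W.H Z}
    {ψ : W.H Y' →ₗ[K] W.H Z'} (hφ : φ ∈ W.algHom Y Z) (hψ : ψ ∈ W.algHom Y' Z') :
    W.extHom φ ψ ∈ W.algHom (Y.prod Y') (Z.prod Z') := by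
  have hψ' := hψ
  obtain ⟨α, hα, rfl⟩ := hφ
  obtain ⟨β, hβ, rfl⟩ := hψ
  have hA : W.pull (mid1 Y Y' Z Z') α ∈ W.algSpan _ := W.pull_mem_algSpan _ hα
  have hB : W.pull (mid2 Y Y' Z Z') β ∈ W.algSpan _ := W.pull_mem_algSpan _ hβ
  rw [W.mem_algHom_iff]
  refine ⟨_, W.mul_mem_algSpan hA hB, fun v w => ?_⟩
  refine W.kunneth_induction Y Y' (P := fun v => W.tr (Z.prod Z') (W.extHom (W.act α) (W.act β) v *
    w) = W.tr _ (W.pull (mid1 Y Y' Z Z') α * W.pull (mid2 Y Y' Z Z') β *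
      (W.p1 (Y.prod Y') (Z.prod Z') v * W.p2 (Y.prod Y') (Z.prod Z') w))) ?_ ?_ v
  · intro a b ha hb
    simp only [map_add, mul_add, add_mul] at ha hb ⊢
    rw [ha, hb]
  intro y y'
  refine W.kunneth_induction Z Z' (P := fun w => W.tr (Z.prod Z') (W.extHom (W.act α) (W.act β)
    (W.p1 Y Y' y * W.p2 Y Y' y') *
    w) = W.tr _ (W.pull (mid1 Y Y' Z Z') α * W.pull (mid2 Y Y' Z Z') β *
      (W.p1 (Y.prod Y') (Z.prod Z') (W.p1 Y Y' y * W.p2 Y Y' y') *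
        W.p2 (Y.prod Y') (Z.prod Z') w))) ?_ ?_ w
  · intro a b ha hb
    simp only [map_add, mul_add] at ha hb ⊢
    rw [ha, hb]
  intro z z'
  rw [W.extHom_apply]
  refine W.hom_induction (P := fun z => W.tr (Z.prod Z') (W.p1 Z Z' (W.act α y) *
    W.p2 Z Z' (W.act β y') * (W.p1 Z Z' z * W.p2 Z Z' z')) =
    W.tr _ (W.pull (mid1 Y Y' Z Z') α * W.pull (mid2 Y Y' Z Z') β *
      (W.p1 (Y.prod Y') (Z.prod Z') (W.p1 Y Y' y * W.p2 Y Y' y') *
        W.p2 (Y.prod Y') (Z.prod Z') (W.p1 Z Z' z * W.p2 Z Z' z')))) (by simp) ?_ ?_ z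
  · intro a b ha hb
    simp only [map_add, mul_add, add_mul] at ha hb ⊢
    rw [ha, hb]
  intro j z hz
  refine W.hom_induction (P := fun y' => W.tr (Z.prod Z') (W.p1 Z Z' (W.act α y) *
    W.p2 Z Z' (W.act β y') * (W.p1 Z Z' z * W.p2 Z Z' z')) =
    W.tr _ (W.pull (mid1 Y Y' Z Z') α * W.pull (mid2 Y Y' Z Z') β *
      (W.p1 (Y.prod Y') (Z.prod Z') (W.p1 Y Y' y * W.p2 Y Y' y') *
        W.p2 (Y.prod Y') (Z.prod Z') (W.p1 Z Z' z * W.p2 Z Z' z')))) (by simp) ?_ ?_ y'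
  · intro a b ha hb
    simp only [map_add, mul_add, add_mul] at ha hb ⊢
    rw [ha, hb]
  intro i y' hy'
  -- left hand side
  have hl : W.p2 Z Z' (W.act β y') * W.p1 Z Z' z =
      ((-1 : K) ^ (i * j)) • (W.p1 Z Z' z * W.p2 Z Z' (W.act β y')) := by
    refine W.supercomm ?_ ?_
    · rw [W.par_pull, ← W.par_algHom hψ', W.par_apply hy', map_smul, map_smul]
    · rw [W.par_pull, W.par_apply hz, map_smul]
  have e1 : W.p1 Z Z' (W.act α y) * W.p2 Z Z' (W.act β y') * (W.p1 Z Z' z * W.p2 Z Z' z') =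
      ((-1 : K) ^ (i * j)) • (W.p1 Z Z' (W.act α y * z) * W.p2 Z Z' (W.act β y' * z')) := by
    rw [map_mul, map_mul, mul_assoc, ← mul_assoc (W.p2 Z Z' (W.act β y')), hl,
      smul_mul_assoc, mul_smul_comm, mul_assoc, mul_assoc]
  have hr : W.p2 (Y.prod Y') (Z.prod Z') (W.p1 Z Z' z) *
      W.p1 (Y.prod Y') (Z.prod Z') (W.p2 Y Y' y') =
      ((-1 : K) ^ (i * j)) • (W.p1 (Y.prod Y') (Z.prod Z') (W.p2 Y Y' y') *
        W.p2 (Y.prod Y') (Z.prod Z') (W.p1 Z Z' z)) :=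
    W.mid_comm (by rw [W.par_pull, W.par_apply hy', map_smul])
      (by rw [W.par_pull, W.par_apply hz, map_smul])
  have hs : ((-1 : K) ^ (i * j)) * ((-1 : K) ^ (i * j)) = 1 := by
    rw [← mul_pow]; simp
  have hr' : W.p1 (Y.prod Y') (Z.prod Z') (W.p2 Y Y' y') *
        W.p2 (Y.prod Y') (Z.prod Z') (W.p1 Z Z' z) = ((-1 : K) ^ (i * j)) •
      (W.p2 (Y.prod Y') (Z.prod Z') (W.p1 Z Z' z) *
      W.p1 (Y.prod Y') (Z.prod Z') (W.p2 Y Y' y')) := by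
    rw [hr, smul_smul, hs, one_smul]
  have e2 : W.pull (mid1 Y Y' Z Z') α * W.pull (mid2 Y Y' Z Z') β *
      (W.p1 (Y.prod Y') (Z.prod Z') (W.p1 Y Y' y * W.p2 Y Y' y') *
        W.p2 (Y.prod Y') (Z.prod Z') (W.p1 Z Z' z * W.p2 Z Z' z')) =
      ((-1 : K) ^ (i * j)) • W.pull (midM Y Y' Z Z')
        (W.p1 (Y.prod Z) (Y'.prod Z') (α * (W.p1 Y Z y * W.p2 Y Z z)) *
          W.p2 (Y.prod Z) (Y'.prod Z') (β * (W.p1 Y' Z' y' * W.p2 Y' Z' z'))) := by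
    have a1 : W.pull (midM Y Y' Z Z') (W.p1 (Y.prod Z) (Y'.prod Z') α) =
        W.pull (mid1 Y Y' Z Z') α := by rw [← W.pull_comp, Obj.lift_fst]
    have a2 : W.pull (midM Y Y' Z Z') (W.p2 (Y.prod Z) (Y'.prod Z') β) =
        W.pull (mid2 Y Y' Z Z') β := by rw [← W.pull_comp, Obj.lift_snd]
    have a3 := W.pull_mid y y' z z'
    rw [map_mul] at a3
    have c1 : W.p1 (Y.prod Z) (Y'.prod Z') (W.p1 Y Z y * W.p2 Y Z z) *
        W.p2 (Y.prod Z) (Y'.prod Z') β =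
        W.p2 (Y.prod Z) (Y'.prod Z') β *
          W.p1 (Y.prod Z) (Y'.prod Z') (W.p1 Y Z y * W.p2 Y Z z) :=
      (W.central (W.pull_mem_algSpan (Obj.snd (Y.prod Z) (Y'.prod Z')) hβ) _).symm
    have a4 : W.pull (midM Y Y' Z Z')
        (W.p1 (Y.prod Z) (Y'.prod Z') (α * (W.p1 Y Z y * W.p2 Y Z z)) *
          W.p2 (Y.prod Z) (Y'.prod Z') (β * (W.p1 Y' Z' y' * W.p2 Y' Z' z'))) =
        W.pull (mid1 Y Y' Z Z') α * (W.pull (mid2 Y Y' Z Z') β *
          (W.pull (midM Y Y' Z Z') (W.p1 (Y.prod Z) (Y'.prod Z') (W.p1 Y Z y * W.p2 Y Z z)) *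
          W.pull (midM Y Y' Z Z')
            (W.p2 (Y.prod Z) (Y'.prod Z') (W.p1 Y' Z' y' * W.p2 Y' Z' z')))) := by
      rw [map_mul (W.p1 (Y.prod Z) (Y'.prod Z')) α, map_mul (W.p2 (Y.prod Z) (Y'.prod Z')) β,
        mul_assoc (W.p1 (Y.prod Z) (Y'.prod Z') α),
        ← mul_assoc (W.p1 (Y.prod Z) (Y'.prod Z') (W.p1 Y Z y * W.p2 Y Z z)), c1,
        mul_assoc (W.p2 (Y.prod Z) (Y'.prod Z') β),
        map_mul (W.pull (midM Y Y' Z Z')) (W.p1 (Y.prod Z) (Y'.prod Z') α),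
        map_mul (W.pull (midM Y Y' Z Z')) (W.p2 (Y.prod Z) (Y'.prod Z') β),
        map_mul (W.pull (midM Y Y' Z Z')) (W.p1 (Y.prod Z) (Y'.prod Z') _), a1, a2]
    rw [a4, a3]
    simp only [map_mul]
    rw [mul_assoc (W.pull (mid1 Y Y' Z Z') α), ← mul_smul_comm, ← mul_smul_comm]
    congr 2
    simp only [mul_assoc]
    rw [← mul_assoc (W.p1 (Y.prod Y') (Z.prod Z') (W.p2 Y Y' y')), hr', smul_mul_assoc,
      mul_smul_comm]
    simp only [mul_assoc]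
  rw [e1, e2, map_smul, map_smul, W.tr_pull_mid, W.tr_prod, W.tr_prod, W.tr_act, W.tr_act]

/-- Pull-backs are algebraic. -/
lemma pull_mem_algHom {Y Z : 𝒱.Obj} (f : Z ⟶ Y) : (W.pull f).toLinearMap ∈ W.algHom Y Z := by
  obtain ⟨α, hα, h⟩ := W.push_algSpan (Obj.lift f (𝟙 Z)) (W.one_mem_algSpan Z)
  rw [W.mem_algHom_iff]
  refine ⟨α, hα, fun v w => ?_⟩
  rw [h, one_mul, map_mul (W.pull (Obj.lift f (𝟙 Z))), ← W.pull_comp, ← W.pull_comp,
    Obj.lift_fst, Obj.lift_snd, W.pull_id]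
  rfl

/-- Multiplication by an algebraic class is algebraic. -/
lemma mulLeft_mem_algHom {Y : 𝒱.Obj} {a : W.H Y} (ha : a ∈ W.algSpan Y) :
    LinearMap.mulLeft K a ∈ W.algHom Y Y := by
  obtain ⟨α, hα, h⟩ := W.push_algSpan (diag Y) ha
  rw [W.mem_algHom_iff]
  refine ⟨α, hα, fun v w => ?_⟩
  rw [h, map_mul (W.pull (diag Y)), W.pull_diag_p1, W.pull_diag_p2, LinearMap.mulLeft_apply,
    mul_assoc]

lemma id_mem_algHom (Y : 𝒱.Obj) : LinearMap.id ∈ W.algHom Y Y :=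
  W.isAlgEnd_iff.1 (W.isAlgEnd_id Y)

/-- The trace formula: the supertrace of the action of `α ∈ H(Y × Y)` is `Tr_Y (Δ^* α)`. -/
lemma trace_act {Y : 𝒱.Obj} (α : W.H (Y.prod Y)) :
    LinearMap.trace K (W.H Y) (W.par Y ∘ₗ W.act α) = W.tr Y (W.pull (diag Y) α) := by
  refine W.kunneth_induction Y Y (P := fun α => LinearMap.trace K (W.H Y) (W.par Y ∘ₗ W.act α) =
    W.tr Y (W.pull (diag Y) α)) ?_ ?_ α
  · intro a b ha hb
    rw [W.act_add, LinearMap.comp_add, map_add, ha, hb, map_add, map_add]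
  intro x y
  refine W.hom_induction (P := fun y => LinearMap.trace K (W.H Y)
    (W.par Y ∘ₗ W.act (W.p1 Y Y x * W.p2 Y Y y)) =
    W.tr Y (W.pull (diag Y) (W.p1 Y Y x * W.p2 Y Y y))) ?_ ?_ ?_ y
  · have : W.act (0 : W.H (Y.prod Y)) = 0 := by
      have := W.act_smul (0 : K) (0 : W.H (Y.prod Y)); simpa using this
    simp [this]
  · intro a b ha hb
    simp only [map_add, mul_add, W.act_add, LinearMap.comp_add] at ha hb ⊢
    rw [ha, hb]
  intro j y hy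
  have hact : ∀ i (v : W.H Y), v ∈ W.grad Y i → W.act (W.p1 Y Y x * W.p2 Y Y y) v =
      ((-1 : K) ^ (i * j) * W.tr Y (x * v)) • y := by
    intro i v hv
    refine W.ext_tr fun w => ?_
    have e : W.p1 Y Y x * W.p2 Y Y y * (W.p1 Y Y v * W.p2 Y Y w) =
        (-1) ^ (i * j) * (W.p1 Y Y (x * v) * W.p2 Y Y (y * w)) := by
      rw [mul_assoc, ← mul_assoc (W.p2 Y Y y), W.p2_mul_p1 hv hy, map_mul, map_mul]
      rcases neg_one_pow_eq_or (W.H (Y.prod Y)) (i * j) with h | h <;> rw [h] <;> noncomm_ring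
    rw [W.tr_act, e, smul_mul_assoc, map_smul]
    rcases Nat.even_or_odd (i * j) with h | h
    · rw [h.neg_one_pow, h.neg_one_pow, one_mul, one_mul, W.tr_prod]; rfl
    · rw [h.neg_one_pow, h.neg_one_pow, neg_one_mul, map_neg, W.tr_prod]
      simp
  rcases Nat.even_or_odd j with hj | hj
  · have h2 : W.par Y ∘ₗ W.act (W.p1 Y Y x * W.p2 Y Y y) =
        (W.tr Y ∘ₗ LinearMap.mulLeft K x).smulRight y := by
      ext v
      refine W.hom_induction (P := fun v => (W.par Y ∘ₗ W.act (W.p1 Y Y x * W.p2 Y Y y)) v =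
        ((W.tr Y ∘ₗ LinearMap.mulLeft K x).smulRight y) v) (by simp) ?_ ?_ v
      · intro a b ha hb; rw [map_add, map_add, ha, hb]
      intro i v hv
      rw [LinearMap.comp_apply, hact i v hv, map_smul, W.par_apply hy, hj.neg_one_pow,
        (hj.mul_left i).neg_one_pow]
      simp
    rw [h2, LinearMap.trace_smulRight, map_mul, W.pull_diag_p1, W.pull_diag_p2]
    rfl
  · have h2 : W.par Y ∘ₗ W.act (W.p1 Y Y x * W.p2 Y Y y) =
        -((W.tr Y ∘ₗ LinearMap.mulLeft K x ∘ₗ W.par Y).smulRight y) := by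
      ext v
      refine W.hom_induction (P := fun v => (W.par Y ∘ₗ W.act (W.p1 Y Y x * W.p2 Y Y y)) v =
        (-((W.tr Y ∘ₗ LinearMap.mulLeft K x ∘ₗ W.par Y).smulRight y)) v) (by simp) ?_ ?_ v
      · intro a b ha hb; rw [map_add, map_add, ha, hb]
      intro i v hv
      rw [LinearMap.comp_apply, hact i v hv, map_smul, W.par_apply hy, hj.neg_one_pow]
      simp only [LinearMap.neg_apply, LinearMap.smulRight_apply, LinearMap.comp_apply,
        W.par_apply hv, map_smul, LinearMap.mulLeft_apply]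
      rcases Nat.even_or_odd i with hi | hi
      · rw [(hi.mul_right j).neg_one_pow, hi.neg_one_pow]; simp
      · rw [(hi.mul hj).neg_one_pow, hi.neg_one_pow]; simp
    rw [h2, map_neg, LinearMap.trace_smulRight, map_mul, W.pull_diag_p1, W.pull_diag_p2]
    simp [W.par_apply hy, hj.neg_one_pow]

/-- Algebraic homomorphisms map algebraic classes to algebraic classes. -/
lemma algHom_apply_mem {Y Z : 𝒱.Obj} {φ : W.H Y →ₗ[K] W.H Z} (hφ : φ ∈ W.algHom Y Z)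
    {a : W.H Y} (ha : a ∈ W.algSpan Y) : φ a ∈ W.algSpan Z := by
  obtain ⟨α, hα, rfl⟩ := hφ
  obtain ⟨b, hb, h⟩ := W.push_algSpan (Obj.snd Y Z)
    (W.mul_mem_algSpan hα (W.pull_mem_algSpan (Obj.fst Y Z) ha))
  have : W.act α a = b := by
    refine W.ext_tr fun w => ?_
    rw [h, W.tr_act, mul_assoc]
  rwa [this]

/-- The push-forward along a morphism, as an algebraic homomorphism. -/
lemma exists_push {Y Z : 𝒱.Obj} (f : Y ⟶ Z) : ∃ φ ∈ W.algHom Y Z, ∀ (v : W.H Y) (w : W.H Z),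
    W.tr Z (φ v * w) = W.tr Y (v * W.pull f w) := by
  obtain ⟨α, hα, h⟩ := W.push_algSpan (Obj.lift (𝟙 Y) f) (W.one_mem_algSpan Y)
  refine ⟨W.act α, W.act_mem_algHom.2 hα, fun v w => ?_⟩
  rw [W.tr_act, h, one_mul, map_mul (W.pull (Obj.lift (𝟙 Y) f)), ← W.pull_comp, ← W.pull_comp,
    Obj.lift_fst, Obj.lift_snd, W.pull_id]

end Weil

end Pool.Agent.WeilH_h6
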