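import Pool.Agent.WeilH_h6.Pow

set_option autoImplicit false

/-!
# Numerically trivial elements of the span of the algebraic classes
-/

noncomputable section

namespace Pool.Agent.WeilH_h6

open AlgebraicGeometry CategoryTheory MonoidalCategory
open scoped TensorProduct DirectSum
open VarClass

universe u v w

namespace Weil

variable {k : Type u} [Field k] {𝒱 : VarClass k} {K : Type v} [Field K] (W : Weil.{u, v, w} 𝒱 K)

/-- `a` is in the `K`-span of the algebraic classes and numerically trivial. -/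
def NT {Y : 𝒱.Obj} (a : W.H Y) : Prop :=
  a ∈ W.algSpan Y ∧ ∀ b ∈ W.algSpan Y, W.tr Y (a * b) = 0

lemma NT.pull {Y Z : 𝒱.Obj} {a : W.H Y} (h : W.NT a) (f : Z ⟶ Y) : W.NT (W.pull f a) := by
  refine ⟨W.pull_mem_algSpan f h.1, fun b hb => ?_⟩
  obtain ⟨c, hc, hc'⟩ := W.push_algSpan f hb
  rw [W.central (W.pull_mem_algSpan f h.1), ← hc', ← W.central h.1]
  exact h.2 c hc

lemma NT.mul {Y : 𝒱.Obj} {a b : W.H Y} (h : W.NT a) (hb : b ∈ W.algSpan Y) : W.NT (a * b) :=
  ⟨W.mul_mem_algSpan h.1 hb, fun c hc => by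
    rw [mul_assoc]; exact h.2 _ (W.mul_mem_algSpan hb hc)⟩

lemma NT.tr_eq_zero {Y : 𝒱.Obj} {a : W.H Y} (h : W.NT a) : W.tr Y a = 0 := by
  have := h.2 1 (W.one_mem_algSpan Y)
  rwa [mul_one] at this

/-- push-forward along a morphism, for numerically trivial elements -/
lemma NT.algHom {Y Z : 𝒱.Obj} {a : W.H Y} (h : W.NT a) {φ : W.H Y →ₗ[K] W.H Z}
    (hφ : φ ∈ W.algHom Y Z) : W.NT (φ a) := by
  refine ⟨W.algHom_apply_mem hφ h.1, fun b hb => ?_⟩
  obtain ⟨α, hα, hα'⟩ := W.mem_algHom_iff.1 hφ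
  rw [hα']
  have h1 := ((h.pull W (Obj.fst Y Z)).mul W (W.mul_mem_algSpan hα
    (W.pull_mem_algSpan (Obj.snd Y Z) hb))).tr_eq_zero W
  have e : α * (W.p1 Y Z a * W.p2 Y Z b) = W.p1 Y Z a * (α * W.p2 Y Z b) := by
    rw [← mul_assoc, W.central hα, mul_assoc]
  rw [e]
  exact h1

/-- The diagonal class in `H(X × X)`. -/
def delta (X : 𝒱.Obj) : W.H (X.prod X) := Classical.choose (W.exists_diag X)

lemma delta_mem (X : 𝒱.Obj) : W.delta X ∈ W.algSpan (X.prod X) :=
  (Classical.choose_spec (W.exists_diag X)).1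

lemma tr_delta {X : 𝒱.Obj} (v v' : W.H X) :
    W.tr (X.prod X) (W.delta X * (W.p1 X X v * W.p2 X X v')) = W.tr X (v * v') :=
  (Classical.choose_spec (W.exists_diag X)).2 v v'

/-- `Tr(v x) = Tr(x · par v)`. -/
lemma tr_comm {X : 𝒱.Obj} (x y : W.H X) : W.tr X (x * y) = W.tr X (y * W.par X x) := by
  refine W.hom_induction (P := fun x => W.tr X (x * y) = W.tr X (y * W.par X x)) (by simp) ?_ ?_ x
  · intro a b ha hb; simp only [map_add, add_mul, mul_add] at ha hb ⊢; rw [ha, hb]
  intro i x hx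
  refine W.hom_induction (P := fun y => W.tr X (x * y) = W.tr X (y * W.par X x)) (by simp) ?_ ?_ y
  · intro a b ha hb; simp only [map_add, add_mul, mul_add] at ha hb ⊢; rw [ha, hb]
  intro j y hy
  rw [W.par_apply hx, mul_smul_comm, map_smul]
  by_cases h : i + j = 2 * X.dim
  · rw [W.graded_comm X i j x y hx hy]
    have : ((-1 : W.H X) ^ (i * j) * (y * x)) = ((-1 : K) ^ (i * j)) • (y * x) := by
      rcases Nat.even_or_odd (i * j) with h | h
      · rw [h.neg_one_pow, h.neg_one_pow, one_mul, one_smul]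
      · rw [h.neg_one_pow, h.neg_one_pow, neg_one_mul, neg_one_smul]
    rw [this, map_smul]
    congr 1
    rcases Nat.even_or_odd i with hi | hi
    · rw [hi.neg_one_pow, (hi.mul_right j).neg_one_pow]
    · have hj : Odd j := by
        rcases Nat.even_or_odd j with hj | hj
        · exfalso
          have : Odd (i + j) := hi.add_even hj
          rw [h] at this
          exact (Nat.not_odd_iff_even.2 (even_two_mul _)) this
        · exact hj
      rw [hi.neg_one_pow, (hi.mul hj).neg_one_pow]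
  · rw [W.tr_grad X (i + j) _ (W.mul_mem_grad hx hy) h,
      W.tr_grad X (j + i) _ (W.mul_mem_grad hy hx) (by rwa [add_comm]), smul_zero]

/-- Poincaré duality in the second argument. -/
lemma ext_tr' {X : 𝒱.Obj} {x y : W.H X} (h : ∀ v, W.tr X (v * x) = W.tr X (v * y)) : x = y := by
  refine W.ext_tr fun w => ?_
  have := h (W.par X w)
  rw [W.tr_comm, W.tr_comm (W.par X w) y, W.par_par] at this
  exact this

end Weil

end Pool.Agent.WeilH_h6
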