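import Pool.Agent.WeilH_h6.Basic

set_option autoImplicit false

/-!
# Algebraic correspondences acting on cohomology
-/

noncomputable section

namespace Pool.Agent.WeilH_h6

open AlgebraicGeometry CategoryTheory MonoidalCategory
open scoped TensorProduct
open VarClass

universe u v w

namespace Weil

variable {k : Type u} [Field k] {𝒱 : VarClass k} {K : Type v} [Field K] (W : Weil.{u, v, w} 𝒱 K)

lemma kunneth_induction (X Y : 𝒱.Obj) {P : W.H (X.prod Y) → Prop}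
    (hadd : ∀ a b, P a → P b → P (a + b))
    (hm : ∀ x y, P (W.p1 X Y x * W.p2 X Y y)) (u : W.H (X.prod Y)) : P u := by
  obtain ⟨t, rfl⟩ := (W.kunneth X Y).2 u
  induction t using TensorProduct.induction_on with
  | zero => simpa using hm 0 0
  | tmul x y => simpa using hm x y
  | add a b ha hb => rw [map_add]; exact hadd _ _ ha hb

lemma ext_tr {X : 𝒱.Obj} {x y : W.H X} (h : ∀ w, W.tr X (x * w) = W.tr X (y * w)) : x = y := by
  rw [← sub_eq_zero]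
  refine W.duality X _ fun w => ?_
  rw [sub_mul, map_sub, h, sub_self]

/-- Poincaré duality as a linear equivalence `x ↦ (w ↦ Tr (x w))`. -/
def pd (X : 𝒱.Obj) : W.H X ≃ₗ[K] Module.Dual K (W.H X) :=
  LinearMap.linearEquivOfInjective ((LinearMap.mul K (W.H X)).compr₂ (W.tr X))
    (by
      rw [injective_iff_map_eq_zero]
      intro x hx
      exact W.duality X x fun y => by simpa using LinearMap.congr_fun hx y)
    (Subspace.dual_finrank_eq).symm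

@[simp] lemma pd_apply (X : 𝒱.Obj) (x w : W.H X) : W.pd X x w = W.tr X (x * w) := rfl

/-- The linear map attached to a kernel `α ∈ H(Y × Z)`. -/
def act {Y Z : 𝒱.Obj} (α : W.H (Y.prod Z)) : W.H Y →ₗ[K] W.H Z :=
  (W.pd Z).symm.toLinearMap ∘ₗ
    ((LinearMap.mul K (W.H (Y.prod Z))).compl₁₂ (W.p1 Y Z).toLinearMap
      (W.p2 Y Z).toLinearMap).compr₂ ((W.tr (Y.prod Z)) ∘ₗ (LinearMap.mulLeft K α))

lemma tr_act {Y Z : 𝒱.Obj} (α : W.H (Y.prod Z)) (v : W.H Y) (w : W.H Z) :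
    W.tr Z (W.act α v * w) = W.tr (Y.prod Z) (α * (W.p1 Y Z v * W.p2 Y Z w)) := by
  rw [← pd_apply]
  simp [act]

lemma act_add {Y Z : 𝒱.Obj} (α β : W.H (Y.prod Z)) : W.act (α + β) = W.act α + W.act β := by
  ext v
  refine W.ext_tr fun w => ?_
  simp only [LinearMap.add_apply, add_mul, map_add, W.tr_act]

lemma act_smul {Y Z : 𝒱.Obj} (c : K) (α : W.H (Y.prod Z)) : W.act (c • α) = c • W.act α := by
  ext v
  refine W.ext_tr fun w => ?_
  simp only [LinearMap.smul_apply, smul_mul_assoc, map_smul, W.tr_act]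

lemma act_injective {Y Z : 𝒱.Obj} {α β : W.H (Y.prod Z)} (h : W.act α = W.act β) : α = β := by
  refine W.ext_tr fun u => ?_
  refine W.kunneth_induction Y Z (P := fun u => W.tr _ (α * u) = W.tr _ (β * u)) ?_ ?_ u
  · intro a b ha hb; rw [mul_add, mul_add, map_add, map_add, ha, hb]
  · intro x y; rw [← W.tr_act, ← W.tr_act, h]

/-- The subspace of the algebraic homomorphisms `H(Y) → H(Z)`: the actions of the elements of the
`K`-span of the algebraic classes on `Y × Z`. -/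
def algHom (Y Z : 𝒱.Obj) : Submodule K (W.H Y →ₗ[K] W.H Z) where
  carrier := {φ | ∃ α ∈ W.algSpan (Y.prod Z), W.act α = φ}
  add_mem' := by
    rintro _ _ ⟨α, hα, rfl⟩ ⟨β, hβ, rfl⟩
    exact ⟨α + β, Submodule.add_mem _ hα hβ, W.act_add α β⟩
  zero_mem' := ⟨0, Submodule.zero_mem _, by
    have := W.act_smul (0 : K) (0 : W.H (Y.prod Z)); simpa using this⟩
  smul_mem' := by
    rintro c _ ⟨α, hα, rfl⟩
    exact ⟨c • α, Submodule.smul_mem _ _ hα, W.act_smul c α⟩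

lemma mem_algHom_iff {Y Z : 𝒱.Obj} {φ : W.H Y →ₗ[K] W.H Z} :
    φ ∈ W.algHom Y Z ↔ ∃ α ∈ W.algSpan (Y.prod Z), ∀ v w,
      W.tr Z (φ v * w) = W.tr (Y.prod Z) (α * (W.p1 Y Z v * W.p2 Y Z w)) := by
  constructor
  · rintro ⟨α, hα, rfl⟩
    exact ⟨α, hα, W.tr_act α⟩
  · rintro ⟨α, hα, h⟩
    refine ⟨α, hα, ?_⟩
    ext v
    refine W.ext_tr fun w => ?_
    rw [W.tr_act, h]

lemma isAlgEnd_iff {X : 𝒱.Obj} {φ : W.H X →ₗ[K] W.H X} :
    W.IsAlgEnd X φ ↔ φ ∈ W.algHom X X := W.mem_algHom_iff.symm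

lemma act_mem_algHom {Y Z : 𝒱.Obj} {α : W.H (Y.prod Z)} :
    W.act α ∈ W.algHom Y Z ↔ α ∈ W.algSpan (Y.prod Z) := by
  constructor
  · rintro ⟨β, hβ, h⟩
    rwa [← W.act_injective h]
  · exact fun h => ⟨α, h, rfl⟩

/-! ### structural isomorphisms -/

section struct

variable (Y Z T : 𝒱.Obj)

/-- the associator `Y × (Z × T) → (Y × Z) × T` -/
abbrev assocM : Y.prod (Z.prod T) ⟶ (Y.prod Z).prod T :=
  Obj.lift (Obj.lift (Obj.fst Y (Z.prod T)) (Obj.snd Y (Z.prod T) ≫ Obj.fst Z T))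
    (Obj.snd Y (Z.prod T) ≫ Obj.snd Z T)

lemma pull_assocM (y : W.H Y) (z : W.H Z) (t : W.H T) :
    W.pull (assocM Y Z T)
      (W.p1 (Y.prod Z) T (W.p1 Y Z y * W.p2 Y Z z) * W.p2 (Y.prod Z) T t) =
    W.p1 Y (Z.prod T) y * W.p2 Y (Z.prod T) (W.p1 Z T z * W.p2 Z T t) := by
  simp only [map_mul, ← W.pull_comp, Obj.lift_fst, Obj.lift_snd, mul_assoc, ← Category.assoc]

lemma tr_pull_assocM (u : W.H ((Y.prod Z).prod T)) :
    W.tr (Y.prod (Z.prod T)) (W.pull (assocM Y Z T) u) = W.tr ((Y.prod Z).prod T) u := by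
  refine W.kunneth_induction (Y.prod Z) T (P := fun u => W.tr (Y.prod (Z.prod T))
    (W.pull (assocM Y Z T) u) = W.tr ((Y.prod Z).prod T) u) ?_ ?_ u
  · intro a b ha hb; rw [map_add, map_add, map_add, ha, hb]
  · intro x t
    refine W.kunneth_induction Y Z (P := fun x => W.tr (Y.prod (Z.prod T))
      (W.pull (assocM Y Z T) (W.p1 (Y.prod Z) T x * W.p2 (Y.prod Z) T t)) =
      W.tr ((Y.prod Z).prod T) (W.p1 (Y.prod Z) T x * W.p2 (Y.prod Z) T t)) ?_ ?_ x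
    · intro a b ha hb
      simp only [map_add, add_mul] at ha hb ⊢
      rw [ha, hb]
    · intro y z
      rw [W.pull_assocM, W.tr_prod, W.tr_prod, W.tr_prod, W.tr_prod, mul_assoc]

/-- the swap `Y × Z → Z × Y` -/
abbrev swapM : Y.prod Z ⟶ Z.prod Y := Obj.lift (Obj.snd Y Z) (Obj.fst Y Z)

lemma pull_swapM (y : W.H Y) (z : W.H Z) :
    W.pull (swapM Y Z) (W.p1 Z Y z * W.p2 Z Y y) = W.p2 Y Z z * W.p1 Y Z y := by
  simp only [map_mul, ← W.pull_comp, Obj.lift_fst, Obj.lift_snd]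

end struct

/-- In a product, odd classes from the two factors anticommute. -/
lemma p2_mul_p1 {Y Z : 𝒱.Obj} {i j : ℕ} {y : W.H Y} {z : W.H Z} (hy : y ∈ W.grad Y i)
    (hz : z ∈ W.grad Z j) :
    W.p2 Y Z z * W.p1 Y Z y = (-1) ^ (i * j) * (W.p1 Y Z y * W.p2 Y Z z) := by
  rw [W.graded_comm (Y.prod Z) j i _ _ (W.pull_grad _ j z hz) (W.pull_grad _ i y hy), mul_comm j i]

/-- integration over the first factor -/
lemma tr_assoc_key {Y Z T : 𝒱.Obj} (α : W.H (Y.prod Z)) (v : W.H Y) (u : W.H (Z.prod T)) :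
    W.tr (Y.prod (Z.prod T))
      (W.pull (assocM Y Z T ≫ Obj.fst (Y.prod Z) T) α *
        (W.p1 Y (Z.prod T) v * W.p2 Y (Z.prod T) u)) =
      W.tr (Z.prod T) (W.p1 Z T (W.act α v) * u) := by
  refine W.kunneth_induction Z T (P := fun u => W.tr (Y.prod (Z.prod T))
      (W.pull (assocM Y Z T ≫ Obj.fst (Y.prod Z) T) α *
        (W.p1 Y (Z.prod T) v * W.p2 Y (Z.prod T) u)) =
      W.tr (Z.prod T) (W.p1 Z T (W.act α v) * u)) ?_ ?_ u
  · intro a b ha hb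
    simp only [map_add, mul_add] at ha hb ⊢
    rw [ha, hb]
  · intro s t
    have h1 : W.pull (assocM Y Z T ≫ Obj.fst (Y.prod Z) T) α *
        (W.p1 Y (Z.prod T) v * W.p2 Y (Z.prod T) (W.p1 Z T s * W.p2 Z T t)) =
        W.pull (assocM Y Z T) (W.p1 (Y.prod Z) T (α * (W.p1 Y Z v * W.p2 Y Z s)) *
          W.p2 (Y.prod Z) T t) := by
      rw [← W.pull_assocM Y Z T v s t, W.pull_comp, ← map_mul, map_mul (W.p1 (Y.prod Z) T) α,
        mul_assoc]
    rw [h1, W.tr_pull_assocM, W.tr_prod, ← W.tr_act, ← mul_assoc, ← map_mul, W.tr_prod]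

/-- Composition of algebraic homomorphisms. -/
lemma comp_mem_algHom {Y Z T : 𝒱.Obj} {φ : W.H Y →ₗ[K] W.H Z} {ψ : W.H Z →ₗ[K] W.H T}
    (hφ : φ ∈ W.algHom Y Z) (hψ : ψ ∈ W.algHom Z T) : ψ ∘ₗ φ ∈ W.algHom Y T := by
  obtain ⟨α, hα, rfl⟩ := hφ
  obtain ⟨β, hβ, rfl⟩ := hψ
  let P := Y.prod (Z.prod T)
  let A : W.H P := W.pull (assocM Y Z T ≫ Obj.fst (Y.prod Z) T) α
  let B : W.H P := W.p2 Y (Z.prod T) β
  have hA : A ∈ W.algSpan P := W.pull_mem_algSpan _ hα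
  have hB : B ∈ W.algSpan P := W.pull_mem_algSpan _ hβ
  let f : P ⟶ Y.prod T := Obj.lift (Obj.fst Y (Z.prod T)) (Obj.snd Y (Z.prod T) ≫ Obj.snd Z T)
  obtain ⟨γ, hγ, h⟩ := W.push_algSpan f (W.mul_mem_algSpan hA hB)
  rw [W.mem_algHom_iff]
  refine ⟨γ, hγ, fun v w => ?_⟩
  rw [h]
  have hf : W.pull f (W.p1 Y T v * W.p2 Y T w) =
      W.p1 Y (Z.prod T) v * W.p2 Y (Z.prod T) (W.p2 Z T w) := by
    simp only [map_mul, ← W.pull_comp, f, Obj.lift_fst, Obj.lift_snd]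
  have e : A * B * (W.p1 Y (Z.prod T) v * W.p2 Y (Z.prod T) (W.p2 Z T w)) =
      A * (W.p1 Y (Z.prod T) v * W.p2 Y (Z.prod T) (β * W.p2 Z T w)) := by
    rw [mul_assoc, map_mul, ← mul_assoc B, W.central hB, mul_assoc]
  rw [hf, e, W.tr_assoc_key, ← mul_assoc, ← W.central hβ, mul_assoc, ← W.tr_act]
  rfl

end Weil

end Pool.Agent.WeilH_h6
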