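import Pool.Agent.WeilH_h6.Ext

set_option autoImplicit false

/-!
# Powers of a variety and their cohomology
-/

noncomputable section

namespace Pool.Agent.WeilH_h6

open AlgebraicGeometry CategoryTheory MonoidalCategory
open scoped TensorProduct DirectSum

universe u v w

namespace VarClass

variable {k : Type u} [Field k] {𝒱 : VarClass k}

/-- The structure morphism to the point. -/
def Obj.toPt (T : 𝒱.Obj) : T ⟶ Obj.pt := CartesianMonoidalCategory.toUnit T.X

lemma Obj.toPt_unique {T : 𝒱.Obj} (f g : T ⟶ Obj.pt) : f = g :=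
  CartesianMonoidalCategory.toUnit_unique (X := T.X) f g

/-- The projection `X^(m+1) → X^m`. -/
def Obj.pfst (X : 𝒱.Obj) (m : ℕ) : X.pow (m + 1) ⟶ X.pow m := Obj.fst (X.pow m) X

/-- The last projection `X^(m+1) → X`. -/
def Obj.psnd (X : 𝒱.Obj) (m : ℕ) : X.pow (m + 1) ⟶ X := Obj.snd (X.pow m) X

/-- The morphism `T → X^(m+1)` with components in `X^m` and `X`. -/
def Obj.plift {T X : 𝒱.Obj} {m : ℕ} (f : T ⟶ X.pow m) (g : T ⟶ X) : T ⟶ X.pow (m + 1) :=
  Obj.lift f g

lemma Obj.plift_pfst {T X : 𝒱.Obj} {m : ℕ} (f : T ⟶ X.pow m) (g : T ⟶ X) :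
    Obj.plift f g ≫ Obj.pfst X m = f := Obj.lift_fst f g

lemma Obj.plift_psnd {T X : 𝒱.Obj} {m : ℕ} (f : T ⟶ X.pow m) (g : T ⟶ X) :
    Obj.plift f g ≫ Obj.psnd X m = g := Obj.lift_snd f g

lemma Obj.phom_ext {T X : 𝒱.Obj} {m : ℕ} {f g : T ⟶ X.pow (m + 1)}
    (h1 : f ≫ Obj.pfst X m = g ≫ Obj.pfst X m) (h2 : f ≫ Obj.psnd X m = g ≫ Obj.psnd X m) :
    f = g := Obj.hom_ext h1 h2

/-- The projections `X^m → X`. -/
def Obj.proj (X : 𝒱.Obj) : (m : ℕ) → Fin m → (X.pow m ⟶ X)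
  | 0 => fun s => s.elim0
  | m + 1 => Fin.lastCases (motive := fun _ => X.pow (m + 1) ⟶ X) (Obj.psnd X m)
      fun s => Obj.pfst X m ≫ Obj.proj X m s

@[simp] lemma Obj.proj_last (X : 𝒱.Obj) (m : ℕ) :
    Obj.proj X (m + 1) (Fin.last m) = Obj.psnd X m :=
  Fin.lastCases_last (motive := fun _ => X.pow (m + 1) ⟶ X)

@[simp] lemma Obj.proj_castSucc (X : 𝒱.Obj) (m : ℕ) (s : Fin m) :
    Obj.proj X (m + 1) s.castSucc = Obj.pfst X m ≫ Obj.proj X m s :=
  Fin.lastCases_castSucc (motive := fun _ => X.pow (m + 1) ⟶ X) _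

/-- The morphism `T → X^m` with given components. -/
def Obj.liftP {T X : 𝒱.Obj} : (m : ℕ) → (Fin m → (T ⟶ X)) → (T ⟶ X.pow m)
  | 0 => fun _ => T.toPt
  | m + 1 => fun f => Obj.plift (Obj.liftP m fun s => f s.castSucc) (f (Fin.last m))

@[simp] lemma Obj.liftP_proj {T X : 𝒱.Obj} (m : ℕ) (f : Fin m → (T ⟶ X)) (s : Fin m) :
    Obj.liftP m f ≫ Obj.proj X m s = f s := by
  induction m with
  | zero => exact s.elim0
  | succ m ih =>
    refine Fin.lastCases ?_ (fun s => ?_) s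
    · rw [Obj.proj_last]; exact Obj.plift_psnd _ _
    · rw [Obj.proj_castSucc, ← Category.assoc]
      have : Obj.liftP (m + 1) f ≫ Obj.pfst X m = Obj.liftP m fun s => f s.castSucc :=
        Obj.plift_pfst _ _
      rw [this, ih]

lemma Obj.pow_hom_ext {T X : 𝒱.Obj} {m : ℕ} {f g : T ⟶ X.pow m}
    (h : ∀ s, f ≫ Obj.proj X m s = g ≫ Obj.proj X m s) : f = g := by
  induction m with
  | zero => exact Obj.toPt_unique f g
  | succ m ih =>
    refine Obj.phom_ext (ih fun s => ?_) ?_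
    · have := h s.castSucc
      rw [Obj.proj_castSucc] at this
      rw [Category.assoc, Category.assoc, this]
    · have := h (Fin.last m)
      rwa [Obj.proj_last] at this

/-- The morphism `X^M → X^m` attached to a map `Fin m → Fin M` (selection of coordinates). -/
def Obj.sel (X : 𝒱.Obj) {m M : ℕ} (f : Fin m → Fin M) : X.pow M ⟶ X.pow m :=
  Obj.liftP m fun s => Obj.proj X M (f s)

@[simp] lemma Obj.sel_proj (X : 𝒱.Obj) {m M : ℕ} (f : Fin m → Fin M) (s : Fin m) :
    Obj.sel X f ≫ Obj.proj X m s = Obj.proj X M (f s) :=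
  Obj.liftP_proj m _ s

end VarClass

open VarClass

namespace Weil

variable {k : Type u} [Field k] {𝒱 : VarClass k} {K : Type v} [Field K] (W : Weil.{u, v, w} 𝒱 K)

/-- The class `q_1^* v_1 ⋯ q_m^* v_m` in `H(X^m)`, where `q_s` are the projections. -/
def pureT {X : 𝒱.Obj} {m : ℕ} (v : Fin m → W.H X) : W.H (X.pow m) :=
  (List.ofFn fun s => W.pull (Obj.proj X m s) (v s)).prod

lemma pureT_succ {X : 𝒱.Obj} {m : ℕ} (v : Fin (m + 1) → W.H X) :
    W.pureT v = W.pull (Obj.pfst X m) (W.pureT fun s => v s.castSucc) *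
      W.pull (Obj.psnd X m) (v (Fin.last m)) := by
  unfold pureT
  rw [List.ofFn_succ', List.concat_eq_append, List.prod_append, List.prod_singleton, map_list_prod,
    List.map_ofFn]
  congr 1
  · congr 2
    funext s
    rw [Obj.proj_castSucc, W.pull_comp]
    rfl
  · rw [Obj.proj_last]

lemma tr_pow_succ {X : 𝒱.Obj} {m : ℕ} (a : W.H (X.pow m)) (b : W.H X) :
    W.tr (X.pow (m + 1)) (W.pull (Obj.pfst X m) a * W.pull (Obj.psnd X m) b) =
      W.tr (X.pow m) a * W.tr X b :=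
  W.tr_prod _ _ _ _

lemma kunneth_pow {X : 𝒱.Obj} {m : ℕ} {P : W.H (X.pow (m + 1)) → Prop}
    (hadd : ∀ a b, P a → P b → P (a + b))
    (hm : ∀ x y, P (W.pull (Obj.pfst X m) x * W.pull (Obj.psnd X m) y)) (u) : P u :=
  W.kunneth_induction (X.pow m) X hadd hm u

/-- The external product as a multilinear map. -/
def pureM (X : 𝒱.Obj) (m : ℕ) : MultilinearMap K (fun _ : Fin m => W.H X) (W.H (X.pow m)) :=
  (MultilinearMap.mkPiAlgebraFin K m (W.H (X.pow m))).compLinearMap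
    fun s => (W.pull (Obj.proj X m s)).toLinearMap

@[simp] lemma pureM_apply {X : 𝒱.Obj} {m : ℕ} (v : Fin m → W.H X) :
    W.pureM X m v = W.pureT v := by
  simp [pureM, pureT]

lemma dim_pt : (Obj.pt : 𝒱.Obj).dim = 0 := by
  have h : Subsingleton (Obj.pt : 𝒱.Obj).X.left := by
    change Subsingleton (Spec (CommRingCat.of k))
    infer_instance
  have h2 : Nonempty (Obj.pt : 𝒱.Obj).X.left := by
    change Nonempty (Spec (CommRingCat.of k))
    infer_instance
  unfold Obj.dim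
  rw [Order.krullDim_eq_zero]
  rfl

lemma tr_pt_one : W.tr (Obj.pt : 𝒱.Obj) 1 = 1 := by
  have := 𝒱.integral _ (Obj.pt : 𝒱.Obj).mem
  let x : (Obj.pt : 𝒱.Obj).X.left := genericPoint (Obj.pt : 𝒱.Obj).X.left
  have hx : Order.coheight x = 0 := by
    rw [Order.coheight_eq_zero]
    intro y _
    exact genericPoint_specializes y
  have h1 := W.clPt_generic Obj.pt x hx
  rw [← h1]
  refine W.tr_clPt Obj.pt x ?_
  rw [hx, dim_pt]; rfl

/-- `H(pt) = K`. -/
lemma eq_smul_one (x : W.H (Obj.pt : 𝒱.Obj)) : x = W.tr Obj.pt x • 1 := by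
  have hd : 2 * (Obj.pt : 𝒱.Obj).dim = 0 := by rw [dim_pt]
  have h0 : ∀ y : W.H (Obj.pt : 𝒱.Obj), y ∈ W.grad Obj.pt (2 * (Obj.pt : 𝒱.Obj).dim) := by
    intro y
    refine W.hom_induction (P := fun y => y ∈ W.grad Obj.pt (2 * (Obj.pt : 𝒱.Obj).dim))
      (Submodule.zero_mem _) (fun a b => Submodule.add_mem _) ?_ y
    intro i y hy
    rcases Nat.eq_zero_or_pos i with hi | hi
    · subst hi; rwa [hd]
    · have : W.grad (Obj.pt : 𝒱.Obj) i = ⊥ := W.vanish _ _ (by rw [hd]; exact hi)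
      rw [this] at hy
      rw [(Submodule.mem_bot K).1 hy]
      exact Submodule.zero_mem _
  have hinj := (W.tr_bij (Obj.pt : 𝒱.Obj)).1
  have : (⟨x, h0 x⟩ : W.grad (Obj.pt : 𝒱.Obj) (2 * (Obj.pt : 𝒱.Obj).dim)) =
      ⟨W.tr Obj.pt x • 1, h0 _⟩ := by
    apply hinj
    simp only [map_smul, W.tr_pt_one, smul_eq_mul, mul_one]
  exact congrArg Subtype.val this

@[simp] lemma pureT_zero {X : 𝒱.Obj} (v : Fin 0 → W.H X) : W.pureT v = 1 := by
  simp [pureT]

/-- Products of classes from the factors span the cohomology of `X^m`. -/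
lemma pure_induction {X : 𝒱.Obj} {m : ℕ} {P : W.H (X.pow m) → Prop}
    (hadd : ∀ a b, P a → P b → P (a + b)) (hsmul : ∀ (c : K) a, P a → P (c • a))
    (hm : ∀ v, P (W.pureT v)) (u : W.H (X.pow m)) : P u := by
  induction m with
  | zero =>
    rw [W.eq_smul_one (𝒱 := 𝒱) u]
    have := hm Fin.elim0
    rw [pureT_zero] at this
    exact hsmul _ _ this
  | succ m ih =>
    refine W.kunneth_pow (P := P) hadd (fun x y => ?_) u
    refine ih (P := fun x => P (W.pull (Obj.pfst X m) x * W.pull (Obj.psnd X m) y)) ?_ ?_ ?_ x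
    · intro a b ha hb
      rw [map_add, add_mul]; exact hadd _ _ ha hb
    · intro c a ha
      rw [map_smul, smul_mul_assoc]; exact hsmul _ _ ha
    · intro v
      have := hm (Fin.snoc v y)
      rw [pureT_succ] at this
      simpa using this

lemma tr_pureT {X : 𝒱.Obj} {m : ℕ} (v : Fin m → W.H X) :
    W.tr (X.pow m) (W.pureT v) = ∏ s, W.tr X (v s) := by
  induction m with
  | zero => rw [pureT_zero, Fin.prod_univ_zero]; exact W.tr_pt_one
  | succ m ih => rw [pureT_succ, tr_pow_succ, ih, Fin.prod_univ_castSucc]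

/-- Pull-back of a product class along a morphism with given components. -/
lemma pull_pureT {T X : 𝒱.Obj} {m : ℕ} (f : T ⟶ X.pow m) (v : Fin m → W.H X) :
    W.pull f (W.pureT v) = (List.ofFn fun s => W.pull (f ≫ Obj.proj X m s) (v s)).prod := by
  unfold pureT
  rw [map_list_prod, List.map_ofFn]
  congr 2
  funext s
  exact (W.pull_comp _ _ _).symm

end Weil

end Pool.Agent.WeilH_h6
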