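import Pool.Agent.WeilH_h6.Rat

set_option autoImplicit false

/-!
# Correspondences with rational coefficients
-/

noncomputable section

namespace Pool.Agent.WeilH_h6

open AlgebraicGeometry CategoryTheory MonoidalCategory
open scoped TensorProduct DirectSum
open VarClass

universe u v w

namespace Weil

variable {k : Type u} [Field k] {𝒱 : VarClass k} {K : Type v} [Field K] (W : Weil.{u, v, w} 𝒱 K)

/-- Maps given by (sums of) cycles with rational coefficients. -/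
def RatHom {Y Z : 𝒱.Obj} (φ : W.H Y →ₗ[K] W.H Z) : Prop :=
  ∃ α ∈ W.ratSpan (Y.prod Z), W.act α = φ

/-- cf. `mem_algHom_iff`: `tr_act`, `ext_tr`. -/
lemma ratHom_iff {Y Z : 𝒱.Obj} {φ : W.H Y →ₗ[K] W.H Z} :
    W.RatHom φ ↔ ∃ α ∈ W.ratSpan (Y.prod Z), ∀ v w,
      W.tr Z (φ v * w) = W.tr (Y.prod Z) (α * (W.p1 Y Z v * W.p2 Y Z w)) := by
  constructor
  · rintro ⟨α, hα, rfl⟩
    exact ⟨α, hα, W.tr_act α⟩
  · rintro ⟨α, hα, h⟩
    refine ⟨α, hα, ?_⟩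
    ext v
    refine W.ext_tr fun w => ?_
    rw [W.tr_act, h]

lemma RatHom.mem_algHom {Y Z : 𝒱.Obj} {φ : W.H Y →ₗ[K] W.H Z} (h : W.RatHom φ) :
    φ ∈ W.algHom Y Z := by
  obtain ⟨α, hα, rfl⟩ := h
  exact W.act_mem_algHom.2 (W.ratSpan_le hα)

/-- The proof of `algHom_apply_mem` with `push_ratSpan` instead of `push_algSpan`. -/
lemma RatHom.apply_mem {Y Z : 𝒱.Obj} {φ : W.H Y →ₗ[K] W.H Z} (h : W.RatHom φ) {a : W.H Y}
    (ha : a ∈ W.ratSpan Y) : φ a ∈ W.ratSpan Z := by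
  obtain ⟨α, hα, rfl⟩ := h
  obtain ⟨b, hb, h⟩ := W.push_ratSpan (Obj.snd Y Z)
    (W.mul_mem_ratSpan hα (W.pull_mem_ratSpan (Obj.fst Y Z) ha))
  have : W.act α a = b := by
    refine W.ext_tr fun w => ?_
    rw [h, W.tr_act, mul_assoc]
  rwa [this]

/-- The proof of `exists_diag`, `id_mem_algHom` with `push_ratSpan` and `one_mem_ratSpan`. -/
lemma RatHom.id [CharZero K] (Y : 𝒱.Obj) : W.RatHom (LinearMap.id : W.H Y →ₗ[K] W.H Y) := by
  obtain ⟨δ, hδ, h⟩ := W.push_ratSpan (diag Y) (W.one_mem_ratSpan Y)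
  rw [W.ratHom_iff]
  refine ⟨δ, hδ, fun v w => ?_⟩
  rw [h, one_mul, map_mul (W.pull (diag Y)), W.pull_diag_p1, W.pull_diag_p2]
  rfl

/-- The proof of `extHom_mem_algHom`: the class of `extHom (act α) (act β)` is
`W.pull (mid1 Y Y' Z Z') α * W.pull (mid2 Y Y' Z Z') β`; copy that proof, `mul_mem_ratSpan`,
`pull_mem_ratSpan`. -/
lemma RatHom.extHom [CharZero K] {Y Z Y' Z' : 𝒱.Obj} {φ : W.H Y →ₗ[K] W.H Z}
    {ψ : W.H Y' →ₗ[K] W.H Z'} (hφ : W.RatHom φ) (hψ : W.RatHom ψ) :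
    W.RatHom (W.extHom φ ψ) := by
  have hψ' := hψ
  obtain ⟨α, hα, rfl⟩ := hφ
  obtain ⟨β, hβ, rfl⟩ := hψ
  have hA : W.pull (mid1 Y Y' Z Z') α ∈ W.ratSpan _ := W.pull_mem_ratSpan _ hα
  have hB : W.pull (mid2 Y Y' Z Z') β ∈ W.ratSpan _ := W.pull_mem_ratSpan _ hβ
  rw [W.ratHom_iff]
  refine ⟨_, W.mul_mem_ratSpan hA hB, fun v w => ?_⟩
  refine W.kunneth_induction Y Y' (P := fun v => W.tr (Z.prod Z') (W.extHom (W.act α) (W.act β) v *
    w) = W.tr _ (W.pull (mid1 Y Y' Z Z') α * W.pull (mid2 Y Y' Z Z') β *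
      (W.p1 (Y.prod Y') (Z.prod Z') v * W.p2 (Y.prod Y') (Z.prod Z') w))) ?_ ?_ v
  · intro a b ha hb
    simp only [map_add, mul_add, add_mul] at ha hb ⊢
    rw [ha, hb]
  intro y y'
  refine W.kunneth_induction Z Z' (P := fun w => W.tr (Z.prod Z') (W.extHom (W.act α) (W.act β)
    (W.p1 Y Y' y * W.p2 Y Y' y') *
    w) = W.tr _ (W.pull (mid1 Y Y' Z Z') α * W.pull (mid2 Y Y' Z Z') β *
      (W.p1 (Y.prod Y') (Z.prod Z') (W.p1 Y Y' y * W.p2 Y Y' y') *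
        W.p2 (Y.prod Y') (Z.prod Z') w))) ?_ ?_ w
  · intro a b ha hb
    simp only [map_add, mul_add] at ha hb ⊢
    rw [ha, hb]
  intro z z'
  rw [W.extHom_apply]
  refine W.hom_induction (P := fun z => W.tr (Z.prod Z') (W.p1 Z Z' (W.act α y) *
    W.p2 Z Z' (W.act β y') * (W.p1 Z Z' z * W.p2 Z Z' z')) =
    W.tr _ (W.pull (mid1 Y Y' Z Z') α * W.pull (mid2 Y Y' Z Z') β *
      (W.p1 (Y.prod Y') (Z.prod Z') (W.p1 Y Y' y * W.p2 Y Y' y') *
        W.p2 (Y.prod Y') (Z.prod Z') (W.p1 Z Z' z * W.p2 Z Z' z')))) (by simp) ?_ ?_ z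
  · intro a b ha hb
    simp only [map_add, mul_add, add_mul] at ha hb ⊢
    rw [ha, hb]
  intro j z hz
  refine W.hom_induction (P := fun y' => W.tr (Z.prod Z') (W.p1 Z Z' (W.act α y) *
    W.p2 Z Z' (W.act β y') * (W.p1 Z Z' z * W.p2 Z Z' z')) =
    W.tr _ (W.pull (mid1 Y Y' Z Z') α * W.pull (mid2 Y Y' Z Z') β *
      (W.p1 (Y.prod Y') (Z.prod Z') (W.p1 Y Y' y * W.p2 Y Y' y') *
        W.p2 (Y.prod Y') (Z.prod Z') (W.p1 Z Z' z * W.p2 Z Z' z')))) (by simp) ?_ ?_ y'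
  · intro a b ha hb
    simp only [map_add, mul_add, add_mul] at ha hb ⊢
    rw [ha, hb]
  intro i y' hy'
  -- left hand side
  have hl : W.p2 Z Z' (W.act β y') * W.p1 Z Z' z =
      ((-1 : K) ^ (i * j)) • (W.p1 Z Z' z * W.p2 Z Z' (W.act β y')) := by
    refine W.supercomm ?_ ?_
    · rw [W.par_pull, ← W.par_algHom (RatHom.mem_algHom W hψ'), W.par_apply hy', map_smul, map_smul]
    · rw [W.par_pull, W.par_apply hz, map_smul]
  have e1 : W.p1 Z Z' (W.act α y) * W.p2 Z Z' (W.act β y') * (W.p1 Z Z' z * W.p2 Z Z' z') =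
      ((-1 : K) ^ (i * j)) • (W.p1 Z Z' (W.act α y * z) * W.p2 Z Z' (W.act β y' * z')) := by
    rw [map_mul, map_mul, mul_assoc, ← mul_assoc (W.p2 Z Z' (W.act β y')), hl,
      smul_mul_assoc, mul_smul_comm, mul_assoc, mul_assoc]
  have hr : W.p2 (Y.prod Y') (Z.prod Z') (W.p1 Z Z' z) *
      W.p1 (Y.prod Y') (Z.prod Z') (W.p2 Y Y' y') =
      ((-1 : K) ^ (i * j)) • (W.p1 (Y.prod Y') (Z.prod Z') (W.p2 Y Y' y') *
        W.p2 (Y.prod Y') (Z.prod Z') (W.p1 Z Z' z)) :=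
    W.mid_comm (by rw [W.par_pull, W.par_apply hy', map_smul])
      (by rw [W.par_pull, W.par_apply hz, map_smul])
  have hs : ((-1 : K) ^ (i * j)) * ((-1 : K) ^ (i * j)) = 1 := by
    rw [← mul_pow]; simp
  have hr' : W.p1 (Y.prod Y') (Z.prod Z') (W.p2 Y Y' y') *
        W.p2 (Y.prod Y') (Z.prod Z') (W.p1 Z Z' z) = ((-1 : K) ^ (i * j)) •
      (W.p2 (Y.prod Y') (Z.prod Z') (W.p1 Z Z' z) *
      W.p1 (Y.prod Y') (Z.prod Z') (W.p2 Y Y' y')) := by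
    rw [hr, smul_smul, hs, one_smul]
  have e2 : W.pull (mid1 Y Y' Z Z') α * W.pull (mid2 Y Y' Z Z') β *
      (W.p1 (Y.prod Y') (Z.prod Z') (W.p1 Y Y' y * W.p2 Y Y' y') *
        W.p2 (Y.prod Y') (Z.prod Z') (W.p1 Z Z' z * W.p2 Z Z' z')) =
      ((-1 : K) ^ (i * j)) • W.pull (midM Y Y' Z Z')
        (W.p1 (Y.prod Z) (Y'.prod Z') (α * (W.p1 Y Z y * W.p2 Y Z z)) *
          W.p2 (Y.prod Z) (Y'.prod Z') (β * (W.p1 Y' Z' y' * W.p2 Y' Z' z'))) := by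
    have a1 : W.pull (midM Y Y' Z Z') (W.p1 (Y.prod Z) (Y'.prod Z') α) =
        W.pull (mid1 Y Y' Z Z') α := by rw [← W.pull_comp, Obj.lift_fst]
    have a2 : W.pull (midM Y Y' Z Z') (W.p2 (Y.prod Z) (Y'.prod Z') β) =
        W.pull (mid2 Y Y' Z Z') β := by rw [← W.pull_comp, Obj.lift_snd]
    have a3 := W.pull_mid y y' z z'
    rw [map_mul] at a3
    have c1 : W.p1 (Y.prod Z) (Y'.prod Z') (W.p1 Y Z y * W.p2 Y Z z) *
        W.p2 (Y.prod Z) (Y'.prod Z') β =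
        W.p2 (Y.prod Z) (Y'.prod Z') β *
          W.p1 (Y.prod Z) (Y'.prod Z') (W.p1 Y Z y * W.p2 Y Z z) :=
      (W.central (W.pull_mem_algSpan (Obj.snd (Y.prod Z) (Y'.prod Z')) (W.ratSpan_le hβ)) _).symm
    have a4 : W.pull (midM Y Y' Z Z')
        (W.p1 (Y.prod Z) (Y'.prod Z') (α * (W.p1 Y Z y * W.p2 Y Z z)) *
          W.p2 (Y.prod Z) (Y'.prod Z') (β * (W.p1 Y' Z' y' * W.p2 Y' Z' z'))) =
        W.pull (mid1 Y Y' Z Z') α * (W.pull (mid2 Y Y' Z Z') β *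
          (W.pull (midM Y Y' Z Z') (W.p1 (Y.prod Z) (Y'.prod Z') (W.p1 Y Z y * W.p2 Y Z z)) *
          W.pull (midM Y Y' Z Z')
            (W.p2 (Y.prod Z) (Y'.prod Z') (W.p1 Y' Z' y' * W.p2 Y' Z' z')))) := by
      rw [map_mul (W.p1 (Y.prod Z) (Y'.prod Z')) α, map_mul (W.p2 (Y.prod Z) (Y'.prod Z')) β,
        mul_assoc (W.p1 (Y.prod Z) (Y'.prod Z') α),
        ← mul_assoc (W.p1 (Y.prod Z) (Y'.prod Z') (W.p1 Y Z y * W.p2 Y Z z)), c1,
        mul_assoc (W.p2 (Y.prod Z) (Y'.prod Z') β),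
        map_mul (W.pull (midM Y Y' Z Z')) (W.p1 (Y.prod Z) (Y'.prod Z') α),
        map_mul (W.pull (midM Y Y' Z Z')) (W.p2 (Y.prod Z) (Y'.prod Z') β),
        map_mul (W.pull (midM Y Y' Z Z')) (W.p1 (Y.prod Z) (Y'.prod Z') _), a1, a2]
    rw [a4, a3]
    simp only [map_mul]
    rw [mul_assoc (W.pull (mid1 Y Y' Z Z') α), ← mul_smul_comm, ← mul_smul_comm]
    congr 2
    simp only [mul_assoc]
    rw [← mul_assoc (W.p1 (Y.prod Y') (Z.prod Z') (W.p2 Y Y' y')), hr', smul_mul_assoc,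
      mul_smul_comm]
    simp only [mul_assoc]
  rw [e1, e2, map_smul, map_smul, W.tr_pull_mid, W.tr_prod, W.tr_prod, W.tr_act, W.tr_act]

/-- The proof of `powMap_mem_algHom`. -/
lemma RatHom.powMap [CharZero K] {X : 𝒱.Obj} {m : ℕ} {φ : Fin m → Module.End K (W.H X)}
    (h : ∀ s, W.RatHom (Y := X) (Z := X) (φ s)) :
    W.RatHom (Y := X.pow m) (Z := X.pow m) (W.powMap m φ) := by
  induction m with
  | zero => exact RatHom.id W _
  | succ m ih =>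
    exact RatHom.extHom W (Y := X.pow m) (Z := X.pow m) (Y' := X) (Z' := X)
      (ih fun s => h s.castSucc) (h (Fin.last m))

/-- The proof of `adj_mem_algHom`: the class of the adjoint is `W.pull (swapM X X) α`. -/
lemma RatHom.adj [CharZero K] {X : 𝒱.Obj} {φ φ' : Module.End K (W.H X)}
    (hφ : W.RatHom (Y := X) (Z := X) φ)
    (hadj : ∀ v v', W.tr X (φ v * v') = W.tr X (v * φ' v')) :
    W.RatHom (Y := X) (Z := X) φ' := by
  obtain ⟨α, hα, hα'⟩ := W.ratHom_iff.1 hφ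
  have hαa : α ∈ W.algSpan (X.prod X) := W.ratSpan_le hα
  rw [W.ratHom_iff]
  refine ⟨W.pull (swapM X X) α, W.pull_mem_ratSpan _ hα, fun v w => ?_⟩
  have h1 : W.tr X (φ' v * w) = W.tr (X.prod X) (α * (W.p1 X X (W.par X w) * W.p2 X X v)) := by
    rw [W.tr_comm, ← W.dual_tr_par_left, ← hadj, hα']
  have h2 : W.pull (swapM X X) α * (W.p1 X X v * W.p2 X X w) =
      W.pull (swapM X X) (α * (W.p2 X X v * W.p1 X X w)) := by
    simp only [map_mul, ← W.pull_comp, Obj.lift_fst, Obj.lift_snd]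
  have h3 : W.tr (X.prod X) (α * (W.p2 X X v * W.p1 X X w)) =
      W.tr (X.prod X) (α * (W.p1 X X (W.par X w) * W.p2 X X v)) := by
    rw [← mul_assoc, W.tr_comm, W.par_mul, W.par_algSpan hαa, W.par_pull, ← mul_assoc,
      ← W.central hαa, mul_assoc, ← W.tr_par, W.par_mul, W.par_mul, W.par_algSpan hαa, W.par_pull,
      W.par_pull, W.par_par]
  rw [h1, h2, W.dual_tr_swap, h3]

end Weil

end Pool.Agent.WeilH_h6
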