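import Pool.Agent.WeilH_h6.Lam

set_option autoImplicit false

/-!
# The complete contraction of a product class
-/

noncomputable section

namespace Pool.Agent.WeilH_h6

open AlgebraicGeometry CategoryTheory MonoidalCategory
open scoped TensorProduct DirectSum
open VarClass

universe u v w

namespace Weil

variable {k : Type u} [Field k] {𝒱 : VarClass k} {K : Type v} [Field K] (W : Weil.{u, v, w} 𝒱 K)

lemma LamB_list {A : Type w} [Monoid A] (n : ℕ) (a b : Fin n → A)
    (hb : ∀ j x, b j * x = x * b j) :
    (List.ofFn a).prod * (List.ofFn b).prod = (List.ofFn fun j => a j * b j).prod := by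
  induction n with
  | zero => simp
  | succ n ih =>
    rw [List.ofFn_succ, List.ofFn_succ, List.ofFn_succ, List.prod_cons, List.prod_cons,
      List.prod_cons, ← ih (fun j => a j.succ) (fun j => b j.succ) (fun j x => hb j.succ x)]
    rw [mul_assoc, mul_assoc]
    congr 1
    rw [← mul_assoc, ← hb 0, mul_assoc]

lemma LamB_pureT {X : 𝒱.Obj} {R : ℕ} (u : Fin (R * 2) → W.H X) :
    W.pureT u = (List.ofFn fun j : Fin R =>
      W.pull (Obj.proj X (R * 2) (finProdFinEquiv (j, 0))) (u (finProdFinEquiv (j, 0))) *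
        W.pull (Obj.proj X (R * 2) (finProdFinEquiv (j, 1))) (u (finProdFinEquiv (j, 1)))).prod := by
  unfold pureT
  rw [List.ofFn_mul, List.prod_flatten, List.map_ofFn]
  congr 2
  funext j
  have h0 : (⟨(j : ℕ) * 2 + ((0 : Fin 2) : ℕ), by omega⟩ : Fin (R * 2)) = finProdFinEquiv (j, 0) := by
    apply Fin.ext
    simp [finProdFinEquiv, mul_comm]
  have h1 : (⟨(j : ℕ) * 2 + ((1 : Fin 2) : ℕ), by omega⟩ : Fin (R * 2)) = finProdFinEquiv (j, 1) := by
    apply Fin.ext
    simp [finProdFinEquiv, mul_comm, add_comm]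
  rw [← h0, ← h1]
  simp [List.ofFn_succ]

/-- The complete contraction of a product class.

Proof.  `pureT u = (List.ofFn fun j => pull (pairM j) (p1 (u (j,0)) * p2 (u (j,1)))).prod`; the
factors of `theta` are central (`central`, `delta_mem`), so that `pureT u * theta` is the product of
the `pull (pairM j) (delta * (p1 (u (j,0)) * p2 (u (j,1))))` (general lemma on lists:
`(ofFn a).prod * (ofFn b).prod = (ofFn (a * b)).prod` if the `b j` are central, by induction);
apply `tr_pairs` and `tr_delta`. -/
lemma tr_pureT_theta {X : 𝒱.Obj} {R : ℕ} (u : Fin (R * 2) → W.H X) :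
    W.tr (X.pow (R * 2)) (W.pureT u * W.theta X R) =
      ∏ j : Fin R, W.tr X (u (finProdFinEquiv (j, 0)) * u (finProdFinEquiv (j, 1))) := by
  have hc : ∀ (j : Fin R) (x : W.H (X.pow (R * 2))),
      W.pull (pairM X R j) (W.delta X) * x = x * W.pull (pairM X R j) (W.delta X) :=
    fun j x => W.central (W.pull_mem_algSpan _ (W.delta_mem X)) x
  have h1 : W.pureT u * W.theta X R = (List.ofFn fun j : Fin R => W.pull (pairM X R j)
      (W.delta X * (W.p1 X X (u (finProdFinEquiv (j, 0))) *
        W.p2 X X (u (finProdFinEquiv (j, 1)))))).prod := by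
    rw [W.LamB_pureT, theta, LamB_list R _ _ hc]
    congr 2
    funext j
    rw [W.central (W.delta_mem X), map_mul, map_mul]
    congr 1
    rw [← W.pull_comp, ← W.pull_comp]
    unfold pairM
    rw [Obj.lift_fst, Obj.lift_snd]
  rw [h1, W.tr_pairs]
  exact Finset.prod_congr rfl fun j _ => W.tr_delta _ _

end Weil

end Pool.Agent.WeilH_h6
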