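import Pool.Agent.WeilH_h6.Parts

set_option autoImplicit false

/-!
# Coordinates in the word parts
-/

noncomputable section

namespace Pool.Agent.WeilH_h6

open AlgebraicGeometry CategoryTheory MonoidalCategory
open scoped TensorProduct DirectSum
open VarClass

universe u v w

namespace Weil

variable {k : Type u} [Field k] {𝒱 : VarClass k} {K : Type v} [Field K] (W : Weil.{u, v, w} 𝒱 K)

lemma Coord_par_pureT {X : 𝒱.Obj} {m : ℕ} (v : Fin m → W.H X) (π : Fin m → ℕ)
    (hv : ∀ s, W.par X (v s) = ((-1 : K) ^ (π s)) • v s) :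
    W.par (X.pow m) (W.pureT v) = ((-1 : K) ^ (∑ s, π s)) • W.pureT v := by
  induction m with
  | zero =>
    rw [pureT_zero]
    have h1 : (1 : W.H (X.pow 0)) ∈ W.grad (X.pow 0) 0 := SetLike.one_mem_graded _
    rw [W.par_apply h1]; simp
  | succ m ih =>
    rw [pureT_succ, par_mul, par_pull, par_pull, ih _ _ (fun s => hv s.castSucc), hv, map_smul,
      map_smul, smul_mul_smul_comm, ← pow_add, Fin.sum_univ_castSucc]

lemma Coord_mul [CharZero K] {X : 𝒱.Obj} (m : ℕ) (π : Fin m → ℕ) : ∃ ε : K, ε ≠ 0 ∧
    ∀ v v' : Fin m → W.H X, (∀ s, W.par X (v s) = ((-1 : K) ^ (π s)) • v s) →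
      (∀ s, W.par X (v' s) = ((-1 : K) ^ (π s)) • v' s) →
      W.pureT v * W.pureT v' = ε • W.pureT (fun s => v s * v' s) := by
  induction m with
  | zero =>
    exact ⟨1, one_ne_zero, fun v v' _ _ => by
      rw [pureT_zero, pureT_zero, pureT_zero, one_smul, mul_one]⟩
  | succ m ih =>
    obtain ⟨ε, hε, h⟩ := ih (fun s => π s.castSucc)
    refine ⟨(-1) ^ (π (Fin.last m) * ∑ s, π (Fin.castSucc s)) * ε, ?_, fun v v' hv hv' => ?_⟩
    · exact mul_ne_zero (pow_ne_zero _ (neg_ne_zero.2 one_ne_zero)) hε
    · have e := W.supercomm (x := W.pull (Obj.psnd X m) (v (Fin.last m)))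
        (y := W.pull (Obj.pfst X m) (W.pureT fun s => v' s.castSucc))
        (i := π (Fin.last m)) (j := ∑ s, π (Fin.castSucc s))
        (by rw [par_pull, hv, map_smul])
        (by rw [par_pull, W.Coord_par_pureT _ _ (fun s => hv' s.castSucc), map_smul])
      have h' := h (fun s => v s.castSucc) (fun s => v' s.castSucc) (fun s => hv s.castSucc)
        (fun s => hv' s.castSucc)
      rw [pureT_succ, pureT_succ, pureT_succ]
      calc W.pull (Obj.pfst X m) (W.pureT fun s => v s.castSucc) *
              W.pull (Obj.psnd X m) (v (Fin.last m)) *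
            (W.pull (Obj.pfst X m) (W.pureT fun s => v' s.castSucc) *
              W.pull (Obj.psnd X m) (v' (Fin.last m)))
          = W.pull (Obj.pfst X m) (W.pureT fun s => v s.castSucc) *
              (W.pull (Obj.psnd X m) (v (Fin.last m)) *
            W.pull (Obj.pfst X m) (W.pureT fun s => v' s.castSucc)) *
              W.pull (Obj.psnd X m) (v' (Fin.last m)) := by
            simp only [mul_assoc]
        _ = ((-1 : K) ^ (π (Fin.last m) * ∑ s, π (Fin.castSucc s))) •
              (W.pull (Obj.pfst X m) ((W.pureT fun s => v s.castSucc) *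
                W.pureT fun s => v' s.castSucc) *
              W.pull (Obj.psnd X m) (v (Fin.last m) * v' (Fin.last m))) := by
            rw [e, mul_smul_comm, smul_mul_assoc, map_mul, map_mul]
            simp only [mul_assoc]
        _ = _ := by
            rw [h', map_smul, smul_mul_assoc, smul_smul]

/-- Coordinates.  If `U s` is spanned by a finite family `b s`, then each element of the part is a
linear combination of the classes `pureT (b ∘ c)`.

Proof.  `pureT` is multilinear (`pureM`); write `v s = ∑_j coef s j • b s j` and use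
`MultilinearMap.map_sum` and `MultilinearMap.map_smul_univ`; sums and scalar multiples are clear
(span induction). -/
lemma exists_coord {X : 𝒱.Obj} {m : ℕ} {U : Fin m → Submodule K (W.H X)} {β : Fin m → Type}
    [∀ s, Fintype (β s)] (b : ∀ s, β s → W.H X) (hb : ∀ s, U s ≤ Submodule.span K (Set.range (b s)))
    {z : W.H (X.pow m)} (hz : z ∈ W.partOf U) :
    ∃ x : (∀ s, β s) → K, z = ∑ c, x c • W.pureT fun s => b s (c s) := by
  classical
  unfold partOf at hz
  induction hz using Submodule.span_induction with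
  | mem a ha =>
    obtain ⟨v, hv, rfl⟩ := ha
    have h1 : ∀ s, ∃ co : β s → K, ∑ j, co j • b s j = v s := fun s =>
      (Submodule.mem_span_range_iff_exists_fun K).1 (hb s (hv s))
    choose co hco using h1
    refine ⟨fun c => ∏ s, co s (c s), ?_⟩
    have h2 : v = fun s => ∑ j, co s j • b s j := by
      funext s; exact (hco s).symm
    rw [← pureM_apply, h2, MultilinearMap.map_sum]
    refine Finset.sum_congr rfl fun c _ => ?_
    rw [MultilinearMap.map_smul_univ, pureM_apply]
  | zero => exact ⟨0, by simp⟩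
  | add a a' _ _ ha ha' =>
    obtain ⟨x, hx⟩ := ha
    obtain ⟨y, hy⟩ := ha'
    exact ⟨x + y, by simp only [Pi.add_apply, add_smul, Finset.sum_add_distrib, ← hx, ← hy]⟩
  | smul c a _ ha =>
    obtain ⟨x, hx⟩ := ha
    refine ⟨c • x, ?_⟩
    rw [hx, Finset.smul_sum]
    refine Finset.sum_congr rfl fun d _ => ?_
    rw [Pi.smul_apply, smul_eq_mul, mul_smul]

/-- Injectivity of the coordinates.  If there are `b' s j ∈ H(X)` with
`Tr (b s j * b' s j') = δ_{j j'}` and all the classes have a parity (`par (b s j) = (-1)^(π s)`,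
`par (b' s j) = (-1)^(π s)`), then the coordinates are determined by the element.

Proof.  By supercommutativity `pureT v * pureT v' = ε • pureT (v * v')` with a sign `ε` which depends
only on `π` (induction on `m` with `pureT_succ`; `ε_{m+1} = ε_m * (-1)^(π last * ∑ π)`), hence
`Tr (pureT (b ∘ c) * pureT (b' ∘ c')) = ε * ∏ δ`. -/
lemma coord_injective [CharZero K] {X : 𝒱.Obj} {m : ℕ} {β : Fin m → Type} [∀ s, Fintype (β s)]
    [∀ s, DecidableEq (β s)]
    (b b' : ∀ s, β s → W.H X) (π : Fin m → ℕ)
    (hb : ∀ s j, W.par X (b s j) = ((-1 : K) ^ (π s)) • b s j)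
    (hb' : ∀ s j, W.par X (b' s j) = ((-1 : K) ^ (π s)) • b' s j)
    (hd : ∀ s j j', W.tr X (b s j * b' s j') = if j = j' then 1 else 0)
    {x y : (∀ s, β s) → K}
    (h : ∑ c, x c • W.pureT (fun s => b s (c s)) = ∑ c, y c • W.pureT fun s => b s (c s)) :
    x = y := by
  classical
  obtain ⟨ε, hε, hm⟩ := W.Coord_mul (X := X) m π
  have key : ∀ c c' : (∀ s, β s), W.tr (X.pow m) (W.pureT (fun s => b s (c s)) *
      W.pureT (fun s => b' s (c' s))) = if c = c' then ε else 0 := by
    intro c c'
    rw [hm _ _ (fun s => hb s _) (fun s => hb' s _), map_smul, tr_pureT, smul_eq_mul]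
    split_ifs with hc
    · subst hc
      have : ∏ s, W.tr X (b s (c s) * b' s (c s)) = 1 := by
        refine Finset.prod_eq_one fun s _ => ?_
        rw [hd, if_pos rfl]
      rw [this, mul_one]
    · obtain ⟨s, hs⟩ := Function.ne_iff.1 hc
      have : ∏ s, W.tr X (b s (c s) * b' s (c' s)) = 0 := by
        refine Finset.prod_eq_zero (Finset.mem_univ s) ?_
        rw [hd, if_neg hs]
      rw [this, mul_zero]
  have ev : ∀ (x : (∀ s, β s) → K) (c' : ∀ s, β s),
      W.tr (X.pow m) ((∑ c, x c • W.pureT (fun s => b s (c s))) *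
      W.pureT (fun s => b' s (c' s))) = x c' * ε := by
    intro x c'
    rw [Finset.sum_mul, map_sum, Finset.sum_eq_single c']
    · rw [smul_mul_assoc, map_smul, key, if_pos rfl, smul_eq_mul]
    · intro c _ hc
      rw [smul_mul_assoc, map_smul, key, if_neg hc, smul_zero]
    · intro hc; exact absurd (Finset.mem_univ _) hc
  funext c'
  have h1 := ev x c'
  rw [h, ev y c'] at h1
  exact (mul_right_cancel₀ hε h1).symm

end Weil

end Pool.Agent.WeilH_h6
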