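import Mathlib

set_option autoImplicit false

/-!
# Submonoids of `ℤ^I` stable under a finite group
-/

namespace Pool.Agent.WeilH_h6

/-- the sum over the group of a nonnegative nonzero vector supported on an orbit -/
lemma comb_pos {I G : Type} [Group G] [Fintype G] [MulAction G I] (d : I → ℤ) (i : I)
    (hd : d ≠ 0) (hs : ∀ j, j ∉ MulAction.orbit G i → d j = 0) (hp : ∀ j, 0 ≤ d j) :
    ∃ n : ℕ, 1 ≤ n ∧ (∀ j, j ∈ MulAction.orbit G i → ∑ g : G, d (g⁻¹ • j) = n) ∧
      ∀ j, j ∉ MulAction.orbit G i → ∑ g : G, d (g⁻¹ • j) = 0 := by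
  classical
  have hinv : ∀ (j : I) (g : G), ∑ h : G, d (h⁻¹ • (g • j)) = ∑ h : G, d (h⁻¹ • j) := by
    intro j g
    rw [← Equiv.sum_comp (Equiv.mulLeft g)]
    refine Finset.sum_congr rfl fun h _ => ?_
    rw [Equiv.coe_mulLeft, mul_inv_rev, smul_smul, inv_mul_cancel_right]
  have hpos : 0 < ∑ g : G, d (g⁻¹ • i) := by
    obtain ⟨j, hj⟩ := Function.ne_iff.1 hd
    have hj' : j ∈ MulAction.orbit G i := by
      by_contra hc
      exact hj (hs j hc)
    obtain ⟨g, rfl⟩ := hj'
    refine Finset.sum_pos' (fun h _ => hp _) ⟨g⁻¹, Finset.mem_univ _, ?_⟩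
    rw [inv_inv]
    exact lt_of_le_of_ne (hp _) (Ne.symm hj)
  refine ⟨(∑ g : G, d (g⁻¹ • i)).toNat, ?_, ?_, ?_⟩
  · omega
  · rintro j ⟨g, rfl⟩
    change ∑ h : G, d (h⁻¹ • (g • i)) = _
    rw [hinv]
    omega
  · intro j hj
    refine Finset.sum_eq_zero fun g _ => hs _ fun hc => hj ?_
    have h1 := MulAction.mem_orbit_of_mem_orbit g hc
    rwa [smul_inv_smul] at h1

/-- Let the finite group `G` act on the finite set `I` and let `D ⊆ ℤ^I` be a submonoid stable under
`G` which contains, for every orbit and every sign, a nonzero vector supported on the orbit with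
coordinates of this sign.  Then `-N d ∈ D` for every `d ∈ D` and some `N ≥ 1`.

Proof.  Step 1.  For `i : I` and a sign `ε` let `d₀` be the given vector.  `∑_g g d₀ ∈ D` has at
`j ∈ G i` the coordinate `∑_g d₀ (g⁻¹ j) = |Stab| · ∑_{j' ∈ G i} d₀ j'`, which does not depend on `j ∈ G i`,
is not zero and has the sign `ε` (show: it is the same for `j` and `h j` by reindexing the sum over
`g`; it is not zero because `d₀ j₁ ≠ 0` for some `j₁ ∈ G i`, all terms have the sign `ε` and one of the
terms is `d₀ j₁`).  So `D` contains `ε n 1_{G i}` for some `n ≥ 1` (`n` depending on `i`, `ε`), and, by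
taking multiples, one can take the same `n` for all `i` and `ε` (finitely many; product).
Step 2.  Let `d ∈ D` and `s = ∑_g g d ∈ D`.  `s` is constant on the orbits, so that
`s = ∑_i s_i / |G i| · 1_{G i}` and `-(n M) s = ∑_i (n |s_i| M / |G i|) (± 1_{G i})` is in `D` for
`M = ∏_i |G i|` (or `M = (card I)!`).
Step 3.  `-(n M) d = -(n M) s + (n M) ∑_{g ≠ 1} g d ∈ D`. -/
lemma comb {I G : Type} [Fintype I] [DecidableEq I] [Group G] [Finite G] [MulAction G I]
    (D : AddSubmonoid (I → ℤ))
    (hG : ∀ (g : G) (d : I → ℤ), d ∈ D → (fun i => d (g⁻¹ • i)) ∈ D)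
    (h : ∀ (i : I) (b : Bool), ∃ d ∈ D, d ≠ 0 ∧ (∀ j, j ∉ MulAction.orbit G i → d j = 0) ∧
      ∀ j, 0 ≤ (if b then d j else -d j)) :
    ∀ d ∈ D, ∃ N : ℕ, 1 ≤ N ∧ -(N • d) ∈ D := by
  classical
  have hfin : Fintype G := Fintype.ofFinite G
  let A : (I → ℤ) → (I → ℤ) := fun d => ∑ g : G, fun i => d (g⁻¹ • i)
  have hA : ∀ d ∈ D, A d ∈ D := fun d hd => D.sum_mem fun g _ => hG g d hd
  have hAapp : ∀ d j, A d j = ∑ g : G, d (g⁻¹ • j) := fun d j => by
    simp only [A, Finset.sum_apply]
  have hinv : ∀ (d : I → ℤ) (j : I) (g : G), A d (g • j) = A d j := by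
    intro d j g
    rw [hAapp, hAapp, ← Equiv.sum_comp (Equiv.mulLeft g)]
    refine Finset.sum_congr rfl fun h _ => ?_
    rw [Equiv.coe_mulLeft, mul_inv_rev, smul_smul, inv_mul_cancel_right]
  let ind : I → I → ℤ := fun i j => if j ∈ MulAction.orbit G i then 1 else 0
  -- step 1
  have step1 : ∀ (x : I × Bool), ∃ n : ℕ, 1 ≤ n ∧
      n • (if x.2 then ind x.1 else -ind x.1) ∈ D := by
    rintro ⟨i, b⟩
    obtain ⟨d, hd, hd0, hs, hp⟩ := h i b
    rcases b with _ | _
    · obtain ⟨n, hn, h1, h2⟩ := comb_pos (G := G) (-d) i (neg_ne_zero.2 hd0)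
        (fun j hj => by rw [Pi.neg_apply, hs j hj, neg_zero])
        (fun j => by simpa using hp j)
      refine ⟨n, hn, ?_⟩
      have h3 : n • (if ((i, false) : I × Bool).2 then ind i else -ind i) = A d := by
        funext j
        rw [hAapp]
        by_cases hj : j ∈ MulAction.orbit G i
        · have h4 := h1 j hj
          simp only [Pi.neg_apply, Finset.sum_neg_distrib] at h4
          simp [ind, hj]
          omega
        · have h4 := h2 j hj
          simp only [Pi.neg_apply, Finset.sum_neg_distrib] at h4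
          simp [ind, hj]
          omega
      rw [h3]
      exact hA d hd
    · obtain ⟨n, hn, h1, h2⟩ := comb_pos (G := G) d i hd0 hs (fun j => by simpa using hp j)
      refine ⟨n, hn, ?_⟩
      have h3 : n • (if ((i, true) : I × Bool).2 then ind i else -ind i) = A d := by
        funext j
        rw [hAapp]
        by_cases hj : j ∈ MulAction.orbit G i
        · have h4 := h1 j hj
          simp [ind, hj]
          omega
        · have h4 := h2 j hj
          simp [ind, hj]
          omega
      rw [h3]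
      exact hA d hd
  choose n hn1 hnD using step1
  let M : ℕ := ∏ x : I × Bool, n x
  have hM : 1 ≤ M := Nat.one_le_iff_ne_zero.2
    (Finset.prod_ne_zero_iff.2 fun x _ => Nat.one_le_iff_ne_zero.1 (hn1 x))
  have hMD : ∀ x : I × Bool, M • (if x.2 then ind x.1 else -ind x.1) ∈ D := by
    intro x
    obtain ⟨k, hk⟩ : n x ∣ M := Finset.dvd_prod_of_mem _ (Finset.mem_univ x)
    rw [hk, mul_comm, mul_smul]
    exact D.nsmul_mem (hnD x) k
  have hMz : ∀ (i : I) (c : ℤ), (c * M) • ind i ∈ D := by
    intro i c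
    rcases le_total 0 c with hc | hc
    · obtain ⟨k, rfl⟩ := Int.eq_ofNat_of_zero_le hc
      have h1 := D.nsmul_mem (hMD (i, true)) k
      simp only [if_true] at h1
      rw [mul_smul, natCast_zsmul, natCast_zsmul]
      exact h1
    · obtain ⟨k, hk⟩ := Int.eq_ofNat_of_zero_le (neg_nonneg.2 hc)
      have h1 := D.nsmul_mem (hMD (i, false)) k
      have hc' : c = -(k : ℤ) := by omega
      rw [hc', neg_mul, neg_smul, mul_smul, natCast_zsmul, natCast_zsmul]
      simpa using h1
  intro d hd
  refine ⟨M, hM, ?_⟩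
  -- step 2
  have hq : Fintype (MulAction.orbitRel.Quotient G I) := Fintype.ofFinite _
  have step2 : -(M • A d) ∈ D := by
    have h1 : -(M • A d) =
        ∑ q : MulAction.orbitRel.Quotient G I, (-(A d q.out) * M) • ind q.out := by
      funext j
      rw [Finset.sum_apply, Finset.sum_eq_single (Quotient.mk'' j)]
      · have h2 : (Quotient.mk'' j : MulAction.orbitRel.Quotient G I).out ∈
            MulAction.orbit G j := MulAction.orbitRel_apply.1 (Quotient.mk_out (s := MulAction.orbitRel G I) j)
        obtain ⟨g, hg⟩ := h2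
        have h3 : A d (Quotient.mk'' j : MulAction.orbitRel.Quotient G I).out = A d j := by
          rw [← hg]
          exact hinv d j g
        have h4 : j ∈ MulAction.orbit G (Quotient.mk'' j : MulAction.orbitRel.Quotient G I).out := by
          rw [MulAction.mem_orbit_symm]
          exact ⟨g, hg⟩
        rw [h3, Pi.neg_apply, Pi.smul_apply, Pi.smul_apply]
        simp only [ind, if_pos h4, smul_eq_mul, nsmul_eq_mul]
        ring
      · intro q _ hqj
        have h4 : j ∉ MulAction.orbit G q.out := by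
          intro hc
          apply hqj
          rw [← Quotient.out_eq' q]
          exact (Quotient.sound' (MulAction.orbitRel_apply.2 hc)).symm
        simp only [Pi.smul_apply, ind, if_neg h4, smul_zero]
      · intro hc
        exact absurd (Finset.mem_univ _) hc
    rw [h1]
    exact D.sum_mem fun q _ => hMz _ _
  -- step 3
  have h5 : -(M • d) = -(M • A d) + M • ∑ g ∈ Finset.univ.erase (1 : G), fun i => d (g⁻¹ • i) := by
    have h6 : A d = (fun i => d ((1 : G)⁻¹ • i)) +
        ∑ g ∈ Finset.univ.erase (1 : G), fun i => d (g⁻¹ • i) :=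
      (Finset.add_sum_erase _ _ (Finset.mem_univ _)).symm
    have h7 : (fun i => d ((1 : G)⁻¹ • i)) = d := by
      funext i
      rw [inv_one, one_smul]
    rw [h7] at h6
    rw [h6, smul_add]
    abel
  rw [h5]
  exact D.add_mem step2 (D.nsmul_mem (D.sum_mem fun g _ => hG g d hd) M)

end Pool.Agent.WeilH_h6
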