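import Pool.Agent.WeilH_h6.PartsB
import Pool.Agent.WeilH_h6.BoxNZ
import Pool.Agent.WeilH_h6.ConvA
import Pool.Agent.WeilH_h6.Comb

set_option autoImplicit false

/-!
# A sufficient condition for the symmetry of the degrees
-/

noncomputable section

namespace Pool.Agent.WeilH_h6

open AlgebraicGeometry CategoryTheory MonoidalCategory
open scoped TensorProduct DirectSum
open VarClass

universe u v w

lemma orbit_wdeg_smul {I G : Type} [Group G] [MulAction G I] (g : G) {m : ℕ}
    (l : Fin m → I × Bool) (i : I) :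
    wdeg (fun s => (g • (l s).1, (l s).2)) i = wdeg l (g⁻¹ • i) := by
  have key : ∀ b : Bool, Nat.card {s // (g • (l s).1, (l s).2) = (i, b)}
      = Nat.card {s // l s = (g⁻¹ • i, b)} := by
    intro b
    refine Nat.card_congr (Equiv.subtypeEquivRight fun s => ?_)
    rw [Prod.ext_iff, Prod.ext_iff]
    simp only
    rw [eq_inv_smul_iff]
  unfold wdeg
  rw [key, key]

lemma orbit_wdeg_sign {I : Type} {m : ℕ} (l : Fin m → I × Bool) (b : Bool)
    (h : ∀ s, (l s).2 = b) (i : I) :
    wdeg l i = (if b then 1 else -1) * (Nat.card {s // l s = (i, b)} : ℤ) := by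
  have key : Nat.card {s // l s = (i, !b)} = 0 := by
    rw [Nat.card_eq_zero]
    refine Or.inl ⟨fun a => ?_⟩
    have h1 := h a.1
    rw [a.2] at h1
    cases b <;> simp at h1
  unfold wdeg
  cases b
  · simp only [Bool.not_false] at key
    rw [key]
    simp
  · simp only [Bool.not_true] at key
    rw [key]
    simp

namespace Weil

variable {k : Type u} [Field k] {𝒱 : VarClass k} {K : Type v} [Field K] {W : Weil.{u, v, w} 𝒱 K}

namespace Pieces

variable {X : 𝒱.Obj} {I : Type} (P : W.Pieces X I)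

/-- The degrees of the nonzero algebraic classes form a submonoid of `ℤ^I`.

Proof.  Zero: the empty word, the class `1 = pureT` of the empty family (`pureT_zero`, `tr_pt_one`,
`one_mem_algSpan`).  Sum: `box2_ne_zero`, `box2_mem`, `box2_mem_wordPart`, `wdeg_append`. -/
lemma degMonoid [CharZero K] : ∃ D : AddSubmonoid (I → ℤ), ∀ d, d ∈ D ↔
    ∃ (m : ℕ) (l : Fin m → I × Bool) (z : W.H (X.pow m)), z ∈ P.wordPart l ∧
      z ∈ W.algSpan (X.pow m) ∧ z ≠ 0 ∧ ∀ i, wdeg l i = d i := by
  refine ⟨{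
    carrier := {d | ∃ (m : ℕ) (l : Fin m → I × Bool) (z : W.H (X.pow m)), z ∈ P.wordPart l ∧
      z ∈ W.algSpan (X.pow m) ∧ z ≠ 0 ∧ ∀ i, wdeg l i = d i}
    zero_mem' := ?_
    add_mem' := ?_ }, fun d => Iff.rfl⟩
  · rintro d d' ⟨m, l, z, h1, h2, h3, h4⟩ ⟨m', l', z', h1', h2', h3', h4'⟩
    refine ⟨m + m', Fin.append l l', W.box2 z z', P.box2_mem_wordPart h1 h1', W.box2_mem h2 h2',
      W.box2_ne_zero h2' h3 h3', fun i => ?_⟩
    rw [wdeg_append, h4, h4']
    rfl
  · refine ⟨0, fun s => s.elim0, W.pureT (fun s : Fin 0 => s.elim0),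
      Submodule.subset_span ⟨_, fun s => s.elim0, rfl⟩, ?_, ?_, fun i => ?_⟩
    · rw [pureT_zero]
      exact W.one_mem_algSpan _
    · rw [pureT_zero]
      intro h0
      have h1 : W.tr (Obj.pt : 𝒱.Obj) 1 = 1 := W.tr_pt_one
      have h2 : W.tr (Obj.pt : 𝒱.Obj) 1 = 0 := by
        have h3 : (1 : W.H (Obj.pt : 𝒱.Obj)) = 0 := h0
        rw [h3, map_zero]
      rw [h2] at h1
      exact zero_ne_one h1
    · have key : ∀ x : I × Bool, Nat.card {s : Fin 0 // (s.elim0 : I × Bool) = x} = 0 := by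
        intro x
        rw [Nat.card_eq_zero]
        exact Or.inl ⟨fun a => a.1.elim0⟩
      unfold wdeg
      rw [key, key]
      simp

/-- A finite group `G` acts on the set `I` of the pieces such that the set of words `ℓ` with a nonzero
algebraic class in `V_ℓ` is stable under `G`, and for every `i` and every sign `b` there is a nonempty
word with letters `(j, b)`, `j ∈ G i`, and a nonzero algebraic class.  Then the degrees are symmetric.

Proof.  `comb` for `degMonoid`: a word whose letters are all `(j, b)` with `j ∈ G i` has a degree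
with the sign of `b` (`Nat.card` is `≥ 0` and the other `Nat.card` is `0`), zero outside of the
orbit, not zero because the first letter counts; the degree of `g ℓ` is
`i ↦ wdeg l (g⁻¹ • i)` (`g • j = i ↔ j = g⁻¹ • i`). -/
theorem degSymm_of_orbits [CharZero K] [Fintype I] {G : Type} [Group G] [Finite G] [MulAction G I]
    (hG : ∀ (g : G) (m : ℕ) (l : Fin m → I × Bool) (z : W.H (X.pow m)), z ∈ P.wordPart l →
      z ∈ W.algSpan (X.pow m) → z ≠ 0 → ∃ z' ∈ P.wordPart (fun s => (g • (l s).1, (l s).2)),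
        z' ∈ W.algSpan (X.pow m) ∧ z' ≠ 0)
    (h : ∀ (i : I) (b : Bool), ∃ (m : ℕ) (l : Fin (m + 1) → I × Bool) (z : W.H (X.pow (m + 1))),
      (∀ s, (l s).1 ∈ MulAction.orbit G i ∧ (l s).2 = b) ∧
        z ∈ P.wordPart l ∧ z ∈ W.algSpan (X.pow (m + 1)) ∧ z ≠ 0) : P.DegSymmX := by
  classical
  obtain ⟨D, hD⟩ := P.degMonoid
  have hcomb := comb (I := I) (G := G) D ?_ ?_
  · intro m l z hz halg hne
    obtain ⟨N, hN, hmem⟩ := hcomb (fun i => wdeg l i) ((hD _).2 ⟨m, l, z, hz, halg, hne,
      fun _ => rfl⟩)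
    obtain ⟨m', l', z', h1, h2, h3, h4⟩ := (hD _).1 hmem
    refine ⟨N, m', l', z', hN, h1, h2, h3, fun i => ?_⟩
    rw [h4 i]
    simp
  · intro g d hd
    obtain ⟨m, l, z, h1, h2, h3, h4⟩ := (hD _).1 hd
    obtain ⟨z', h1', h2', h3'⟩ := hG g m l z h1 h2 h3
    refine (hD _).2 ⟨m, _, z', h1', h2', h3', fun i => ?_⟩
    rw [orbit_wdeg_smul, h4]
  · intro i b
    obtain ⟨m, l, z, h0, h1, h2, h3⟩ := h i b
    have hw := orbit_wdeg_sign l b fun s => (h0 s).2
    refine ⟨fun j => wdeg l j, (hD _).2 ⟨m + 1, l, z, h1, h2, h3, fun _ => rfl⟩, ?_, ?_, ?_⟩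
    · intro hzero
      have h5 := congrFun hzero (l 0).1
      simp only [Pi.zero_apply] at h5
      rw [hw] at h5
      have h6 : Nat.card {s // l s = ((l 0).1, b)} ≠ 0 := by
        have h7 : Nonempty {s // l s = ((l 0).1, b)} := ⟨⟨0, Prod.ext rfl (h0 0).2⟩⟩
        exact Nat.card_pos.ne'
      rcases mul_eq_zero.1 h5 with h8 | h8
      · cases b <;> norm_num at h8
      · exact h6 (Nat.cast_eq_zero.1 h8)
    · intro j hj
      show wdeg l j = 0
      rw [hw]
      have h6 : Nat.card {s // l s = (j, b)} = 0 := by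
        rw [Nat.card_eq_zero]
        refine Or.inl ⟨fun a => hj ?_⟩
        have h7 := (h0 a.1).1
        rw [a.2] at h7
        exact h7
      rw [h6]
      simp
    · intro j
      show 0 ≤ (if b then wdeg l j else -wdeg l j)
      rw [hw]
      cases b <;> simp

end Pieces

end Weil

end Pool.Agent.WeilH_h6
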