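import Pool.Agent.WeilH_h6.ActB

set_option autoImplicit false

/-!
# Symmetries and the matrices of algebraic classes (the matrix of a symmetry)
-/

noncomputable section

namespace Pool.Agent.WeilH_h6

open AlgebraicGeometry CategoryTheory MonoidalCategory
open scoped TensorProduct DirectSum
open VarClass

universe u v w

namespace Weil

variable {k : Type u} [Field k] {𝒱 : VarClass k} {K : Type v} [Field K] (W : Weil.{u, v, w} 𝒱 K)

variable {W}

namespace Pieces.Bases

variable {X : 𝒱.Obj} {I : Type} {P : W.Pieces X I} (B : P.Bases)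

/-- Expansion of an element of a piece in the basis. -/
lemma actC_exp_b [DecidableEq I] {i : I} {x : W.H X} (hx : x ∈ Submodule.span K (B.b '' {a | B.col a = i})) :
    x = ∑ a, (if B.col a = i then W.tr X (B.b' a * x) else 0) • B.b a := by
  induction hx using Submodule.span_induction with
  | mem x hx =>
    obtain ⟨e, he, rfl⟩ := hx
    replace he : B.col e = i := he
    rw [Finset.sum_eq_single e]
    · rw [if_pos he, B.dual e e rfl, if_pos rfl, one_smul]
    · intro a _ hae
      by_cases h : B.col a = i
      · rw [if_pos h, B.dual a e (h.trans he.symm), if_neg hae, zero_smul]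
      · rw [if_neg h, zero_smul]
    · intro h
      exact absurd (Finset.mem_univ e) h
  | zero => simp
  | add x y _ _ hx hy =>
    conv_lhs => rw [hx, hy]
    rw [← Finset.sum_add_distrib]
    refine Finset.sum_congr rfl fun a _ => ?_
    rw [← add_smul]
    congr 1
    split_ifs
    · rw [mul_add, map_add]
    · rw [add_zero]
  | smul c x _ hx =>
    conv_lhs => rw [hx]
    rw [Finset.smul_sum]
    refine Finset.sum_congr rfl fun a _ => ?_
    rw [smul_smul]
    congr 1
    split_ifs
    · rw [mul_smul_comm, map_smul, smul_eq_mul]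
    · rw [mul_zero]

/-- Expansion of an element of a dual piece in the dual basis. -/
lemma actC_exp_b' [DecidableEq I] {i : I} {x : W.H X} (hx : x ∈ Submodule.span K (B.b' '' {a | B.col a = i})) :
    x = ∑ a, (if B.col a = i then W.tr X (x * B.b a) else 0) • B.b' a := by
  induction hx using Submodule.span_induction with
  | mem x hx =>
    obtain ⟨e, he, rfl⟩ := hx
    replace he : B.col e = i := he
    rw [Finset.sum_eq_single e]
    · rw [if_pos he, B.dual e e rfl, if_pos rfl, one_smul]
    · intro a _ hae
      by_cases h : B.col a = i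
      · rw [if_pos h, B.dual e a (he.trans h.symm), if_neg (Ne.symm hae), zero_smul]
      · rw [if_neg h, zero_smul]
    · intro h
      exact absurd (Finset.mem_univ e) h
  | zero => simp
  | add x y _ _ hx hy =>
    conv_lhs => rw [hx, hy]
    rw [← Finset.sum_add_distrib]
    refine Finset.sum_congr rfl fun a _ => ?_
    rw [← add_smul]
    congr 1
    split_ifs
    · rw [add_mul, map_add]
    · rw [add_zero]
  | smul c x _ hx =>
    conv_lhs => rw [hx]
    rw [Finset.smul_sum]
    refine Finset.sum_congr rfl fun a _ => ?_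
    rw [smul_smul]
    congr 1
    split_ifs
    · rw [smul_mul_assoc, map_smul, smul_eq_mul]
    · rw [mul_zero]

omit B in
/-- A symmetry is surjective. -/
lemma actC_surjective {g : Module.End K (W.H X)} {c : K} (h : W.IsSymmetry g c) :
    Function.Surjective g := by
  refine LinearMap.surjective_of_injective ?_
  rw [injective_iff_map_eq_zero]
  intro v hv
  refine W.duality X v fun y => ?_
  have h1 := h.tr_mul v y
  rw [hv, zero_mul, map_zero] at h1
  exact (mul_eq_zero.1 h1.symm).resolve_left (pow_ne_zero _ h.ne_zero)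

omit B in
/-- A symmetry which commutes with the projectors commutes with their adjoints. -/
lemma actC_comm {g : Module.End K (W.H X)} {c : K} (h : W.IsSymmetry g c)
    (hg : ∀ i v, g (P.p i v) = P.p i (g v)) (i : I) (v : W.H X) :
    g (P.p' i v) = P.p' i (g v) := by
  refine W.ext_tr' fun x => ?_
  obtain ⟨u, rfl⟩ := actC_surjective h x
  rw [h.tr_mul, ← P.adj, ← P.adj, ← hg, h.tr_mul]

/-- The matrix of a symmetry which commutes with the projectors.

Proof.  `g (b a) = g (p (b a)) = p (g (b a))` is in the range of `p (col a)`, so it is a combination of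
the `b a'` with `col a' = col a`; the coefficient is `γ a' a = Tr (b' a' * g (b a))` (zero if the
colours differ).  Similarly `g (b' a)` is in the range of `p' (col a)` (`g` commutes with the
adjoint `p'`: `Tr (v * p' (g v')) ...` use that `g` is bijective with
`Tr (g v * g v') = c ^ n Tr (v * v')`), with coefficients `δ a' a = Tr (g (b' a) * b a')`.  From
`Tr (g (b' a) * g (b a'')) = c ^ n δ_{a a''}` one gets `∑_{a'} δ a' a * γ a' a'' = c ^ n δ_{a a''}`, so
`γ` is invertible and `δ a' a = c ^ n (γ⁻¹) a a'`. -/
lemma exists_matrix [CharZero K] {g : Module.End K (W.H X)} {c : K} (h : W.IsSymmetry g c)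
    (hg : ∀ i v, g (P.p i v) = P.p i (g v)) :
    ∃ γ : (Matrix B.α B.α K)ˣ, γ ∈ H69.BG B.col K ∧
      (∀ a, g (B.b a) = ∑ a', (γ : Matrix B.α B.α K) a' a • B.b a') ∧
      (∀ a, g (B.b' a) = c ^ X.dim •
        ∑ a', ((γ⁻¹ : (Matrix B.α B.α K)ˣ) : Matrix B.α B.α K) a a' • B.b' a') := by
  classical
  have hcn : c ^ X.dim ≠ 0 := pow_ne_zero _ h.ne_zero
  let γ0 : Matrix B.α B.α K := Matrix.of fun a' a =>
    if B.col a' = B.col a then W.tr X (B.b' a' * g (B.b a)) else 0
  let δ0 : Matrix B.α B.α K := Matrix.of fun a a' =>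
    if B.col a' = B.col a then W.tr X (g (B.b' a) * B.b a') else 0
  have hγ0 : ∀ a, g (B.b a) = ∑ a', γ0 a' a • B.b a' := by
    intro a
    refine B.actC_exp_b (i := B.col a) ?_
    have h1 : g (B.b a) = P.p (B.col a) (g (B.b a)) := by rw [← hg, B.p_b]
    rw [h1]
    exact B.span_b _ _
  have hδ0 : ∀ a, g (B.b' a) = ∑ a', δ0 a a' • B.b' a' := by
    intro a
    refine B.actC_exp_b' (i := B.col a) ?_
    have h1 : g (B.b' a) = P.p' (B.col a) (g (B.b' a)) := by
      rw [← actC_comm h hg, B.p'_b']
    rw [h1]
    exact B.span_b' _ _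
  have hmul : δ0 * γ0 = c ^ X.dim • (1 : Matrix B.α B.α K) := by
    ext a e
    rw [Matrix.mul_apply, Matrix.smul_apply, Matrix.one_apply, smul_eq_mul]
    by_cases hae : B.col a = B.col e
    · have h1 := h.tr_mul (B.b' a) (B.b e)
      rw [B.dual a e hae] at h1
      rw [← h1, hδ0, hγ0, Finset.sum_mul, map_sum]
      refine Finset.sum_congr rfl fun x _ => ?_
      rw [Finset.mul_sum, map_sum, Finset.sum_eq_single x]
      · rw [smul_mul_assoc, mul_smul_comm, map_smul, map_smul, B.dual x x rfl, if_pos rfl,
          smul_eq_mul, smul_eq_mul, mul_one]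
      · intro y _ hyx
        rw [smul_mul_assoc, mul_smul_comm, map_smul, map_smul, smul_eq_mul, smul_eq_mul]
        by_cases hx : B.col x = B.col a
        · by_cases hy : B.col y = B.col e
          · rw [B.dual x y (hx.trans (hae.trans hy.symm)), if_neg (Ne.symm hyx), mul_zero, mul_zero]
          · have h2 : γ0 y e = 0 := if_neg hy
            rw [h2, zero_mul, mul_zero]
        · have h2 : δ0 a x = 0 := if_neg hx
          rw [h2, zero_mul]
      · intro h
        exact absurd (Finset.mem_univ x) h
    · rw [if_neg (fun h => hae (congrArg B.col h)), mul_zero]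
      refine Finset.sum_eq_zero fun x _ => ?_
      by_cases hx : B.col x = B.col a
      · have h2 : γ0 x e = 0 := if_neg fun h => hae (hx.symm.trans h)
        rw [h2, mul_zero]
      · have h2 : δ0 a x = 0 := if_neg hx
        rw [h2, zero_mul]
  have hD : ((c ^ X.dim)⁻¹ • δ0) * γ0 = 1 := by
    rw [Matrix.smul_mul, hmul, smul_smul, inv_mul_cancel₀ hcn, one_smul]
  have hD' : γ0 * ((c ^ X.dim)⁻¹ • δ0) = 1 := mul_eq_one_comm.1 hD
  refine ⟨⟨γ0, (c ^ X.dim)⁻¹ • δ0, hD', hD⟩, ?_, hγ0, fun a => ?_⟩
  · rw [H69.mem_BG]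
    refine ⟨fun a e hne => ?_, fun a e hne => ?_⟩
    · by_contra hae
      exact hne (if_neg hae)
    · by_contra hae
      apply hne
      have h2 : δ0 a e = 0 := if_neg fun h' => hae h'.symm
      change (c ^ X.dim)⁻¹ • δ0 a e = 0
      rw [h2, smul_zero]
  · change g (B.b' a) = c ^ X.dim • ∑ a', ((c ^ X.dim)⁻¹ • δ0 a a') • B.b' a'
    rw [hδ0, Finset.smul_sum]
    refine Finset.sum_congr rfl fun x _ => ?_
    rw [smul_smul, smul_eq_mul, mul_inv_cancel_left₀ hcn]

end Pieces.Bases

end Weil

end Pool.Agent.WeilH_h6
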