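import Pool.Agent.WeilH_h6.Setup
import Pool.Agent.W_f569db_h69.Defs

set_option autoImplicit false

/-!
# Symmetries and the matrices of algebraic classes (bases)
-/

noncomputable section

namespace Pool.Agent.WeilH_h6

open AlgebraicGeometry CategoryTheory MonoidalCategory
open scoped TensorProduct DirectSum
open VarClass

universe u v w

namespace Weil

variable {k : Type u} [Field k] {𝒱 : VarClass k} {K : Type v} [Field K] (W : Weil.{u, v, w} 𝒱 K)

variable {W}

/-- A family of dual bases of the pieces: `α` is the disjoint union of the bases, `col a` is the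
piece to which `b a` belongs. -/
structure Pieces.Bases {X : 𝒱.Obj} {I : Type} (P : W.Pieces X I) where
  α : Type
  [fin : Fintype α]
  [dec : DecidableEq α]
  col : α → I
  b : α → W.H X
  b' : α → W.H X
  p_b : ∀ a, P.p (col a) (b a) = b a
  p'_b' : ∀ a, P.p' (col a) (b' a) = b' a
  span_b : ∀ i v, P.p i v ∈ Submodule.span K (b '' {a | col a = i})
  span_b' : ∀ i v, P.p' i v ∈ Submodule.span K (b' '' {a | col a = i})
  dual : ∀ a a', col a = col a' → W.tr X (b' a * b a') = if a = a' then 1 else 0

attribute [instance] Pieces.Bases.fin Pieces.Bases.dec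

/-- Existence, from `exists_dual_bases` for each `i` (`α = Σ i, Fin (n i)`). -/
lemma Pieces.exists_bases [CharZero K] {X : 𝒱.Obj} {I : Type} [Fintype I] (P : W.Pieces X I) :
    Nonempty P.Bases := by
  classical
  have H : ∀ i, ∃ (n : ℕ) (b b' : Fin n → W.H X), (∀ j, P.p i (b j) = b j) ∧
      (∀ j, P.p' i (b' j) = b' j) ∧ (∀ v, P.p i v ∈ Submodule.span K (Set.range b)) ∧
      (∀ v, P.p' i v ∈ Submodule.span K (Set.range b')) ∧
      (∀ j j', W.tr X (b' j * b j') = if j = j' then 1 else 0) := fun i =>
    W.exists_dual_bases (W.isAlgEnd_iff.1 (P.alg i)) (P.idem_comp i) (P.adj i)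
  choose n b b' hb hb' hs hs' hd using H
  refine ⟨{ α := Σ i, Fin (n i), col := Sigma.fst, b := fun a => b a.1 a.2,
            b' := fun a => b' a.1 a.2, p_b := fun a => hb a.1 a.2, p'_b' := fun a => hb' a.1 a.2,
            span_b := ?_, span_b' := ?_, dual := ?_ }⟩
  · intro i v
    refine Submodule.span_mono ?_ (hs i v)
    rintro _ ⟨j, rfl⟩
    exact ⟨⟨i, j⟩, rfl, rfl⟩
  · intro i v
    refine Submodule.span_mono ?_ (hs' i v)
    rintro _ ⟨j, rfl⟩
    exact ⟨⟨i, j⟩, rfl, rfl⟩
  · rintro ⟨i, j⟩ ⟨i', j'⟩ h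
    dsimp only at h
    subst h
    have := hd i j j'
    by_cases hjj : j = j'
    · subst hjj
      rw [if_pos rfl] at this ⊢
      exact this
    · rw [if_neg hjj] at this
      rw [if_neg]
      · exact this
      · intro h
        exact hjj (eq_of_heq (Sigma.mk.inj h).2)

end Weil

end Pool.Agent.WeilH_h6
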