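import Pool.Agent.WeilH_h6.Pow

set_option autoImplicit false

/-!
# Symmetries and the matrices of algebraic classes (the class with a given matrix)
-/

noncomputable section

namespace Pool.Agent.WeilH_h6

open AlgebraicGeometry CategoryTheory MonoidalCategory
open scoped TensorProduct DirectSum
open VarClass

universe u v w

namespace Weil

variable {k : Type u} [Field k] {𝒱 : VarClass k} {K : Type v} [Field K] (W : Weil.{u, v, w} 𝒱 K)

/-- The class in `H(X^(r+r))` with the matrix `x`: the first `r` factors carry the dual vectors of
the column index, the last `r` factors the vectors of the row index. -/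
def ofMat {X : 𝒱.Obj} {α : Type} [Fintype α] (b b' : α → W.H X) {r : ℕ}
    (x : Matrix (Fin r → α) (Fin r → α) K) : W.H (X.pow (r + r)) :=
  ∑ a : Fin r → α, ∑ c : Fin r → α,
    x a c • W.pureT (Fin.append (fun s => b' (c s)) fun s => b (a s))

end Weil

end Pool.Agent.WeilH_h6
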