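import Pool.Agent.WeilH_h6.ActA
import Pool.Agent.WeilH_h6.ActB
import Pool.Agent.WeilH_h6.Coord
import Pool.Agent.WeilH_h6.OfMat

set_option autoImplicit false

/-!
# Symmetries and the matrices of algebraic classes (the matrix of a class)
-/

noncomputable section

namespace Pool.Agent.WeilH_h6

open AlgebraicGeometry CategoryTheory MonoidalCategory
open scoped TensorProduct DirectSum
open VarClass

universe u v w

namespace Weil

variable {k : Type u} [Field k] {𝒱 : VarClass k} {K : Type v} [Field K] (W : Weil.{u, v, w} 𝒱 K)

variable {W}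

namespace Pieces.Bases

variable {X : 𝒱.Obj} {I : Type} {P : W.Pieces X I} (B : P.Bases)

lemma ActD_b_mem (a : B.α) : B.b a ∈ W.grad X (P.n (B.col a)) := by
  rw [← B.p_b a]; exact P.mem_grad _ _

lemma ActD_b'_mem [CharZero K] (a : B.α) : B.b' a ∈ W.grad X (2 * X.dim - P.n (B.col a)) := by
  rw [← B.p'_b' a]; exact P.mem_grad' _ _

lemma ActD_n_le (a : B.α) : P.n (B.col a) ≤ 2 * X.dim := by
  by_contra hcon
  push Not at hcon
  have h1 := B.ActD_b_mem a
  rw [W.vanish X _ hcon, Submodule.mem_bot] at h1
  have h2 := B.dual a a rfl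
  rw [h1, mul_zero, map_zero, if_pos rfl] at h2
  exact zero_ne_one h2

lemma ActD_par_b (a : B.α) : W.par X (B.b a) = ((-1 : K) ^ (P.n (B.col a))) • B.b a := by
  have h := P.par_p (B.col a) (B.b a)
  rwa [B.p_b] at h

lemma ActD_par_b' [CharZero K] (a : B.α) :
    W.par X (B.b' a) = ((-1 : K) ^ (P.n (B.col a))) • B.b' a := by
  have h := P.par_p' (B.col a) (B.b' a)
  rwa [B.p'_b'] at h

/-- the basis vectors for the doubled word -/
def ActD_f (r : ℕ) (s : Fin (r + r)) : B.α → W.H X :=
  Fin.append (fun _ : Fin r => B.b') (fun _ : Fin r => B.b) s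

/-- the dual basis vectors for the doubled word -/
def ActD_g (r : ℕ) (s : Fin (r + r)) : B.α → W.H X :=
  Fin.append (fun _ : Fin r => B.b)
    (fun _ : Fin r => fun a => ((-1 : K) ^ (P.n (B.col a))) • B.b' a) s

lemma ActD_pure (r : ℕ) (d : Fin (r + r) → B.α) :
    (fun s => B.ActD_f r s (d s)) =
      Fin.append (fun s => B.b' (d (Fin.castAdd r s))) fun s => B.b (d (Fin.natAdd r s)) := by
  funext s
  refine Fin.addCases (fun s => ?_) (fun s => ?_) s
  · rw [Fin.append_left, ActD_f, Fin.append_left]
  · rw [Fin.append_right, ActD_f, Fin.append_right]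

open Classical in
/-- `ofMat` of a supported matrix as a sum over the doubled word. -/
lemma ActD_ofMat_eq {r : ℕ} (w : Fin r → I) (x : Matrix (Fin r → B.α) (Fin r → B.α) K)
    (hx : H69.Supp B.col w x) :
    W.ofMat B.b B.b' x = ∑ d : (∀ s : Fin (r + r), {a : B.α // B.col a = Fin.append w w s}),
      x (fun s => (d (Fin.natAdd r s)).1) (fun s => (d (Fin.castAdd r s)).1) •
        W.pureT fun s => B.ActD_f r s (d s).1 := by
  classical
  unfold ofMat
  rw [← Fintype.sum_prod_type' (fun (a c : Fin r → B.α) =>
    x a c • W.pureT (Fin.append (fun s => B.b' (c s)) fun s => B.b (a s)))]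
  symm
  refine Fintype.sum_of_injective (fun d : (∀ s : Fin (r + r),
      {a : B.α // B.col a = Fin.append w w s}) => ((fun s => (d (Fin.natAdd r s)).1,
      fun s => (d (Fin.castAdd r s)).1) : (Fin r → B.α) × (Fin r → B.α))) ?_ _ _ ?_ ?_
  · intro d d' h
    funext s
    apply Subtype.ext
    refine Fin.addCases (fun s => ?_) (fun s => ?_) s
    · exact congrFun (congrArg Prod.snd h) s
    · exact congrFun (congrArg Prod.fst h) s
  · rintro ⟨a, c⟩ hac
    by_cases h0 : x a c = 0
    · simp only [h0, zero_smul]
    · exfalso
      apply hac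
      obtain ⟨h1, h2⟩ := hx a c h0
      refine ⟨fun s => ⟨Fin.append c a s, ?_⟩, ?_⟩
      · refine Fin.addCases (fun s => ?_) (fun s => ?_) s
        · rw [Fin.append_left, Fin.append_left]; exact h2 s
        · rw [Fin.append_right, Fin.append_right]; exact h1 s
      · simp only [Fin.append_left, Fin.append_right]
  · intro d
    rw [B.ActD_pure r fun s => (d s).1]

/-- `ofMat x` is homogeneous of degree `2 r dim X` if `x` is supported on the word `w`.  (For
`col a = w s`: `b a ∈ grad (n_i)`, `b' a ∈ grad (2 dim X - n_i)` and `n_i ≤ 2 dim X` because `b a ≠ 0`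
(`dual`) and `vanish`.) -/
lemma ofMat_mem_grad [CharZero K] {r : ℕ} (w : Fin r → I)
    (x : Matrix (Fin r → B.α) (Fin r → B.α) K) (hx : H69.Supp B.col w x) :
    W.ofMat B.b B.b' x ∈ W.grad (X.pow (r + r)) (2 * (r * X.dim)) := by
  unfold ofMat
  refine Submodule.sum_mem _ fun a _ => Submodule.sum_mem _ fun c _ => ?_
  by_cases h0 : x a c = 0
  · rw [h0, zero_smul]; exact Submodule.zero_mem _
  refine Submodule.smul_mem _ _ ?_
  have h := W.pureT_mem_grad (X := X)
    (Fin.append (fun s => 2 * X.dim - P.n (B.col (c s))) fun s => P.n (B.col (a s)))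
    (Fin.append (fun s => B.b' (c s)) fun s => B.b (a s)) (by
      intro s
      refine Fin.addCases (fun s => ?_) (fun s => ?_) s
      · rw [Fin.append_left, Fin.append_left]; exact B.ActD_b'_mem _
      · rw [Fin.append_right, Fin.append_right]; exact B.ActD_b_mem _)
  have e : ∑ s, (Fin.append (fun s => 2 * X.dim - P.n (B.col (c s)))
      fun s => P.n (B.col (a s))) s = 2 * (r * X.dim) := by
    rw [Fin.sum_univ_add]
    simp only [Fin.append_left, Fin.append_right]
    rw [← Finset.sum_add_distrib]
    have h2 : ∀ s, 2 * X.dim - P.n (B.col (c s)) + P.n (B.col (a s)) = 2 * X.dim := by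
      intro s
      obtain ⟨h3, h4⟩ := hx a c h0
      have h5 := B.ActD_n_le (c s)
      rw [h3 s, ← h4 s]
      omega
    rw [Finset.sum_congr rfl fun s _ => h2 s, Finset.sum_const, Finset.card_univ, Fintype.card_fin,
      smul_eq_mul]
    ring
  rwa [e] at h

/-- The coordinates of `ofMat x` are unique (for matrices supported on `w`): `coord_injective` with
`β s = {a // col a = w' s}` for the doubled word, or directly by pairing with the dual classes. -/
lemma ofMat_injective [CharZero K] {r : ℕ} (w : Fin r → I)
    (x y : Matrix (Fin r → B.α) (Fin r → B.α) K) (hx : H69.Supp B.col w x)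
    (hy : H69.Supp B.col w y) (h : W.ofMat B.b B.b' x = W.ofMat B.b B.b' y) : x = y := by
  classical
  rw [B.ActD_ofMat_eq w x hx, B.ActD_ofMat_eq w y hy] at h
  have key := W.coord_injective (X := X) (m := r + r)
    (β := fun s => {a : B.α // B.col a = Fin.append w w s})
    (fun s j => B.ActD_f r s j.1) (fun s j => B.ActD_g r s j.1)
    (fun s => P.n (Fin.append w w s)) (by
      intro s j
      have hj := j.2
      revert hj
      generalize j.1 = a
      refine Fin.addCases (fun s => ?_) (fun s => ?_) s
      · intro ha
        rw [ActD_f, Fin.append_left, ← ha]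
        exact B.ActD_par_b' a
      · intro ha
        rw [ActD_f, Fin.append_right, ← ha]
        exact B.ActD_par_b a) (by
      intro s j
      have hj := j.2
      revert hj
      generalize j.1 = a
      refine Fin.addCases (fun s => ?_) (fun s => ?_) s
      · intro ha
        rw [ActD_g, Fin.append_left, ← ha]
        exact B.ActD_par_b a
      · intro ha
        rw [ActD_g, Fin.append_right, ← ha, map_smul, B.ActD_par_b' a]) (by
      intro s j j'
      have hiff : (if j = j' then (1 : K) else 0) = if j.1 = j'.1 then 1 else 0 := by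
        by_cases hjj : j = j'
        · rw [if_pos hjj, if_pos (congrArg Subtype.val hjj)]
        · rw [if_neg hjj, if_neg fun h => hjj (Subtype.ext h)]
      rw [hiff]
      have hj := j.2
      have hj' := j'.2
      revert hj hj'
      generalize j.1 = a
      generalize j'.1 = a'
      clear hiff
      refine Fin.addCases (fun s => ?_) (fun s => ?_) s
      · intro ha ha'
        rw [ActD_f, ActD_g, Fin.append_left, Fin.append_left]
        exact B.dual a a' (ha.trans ha'.symm)
      · intro ha ha'
        rw [ActD_f, ActD_g, Fin.append_right, Fin.append_right, W.tr_comm, B.ActD_par_b a,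
          smul_mul_smul_comm, map_smul, ha, ha', ← mul_pow, neg_one_mul, neg_neg, one_pow,
          one_smul, B.dual a' a (ha'.trans ha.symm)]
        by_cases haa : a = a'
        · rw [if_pos haa, if_pos haa.symm]
        · rw [if_neg haa, if_neg fun h => haa h.symm])
    (x := fun d => x (fun s => (d (Fin.natAdd r s)).1) fun s => (d (Fin.castAdd r s)).1)
    (y := fun d => y (fun s => (d (Fin.natAdd r s)).1) fun s => (d (Fin.castAdd r s)).1) h
  ext a c
  by_cases hac : (∀ s, B.col (a s) = w s) ∧ ∀ s, B.col (c s) = w s
  · have h1 := congrFun key (fun s => ⟨Fin.append c a s, by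
      refine Fin.addCases (fun s => ?_) (fun s => ?_) s
      · rw [Fin.append_left, Fin.append_left]; exact hac.2 s
      · rw [Fin.append_right, Fin.append_right]; exact hac.1 s⟩)
    simp only [Fin.append_left, Fin.append_right] at h1
    exact h1
  · have h1 : x a c = 0 := by
      by_contra h0
      exact hac (hx a c h0)
    have h2 : y a c = 0 := by
      by_contra h0
      exact hac (hy a c h0)
    rw [h1, h2]

/-- An element of the part of the word `(w, false), (w, true)` is `ofMat x` with `x` supported on
`w`: `exists_coord`. -/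
lemma exists_mat {r : ℕ} (w : Fin r → I) {z : W.H (X.pow (r + r))}
    (hz : z ∈ P.wordPart (Fin.append (fun s => (w s, false)) fun s => (w s, true))) :
    ∃ x : Matrix (Fin r → B.α) (Fin r → B.α) K, H69.Supp B.col w x ∧ z = W.ofMat B.b B.b' x := by
  classical
  obtain ⟨x, hx⟩ := W.exists_coord (X := X) (m := r + r)
    (β := fun s => {a : B.α // B.col a = Fin.append w w s})
    (fun s j => B.ActD_f r s j.1) (by
      intro s
      refine Fin.addCases (fun s => ?_) (fun s => ?_) s
      · intro v0 hv
        rw [Fin.append_left] at hv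
        have hv' : v0 ∈ LinearMap.range (P.p' (w s)) := by simpa [letter] using hv
        obtain ⟨v, rfl⟩ := hv'
        have h1 := B.span_b' (w s) v
        refine Submodule.span_mono ?_ h1
        rintro _ ⟨a, ha, rfl⟩
        refine ⟨⟨a, by rw [Fin.append_left]; exact ha⟩, ?_⟩
        simp only [ActD_f, Fin.append_left]
      · intro v0 hv
        rw [Fin.append_right] at hv
        have hv' : v0 ∈ LinearMap.range (P.p (w s)) := by simpa [letter] using hv
        obtain ⟨v, rfl⟩ := hv'
        have h1 := B.span_b (w s) v
        refine Submodule.span_mono ?_ h1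
        rintro _ ⟨a, ha, rfl⟩
        refine ⟨⟨a, by rw [Fin.append_right]; exact ha⟩, ?_⟩
        simp only [ActD_f, Fin.append_right]) hz
  refine ⟨Matrix.of fun a c => if h : (∀ s, B.col (a s) = w s) ∧ (∀ s, B.col (c s) = w s) then
    x (fun s => ⟨Fin.append c a s, by
      refine Fin.addCases (fun s => ?_) (fun s => ?_) s
      · rw [Fin.append_left, Fin.append_left]; exact h.2 s
      · rw [Fin.append_right, Fin.append_right]; exact h.1 s⟩) else 0, ?_, ?_⟩
  · intro a c h0
    by_contra hcon
    apply h0
    rw [Matrix.of_apply, dif_neg hcon]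
  · rw [hx, B.ActD_ofMat_eq w]
    · refine Finset.sum_congr rfl fun d _ => ?_
      congr 1
      have hd : (∀ s, B.col ((fun s => (d (Fin.natAdd r s)).1) s) = w s) ∧
          (∀ s, B.col ((fun s => (d (Fin.castAdd r s)).1) s) = w s) := by
        refine ⟨fun s => ?_, fun s => ?_⟩
        · exact (d (Fin.natAdd r s)).2.trans (Fin.append_right w w s)
        · exact (d (Fin.castAdd r s)).2.trans (Fin.append_left w w s)
      rw [Matrix.of_apply, dif_pos hd]
      congr 1
      funext s
      apply Subtype.ext
      refine Fin.addCases (fun s => ?_) (fun s => ?_) s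
      · simp only [Fin.append_left]
      · simp only [Fin.append_right]
    · intro a c h0
      by_contra hcon
      apply h0
      rw [Matrix.of_apply, dif_neg hcon]

end Pieces.Bases

end Weil

end Pool.Agent.WeilH_h6
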