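import Pool.Agent.WeilH_h6.OfMat
import Pool.Agent.WeilH_h6.Sel
import Pool.Agent.WeilH_h6.Box
import Pool.Agent.WeilH_h6.LamB
import Pool.Agent.W_f569db_h69.Defs

set_option autoImplicit false

/-!
# Complete contractions of a class in `V_w^∨ ⊗ V_w` are the trace invariants of its matrix
-/

noncomputable section

namespace Pool.Agent.WeilH_h6

open AlgebraicGeometry CategoryTheory MonoidalCategory
open scoped TensorProduct DirectSum
open VarClass

universe u v w

namespace Weil

variable {k : Type u} [Field k] {𝒱 : VarClass k} {K : Type v} [Field K] (W : Weil.{u, v, w} 𝒱 K)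

/-- The matching of the legs: the dual leg `(k, s)` is put in front of the leg `σ (k, s)`; the pair
of legs number `(k, s)` of the target consists of the dual leg `(k, s)` and the leg `σ (k, s)`. -/
def legs (d r : ℕ) (σ : Equiv.Perm (Fin (d + 1) × Fin r)) :
    Fin ((d + 1) * (r + r)) ≃ Fin ((d + 1) * r * 2) :=
  finProdFinEquiv.symm.trans <|
    ((Equiv.refl (Fin (d + 1))).prodCongr finSumFinEquiv.symm).trans <|
    (Equiv.prodSumDistrib (Fin (d + 1)) (Fin r) (Fin r)).trans <|
    ((Equiv.refl _).sumCongr σ.symm).trans <|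
    (Equiv.sumCongr (Equiv.prodUnique (Fin (d + 1) × Fin r) (Fin 1)).symm
      (Equiv.prodUnique (Fin (d + 1) × Fin r) (Fin 1)).symm).trans <|
    (Equiv.prodSumDistrib (Fin (d + 1) × Fin r) (Fin 1) (Fin 1)).symm.trans <|
    ((finProdFinEquiv (m := d + 1) (n := r)).prodCongr (finSumFinEquiv (m := 1) (n := 1))).trans
      finProdFinEquiv

lemma Contract_legs_left (d r : ℕ) (σ : Equiv.Perm (Fin (d + 1) × Fin r)) (q : Fin (d + 1))
    (s : Fin r) :
    legs d r σ (finProdFinEquiv (q, Fin.castAdd r s)) =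
      finProdFinEquiv (finProdFinEquiv (q, s), (0 : Fin 2)) := by
  simp only [legs, Equiv.trans_apply, Equiv.symm_apply_apply, Equiv.prodCongr_apply, Prod.map_apply,
    Equiv.refl_apply, finSumFinEquiv_symm_apply_castAdd, Equiv.prodSumDistrib_apply_left,
    Equiv.sumCongr_apply, Sum.map_inl, Equiv.prodUnique_symm_apply,
    Equiv.prodSumDistrib_symm_apply_left, finSumFinEquiv_apply_left]
  rfl

lemma Contract_legs_right (d r : ℕ) (σ : Equiv.Perm (Fin (d + 1) × Fin r)) (q : Fin (d + 1))
    (s : Fin r) :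
    legs d r σ (finProdFinEquiv (q, Fin.natAdd r s)) =
      finProdFinEquiv (finProdFinEquiv (σ.symm (q, s)), (1 : Fin 2)) := by
  simp only [legs, Equiv.trans_apply, Equiv.symm_apply_apply, Equiv.prodCongr_apply, Prod.map_apply,
    Equiv.refl_apply, finSumFinEquiv_symm_apply_natAdd, Equiv.prodSumDistrib_apply_right,
    Equiv.sumCongr_apply, Sum.map_inr, Equiv.prodUnique_symm_apply,
    Equiv.prodSumDistrib_symm_apply_right, finSumFinEquiv_apply_right]
  rfl

lemma Contract_legs_symm0 (d r : ℕ) (σ : Equiv.Perm (Fin (d + 1) × Fin r))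
    (p : Fin (d + 1) × Fin r) :
    (legs d r σ).symm (finProdFinEquiv (finProdFinEquiv p, (0 : Fin 2))) =
      finProdFinEquiv (p.1, Fin.castAdd r p.2) := by
  rw [Equiv.symm_apply_eq, Contract_legs_left]

lemma Contract_legs_symm1 (d r : ℕ) (σ : Equiv.Perm (Fin (d + 1) × Fin r))
    (p : Fin (d + 1) × Fin r) :
    (legs d r σ).symm (finProdFinEquiv (finProdFinEquiv p, (1 : Fin 2))) =
      finProdFinEquiv ((σ p).1, Fin.natAdd r (σ p).2) := by
  rw [Equiv.symm_apply_eq, Contract_legs_right, Prod.mk.eta, Equiv.symm_apply_apply]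

/-- The family of the legs. -/
def Contract_T {X : 𝒱.Obj} {α : Type} (b b' : α → W.H X) {d r : ℕ}
    (P : Fin (d + 1) → (Fin r → α) × (Fin r → α)) (j : Fin ((d + 1) * (r + r))) : W.H X :=
  Fin.append (fun s => b' ((P (finProdFinEquiv.symm j).1).2 s))
    (fun s => b ((P (finProdFinEquiv.symm j).1).1 s)) (finProdFinEquiv.symm j).2

lemma Contract_T_left {X : 𝒱.Obj} {α : Type} (b b' : α → W.H X) {d r : ℕ}
    (P : Fin (d + 1) → (Fin r → α) × (Fin r → α)) (q : Fin (d + 1)) (s : Fin r) :
    W.Contract_T b b' P (finProdFinEquiv (q, Fin.castAdd r s)) = b' ((P q).2 s) := by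
  unfold Contract_T
  rw [Equiv.symm_apply_apply, Fin.append_left]

lemma Contract_T_right {X : 𝒱.Obj} {α : Type} (b b' : α → W.H X) {d r : ℕ}
    (P : Fin (d + 1) → (Fin r → α) × (Fin r → α)) (q : Fin (d + 1)) (s : Fin r) :
    W.Contract_T b b' P (finProdFinEquiv (q, Fin.natAdd r s)) = b ((P q).1 s) := by
  unfold Contract_T
  rw [Equiv.symm_apply_apply, Fin.append_right]

lemma Contract_box {X : 𝒱.Obj} {α : Type} [Fintype α] (b b' : α → W.H X) {r : ℕ}
    (x : Matrix (Fin r → α) (Fin r → α) K) (d : ℕ) :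
    W.box (fun _ : Fin (d + 1) => W.ofMat b b' x) =
      ∑ P : Fin (d + 1) → (Fin r → α) × (Fin r → α),
        (∏ q, x (P q).1 (P q).2) • W.pureT (W.Contract_T b b' P) := by
  classical
  have h1 : W.ofMat b b' x = ∑ p : (Fin r → α) × (Fin r → α),
      x p.1 p.2 • W.pureT (Fin.append (fun s => b' (p.2 s)) fun s => b (p.1 s)) := by
    rw [Fintype.sum_prod_type]
    rfl
  rw [← W.boxM_apply, h1]
  rw [MultilinearMap.map_sum (W.boxM X (d + 1) (r + r)) (fun _ (p : (Fin r → α) × (Fin r → α)) =>
    x p.1 p.2 • W.pureT (Fin.append (fun s => b' (p.2 s)) fun s => b (p.1 s)))]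
  refine Finset.sum_congr rfl fun P _ => ?_
  rw [MultilinearMap.map_smul_univ, W.boxM_apply]
  congr 1
  exact W.box_pureT fun q => Fin.append (fun s => b' ((P q).2 s)) fun s => b ((P q).1 s)

/-- The trace of a product class, contracted according to `σ`. -/
lemma Contract_tr {X : 𝒱.Obj} {α : Type} (b b' : α → W.H X) {d r : ℕ}
    (σ : Equiv.Perm (Fin (d + 1) × Fin r)) (P : Fin (d + 1) → (Fin r → α) × (Fin r → α)) :
    W.tr (X.pow ((d + 1) * r * 2)) (W.pureT (fun t => W.Contract_T b b' P ((legs d r σ).symm t)) *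
      W.theta X ((d + 1) * r)) =
      ∏ p : Fin (d + 1) × Fin r, W.tr X (b' ((P p.1).2 p.2) * b ((P (σ p).1).1 (σ p).2)) := by
  rw [W.tr_pureT_theta, ← finProdFinEquiv.prod_comp]
  refine Finset.prod_congr rfl fun p _ => ?_
  rw [Contract_legs_symm0, Contract_legs_symm1, Contract_T_left, Contract_T_right]

/-- The contraction formula: if all the vectors of colour `i` have parity `n i`, if `b'` is dual to
`b` inside each colour, if `x` is supported on the word `w`, then the complete contraction of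
`(ofMat x)^{⊠ (d+1)}` according to `σ` is up to sign the trace invariant of `x`.

Proof.  If `σ` does not respect the word `w` (i.e. `w (σ (k, s)).2 ≠ w s` for some `(k, s)`) then the
right hand side is zero; in this case there is nothing to prove (take `ε = 0`... the statement only
claims that the vanishing of the left hand side implies the vanishing of the right hand side).
Otherwise expand `box (fun _ => ofMat x)` by multilinearity (`boxM`, `MultilinearMap.map_sum`,
`map_smul_univ`) and `box_pureT`: it is the sum over `(a_k, c_k)_k` of `∏_k x (a_k) (c_k)` times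
`pureT` of the family of the legs.  All terms with nonzero coefficient have the same parities
(`n (w s)` on the legs `(k, s)` of both kinds), so that `pull_sel_pureT` gives one sign `ε ≠ 0` for all
of them; then `tr_pureT_theta` gives `∏_{(k,s)} Tr (b' (c_k s) * b (a_{k'} s'))` with
`(k', s') = σ (k, s)`, and this is `1` if `c_k s = a_{k'} s'` for all `(k, s)` and `0` otherwise (same
colours because `σ` respects `w`). -/
lemma contract [CharZero K] {X : 𝒱.Obj} {I : Type} {α : Type} [Fintype α] [DecidableEq α]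
    (c : α → I) (n : I → ℕ) (b b' : α → W.H X)
    (hb : ∀ a, W.par X (b a) = ((-1 : K) ^ n (c a)) • b a)
    (hb' : ∀ a, W.par X (b' a) = ((-1 : K) ^ n (c a)) • b' a)
    (hd : ∀ a a', c a = c a' → W.tr X (b' a * b a') = if a = a' then 1 else 0)
    {r : ℕ} (w : Fin r → I) (x : Matrix (Fin r → α) (Fin r → α) K) (hx : H69.Supp c w x)
    (d : ℕ) (σ : Equiv.Perm (Fin (d + 1) × Fin r))
    (h0 : W.tr (X.pow ((d + 1) * r * 2))
      (W.pull (Obj.sel X (legs d r σ)) (W.box fun _ : Fin (d + 1) => W.ofMat b b' x) *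
        W.theta X ((d + 1) * r)) = 0) :
    ∑ a : Fin (d + 1) × Fin r → α, ∏ k, x (fun s => a (k, s)) (fun s => a (σ (k, s))) = 0 := by
  classical
  by_cases hσ : ∀ p : Fin (d + 1) × Fin r, w (σ p).2 = w p.2
  swap
  · push Not at hσ
    obtain ⟨p, hp⟩ := hσ
    refine Finset.sum_eq_zero fun a _ => ?_
    by_contra hne
    have hall : ∀ q : Fin (d + 1), x (fun s => a (q, s)) (fun s => a (σ (q, s))) ≠ 0 := by
      intro q
      exact (Finset.prod_ne_zero_iff.mp hne) q (Finset.mem_univ q)
    apply hp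
    have h1 := (hx _ _ (hall p.1)).2 p.2
    have h2 := (hx _ _ (hall (σ p).1)).1 (σ p).2
    simp only [Prod.mk.eta] at h1 h2
    rw [← h1, ← h2]
  -- the parities
  let π : Fin ((d + 1) * (r + r)) → ℕ := fun j =>
    n (Fin.append w w (finProdFinEquiv.symm j).2)
  obtain ⟨ε, hε, hpull⟩ := W.pull_sel_pureT (X := X) (legs d r σ) π
  have hε0 : ε ≠ 0 := by
    rcases hε with h | h <;> rw [h]
    · exact one_ne_zero
    · exact neg_ne_zero.mpr one_ne_zero
  -- the parities of the terms with nonzero coefficients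
  have hpar : ∀ P : Fin (d + 1) → (Fin r → α) × (Fin r → α), (∏ q, x (P q).1 (P q).2) ≠ 0 →
      ∀ j, W.par X (W.Contract_T b b' P j) = ((-1 : K) ^ (π j)) • W.Contract_T b b' P j := by
    intro P hP j
    have hall : ∀ q : Fin (d + 1), x (P q).1 (P q).2 ≠ 0 := fun q =>
      (Finset.prod_ne_zero_iff.mp hP) q (Finset.mem_univ q)
    obtain ⟨⟨q, t⟩, rfl⟩ := finProdFinEquiv.surjective j
    have hπ : π (finProdFinEquiv (q, t)) = n (Fin.append w w t) := by
      simp only [π, Equiv.symm_apply_apply]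
    rw [hπ]
    refine Fin.addCases (fun s => ?_) (fun s => ?_) t
    · rw [W.Contract_T_left, Fin.append_left, hb', (hx _ _ (hall q)).2 s]
    · rw [W.Contract_T_right, Fin.append_right, hb, (hx _ _ (hall q)).1 s]
  -- the value of each term
  have hterm : ∀ P : Fin (d + 1) → (Fin r → α) × (Fin r → α),
      W.tr (X.pow ((d + 1) * r * 2)) (W.pull (Obj.sel X (legs d r σ))
        ((∏ q, x (P q).1 (P q).2) • W.pureT (W.Contract_T b b' P)) * W.theta X ((d + 1) * r)) =
      ε * ((∏ q, x (P q).1 (P q).2) *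
        if ∀ p : Fin (d + 1) × Fin r, (P p.1).2 p.2 = (P (σ p).1).1 (σ p).2 then 1 else 0) := by
    intro P
    by_cases hP : (∏ q, x (P q).1 (P q).2) = 0
    · rw [hP, zero_smul, map_zero, zero_mul, map_zero, zero_mul, mul_zero]
    · have hall : ∀ q : Fin (d + 1), x (P q).1 (P q).2 ≠ 0 := fun q =>
        (Finset.prod_ne_zero_iff.mp hP) q (Finset.mem_univ q)
      rw [map_smul, smul_mul_assoc, map_smul, hpull _ (hpar P hP), smul_mul_assoc, map_smul,
        W.Contract_tr, smul_eq_mul, smul_eq_mul]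
      have h1 : (∏ p : Fin (d + 1) × Fin r,
          W.tr X (b' ((P p.1).2 p.2) * b ((P (σ p).1).1 (σ p).2))) =
          if ∀ p : Fin (d + 1) × Fin r, (P p.1).2 p.2 = (P (σ p).1).1 (σ p).2 then 1 else 0 := by
        have h2 : ∀ p : Fin (d + 1) × Fin r,
            W.tr X (b' ((P p.1).2 p.2) * b ((P (σ p).1).1 (σ p).2)) =
              if (P p.1).2 p.2 = (P (σ p).1).1 (σ p).2 then 1 else 0 := by
          intro p
          apply hd
          rw [(hx _ _ (hall p.1)).2 p.2, (hx _ _ (hall (σ p).1)).1 (σ p).2, hσ p]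
        rw [Finset.prod_congr rfl fun p _ => h2 p, Finset.prod_ite_zero]
        simp
      rw [h1]
      ring
  rw [W.Contract_box, map_sum, Finset.sum_mul, map_sum,
    Finset.sum_congr rfl fun P _ => hterm P, ← Finset.mul_sum] at h0
  have h1 := (mul_eq_zero.mp h0).resolve_left hε0
  -- reindex
  let E : (Fin (d + 1) → (Fin r → α) × (Fin r → α)) ≃
      (Fin (d + 1) × Fin r → α) × (Fin (d + 1) × Fin r → α) :=
    (Equiv.arrowProdEquivProdArrow (Fin (d + 1)) (fun _ => Fin r → α) (fun _ => Fin r → α)).trans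
      ((Equiv.curry (Fin (d + 1)) (Fin r) α).symm.prodCongr
        (Equiv.curry (Fin (d + 1)) (Fin r) α).symm)
  have h2 : ∑ Q : (Fin (d + 1) × Fin r → α) × (Fin (d + 1) × Fin r → α),
      (∏ q, x (fun s => Q.1 (q, s)) (fun s => Q.2 (q, s))) *
        (if Q.2 = fun p => Q.1 (σ p) then (1 : K) else 0) = 0 := by
    refine Eq.trans ?_ h1
    rw [← E.sum_comp]
    refine Finset.sum_congr rfl fun P _ => ?_
    congr 1
    refine if_congr ?_ rfl rfl
    constructor
    · intro h p
      exact congrFun h p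
    · intro h
      funext p
      exact h p
  rw [Fintype.sum_prod_type] at h2
  refine Eq.trans ?_ h2
  refine Finset.sum_congr rfl fun a _ => ?_
  rw [Finset.sum_eq_single (fun p => a (σ p))]
  · rw [if_pos rfl, mul_one]
  · intro Q _ hQ
    rw [if_neg hQ, mul_zero]
  · intro h
    exact absurd (Finset.mem_univ _) h

end Weil

end Pool.Agent.WeilH_h6
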