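import Pool.Agent.WeilH_h6.Setup

set_option autoImplicit false

/-!
# Adjoints of external powers
-/

noncomputable section

namespace Pool.Agent.WeilH_h6

open AlgebraicGeometry CategoryTheory MonoidalCategory
open scoped TensorProduct DirectSum
open VarClass

universe u v w

namespace Weil

variable {k : Type u} [Field k] {𝒱 : VarClass k} {K : Type v} [Field K] (W : Weil.{u, v, w} 𝒱 K)

lemma adj_mid [CharZero K] {Y Y' : 𝒱.Obj} {i j : ℕ} (y z : W.H Y) (y' z' : W.H Y')
    (hy' : W.par Y' y' = ((-1 : K) ^ i) • y') (hz : W.par Y z = ((-1 : K) ^ j) • z) :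
    W.p1 Y Y' y * W.p2 Y Y' y' * (W.p1 Y Y' z * W.p2 Y Y' z') =
      ((-1 : K) ^ (i * j)) • (W.p1 Y Y' (y * z) * W.p2 Y Y' (y' * z')) := by
  have hl : W.p2 Y Y' y' * W.p1 Y Y' z =
      ((-1 : K) ^ (i * j)) • (W.p1 Y Y' z * W.p2 Y Y' y') :=
    W.supercomm (by rw [W.par_pull, hy', map_smul]) (by rw [W.par_pull, hz, map_smul])
  rw [map_mul, map_mul, mul_assoc, ← mul_assoc (W.p2 Y Y' y'), hl,
    smul_mul_assoc, mul_smul_comm, mul_assoc, mul_assoc]

/-- The external product of adjoint algebraic maps.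

Proof.  By `kunneth_induction` for `a` and `b` and decomposition into parts of definite parity
(`v = (v + par v)/2 + (v - par v)/2`, char 0; or homogeneous parts with `hom_induction`) it is enough
to take `a = p1 y * p2 y'` and `b = p1 z * p2 z'` with `par y' = (-1)^i y'` and `par z = (-1)^j z`.
`φ`, `ψ` commute with the parity (`par_algHom`), so that `par (ψ y') = (-1)^i ψ y'` and
`par (φ' z) = (-1)^j φ' z`.  By `supercomm` both sides are `(-1)^(i j)` times
`tr (φ y * z) * tr (ψ y' * z') = tr (y * φ' z) * tr (y' * ψ' z')` (`tr_prod`). -/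
lemma extHom_adj [CharZero K] {Y Y' : 𝒱.Obj} {φ φ' : Module.End K (W.H Y)}
    {ψ ψ' : Module.End K (W.H Y')} (hφ : φ ∈ W.algHom Y Y) (hφ' : φ' ∈ W.algHom Y Y)
    (hψ : ψ ∈ W.algHom Y' Y') (hψ' : ψ' ∈ W.algHom Y' Y')
    (h : ∀ v v', W.tr Y (φ v * v') = W.tr Y (v * φ' v'))
    (h' : ∀ v v', W.tr Y' (ψ v * v') = W.tr Y' (v * ψ' v')) (a b : W.H (Y.prod Y')) :
    W.tr (Y.prod Y') (W.extHom φ ψ a * b) = W.tr (Y.prod Y') (a * W.extHom φ' ψ' b) := by
  refine W.kunneth_induction Y Y' (P := fun a => W.tr (Y.prod Y') (W.extHom φ ψ a * b) =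
    W.tr (Y.prod Y') (a * W.extHom φ' ψ' b)) ?_ ?_ a
  · intro a a' ha ha'
    rw [map_add, add_mul, add_mul, map_add, map_add, ha, ha']
  intro y y'
  refine W.kunneth_induction Y Y' (P := fun b => W.tr (Y.prod Y') (W.extHom φ ψ
    (W.p1 Y Y' y * W.p2 Y Y' y') * b) = W.tr (Y.prod Y')
      ((W.p1 Y Y' y * W.p2 Y Y' y') * W.extHom φ' ψ' b)) ?_ ?_ b
  · intro b b' hb hb'
    rw [map_add (W.extHom φ' ψ'), mul_add, mul_add, map_add, map_add, hb, hb']
  intro z z'
  rw [W.extHom_apply, W.extHom_apply]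
  refine W.hom_induction (P := fun z => W.tr (Y.prod Y')
    (W.p1 Y Y' (φ y) * W.p2 Y Y' (ψ y') * (W.p1 Y Y' z * W.p2 Y Y' z')) =
    W.tr (Y.prod Y') (W.p1 Y Y' y * W.p2 Y Y' y' * (W.p1 Y Y' (φ' z) * W.p2 Y Y' (ψ' z'))))
    (by simp) ?_ ?_ z
  · intro a b ha hb
    simp only [map_add, mul_add, add_mul] at ha hb ⊢
    rw [ha, hb]
  intro j z hz
  refine W.hom_induction (P := fun y' => W.tr (Y.prod Y')
    (W.p1 Y Y' (φ y) * W.p2 Y Y' (ψ y') * (W.p1 Y Y' z * W.p2 Y Y' z')) =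
    W.tr (Y.prod Y') (W.p1 Y Y' y * W.p2 Y Y' y' * (W.p1 Y Y' (φ' z) * W.p2 Y Y' (ψ' z'))))
    (by simp) ?_ ?_ y'
  · intro a b ha hb
    simp only [map_add, mul_add, add_mul] at ha hb ⊢
    rw [ha, hb]
  intro i y' hy'
  rw [W.adj_mid (i := i) (j := j) (φ y) z (ψ y') z'
      (by rw [← W.par_algHom hψ, W.par_apply hy', map_smul]) (W.par_apply hz),
    W.adj_mid (i := i) (j := j) y (φ' z) y' (ψ' z') (W.par_apply hy')
      (by rw [← W.par_algHom hφ', W.par_apply hz, map_smul]),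
    map_smul, map_smul, W.tr_prod, W.tr_prod, h, h']

/-- Proof: induction on `m` with `extHom_adj`, `powMap_mem_algHom`. -/
lemma powMap_adj [CharZero K] {X : 𝒱.Obj} {m : ℕ} {φ φ' : Fin m → Module.End K (W.H X)}
    (hφ : ∀ s, φ s ∈ W.algHom X X) (hφ' : ∀ s, φ' s ∈ W.algHom X X)
    (h : ∀ s v v', W.tr X (φ s v * v') = W.tr X (v * φ' s v')) (a b : W.H (X.pow m)) :
    W.tr (X.pow m) (W.powMap m φ a * b) = W.tr (X.pow m) (a * W.powMap m φ' b) := by
  induction m with
  | zero => rfl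
  | succ m ih =>
    exact W.extHom_adj (Y := X.pow m) (Y' := X) (W.powMap_mem_algHom fun s => hφ s.castSucc)
      (W.powMap_mem_algHom fun s => hφ' s.castSucc) (hφ _) (hφ' _)
      (fun v v' => ih (fun s => hφ s.castSucc) (fun s => hφ' s.castSucc) (fun s => h s.castSucc) v v')
      (h _) a b

variable {W}

namespace Pieces

variable {X : 𝒱.Obj} {I : Type} (P : W.Pieces X I)

/-- The adjoint of the projector of a letter is the projector of the dual letter. -/
lemma proj_adj [CharZero K] (l : I × Bool) (v v' : W.H X) :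
    W.tr X (P.proj l v * v') = W.tr X (v * P.proj (l.1, !l.2) v') := by
  obtain ⟨i, b⟩ := l
  cases b with
  | true =>
    have := P.adj i v v'
    simpa [proj] using this
  | false =>
    have := W.adj_symm (W.isAlgEnd_iff.1 (P.alg i)) (P.alg' i) (P.adj i) v v'
    simpa [proj] using this

/-- The projector of a word. -/
lemma powMap_proj_eq [CharZero K] {m : ℕ} {l : Fin m → I × Bool} {z : W.H (X.pow m)}
    (hz : z ∈ P.wordPart l) : W.powMap m (fun s => P.proj (l s)) z = z :=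
  W.powMap_eq_self (fun s v hv => P.proj_eq_self (l s) v hv) hz

lemma powMap_proj_mem [CharZero K] {m : ℕ} (l : Fin m → I × Bool) (z : W.H (X.pow m)) :
    W.powMap m (fun s => P.proj (l s)) z ∈ P.wordPart l :=
  W.powMap_mem_partOf (fun s v => P.proj_apply_mem (l s) v) z

lemma powMap_proj_adj [CharZero K] {m : ℕ} (l : Fin m → I × Bool) (a b : W.H (X.pow m)) :
    W.tr (X.pow m) (W.powMap m (fun s => P.proj (l s)) a * b) =
      W.tr (X.pow m) (a * W.powMap m (fun s => P.proj ((l s).1, !(l s).2)) b) :=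
  W.powMap_adj (fun s => P.proj_mem (l s)) (fun s => P.proj_mem _)
    (fun s v v' => P.proj_adj (l s) v v') a b

end Pieces

end Weil

end Pool.Agent.WeilH_h6
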