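import Pool.Agent.WeilH_h6.Sigma

set_option autoImplicit false

/-!
# The semilinear maps given by condition `I'`
-/

noncomputable section

namespace Pool.Agent.WeilH_h6

open AlgebraicGeometry CategoryTheory MonoidalCategory
open scoped TensorProduct DirectSum
open VarClass

universe u v w

namespace Weil

variable {k : Type u} [Field k] {𝒱 : VarClass k} {K : Type v} [Field K] (W : Weil.{u, v, w} 𝒱 K)

/-- A family of subsets of the pieces of a graded vector space whose elements are independent over
`K` as soon as they are independent over `ℚ`: semilinear maps fixing these subsets. -/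
lemma Sigma_aux {K : Type v} [Field K] [CharZero K] {V : Type w} [AddCommGroup V] [Module K V]
    (A : ℕ → Submodule K V) (hA : DirectSum.IsInternal A) (S : ℕ → Set V)
    (hS : ∀ i, S i ⊆ A i)
    (hind : ∀ (i r : ℕ) (z : Fin r → V), (∀ j, z j ∈ S i) →
      (∀ q : Fin r → ℚ, ∑ j, (q j : K) • z j = 0 → q = 0) →
        ∀ t : Fin r → K, ∑ j, t j • z j = 0 → t = 0) (σ : K ≃+* K) :
    ∃ s : V → V, (∀ a b, s (a + b) = s a + s b) ∧ (∀ (t : K) a, s (t • a) = σ t • s a) ∧
      (∀ a, s a = 0 → a = 0) ∧ ∀ i, ∀ a ∈ S i, s a = a := by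
  classical
  letI : Module ℚ V := Module.compHom V (algebraMap ℚ K)
  have hsm : ∀ (q : ℚ) (x : V), q • x = (q : K) • x := fun q x => by
    change (algebraMap ℚ K q) • x = (q : K) • x
    rw [eq_ratCast]
  choose b hbS hspan hlin using fun i => exists_linearIndependent ℚ (S i)
  -- independence over `K`
  have hK : ∀ i, LinearIndependent K ((↑) : b i → V) := by
    intro i
    rw [linearIndependent_iff']
    intro s g hg x hx
    have h1 : ∀ t : Fin s.card → K, ∑ j, t j • ((s.equivFin.symm j : b i) : V) = 0 → t = 0 := by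
      refine hind i s.card (fun j => ((s.equivFin.symm j : b i) : V))
        (fun j => hbS i (s.equivFin.symm j : b i).2) ?_
      intro q hq
      have h2 : ∑ y : s, q (s.equivFin y) • ((y : b i) : V) = 0 := by
        rw [← hq, ← s.equivFin.symm.sum_comp]
        refine Finset.sum_congr rfl fun j _ => ?_
        rw [Equiv.apply_symm_apply, hsm]
      have h3 : ∀ y : b i, ∃ r : ℚ, ∀ hy : y ∈ s, r = q (s.equivFin ⟨y, hy⟩) := fun y => by
        by_cases hy : y ∈ s
        · exact ⟨q (s.equivFin ⟨y, hy⟩), fun _ => rfl⟩
        · exact ⟨0, fun h => (hy h).elim⟩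
      choose g' hg' using h3
      have h4 : ∑ y ∈ s, g' y • (y : V) = 0 := by
        rw [← h2, ← Finset.sum_coe_sort]
        refine Finset.sum_congr rfl fun y _ => ?_
        rw [hg' y.1 y.2]
      have h5 := linearIndependent_iff'.1 (hlin i) s g' h4
      funext j
      have h6 := h5 _ (s.equivFin.symm j).2
      rw [hg' _ (s.equivFin.symm j).2] at h6
      have h7 : (⟨((s.equivFin.symm j : s) : b i), (s.equivFin.symm j).2⟩ : s) =
        s.equivFin.symm j := rfl
      rw [h7, Equiv.apply_symm_apply] at h6
      exact h6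
    have h7 : ∑ y : s, g (y : b i) • ((y : b i) : V) = 0 := by
      rw [← hg]
      exact Finset.sum_coe_sort s fun y => g y • (y : V)
    have h8 := h1 (fun j => g (s.equivFin.symm j : b i)) (by
      rw [← h7, ← s.equivFin.symm.sum_comp])
    have h9 := congrFun h8 (s.equivFin ⟨x, hx⟩)
    rw [Pi.zero_apply, Equiv.symm_apply_apply] at h9
    exact h9
  -- the basis
  let v : ∀ i, b i → A i := fun i x => ⟨x.1, hS i (hbS i x.2)⟩
  have hv : ∀ i, LinearIndependent K (v i) := fun i =>
    LinearIndependent.of_comp (A i).subtype (hK i)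
  let B := hA.collectedBasis fun i => Module.Basis.extend (hv i).linearIndepOn_id
  have hB : ∀ i (x : b i), ∃ a, B a = (x : V) := by
    intro i x
    have h1 : v i x ∈ (hv i).linearIndepOn_id.extend (Set.subset_univ _) :=
      (hv i).linearIndepOn_id.subset_extend _ ⟨x, rfl⟩
    refine ⟨⟨i, ⟨v i x, h1⟩⟩, ?_⟩
    rw [DirectSum.IsInternal.collectedBasis_coe]
    change ((Module.Basis.extend (hv i).linearIndepOn_id ⟨v i x, h1⟩ : A i) : V) = x
    rw [Module.Basis.extend_apply_self]
  let s : V → V := fun x => Finsupp.linearCombination K B ((B.repr x).mapRange σ (map_zero σ))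
  have hadd : ∀ a c, s (a + c) = s a + s c := by
    intro a c
    change Finsupp.linearCombination K B ((B.repr (a + c)).mapRange σ (map_zero σ)) = _
    rw [map_add, Finsupp.mapRange_add (map_add σ), map_add]
  have hsmul : ∀ (t : K) a, s (t • a) = σ t • s a := by
    intro t a
    change Finsupp.linearCombination K B ((B.repr (t • a)).mapRange σ (map_zero σ)) = _
    have h1 : (B.repr (t • a)).mapRange σ (map_zero σ) =
        σ t • (B.repr a).mapRange σ (map_zero σ) := by
      ext e
      rw [Finsupp.mapRange_apply, map_smul, Finsupp.smul_apply, Finsupp.smul_apply,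
        Finsupp.mapRange_apply, smul_eq_mul, smul_eq_mul, map_mul]
    rw [h1, map_smul]
  have hfix : ∀ i (x : b i), s (x : V) = x := by
    intro i x
    obtain ⟨a, ha⟩ := hB i x
    change Finsupp.linearCombination K B ((B.repr (x : V)).mapRange σ (map_zero σ)) = _
    rw [← ha, B.repr_self, Finsupp.mapRange_single, map_one, Finsupp.linearCombination_single,
      one_smul]
  refine ⟨s, hadd, hsmul, ?_, ?_⟩
  · intro a ha
    have h1 : (B.repr a).mapRange σ (map_zero σ) = 0 :=
      linearIndependent_iff.1 B.linearIndependent _ ha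
    apply B.repr.injective
    rw [map_zero]
    ext e
    have h2 := DFunLike.congr_fun h1 e
    rw [Finsupp.mapRange_apply] at h2
    rw [Finsupp.zero_apply] at h2 ⊢
    exact (map_eq_zero σ).1 h2
  · intro i a ha
    have h1 : a ∈ Submodule.span ℚ (b i) := by
      rw [hspan i]
      exact Submodule.subset_span ha
    clear ha
    induction h1 using Submodule.span_induction with
    | mem x hx => exact hfix i ⟨x, hx⟩
    | zero =>
      have h2 := hsmul 0 0
      rw [zero_smul, map_zero, zero_smul] at h2
      exact h2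
    | add x y _ _ hx hy => rw [hadd, hx, hy]
    | smul q x _ hx => rw [hsm, hsmul, map_ratCast, hx]

lemma sigmaAlg_isAlgebraic {K : Type v} [Field K] [CharZero K] (σ : K ≃+* K) {x : K}
    (hx : IsAlgebraic ℚ x) : IsAlgebraic ℚ (σ x) := by
  obtain ⟨p, hp, h⟩ := hx
  refine ⟨p, hp, ?_⟩
  have h1 : Polynomial.aeval (σ x) p = σ (Polynomial.aeval x p) := by
    rw [Polynomial.aeval_def, Polynomial.aeval_def, ← RingEquiv.coe_toRingHom,
      Polynomial.hom_eval₂]
    congr 1
    exact Subsingleton.elim _ _
  rw [h1, h, map_zero]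

/-- the restriction of an automorphism to the algebraic numbers -/
def sigmaAlg_restrict {K : Type v} [Field K] [CharZero K] (σ : K ≃+* K) :
    algebraicClosure ℚ K ≃+* algebraicClosure ℚ K where
  toFun x := ⟨σ x, mem_algebraicClosure_iff.2
    (sigmaAlg_isAlgebraic σ (mem_algebraicClosure_iff.1 x.2))⟩
  invFun x := ⟨σ.symm x, mem_algebraicClosure_iff.2
    (sigmaAlg_isAlgebraic σ.symm (mem_algebraicClosure_iff.1 x.2))⟩
  left_inv x := by
    apply Subtype.ext
    exact σ.symm_apply_apply _
  right_inv x := by
    apply Subtype.ext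
    exact σ.apply_symm_apply _
  map_mul' x y := by
    apply Subtype.ext
    exact map_mul σ _ _
  map_add' x y := by
    apply Subtype.ext
    exact map_add σ _ _

/-- If condition `I'` holds for `Y` then for every automorphism `σ` of `K` there is an additive
injective map of `H(Y)` which fixes the classes of the cycles with rational coefficients and is
semilinear for the multiplication with algebraic numbers. -/
lemma exists_sigmaAlg [CharZero K] {Y : 𝒱.Obj} (h : W.CycIndepAlg Y) (σ : K ≃+* K) :
    ∃ s : W.H Y → W.H Y, (∀ a b, s (a + b) = s a + s b) ∧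
      (∀ (t : K) a, IsAlgebraic ℚ t → s (t • a) = σ t • s a) ∧
      (∀ a, s a = 0 → a = 0) ∧ ∀ a ∈ W.ratSpan Y, s a = a := by
  let L := algebraicClosure ℚ K
  letI : Module L (W.H Y) := Module.compHom (W.H Y) (algebraMap L K)
  have hL : ∀ (t : L) (a : W.H Y), t • a = (t : K) • a := fun t a => rfl
  let A : ℕ → Submodule L (W.H Y) := fun i =>
    { carrier := W.grad Y i
      add_mem' := fun ha hb => Submodule.add_mem _ ha hb
      zero_mem' := Submodule.zero_mem _
      smul_mem' := fun t a ha => Submodule.smul_mem _ (t : K) ha }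
  have hA : DirectSum.IsInternal A := W.isInternal Y
  obtain ⟨s, h1, h2, h3, h4⟩ := Sigma_aux (K := L) A hA
    (fun n => {a | ∃ (i : ℕ) (z : Cyc Y i), n = 2 * i ∧ W.cl z = a}) (by
      rintro n _ ⟨i, z, rfl, rfl⟩
      exact W.cl_mem_grad z) (by
      intro n r z hz hq t ht
      rcases Nat.eq_zero_or_pos r with hr | hr
      · subst hr
        funext j
        exact j.elim0
      · obtain ⟨i, _, hi, _⟩ := hz ⟨0, hr⟩
        have h5 : ∀ j, ∃ z' : Cyc Y i, W.cl z' = z j := by
          intro j
          obtain ⟨i', z', hi', hz'⟩ := hz j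
          have h6 : i' = i := by omega
          subst h6
          exact ⟨z', hz'⟩
        choose z' hz' using h5
        have h8 : ∀ q : Fin r → ℚ, ∑ j, (q j : K) • W.cl (z' j) = 0 → q = 0 := by
          intro q hq'
          refine hq q ?_
          rw [← hq']
          refine Finset.sum_congr rfl fun j _ => ?_
          rw [hz']
          have h10 : (((q j : ℚ) : L) : K) = ((q j : ℚ) : K) := map_ratCast (algebraMap L K) (q j)
          rw [← h10]
          rfl
        have h9 : ∑ j, ((t j : L) : K) • W.cl (z' j) = 0 := by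
          rw [← ht]
          refine Finset.sum_congr rfl fun j _ => ?_
          rw [hz']
          rfl
        have h7 := h i r z' h8 (fun j => (t j : K)) (fun j => mem_algebraicClosure_iff.1 (t j).2) h9
        funext j
        apply Subtype.ext
        exact congrFun h7 j) (sigmaAlg_restrict σ)
  refine ⟨s, h1, fun t a ht => ?_, h3, fun a ha => ?_⟩
  · exact h2 ⟨t, mem_algebraicClosure_iff.2 ht⟩ a
  induction ha using AddSubmonoid.closure_induction with
  | mem a ha =>
    obtain ⟨i, z, rfl⟩ := ha
    exact h4 (2 * i) _ ⟨i, z, rfl, rfl⟩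
  | zero =>
    have h5 := h1 0 0
    rw [add_zero] at h5
    exact left_eq_add.1 h5
  | add a b _ _ ha hb => rw [h1, ha, hb]

end Weil

end Pool.Agent.WeilH_h6
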