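import Pool.Agent.WeilH_h6.RatHom
import Pool.Agent.WeilH_h6.SigmaAlg
import Pool.Agent.WeilH_h6.Adj

set_option autoImplicit false

/-!
# Condition `I` makes the set of words with a nonzero algebraic class stable under conjugation
-/

noncomputable section

namespace Pool.Agent.WeilH_h6

open AlgebraicGeometry CategoryTheory MonoidalCategory
open scoped TensorProduct DirectSum
open VarClass

universe u v w

namespace Weil

variable {k : Type u} [Field k] {𝒱 : VarClass k} {K : Type v} [Field K] (W : Weil.{u, v, w} 𝒱 K)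

/-- Proof: `pure_induction` for `z`; for `z = pureT v` use `powMap_pureT`, `pureM` and
`MultilinearMap.map_sum`, `map_smul_univ`. -/
lemma powMap_sum {X : 𝒱.Obj} {m r : ℕ} (φ : Fin m → Module.End K (W.H X)) (c : Fin m → Fin r → K)
    (Q : Fin m → Fin r → Module.End K (W.H X))
    (h : ∀ s v, φ s v = ∑ j, c s j • Q s j v) (z : W.H (X.pow m)) :
    W.powMap m φ z = ∑ J : Fin m → Fin r, (∏ s, c s (J s)) • W.powMap m (fun s => Q s (J s)) z := by
  classical
  refine W.pure_induction (P := fun z => W.powMap m φ z =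
    ∑ J : Fin m → Fin r, (∏ s, c s (J s)) • W.powMap m (fun s => Q s (J s)) z) ?_ ?_ ?_ z
  · intro a b ha hb
    simp only [map_add, smul_add, Finset.sum_add_distrib]
    rw [ha, hb]
  · intro t a ha
    rw [map_smul, ha, Finset.smul_sum]
    refine Finset.sum_congr rfl fun J _ => ?_
    rw [map_smul, smul_comm]
  · intro v
    have hv : (fun s => φ s (v s)) = fun s => ∑ j, c s j • Q s j (v s) :=
      funext fun s => h s (v s)
    rw [powMap_pureT, ← pureM_apply, hv, MultilinearMap.map_sum]
    refine Finset.sum_congr rfl fun J _ => ?_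
    rw [MultilinearMap.map_smul_univ, pureM_apply, powMap_pureT]

/-- Poincaré duality from the right: `x ↦ (w ↦ Tr (w x))`. -/
def ConjClass_pd (X : 𝒱.Obj) : W.H X ≃ₗ[K] Module.Dual K (W.H X) :=
  LinearMap.linearEquivOfInjective ((LinearMap.mul K (W.H X)).flip.compr₂ (W.tr X))
    (by
      rw [injective_iff_map_eq_zero]
      intro x hx
      refine W.ext_tr' fun w => ?_
      rw [mul_zero, map_zero]
      exact LinearMap.congr_fun hx w)
    (Subspace.dual_finrank_eq).symm

lemma ConjClass_pd_apply (X : 𝒱.Obj) (x w : W.H X) : W.ConjClass_pd X x w = W.tr X (w * x) := rfl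

/-- Every endomorphism has an adjoint (Poincaré duality: `pd`, or `ext_tr` and dimensions). -/
lemma exists_adj {X : 𝒱.Obj} (φ : Module.End K (W.H X)) :
    ∃ φ' : Module.End K (W.H X), ∀ v v', W.tr X (φ v * v') = W.tr X (v * φ' v') := by
  refine ⟨(W.ConjClass_pd X).symm.toLinearMap ∘ₗ φ.dualMap ∘ₗ (W.ConjClass_pd X).toLinearMap,
    fun v v' => ?_⟩
  rw [← W.ConjClass_pd_apply X v' (φ v), ← W.ConjClass_pd_apply X _ v]
  simp only [LinearMap.comp_apply, LinearEquiv.coe_coe, LinearEquiv.apply_symm_apply,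
    LinearMap.dualMap_apply]

/-- The projectors as combinations of correspondences with rational coefficients. -/
lemma ConjClass_Q [CharZero K] {X : 𝒱.Obj} {I : Type} {P : W.Pieces X I} (D : P.RatData) :
    ∃ Q : Bool → Fin D.r → Module.End K (W.H X),
      (∀ b j, W.RatHom (Y := X) (Z := X) (Q b j)) ∧
      ∀ i b v, P.proj (i, b) v = ∑ j, D.c i j • Q b j v := by
  have hR : ∀ j, W.RatHom (Y := X) (Z := X) (D.R j) := fun j => W.ratHom_iff.2 (D.isRatEnd j)
  choose R' hR' using fun j => W.exists_adj (D.R j)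
  refine ⟨fun b j => if b then D.R j else R' j, fun b j => ?_, fun i b v => ?_⟩
  · cases b with
    | true => exact hR j
    | false => exact RatHom.adj W (hR j) (hR' j)
  · have h1 : ∀ w, P.p i w = ∑ j, D.c i j • D.R j w := fun w => D.eq_sum i w
    cases b with
    | true => exact h1 v
    | false =>
      change P.p' i v = ∑ j, D.c i j • R' j v
      refine W.ext_tr' fun w => ?_
      rw [← P.adj, h1, Finset.sum_mul, map_sum, Finset.mul_sum, map_sum]
      refine Finset.sum_congr rfl fun j _ => ?_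
      rw [smul_mul_assoc, map_smul, mul_smul_comm, map_smul, hR']

/-- The coefficients `∏_s c_{(l s).1, J s}` are algebraic. -/
lemma ConjClass_prod_isAlgebraic {K : Type v} [Field K] [CharZero K] {m : ℕ} (f : Fin m → K)
    (h : ∀ s, IsAlgebraic ℚ (f s)) : IsAlgebraic ℚ (∏ s, f s) := by
  refine Finset.prod_induction f (IsAlgebraic ℚ) (fun a b => IsAlgebraic.mul) isAlgebraic_one
    fun s _ => h s

/-- Proof.  Let `Y = X^m`.  (1) `P.proj (l s) = ∑_j c_{(l s).1, j} • Q_{s j}` (`ConjClass_Q`).  By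
`powMap_sum`, for every `a`: `powMap (proj (l ·)) a = ∑_J t_J • T_J a` with `t_J = ∏_s c_{(l s).1, J s}`
(algebraic) and `T_J = powMap (fun s => Q_{s, J s})`, and `powMap (proj (l' ·)) a = ∑_J σ (t_J) • T_J a`
for `l' s = (π (l s).1, (l s).2)`.  `T_J a ∈ ratSpan Y` for `a ∈ ratSpan Y`.  (2) Hence
`s (powMap (proj (l ·)) a) = powMap (proj (l' ·)) a` for `a ∈ ratSpan Y`, where `s` is the map of
`exists_sigmaAlg`.  (3) `P.HasClass l` gives `z ≠ 0` in `algSpan ∩ wordPart l`;
`z = powMap (proj (l ·)) z`, so by span induction there is a class `a = cl z'` with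
`powMap (proj (l ·)) a ≠ 0`.  Then `powMap (proj (l' ·)) a ≠ 0` is in `wordPart l'` and in `algSpan`. -/
lemma Pieces.RatData.hasClass_perm [CharZero K] {X : 𝒱.Obj} {I : Type} {P : W.Pieces X I}
    (D : P.RatData) (σ : K ≃+* K) (π : Equiv.Perm I) (hπ : ∀ i j, D.c (π i) j = σ (D.c i j)) {m : ℕ}
    (h : W.CycIndepAlg (X.pow m)) {l : Fin m → I × Bool} (hl : P.HasClass l) :
    P.HasClass fun s => (π (l s).1, (l s).2) := by
  classical
  obtain ⟨s, hadd, hsmul, hinj, hfix⟩ := W.exists_sigmaAlg h σ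
  obtain ⟨Q, hQ, hproj⟩ := W.ConjClass_Q D
  obtain ⟨z, hz, hzalg, hz0⟩ := hl
  -- a class of a cycle which is not killed by the projector
  have h1 : ∃ a ∈ W.ratSpan (X.pow m), W.powMap m (fun t => P.proj (l t)) a ≠ 0 := by
    by_contra hcon
    push Not at hcon
    apply hz0
    rw [← P.powMap_proj_eq hz]
    have h2 : ∀ x ∈ W.algSpan (X.pow m), W.powMap m (fun t => P.proj (l t)) x = 0 := by
      intro x hx
      unfold algSpan at hx
      induction hx using Submodule.span_induction with
      | mem a ha =>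
        obtain ⟨i, z', rfl⟩ := ha
        exact hcon _ (W.cl_mem_ratSpan z')
      | zero => rw [map_zero]
      | add a b _ _ ha hb => rw [map_add, ha, hb, add_zero]
      | smul c a _ ha => rw [map_smul, ha, smul_zero]
    exact h2 z hzalg
  obtain ⟨a, ha, ha0⟩ := h1
  let S : W.H (X.pow m) →+ W.H (X.pow m) := AddMonoidHom.mk' s hadd
  have hS : ∀ a, S a = s a := fun a => rfl
  have key : S (W.powMap m (fun t => P.proj (l t)) a) =
      W.powMap m (fun t => P.proj (π (l t).1, (l t).2)) a := by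
    rw [W.powMap_sum (fun t => P.proj (l t)) (fun t j => D.c (l t).1 j) (fun t => Q (l t).2)
      (fun t v => hproj (l t).1 (l t).2 v) a,
      W.powMap_sum (fun t => P.proj (π (l t).1, (l t).2)) (fun t j => D.c (π (l t).1) j)
      (fun t => Q (l t).2) (fun t v => hproj (π (l t).1) (l t).2 v) a, map_sum]
    refine Finset.sum_congr rfl fun J _ => ?_
    have h1 : S ((∏ t, D.c (l t).1 (J t)) • W.powMap m (fun t => Q (l t).2 (J t)) a) =
        σ (∏ t, D.c (l t).1 (J t)) • S (W.powMap m (fun t => Q (l t).2 (J t)) a) :=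
      hsmul _ _ (ConjClass_prod_isAlgebraic _ fun t => D.isAlgebraic _ _)
    have h2 : S (W.powMap m (fun t => Q (l t).2 (J t)) a) =
        W.powMap m (fun t => Q (l t).2 (J t)) a :=
      hfix _ (RatHom.apply_mem W (RatHom.powMap W fun t => hQ (l t).2 (J t)) ha)
    rw [h1, h2, map_prod]
    congr 1
    exact Finset.prod_congr rfl fun t _ => (hπ _ _).symm
  refine ⟨W.powMap m (fun t => P.proj (π (l t).1, (l t).2)) a,
    P.powMap_proj_mem (fun t => (π (l t).1, (l t).2)) a,
    W.algHom_apply_mem (W.powMap_mem_algHom fun s => P.proj_mem _) (W.ratSpan_le ha), fun h0 => ?_⟩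
  rw [← key] at h0
  exact ha0 (hinj _ h0)

lemma Pieces.RatData.hasClass_conj [CharZero K] {X : 𝒱.Obj} {I : Type} {P : W.Pieces X I}
    (D : P.RatData) (σ : K ≃+* K) {m : ℕ} (h : W.CycIndepAlg (X.pow m)) {l : Fin m → I × Bool}
    (hl : P.HasClass l) : P.HasClass fun s => (D.conj σ (l s).1, (l s).2) :=
  D.hasClass_perm W σ (D.conj σ) (D.conj_c σ) h hl

lemma Pieces.RatData.hasClass_conj_symm [CharZero K] {X : 𝒱.Obj} {I : Type} {P : W.Pieces X I}
    (D : P.RatData) (σ : K ≃+* K) {m : ℕ} (h : W.CycIndepAlg (X.pow m)) {l : Fin m → I × Bool}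
    (hl : P.HasClass l) : P.HasClass fun s => ((D.conj σ).symm (l s).1, (l s).2) := by
  refine D.hasClass_perm W σ.symm (D.conj σ).symm (fun i j => ?_) h hl
  have := D.conj_c σ ((D.conj σ).symm i) j
  rw [Equiv.apply_symm_apply] at this
  rw [this, RingEquiv.symm_apply_apply]

end Weil

end Pool.Agent.WeilH_h6
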