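import Pool.Agent.WeilH_h6.Setup

set_option autoImplicit false

/-!
# Symmetries and the matrices of algebraic classes (degrees)
-/

noncomputable section

namespace Pool.Agent.WeilH_h6

open AlgebraicGeometry CategoryTheory MonoidalCategory
open scoped TensorProduct DirectSum
open VarClass

universe u v w

namespace Weil

variable {k : Type u} [Field k] {𝒱 : VarClass k} {K : Type v} [Field K] (W : Weil.{u, v, w} 𝒱 K)

/-- The component of degree `i`. -/
def ActA_comp (X : 𝒱.Obj) (i : ℕ) : W.H X →ₗ[K] W.H X :=
  (W.grad X i).subtype ∘ₗ DirectSum.component K ℕ (fun i => W.grad X i) i ∘ₗ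
    (LinearEquiv.ofBijective (DirectSum.coeLinearMap (W.grad X)) (W.isInternal X)).symm.toLinearMap

lemma ActA_symm {X : 𝒱.Obj} {i : ℕ} {x : W.H X} (hx : x ∈ W.grad X i) :
    (LinearEquiv.ofBijective (DirectSum.coeLinearMap (W.grad X)) (W.isInternal X)).symm x =
      DirectSum.lof K ℕ (fun i => W.grad X i) i ⟨x, hx⟩ := by
  rw [LinearEquiv.symm_apply_eq]
  change x = DirectSum.coeLinearMap (W.grad X) _
  rw [DirectSum.coeLinearMap_lof]

lemma ActA_comp_same {X : 𝒱.Obj} {i : ℕ} {x : W.H X} (hx : x ∈ W.grad X i) :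
    W.ActA_comp X i x = x := by
  change ((DirectSum.component K ℕ (fun i => W.grad X i) i
    ((LinearEquiv.ofBijective (DirectSum.coeLinearMap (W.grad X)) (W.isInternal X)).symm x) :
      W.grad X i) : W.H X) = x
  rw [W.ActA_symm hx, DirectSum.component.lof_self]

lemma ActA_comp_ne {X : 𝒱.Obj} {i j : ℕ} {x : W.H X} (hx : x ∈ W.grad X i) (hij : i ≠ j) :
    W.ActA_comp X j x = 0 := by
  change ((DirectSum.component K ℕ (fun i => W.grad X i) j
    ((LinearEquiv.ofBijective (DirectSum.coeLinearMap (W.grad X)) (W.isInternal X)).symm x) :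
      W.grad X j) : W.H X) = 0
  rw [W.ActA_symm hx, DirectSum.component.of, dif_neg hij]
  rfl

/-- Homogeneous elements of `algSpan` of degree `2 j` are combinations of cycles of codimension `j`.

Proof.  Show by span induction that each `a ∈ algSpan` is a sum of a family (finitely supported in
`j`) of elements of the `span K {cl z | z : Cyc X j} ⊆ grad (2 j)`; compare components
(`isInternal`). -/
lemma algSpan_homog {X : 𝒱.Obj} {j : ℕ} {a : W.H X} (ha : a ∈ W.algSpan X)
    (hg : a ∈ W.grad X (2 * j)) : a ∈ Submodule.span K {x | ∃ z : Cyc X j, W.cl z = x} := by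
  have key : ∀ b ∈ W.algSpan X, W.ActA_comp X (2 * j) b ∈
      Submodule.span K {x | ∃ z : Cyc X j, W.cl z = x} := by
    intro b hb
    induction hb using Submodule.span_induction with
    | mem b hb =>
      obtain ⟨i, z, rfl⟩ := hb
      by_cases hij : i = j
      · subst hij
        rw [W.ActA_comp_same (W.cl_mem_grad z)]
        exact Submodule.subset_span ⟨z, rfl⟩
      · rw [W.ActA_comp_ne (W.cl_mem_grad z) (by omega)]
        exact Submodule.zero_mem _
    | zero => rw [map_zero]; exact Submodule.zero_mem _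
    | add x y _ _ hx hy => rw [map_add]; exact Submodule.add_mem _ hx hy
    | smul t x _ hx => rw [map_smul]; exact Submodule.smul_mem _ _ hx
  have h := key a ha
  rwa [W.ActA_comp_same hg] at h

lemma IsSymmetry.apply_homog {X : 𝒱.Obj} {g : Module.End K (W.H X)} {c : K}
    (h : W.IsSymmetry g c) {m j : ℕ} {a : W.H (X.pow m)} (ha : a ∈ W.algSpan _)
    (hg : a ∈ W.grad _ (2 * j)) : W.powMap m (fun _ => g) a = c ^ j • a := by
  have := W.algSpan_homog ha hg
  clear ha hg
  induction this using Submodule.span_induction with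
  | mem x hx => obtain ⟨z, rfl⟩ := hx; exact h.powMap_cl m j z
  | zero => simp
  | add x y _ _ hx hy => rw [map_add, hx, hy, smul_add]
  | smul t x _ hx => rw [map_smul, hx, smul_comm]

/-- `pureT` of homogeneous elements is homogeneous.  Induction with `pureT_succ`. -/
lemma pureT_mem_grad {X : 𝒱.Obj} {m : ℕ} (n : Fin m → ℕ) (v : Fin m → W.H X)
    (h : ∀ s, v s ∈ W.grad X (n s)) : W.pureT v ∈ W.grad (X.pow m) (∑ s, n s) := by
  induction m with
  | zero =>
    rw [pureT_zero, Fin.sum_univ_zero]
    exact SetLike.GradedOne.one_mem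
  | succ m ih =>
    rw [pureT_succ, Fin.sum_univ_castSucc]
    exact W.mul_mem_grad
      (W.pull_grad _ _ _ (ih (fun s => n s.castSucc) (fun s => v s.castSucc) fun s => h _))
      (W.pull_grad _ _ _ (h _))

end Weil

end Pool.Agent.WeilH_h6
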