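import Pool.Agent.WeilH_h6.ActC
import Pool.Agent.WeilH_h6.ActD

set_option autoImplicit false

/-!
# Symmetries and the matrices of algebraic classes (commutation)
-/

noncomputable section

namespace Pool.Agent.WeilH_h6

open AlgebraicGeometry CategoryTheory MonoidalCategory
open scoped TensorProduct DirectSum
open VarClass

universe u v w

namespace Weil

variable {k : Type u} [Field k] {𝒱 : VarClass k} {K : Type v} [Field K] (W : Weil.{u, v, w} 𝒱 K)

variable {W}

namespace Pieces.Bases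

variable {X : 𝒱.Obj} {I : Type} {P : W.Pieces X I} (B : P.Bases)

lemma actE_sum_append {M α : Type*} [AddCommMonoid M] [Fintype α] [DecidableEq α] {r : ℕ}
    (F : (Fin (r + r) → α) → M) :
    ∑ ρ : Fin (r + r) → α, F ρ = ∑ e : Fin r → α, ∑ f : Fin r → α, F (Fin.append e f) := by
  rw [← Fintype.sum_prod_type' (f := fun e f => F (Fin.append e f))]
  exact (Fintype.sum_equiv (Fin.appendEquiv r r) _ _ (fun p => rfl)).symm

/-- The action of a symmetry on a pure tensor of basis vectors. -/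
lemma actE_pure {g : Module.End K (W.H X)} {c : K}
    (γ : (Matrix B.α B.α K)ˣ)
    (h1 : ∀ a, g (B.b a) = ∑ a', (γ : Matrix B.α B.α K) a' a • B.b a')
    (h2 : ∀ a, g (B.b' a) = c ^ X.dim •
        ∑ a', ((γ⁻¹ : (Matrix B.α B.α K)ˣ) : Matrix B.α B.α K) a a' • B.b' a')
    {r : ℕ} (a d : Fin r → B.α) :
    W.powMap (r + r) (fun _ => g)
        (W.pureT (Fin.append (fun s => B.b' (d s)) fun s => B.b (a s))) =
      ∑ e : Fin r → B.α, ∑ f : Fin r → B.α,
        (c ^ (r * X.dim) * (H69.ten (Fin r) ((γ⁻¹ : (Matrix B.α B.α K)ˣ) : Matrix B.α B.α K) d e *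
          H69.ten (Fin r) (γ : Matrix B.α B.α K) f a)) •
        W.pureT (Fin.append (fun s => B.b' (e s)) fun s => B.b (f s)) := by
  have hv : (fun s => g ((Fin.append (fun s => B.b' (d s)) fun s => B.b (a s)) s)) =
      fun s : Fin (r + r) => ∑ e : B.α,
        (Fin.append (fun (s : Fin r) (e : B.α) => c ^ X.dim *
          ((γ⁻¹ : (Matrix B.α B.α K)ˣ) : Matrix B.α B.α K) (d s) e)
          (fun (s : Fin r) (e : B.α) => (γ : Matrix B.α B.α K) e (a s)) s e) •
        (Fin.append (fun (_ : Fin r) (e : B.α) => B.b' e)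
          (fun (_ : Fin r) (e : B.α) => B.b e) s e) := by
    funext s
    refine Fin.addCases (fun s => ?_) (fun s => ?_) s
    · simp only [Fin.append_left]
      rw [h2, Finset.smul_sum]
      exact Finset.sum_congr rfl fun e _ => by rw [smul_smul]
    · simp only [Fin.append_right]
      rw [h1]
  rw [W.powMap_pureT, hv, ← W.pureM_apply, MultilinearMap.map_sum, actE_sum_append]
  refine Finset.sum_congr rfl fun e _ => Finset.sum_congr rfl fun f _ => ?_
  rw [MultilinearMap.map_smul_univ, W.pureM_apply]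
  congr 1
  · rw [Fin.prod_univ_add]
    simp only [Fin.append_left, Fin.append_right, Finset.prod_mul_distrib, Finset.prod_const,
      Finset.card_univ, Fintype.card_fin, H69.ten_apply]
    rw [← pow_mul, mul_comm X.dim r, mul_assoc]
  · congr 1
    funext s
    refine Fin.addCases (fun s => ?_) (fun s => ?_) s
    · simp only [Fin.append_left]
    · simp only [Fin.append_right]

lemma actE_ofMat {g : Module.End K (W.H X)} {c : K}
    (γ : (Matrix B.α B.α K)ˣ)
    (h1 : ∀ a, g (B.b a) = ∑ a', (γ : Matrix B.α B.α K) a' a • B.b a')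
    (h2 : ∀ a, g (B.b' a) = c ^ X.dim •
        ∑ a', ((γ⁻¹ : (Matrix B.α B.α K)ˣ) : Matrix B.α B.α K) a a' • B.b' a')
    {r : ℕ} (x : Matrix (Fin r → B.α) (Fin r → B.α) K) :
    W.powMap (r + r) (fun _ => g) (W.ofMat B.b B.b' x) =
      c ^ (r * X.dim) • W.ofMat B.b B.b' (H69.ten (Fin r) (γ : Matrix B.α B.α K) * x *
        H69.ten (Fin r) ((γ⁻¹ : (Matrix B.α B.α K)ˣ) : Matrix B.α B.α K)) := by
  unfold ofMat
  rw [map_sum, Finset.smul_sum]
  have hL : ∀ a : Fin r → B.α, W.powMap (r + r) (fun _ => g)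
      (∑ d : Fin r → B.α, x a d • W.pureT (Fin.append (fun s => B.b' (d s)) fun s => B.b (a s))) =
      ∑ f : Fin r → B.α, ∑ e : Fin r → B.α, ∑ d : Fin r → B.α,
        (c ^ (r * X.dim) * (H69.ten (Fin r) (γ : Matrix B.α B.α K) f a * x a d *
          H69.ten (Fin r) ((γ⁻¹ : (Matrix B.α B.α K)ˣ) : Matrix B.α B.α K) d e)) •
        W.pureT (Fin.append (fun s => B.b' (e s)) fun s => B.b (f s)) := by
    intro a
    rw [map_sum]
    have h3 : ∀ d : Fin r → B.α, W.powMap (r + r) (fun _ => g)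
        (x a d • W.pureT (Fin.append (fun s => B.b' (d s)) fun s => B.b (a s))) =
        ∑ f : Fin r → B.α, ∑ e : Fin r → B.α,
        (c ^ (r * X.dim) * (H69.ten (Fin r) (γ : Matrix B.α B.α K) f a * x a d *
          H69.ten (Fin r) ((γ⁻¹ : (Matrix B.α B.α K)ˣ) : Matrix B.α B.α K) d e)) •
        W.pureT (Fin.append (fun s => B.b' (e s)) fun s => B.b (f s)) := by
      intro d
      rw [map_smul, B.actE_pure γ h1 h2 a d, Finset.sum_comm, Finset.smul_sum]
      refine Finset.sum_congr rfl fun f _ => ?_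
      rw [Finset.smul_sum]
      refine Finset.sum_congr rfl fun e _ => ?_
      rw [smul_smul]
      congr 1
      ring
    rw [Finset.sum_congr rfl fun d _ => h3 d, Finset.sum_comm]
    refine Finset.sum_congr rfl fun f _ => ?_
    rw [Finset.sum_comm]
  rw [Finset.sum_congr rfl fun a _ => hL a, Finset.sum_comm]
  refine Finset.sum_congr rfl fun f _ => ?_
  rw [Finset.sum_comm, Finset.smul_sum]
  refine Finset.sum_congr rfl fun e _ => ?_
  rw [smul_smul, Matrix.mul_apply, Finset.mul_sum, Finset.sum_smul, Finset.sum_comm]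
  refine Finset.sum_congr rfl fun d _ => ?_
  rw [Matrix.mul_apply, Finset.sum_mul, Finset.mul_sum, Finset.sum_smul]

/-- The matrix of an algebraic class commutes with the matrices of the symmetries.

Proof.  `Z = ofMat x` is algebraic and homogeneous of degree `2 r dim X`, so
`powMap (fun _ => g) Z = c ^ (r dim X) • Z`.  On the other hand `powMap (fun _ => g) (ofMat x) =
c ^ (r dim X) • ofMat (ten γ * x * ten γ⁻¹)` by `powMap_pureT` and multilinearity.  By
`ofMat_injective` (both matrices are supported on `w`, `ten_ne_zero`) `ten γ * x * ten γ⁻¹ = x`. -/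
lemma commute [CharZero K] {g : Module.End K (W.H X)} {c : K} (h : W.IsSymmetry g c)
    (γ : (Matrix B.α B.α K)ˣ) (hγ : γ ∈ H69.BG B.col K)
    (h1 : ∀ a, g (B.b a) = ∑ a', (γ : Matrix B.α B.α K) a' a • B.b a')
    (h2 : ∀ a, g (B.b' a) = c ^ X.dim •
        ∑ a', ((γ⁻¹ : (Matrix B.α B.α K)ˣ) : Matrix B.α B.α K) a a' • B.b' a')
    {r : ℕ} (w : Fin r → I) (x : Matrix (Fin r → B.α) (Fin r → B.α) K)
    (hx : H69.Supp B.col w x) (halg : W.ofMat B.b B.b' x ∈ W.algSpan _) :
    H69.ten (Fin r) (γ : Matrix B.α B.α K) * x = x * H69.ten (Fin r) (γ : Matrix B.α B.α K) := by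
  have e1 := h.apply_homog W halg (B.ofMat_mem_grad w x hx)
  rw [B.actE_ofMat γ h1 h2 x] at e1
  have e2 := smul_right_injective _ (pow_ne_zero (r * X.dim) h.ne_zero) e1
  obtain ⟨hγ1, hγ2⟩ := H69.mem_BG.1 hγ
  have hs : H69.Supp B.col w (H69.ten (Fin r) (γ : Matrix B.α B.α K) * x *
        H69.ten (Fin r) ((γ⁻¹ : (Matrix B.α B.α K)ˣ) : Matrix B.α B.α K)) := by
    intro a d had
    rw [Matrix.mul_apply] at had
    obtain ⟨e, -, he⟩ := Finset.exists_ne_zero_of_sum_ne_zero had
    have he1 := left_ne_zero_of_mul he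
    have he2 := right_ne_zero_of_mul he
    rw [Matrix.mul_apply] at he1
    obtain ⟨f, -, hf⟩ := Finset.exists_ne_zero_of_sum_ne_zero he1
    have hf1 := left_ne_zero_of_mul hf
    have hf2 := hx _ _ (right_ne_zero_of_mul hf)
    exact ⟨fun s => (H69.ten_ne_zero hγ1 hf1 s).trans (hf2.1 s),
      fun s => (H69.ten_ne_zero hγ2 he2 s).symm.trans (hf2.2 s)⟩
  have e3 := B.ofMat_injective w _ _ hs hx e2
  calc H69.ten (Fin r) (γ : Matrix B.α B.α K) * x =
      H69.ten (Fin r) (γ : Matrix B.α B.α K) * x *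
        H69.ten (Fin r) ((γ⁻¹ : (Matrix B.α B.α K)ˣ) : Matrix B.α B.α K) *
        H69.ten (Fin r) (γ : Matrix B.α B.α K) := by
        rw [Matrix.mul_assoc _ (H69.ten (Fin r) ((γ⁻¹ : (Matrix B.α B.α K)ˣ) : Matrix B.α B.α K)),
          H69.ten_inv_mul, Matrix.mul_one]
    _ = x * H69.ten (Fin r) (γ : Matrix B.α B.α K) := by rw [e3]

end Pieces.Bases

end Weil

end Pool.Agent.WeilH_h6
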