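import Pool.Agent.WeilH_h6.Api

set_option autoImplicit false

noncomputable section

namespace Pool.Agent.WeilH_h6

open AlgebraicGeometry CategoryTheory MonoidalCategory
open scoped TensorProduct
open VarClass

universe u v w

namespace Weil

variable {k : Type u} [Field k] {𝒱 : VarClass k} {K : Type v} [Field K] (W : Weil.{u, v, w} 𝒱 K)

/-- pull-back along the first projection -/
abbrev p1 (X Y : 𝒱.Obj) : W.H X →ₐ[K] W.H (X.prod Y) :=
  W.pull (Obj.fst X Y)

/-- pull-back along the second projection -/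
abbrev p2 (X Y : 𝒱.Obj) : W.H Y →ₐ[K] W.H (X.prod Y) :=
  W.pull (Obj.snd X Y)

lemma cl_mem_grad {X : 𝒱.Obj} {i : ℕ} (z : Cyc X i) : W.cl z ∈ W.grad X (2 * i) := by
  refine Submodule.sum_mem _ fun x _ => Submodule.smul_mem _ _ (W.clPt_mem X _ _ x.2)

lemma cl_mem_algSpan {X : 𝒱.Obj} {i : ℕ} (z : Cyc X i) : W.cl z ∈ W.algSpan X :=
  Submodule.subset_span ⟨i, z, rfl⟩

/-- the trace form is determined on homogeneous elements -/
lemma hom_induction {X : 𝒱.Obj} {P : W.H X → Prop} (h0 : P 0)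
    (hadd : ∀ x y, P x → P y → P (x + y)) (hm : ∀ i x, x ∈ W.grad X i → P x) (x : W.H X) : P x := by
  have hx : x ∈ ⨆ i, W.grad X i := by
    rw [(W.isInternal X).submodule_iSup_eq_top]; trivial
  exact Submodule.iSup_induction _ (motive := P) hx (fun i y hy => hm i y hy) h0 hadd

lemma mul_mem_grad {X : 𝒱.Obj} {i j : ℕ} {x y : W.H X} (hx : x ∈ W.grad X i)
    (hy : y ∈ W.grad X j) : x * y ∈ W.grad X (i + j) :=
  SetLike.mul_mem_graded hx hy

/-- Algebraic classes are central. -/
lemma central {X : 𝒱.Obj} {a : W.H X} (ha : a ∈ W.algSpan X) (x : W.H X) : a * x = x * a := by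
  induction ha using Submodule.span_induction with
  | mem a ha =>
    obtain ⟨i, z, rfl⟩ := ha
    refine W.hom_induction (P := fun x => W.cl z * x = x * W.cl z) (by simp) ?_ ?_ x
    · intro x y hx hy; simp only [mul_add, add_mul, hx, hy]
    · intro j x hx
      rw [W.graded_comm X (2 * i) j _ _ (W.cl_mem_grad z) hx]
      have : Even (2 * i * j) := ⟨i * j, by ring⟩
      rw [this.neg_one_pow, one_mul]
  | zero => simp
  | add a b _ _ ha hb => simp only [mul_add, add_mul, ha, hb]
  | smul c a _ ha => simp only [smul_mul_assoc, mul_smul_comm, ha]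

lemma mul_mem_algSpan {X : 𝒱.Obj} {a b : W.H X} (ha : a ∈ W.algSpan X) (hb : b ∈ W.algSpan X) :
    a * b ∈ W.algSpan X := by
  induction ha using Submodule.span_induction with
  | mem a ha =>
    obtain ⟨i, z, rfl⟩ := ha
    induction hb using Submodule.span_induction with
    | mem b hb =>
      obtain ⟨j, z', rfl⟩ := hb
      obtain ⟨t, ht⟩ := W.alg_mul X i j z z'
      exact Submodule.subset_span ⟨i + j, t, ht⟩
    | zero => simp
    | add a b _ _ ha hb => rw [mul_add]; exact Submodule.add_mem _ ha hb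
    | smul c a _ ha => rw [mul_smul_comm]; exact Submodule.smul_mem _ _ ha
  | zero => simp
  | add a b _ _ ha hb => rw [add_mul]; exact Submodule.add_mem _ ha hb
  | smul c a _ ha => rw [smul_mul_assoc]; exact Submodule.smul_mem _ _ ha

lemma one_mem_algSpan (X : 𝒱.Obj) : (1 : W.H X) ∈ W.algSpan X := by
  have := 𝒱.integral X.X X.mem
  let x : X.X.left := genericPoint X.X.left
  have hx : Order.coheight x = 0 := by
    rw [Order.coheight_eq_zero]
    intro y _
    exact genericPoint_specializes y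
  have h1 : W.cl (Finsupp.single (⟨x, by simpa using hx⟩ : {x : X.X.left //
      Order.coheight x = ((0 : ℕ) : ℕ∞)}) 1 : Cyc X 0) = 1 := by
    unfold cl cycSum
    rw [Finsupp.sum_single_index]
    · simp only [Rat.cast_one, one_smul]; exact W.clPt_generic X x hx
    · simp
  rw [← h1]
  exact W.cl_mem_algSpan _

lemma pull_mem_algSpan {X Y : 𝒱.Obj} (f : X ⟶ Y) {a : W.H Y} (ha : a ∈ W.algSpan Y) :
    W.pull f a ∈ W.algSpan X := by
  induction ha using Submodule.span_induction with
  | mem a ha =>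
    obtain ⟨i, z, rfl⟩ := ha
    obtain ⟨t, ht⟩ := W.alg_pull f i z
    exact Submodule.subset_span ⟨i, t, ht⟩
  | zero => simp
  | add a b _ _ ha hb => rw [map_add]; exact Submodule.add_mem _ ha hb
  | smul c a _ ha => rw [map_smul]; exact Submodule.smul_mem _ _ ha

/-- Push-forward of algebraic classes. -/
lemma push_algSpan {X Y : 𝒱.Obj} (f : X ⟶ Y) {a : W.H X} (ha : a ∈ W.algSpan X) :
    ∃ b ∈ W.algSpan Y, ∀ y, W.tr Y (b * y) = W.tr X (a * W.pull f y) := by
  induction ha using Submodule.span_induction with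
  | mem a ha =>
    obtain ⟨i, z, rfl⟩ := ha
    by_cases h : X.dim ≤ i + Y.dim
    · obtain ⟨t, ht⟩ := W.alg_push f i (i + Y.dim - X.dim) (by omega) z
      exact ⟨_, W.cl_mem_algSpan t, ht⟩
    · refine ⟨0, Submodule.zero_mem _, fun y => ?_⟩
      rw [zero_mul, map_zero]
      refine W.hom_induction (P := fun y => 0 = W.tr X (W.cl z * W.pull f y)) (by simp) ?_ ?_ y
      · intro x y hx hy; rw [map_add, mul_add, map_add, ← hx, ← hy, add_zero]
      · intro j y hy
        by_cases hj : 2 * i + j = 2 * X.dim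
        · have : y = 0 := by
            have h2 : W.grad Y j = ⊥ := W.vanish Y j (by omega)
            rw [h2] at hy; simpa using hy
          simp [this]
        · exact (W.tr_grad X _ _ (W.mul_mem_grad (W.cl_mem_grad z) (W.pull_grad f j y hy)) hj).symm
  | zero => exact ⟨0, Submodule.zero_mem _, fun y => by simp⟩
  | add a b _ _ ha hb =>
    obtain ⟨a', ha', h1⟩ := ha
    obtain ⟨b', hb', h2⟩ := hb
    exact ⟨a' + b', Submodule.add_mem _ ha' hb', fun y => by
      simp only [add_mul, map_add, h1, h2]⟩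
  | smul c a _ ha =>
    obtain ⟨a', ha', h1⟩ := ha
    exact ⟨c • a', Submodule.smul_mem _ _ ha', fun y => by simp only [smul_mul_assoc, map_smul, h1]⟩

lemma exists_tr_one (X : 𝒱.Obj) : ∃ x ∈ W.grad X (2 * X.dim), W.tr X x = 1 := by
  obtain ⟨x, hx⟩ := (W.tr_bij X).2 1
  exact ⟨x, x.2, hx⟩

include W in
lemma dim_prod (X Y : 𝒱.Obj) : (X.prod Y).dim = X.dim + Y.dim := by
  obtain ⟨x, hx, hx1⟩ := W.exists_tr_one X
  obtain ⟨y, hy, hy1⟩ := W.exists_tr_one Y
  have h := W.tr_prod X Y x y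
  by_contra hne
  have hmem : W.p1 X Y x * W.p2 X Y y ∈ W.grad (X.prod Y) (2 * X.dim + 2 * Y.dim) :=
    W.mul_mem_grad (W.pull_grad _ _ _ hx) (W.pull_grad _ _ _ hy)
  have h0 := W.tr_grad _ _ _ hmem (by omega)
  rw [h0, hx1, hy1] at h
  simp at h

/-- the diagonal morphism -/
abbrev diag (X : 𝒱.Obj) : X ⟶ X.prod X := Obj.lift (𝟙 X) (𝟙 X)

lemma pull_diag_p1 {X : 𝒱.Obj} (v : W.H X) : W.pull (diag X) (W.p1 X X v) = v := by
  rw [← W.pull_comp, Obj.lift_fst, W.pull_id]

lemma pull_diag_p2 {X : 𝒱.Obj} (v : W.H X) : W.pull (diag X) (W.p2 X X v) = v := by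
  rw [← W.pull_comp, Obj.lift_snd, W.pull_id]

/-- The class of the diagonal. -/
lemma exists_diag (X : 𝒱.Obj) : ∃ δ ∈ W.algSpan (X.prod X), ∀ v w : W.H X,
    W.tr (X.prod X) (δ * (W.p1 X X v * W.p2 X X w)) = W.tr X (v * w) := by
  obtain ⟨δ, hδ, h⟩ := W.push_algSpan (diag X) (W.one_mem_algSpan X)
  refine ⟨δ, hδ, fun v w => ?_⟩
  rw [h, one_mul, map_mul, W.pull_diag_p1, W.pull_diag_p2]

lemma isAlgEnd_id (X : 𝒱.Obj) : W.IsAlgEnd X LinearMap.id := by
  obtain ⟨δ, hδ, h⟩ := W.exists_diag X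
  exact ⟨δ, hδ, fun v w => (h v w).symm⟩

/-- `D(X)` follows from the non-degeneracy of the trace form on the `K`-span of the algebraic
classes. -/
lemma homEqNum_of_nondeg {X : 𝒱.Obj}
    (h : ∀ a ∈ W.algSpan X, (∀ b ∈ W.algSpan X, W.tr X (a * b) = 0) → a = 0) : W.HomEqNum X := by
  intro i z
  constructor
  · intro hz
    refine h _ (W.cl_mem_algSpan z) fun b hb => ?_
    induction hb using Submodule.span_induction with
    | mem b hb =>
      obtain ⟨j, z', rfl⟩ := hb
      by_cases hij : i + j = X.dim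
      · exact hz j z' hij
      · exact W.tr_grad X _ _ (W.mul_mem_grad (W.cl_mem_grad z) (W.cl_mem_grad z')) (by omega)
    | zero => simp
    | add a b _ _ ha hb => rw [mul_add, map_add, ha, hb, add_zero]
    | smul c a _ ha => rw [mul_smul_comm, map_smul, ha, smul_zero]
  · intro hz j z' _
    rw [hz, zero_mul, map_zero]

end Weil

end Pool.Agent.WeilH_h6
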