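import Pool.Agent.WeilH_h6.ConjClass
import Pool.Agent.WeilH_h6.Main
import Pool.Agent.WeilH_h6.Orbit

set_option autoImplicit false

/-!
# Condition `I'` for all powers implies `D` for all powers
-/

noncomputable section

namespace Pool.Agent.WeilH_h6

open AlgebraicGeometry CategoryTheory MonoidalCategory
open VarClass

universe u v w

namespace Weil

variable {k : Type u} [Field k] {𝒱 : VarClass k} {K : Type v} [Field K] {W : Weil.{u, v, w} 𝒱 K}

/-- The permutations of the pieces which preserve the words with a nonzero algebraic class. -/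
def Pieces.classGroup {X : 𝒱.Obj} {I : Type} (P : W.Pieces X I) : Subgroup (Equiv.Perm I) where
  carrier := {π | ∀ (m : ℕ) (l : Fin m → I × Bool),
    P.HasClass l ↔ P.HasClass fun s => (π (l s).1, (l s).2)}
  mul_mem' := by
    intro a b ha hb m l
    rw [hb m l, ha m _]
    rfl
  one_mem' := by
    intro m l
    rfl
  inv_mem' := by
    intro a ha m l
    rw [ha m fun s => (a⁻¹ (l s).1, (l s).2)]
    simp

theorem Pieces.RatData.homEqNum_of_cycIndepAlg [CharZero K] {X : 𝒱.Obj} {I : Type} [Fintype I]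
    {P : W.Pieces X I} (hP : P.Generate) {S : Set (W.Hom X X)} (hS : P.AbsIrr S) (D : P.RatData)
    (hD : D.OrbitClass) (h : ∀ m, W.CycIndepAlg (X.pow m)) (m : ℕ) : W.HomEqNum (X.pow m) := by
  have hG : ∀ σ, D.conj σ ∈ P.classGroup := by
    intro σ m l
    refine ⟨fun hl => D.hasClass_conj W σ (h m) hl, fun hl => ?_⟩
    have := D.hasClass_conj_symm W σ (h m) hl
    simpa using this
  refine P.homEqNum_of_degSymm hP hS (P.degSymm_of_orbits (G := P.classGroup) ?_ ?_) m
  · intro g m l z h1 h2 h3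
    obtain ⟨z', h4, h5, h6⟩ := (g.2 m l).1 ⟨z, h1, h2, h3⟩
    exact ⟨z', h4, h5, h6⟩
  · intro i b
    obtain ⟨m, l, h1, z, h2, h3, h4⟩ := hD i b
    refine ⟨m, l, z, fun s => ⟨?_, (h1 s).2⟩, h2, h3, h4⟩
    obtain ⟨σ, hσ⟩ := (h1 s).1
    exact ⟨⟨D.conj σ, hG σ⟩, hσ.symm⟩

end Weil

end Pool.Agent.WeilH_h6
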