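import Pool.Agent.WeilH_h6.PieceDefs

set_option autoImplicit false

/-!
# Definitions: Tate's condition `I`, projectors with conjugate coefficients

`CycIndep` is the condition `I` of Tate: classes of cycles which are linearly independent over `ℚ`
are linearly independent over `K`; `CycIndepAlg` is the weaker condition that they satisfy no linear
relation whose coefficients are algebraic numbers.  `RatData`: the projectors `p_i` are `K`-combinations of
correspondences with rational coefficients, and their family is stable under the automorphisms of the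
field `K` (acting on the coefficients of the combinations).
-/

noncomputable section

namespace Pool.Agent.WeilH_h6

open AlgebraicGeometry CategoryTheory MonoidalCategory
open VarClass

universe u v w

namespace Weil

variable {k : Type u} [Field k] {𝒱 : VarClass k} {K : Type v} [Field K] (W : Weil.{u, v, w} 𝒱 K)

/-- The sums of classes of cycles with rational coefficients. -/
def ratSpan (X : 𝒱.Obj) : AddSubmonoid (W.H X) :=
  AddSubmonoid.closure {a | ∃ (i : ℕ) (z : Cyc X i), W.cl z = a}

/-- The endomorphism `φ` of `H(X)` is the action of (a sum of) cycles on `X × X` with rational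
coefficients. -/
def IsRatEnd (X : 𝒱.Obj) (φ : W.Hom X X) : Prop :=
  ∃ α ∈ W.ratSpan (X.prod X), ∀ v v' : W.H X,
    W.deg (W.ap φ v * v') = W.deg (α * W.cross v v')

/-- Tate's condition `I` for `X`: if the classes of the cycles `z_1, …, z_r` of codimension `i` on
`X`, with rational coefficients, are linearly independent over `ℚ`, then they are linearly independent
over `K`. -/
def CycIndep [CharZero K] (X : 𝒱.Obj) : Prop :=
  ∀ (i r : ℕ) (z : Fin r → Cyc X i),
    (∀ q : Fin r → ℚ, ∑ j, (q j : K) • W.cl (z j) = 0 → q = 0) →
      ∀ t : Fin r → K, ∑ j, t j • W.cl (z j) = 0 → t = 0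

/-- The weaker condition `I'` for `X`: if the classes of the cycles `z_1, …, z_r` of codimension `i` on
`X`, with rational coefficients, are linearly independent over `ℚ`, then they satisfy no nontrivial
linear relation whose coefficients are elements of `K` algebraic over `ℚ`. -/
def CycIndepAlg [CharZero K] (X : 𝒱.Obj) : Prop :=
  ∀ (i r : ℕ) (z : Fin r → Cyc X i),
    (∀ q : Fin r → ℚ, ∑ j, (q j : K) • W.cl (z j) = 0 → q = 0) →
      ∀ t : Fin r → K, (∀ j, IsAlgebraic ℚ (t j)) → ∑ j, t j • W.cl (z j) = 0 → t = 0

variable {W}

/-- The projectors `p_i` are combinations `p_i = ∑_j c_{i j} R_j` of correspondences `R_j` with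
rational coefficients, the `c_{i j}` are algebraic over `ℚ`, and for every automorphism `σ` of the field `K` there is a permutation
`conj σ` of the set of pieces such that the coefficients of `p_{conj σ i}` are the images under `σ` of
those of `p_i`. -/
structure Pieces.RatData [CharZero K] {X : 𝒱.Obj} {I : Type} (P : W.Pieces X I) where
  /-- the number of correspondences -/
  r : ℕ
  /-- the correspondences -/
  R : Fin r → W.Hom X X
  isRatEnd : ∀ j, W.IsRatEnd X (R j)
  /-- the coefficients -/
  c : I → Fin r → K
  isAlgebraic : ∀ i j, IsAlgebraic ℚ (c i j)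
  eq_sum : ∀ i v, W.ap (P.p i) v = ∑ j, c i j • W.ap (R j) v
  /-- the action of the automorphisms of `K` on the set of pieces -/
  conj : (K ≃+* K) → Equiv.Perm I
  conj_c : ∀ σ i j, c (conj σ i) j = σ (c i j)

/-- For every piece `V_i` and every sign there is a nonempty word in the conjugates of `V_i`
(respectively of `V_i^∨`) whose tensor product contains a nonzero algebraic class; for instance
`V_i ⊗ V_{σ i}` and `V_i^∨ ⊗ V_{σ i}^∨`, if the sum of the conjugates of `V_i` is self-dual up to twist. -/
def Pieces.RatData.OrbitClass [CharZero K] {X : 𝒱.Obj} {I : Type} {P : W.Pieces X I} (D : P.RatData) : Prop :=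
  ∀ (i : I) (b : Bool), ∃ (m : ℕ) (l : Fin (m + 1) → I × Bool),
    (∀ s, (∃ σ : K ≃+* K, (l s).1 = D.conj σ i) ∧ (l s).2 = b) ∧ P.HasClass l

end Weil

end Pool.Agent.WeilH_h6
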