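import Pool.Agent.WeilH_h6.CondI

set_option autoImplicit false

/-!
# Tate's condition `I` implies the standard conjecture `D`

`W` is a Weil cohomology theory with coefficients in a field `K` of characteristic zero, `X` a variety
whose cohomology is generated, as a `K`-algebra, by finitely many direct summands `V_i = p_i H(X)`
cut out by algebraic idempotents, on which a set `S` of symmetries acts absolutely irreducibly.
Moreover the `p_i` are combinations of correspondences with rational coefficients, whose coefficients
are algebraic numbers of `K`, the automorphisms of `K` permute the `p_i`, and for every `i` and every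
sign some tensor product of conjugates of `V_i` (respectively of `V_i^∨`) contains a nonzero algebraic
class.  (Example: abelian varieties in positive characteristic, by a theorem of Zarhin.)

Then the following are equivalent: `D(X^m)` for all `m`; for all `m`, classes of cycles on `X^m` which
are linearly independent over `ℚ` are linearly independent over `K`; for all `m`, classes of cycles on
`X^m` which are linearly independent over `ℚ` satisfy no nontrivial linear relation whose
coefficients are algebraic numbers of `K`.
-/

namespace Pool.Agent.WeilH_h6.ConditionIResult

open Pool.Agent.WeilH_h6 VarClass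

universe u v w

theorem result {k : Type u} [Field k] {𝒱 : VarClass k} {K : Type v} [Field K] [CharZero K]
    (W : Weil.{u, v, w} 𝒱 K) (X : 𝒱.Obj) {I : Type} [Fintype I] (P : W.Pieces X I)
    (hP : P.Generate) (S : Set (W.Hom X X)) (hS : P.AbsIrr S) (D : P.RatData)
    (hD : D.OrbitClass) :
    List.TFAE [∀ m : ℕ, W.HomEqNum (X.pow m), ∀ m : ℕ, W.CycIndep (X.pow m),
      ∀ m : ℕ, W.CycIndepAlg (X.pow m)] := by
  tfae_have 1 → 2 := fun h m => W.cycIndep_of_homEqNum (h m)
  tfae_have 2 → 3 := fun h m i r z hz t _ ht => h m i r z hz t ht
  tfae_have 3 → 1 := fun h => D.homEqNum_of_cycIndepAlg hP hS hD h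
  tfae_finish

end Pool.Agent.WeilH_h6.ConditionIResult
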