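import Mathlib

set_option autoImplicit false

/-!
# Weil cohomology theories on classes of smooth proper varieties

Common definitions for `MP_f569db_ag` (Grothendieck's standard conjecture D).

* `VarClass k`: a class of varieties over the field `k` (objects of `Over (Spec k)`, Mathlib schemes),
  all smooth, proper and integral over `k`, containing the point `Spec k` and closed under products.
  For `k` algebraically closed, the smooth projective varieties form such a class.
* `VarClass.Obj`: the varieties of the class; `Obj.prod`, `Obj.pow`, `Obj.dim`, and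
  `Cyc X i`: cycles of codimension `i` with rational coefficients.
* `Weil 𝒱 K`: a Weil cohomology theory with coefficients in the field `K` on the class `𝒱`.
  From the cycle class map only the following is required: the class of `X` is `1`, a closed point
  (a point of codimension `dim X`) has trace `1`, and the classes of cycles with rational coefficients are stable under cup products,
  pull-back and push-forward (defined through Poincaré duality).
* `Weil.NumTrivial`, `Weil.HomEqNum` (the statement `D(X)`), `Weil.algSpan` (the `K`-span of the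
  algebraic classes).
-/

noncomputable section

namespace Pool.Agent.WeilH_h6

open AlgebraicGeometry CategoryTheory MonoidalCategory
open scoped TensorProduct

universe u v w

/-- A class of smooth proper varieties over the field `k` (objects of `Over (Spec k)`), containing
the point and closed under products.  (Smooth projective varieties over an algebraically closed field
form such a class.) -/
structure VarClass (k : Type u) [Field k] where
  /-- membership in the class -/
  mem : Over (Spec (.of k)) → Prop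
  smooth : ∀ X, mem X → Smooth X.hom
  proper : ∀ X, mem X → IsProper X.hom
  integral : ∀ X, mem X → IsIntegral X.left
  unit : mem (𝟙_ (Over (Spec (.of k))))
  tensor : ∀ X Y, mem X → mem Y → mem (X ⊗ Y)

namespace VarClass

variable {k : Type u} [Field k] (𝒱 : VarClass k)

/-- The varieties of the class `𝒱`. -/
structure Obj where
  /-- the underlying scheme over `k` -/
  X : Over (Spec (.of k))
  mem : 𝒱.mem X

variable {𝒱}

/-- Morphisms of varieties are morphisms of schemes over `k`. -/
instance : Category 𝒱.Obj where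
  Hom X Y := X.X ⟶ Y.X
  id X := 𝟙 X.X
  comp f g := f ≫ g
  id_comp := fun f => Category.id_comp (obj := Over (Spec (.of k))) f
  comp_id := fun f => Category.comp_id (obj := Over (Spec (.of k))) f
  assoc := fun f g h => Category.assoc (obj := Over (Spec (.of k))) f g h

/-- The point `Spec k`. -/
def Obj.pt : 𝒱.Obj := ⟨𝟙_ _, 𝒱.unit⟩

/-- The product `X × Y` over `k`. -/
def Obj.prod (X Y : 𝒱.Obj) : 𝒱.Obj := ⟨X.X ⊗ Y.X, 𝒱.tensor _ _ X.mem Y.mem⟩

/-- The first projection `X × Y → X`. -/
def Obj.fst (X Y : 𝒱.Obj) : X.prod Y ⟶ X := CartesianMonoidalCategory.fst X.X Y.X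

/-- The second projection `X × Y → Y`. -/
def Obj.snd (X Y : 𝒱.Obj) : X.prod Y ⟶ Y := CartesianMonoidalCategory.snd X.X Y.X

/-- The power `X^m` over `k`: `X^0` is the point and `X^(m+1) = X^m × X`. -/
def Obj.pow (X : 𝒱.Obj) : ℕ → 𝒱.Obj
  | 0 => Obj.pt
  | m + 1 => (Obj.pow X m).prod X

/-- The dimension of a variety: the Krull dimension of the underlying space (the supremum of the
lengths of chains of specialisations). -/
def Obj.dim (X : 𝒱.Obj) : ℕ := ((Order.krullDim X.X.left).unbotD 0).toNat

/-- Cycles of codimension `i` on `X` with rational coefficients: finite `ℚ`-linear combinations of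
points of codimension `i` (equivalently of integral closed subschemes of codimension `i`).  In
Mathlib `x ≤ y` for points of a scheme means that `x` is a specialisation of `y`, hence
`Order.coheight x` is the codimension of the closure of `x`. -/
abbrev Cyc (X : 𝒱.Obj) (i : ℕ) : Type u :=
  {x : X.X.left // Order.coheight x = (i : ℕ∞)} →₀ ℚ

/-- The linear extension of a function on points to cycles. -/
def cycSum (K : Type v) [Field K] {M : Type w} [AddCommGroup M] [Module K M] {X : 𝒱.Obj}
    (c : X.X.left → M) {i : ℕ} (z : Cyc X i) : M :=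
  z.sum fun x q => (q : K) • c x.1

end VarClass

open VarClass

/-- The data of a Weil cohomology theory with coefficients in the field `K` on the class `𝒱` of
varieties over `k` (orientations are fixed, twists are ignored): the cohomology rings
`H(X) = ⨁ H^i(X)`, pull-backs, traces and the cohomology classes of points. -/
structure WeilData {k : Type u} [Field k] (𝒱 : VarClass k) (K : Type v) [Field K] where
  /-- the cohomology ring `H(X)` -/
  H : 𝒱.Obj → Type w
  [ring : ∀ X, Ring (H X)]
  [algebra : ∀ X, Algebra K (H X)]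
  /-- the subspace `H^i(X)` -/
  grad : ∀ X, ℕ → Submodule K (H X)
  /-- pull-back along a morphism of varieties over `k` -/
  pull : ∀ {X Y : 𝒱.Obj}, (X ⟶ Y) → (H Y →ₐ[K] H X)
  /-- the trace `Tr_X : H(X) → K` (zero outside of degree `2 dim X`) -/
  tr : ∀ X, H X →ₗ[K] K
  /-- the cohomology class of (the closure of) a point -/
  clPt : ∀ X : 𝒱.Obj, X.X.left → H X

attribute [instance] WeilData.ring WeilData.algebra

namespace WeilData

variable {k : Type u} [Field k] {𝒱 : VarClass k} {K : Type v} [Field K]
  (D : WeilData.{u, v, w} 𝒱 K) {X Y Z : 𝒱.Obj}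

/-- `H(X)` as an additive monoid -/
instance acm (X : 𝒱.Obj) : AddCommMonoid (D.H X) := inferInstance

/-- `H(X)` as a vector space -/
instance mdl (X : 𝒱.Obj) : Module K (D.H X) := inferInstance

/-- the trace of a class `x ∈ H(X)` -/
abbrev deg (x : D.H X) : K := D.tr X x

/-- the pull-back `f^* y` -/
abbrev pb (f : X ⟶ Y) (y : D.H Y) : D.H X := D.pull f y

/-- the cycle class of a cycle -/
abbrev cyc {i : ℕ} (z : Cyc X i) : D.H X := cycSum K (D.clPt X) z

/-- the external product `fst^* x · snd^* y` -/
abbrev cross (x : D.H X) (y : D.H Y) : D.H (X.prod Y) :=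
  D.pb (Obj.fst X Y) x * D.pb (Obj.snd X Y) y

/-- the linear maps `H(X) → H(Y)` -/
abbrev Hom (X Y : 𝒱.Obj) : Type w := D.H X →ₗ[K] D.H Y

/-- the value of a linear map `H(X) → H(Y)` -/
abbrev ap (φ : D.Hom X Y) (x : D.H X) : D.H Y := φ x

/-- the bilinear maps `H(X) × H(Y) → H(Z)` -/
abbrev Bil (X Y Z : 𝒱.Obj) : Type w := D.H X →ₗ[K] D.H Y →ₗ[K] D.H Z

/-- the pull-back as a linear map -/
abbrev pullLin (f : X ⟶ Y) : D.Hom Y X := (D.pull f).toLinearMap

/-- the product as a bilinear map -/
abbrev mulLin (X : 𝒱.Obj) : D.Bil X X X := LinearMap.mul K (D.H X)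

/-- the external product as a bilinear map `(x, y) ↦ fst^* x · snd^* y` -/
abbrev crossLin (X Y : 𝒱.Obj) : D.Bil X Y (X.prod Y) :=
  (D.mulLin (X.prod Y)).compl₁₂ (D.pullLin (Obj.fst X Y)) (D.pullLin (Obj.snd X Y))

/-- the Künneth map `H(X) ⊗ H(Y) → H(X × Y)` -/
def kunnethMap (X Y : 𝒱.Obj) : D.H X ⊗[K] D.H Y →ₗ[K] D.H (X.prod Y) :=
  TensorProduct.lift (D.crossLin X Y)

/-! The axioms of a Weil cohomology theory, one by one. -/

/-- `H(X)` is finite-dimensional -/
abbrev AxFinite : Prop := ∀ X, FiniteDimensional K (D.H X)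

/-- `1 ∈ H^0(X)` and `H^i(X) · H^j(X) ⊆ H^(i+j)(X)` -/
abbrev AxGraded : Prop := ∀ X, SetLike.GradedMonoid (D.grad X)

/-- `H(X)` is the direct sum of the `H^i(X)` -/
abbrev AxInternal : Prop := ∀ X, DirectSum.IsInternal (D.grad X)

/-- `H^i(X) = 0` for `i > 2 dim X` -/
abbrev AxVanish : Prop := ∀ X i, 2 * X.dim < i → D.grad X i = ⊥

/-- graded commutativity -/
abbrev AxComm : Prop :=
  ∀ X i j (x y : D.H X), x ∈ D.grad X i → y ∈ D.grad X j → x * y = (-1) ^ (i * j) * (y * x)

/-- `id^* = id` -/
abbrev AxPullId : Prop := ∀ X (x : D.H X), D.pb (𝟙 X) x = x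

/-- `(g f)^* = f^* g^*` -/
abbrev AxPullComp : Prop :=
  ∀ (X Y Z : 𝒱.Obj) (f : X ⟶ Y) (g : Y ⟶ Z) (z : D.H Z), D.pb (f ≫ g) z = D.pb f (D.pb g z)

/-- the pull-back respects the degree -/
abbrev AxPullGrad : Prop :=
  ∀ (X Y : 𝒱.Obj) (f : X ⟶ Y) (i : ℕ) (y : D.H Y), y ∈ D.grad Y i → D.pb f y ∈ D.grad X i

/-- the trace vanishes outside of degree `2 dim X` -/
abbrev AxTrGrad : Prop := ∀ X i (x : D.H X), x ∈ D.grad X i → i ≠ 2 * X.dim → D.deg x = 0

/-- the trace is an isomorphism `H^(2 dim X)(X) → K` -/
abbrev AxTrBij : Prop :=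
  ∀ X, Function.Bijective fun x : D.grad X (2 * X.dim) => D.deg (x : D.H X)

/-- Poincaré duality -/
abbrev AxDuality : Prop := ∀ X (x : D.H X), (∀ y, D.deg (x * y) = 0) → x = 0

/-- the Künneth formula `H(X) ⊗ H(Y) ≅ H(X × Y)` -/
abbrev AxKunneth : Prop :=
  ∀ X Y : 𝒱.Obj, Function.Bijective (D.kunnethMap X Y)

/-- the trace is multiplicative -/
abbrev AxTrProd : Prop :=
  ∀ (X Y : 𝒱.Obj) (x : D.H X) (y : D.H Y), D.deg (D.cross x y) = D.deg x * D.deg y

/-- the class of a point of codimension `i` has degree `2 i` -/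
abbrev AxClMem : Prop :=
  ∀ X (x : X.X.left) (i : ℕ), Order.coheight x = (i : ℕ∞) → D.clPt X x ∈ D.grad X (2 * i)

/-- the class of `X` is `1` -/
abbrev AxClGeneric : Prop := ∀ X (x : X.X.left), Order.coheight x = 0 → D.clPt X x = 1

/-- a point of codimension `dim X` (that is, a closed point) has trace `1` -/
abbrev AxTrPt : Prop :=
  ∀ X (x : X.X.left), Order.coheight x = (X.dim : ℕ∞) → D.deg (D.clPt X x) = 1

/-- cup products of algebraic classes are algebraic -/
abbrev AxAlgMul : Prop :=
  ∀ (X : 𝒱.Obj) (i j : ℕ) (z : Cyc X i) (z' : Cyc X j), ∃ t : Cyc X (i + j),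
    D.cyc t = D.cyc z * D.cyc z'

/-- pull-backs of algebraic classes are algebraic -/
abbrev AxAlgPull : Prop :=
  ∀ (X Y : 𝒱.Obj) (f : X ⟶ Y) (i : ℕ) (z : Cyc Y i), ∃ t : Cyc X i, D.cyc t = D.pb f (D.cyc z)

/-- push-forwards of algebraic classes are algebraic: the push-forward of `x ∈ H(X)` along
`f : X → Y` is the element `f_* x` of `H(Y)` with `Tr_Y (f_* x · y) = Tr_X (x · f^* y)` for all
`y`; it maps codimension `i` to codimension `i + dim Y - dim X` -/
abbrev AxAlgPush : Prop :=
  ∀ (X Y : 𝒱.Obj) (f : X ⟶ Y) (i j : ℕ), i + Y.dim = j + X.dim → ∀ z : Cyc X i,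
    ∃ t : Cyc Y j, ∀ y : D.H Y, D.deg (D.cyc t * y) = D.deg (D.cyc z * D.pb f y)

end WeilData

/-- A Weil cohomology theory with coefficients in the field `K` on the class `𝒱` of varieties over
`k`. -/
structure Weil {k : Type u} [Field k] (𝒱 : VarClass k) (K : Type v) [Field K] extends
    WeilData.{u, v, w} 𝒱 K where
  axFinite : toWeilData.AxFinite
  axGraded : toWeilData.AxGraded
  axInternal : toWeilData.AxInternal
  axVanish : toWeilData.AxVanish
  axComm : toWeilData.AxComm
  axPullId : toWeilData.AxPullId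
  axPullComp : toWeilData.AxPullComp
  axPullGrad : toWeilData.AxPullGrad
  axTrGrad : toWeilData.AxTrGrad
  axTrBij : toWeilData.AxTrBij
  axDuality : toWeilData.AxDuality
  axKunneth : toWeilData.AxKunneth
  axTrProd : toWeilData.AxTrProd
  axClMem : toWeilData.AxClMem
  axClGeneric : toWeilData.AxClGeneric
  axTrPt : toWeilData.AxTrPt
  axAlgMul : toWeilData.AxAlgMul
  axAlgPull : toWeilData.AxAlgPull
  axAlgPush : toWeilData.AxAlgPush

namespace Weil

variable {k : Type u} [Field k] {𝒱 : VarClass k} {K : Type v} [Field K] (W : Weil.{u, v, w} 𝒱 K)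

/-- The cycle class `cl(z) ∈ H^{2i}(X)` of a cycle of codimension `i`. -/
def cl {X : 𝒱.Obj} {i : ℕ} (z : Cyc X i) : W.H X := cycSum K (W.clPt X) z

/-- Numerical triviality: `deg (z · z') = Tr_X (cl(z) ∪ cl(z')) = 0` for all cycles `z'` of
complementary codimension. -/
def NumTrivial {X : 𝒱.Obj} {i : ℕ} (z : Cyc X i) : Prop :=
  ∀ (j : ℕ) (z' : Cyc X j), i + j = X.dim → W.tr X (W.cl z * W.cl z') = 0

/-- The standard conjecture `D(X)`: a cycle on `X` with rational coefficients is homologically
equivalent to zero if and only if it is numerically equivalent to zero. -/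
def HomEqNum (X : 𝒱.Obj) : Prop :=
  ∀ (i : ℕ) (z : Cyc X i), W.NumTrivial z ↔ W.cl z = 0

/-- The `K`-linear span of the algebraic classes in `H(X)`. -/
def algSpan (X : 𝒱.Obj) : Submodule K (W.H X) :=
  Submodule.span K {a | ∃ (i : ℕ) (z : Cyc X i), W.cl z = a}

/-- An endomorphism `φ` of `H(X)` is *algebraic* if it is the action of a class `α` in the `K`-span
of the algebraic classes on `X × X`: `Tr_X (φ(v) w) = Tr_{X × X} (α · (fst^* v · snd^* w))`. -/
def IsAlgEnd (X : 𝒱.Obj) (φ : W.Hom X X) : Prop :=
  ∃ α ∈ W.algSpan (X.prod X), ∀ v v' : W.H X,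
    W.deg (W.ap φ v * v') = W.deg (α * W.cross v v')

end Weil

end Pool.Agent.WeilH_h6
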