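import Pool.Agent.WeilH_h6.NT

set_option autoImplicit false

/-!
# The complete contraction of neighbouring factors
-/

noncomputable section

namespace Pool.Agent.WeilH_h6

open AlgebraicGeometry CategoryTheory MonoidalCategory
open scoped TensorProduct DirectSum
open VarClass

universe u v w

namespace Weil

variable {k : Type u} [Field k] {𝒱 : VarClass k} {K : Type v} [Field K] (W : Weil.{u, v, w} 𝒱 K)

/-- The projection of `X^(R*2)` to the `j`-th pair of factors. -/
def pairM (X : 𝒱.Obj) (R : ℕ) (j : Fin R) : X.pow (R * 2) ⟶ X.prod X :=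
  Obj.lift (Obj.proj X (R * 2) (finProdFinEquiv (j, 0))) (Obj.proj X (R * 2) (finProdFinEquiv (j, 1)))

/-- The product of the pull-backs of the diagonal class. -/
def theta (X : 𝒱.Obj) (R : ℕ) : W.H (X.pow (R * 2)) :=
  (List.ofFn fun j : Fin R => W.pull (pairM X R j) (W.delta X)).prod

lemma theta_mem (X : 𝒱.Obj) (R : ℕ) : W.theta X R ∈ W.algSpan _ := by
  unfold theta
  refine List.prod_induction (· ∈ W.algSpan _) (fun a b ha hb => W.mul_mem_algSpan ha hb)
    (W.one_mem_algSpan _) ?_
  intro a ha
  obtain ⟨j, rfl⟩ := (List.mem_ofFn' _ _).1 ha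
  exact W.pull_mem_algSpan _ (W.delta_mem X)

/-- Induction principle: a property of families of elements of `H(X × X)`, additive in each
variable, holds if it holds for families of product classes. -/
lemma Lam_ind {X : 𝒱.Obj} {R : ℕ} {P : (Fin R → W.H (X.prod X)) → Prop}
    (hadd : ∀ y j a b, P (Function.update y j a) → P (Function.update y j b) →
      P (Function.update y j (a + b)))
    (hm : ∀ a b : Fin R → W.H X, P fun j => W.p1 X X (a j) * W.p2 X X (b j))
    (y : Fin R → W.H (X.prod X)) : P y := by
  have key : ∀ (s : Finset (Fin R)) (y : Fin R → W.H (X.prod X)),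
      (∀ j, j ∉ s → ∃ a b : W.H X, y j = W.p1 X X a * W.p2 X X b) → P y := by
    intro s
    induction s using Finset.induction_on with
    | empty =>
      intro y hy
      have hy' : ∀ j, ∃ a b : W.H X, y j = W.p1 X X a * W.p2 X X b := fun j => hy j (by simp)
      choose a b hab using hy'
      have : y = fun j => W.p1 X X (a j) * W.p2 X X (b j) := funext hab
      rw [this]
      exact hm a b
    | insert j s _ ih =>
      intro y hy
      have h : ∀ u : W.H (X.prod X), P (Function.update y j u) := by
        intro u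
        refine W.kunneth_induction X X (P := fun u => P (Function.update y j u))
          (fun a b ha hb => hadd y j a b ha hb) (fun a b => ?_) u
        refine ih _ fun i hi => ?_
        by_cases hij : i = j
        · subst hij
          exact ⟨a, b, Function.update_self _ _ _⟩
        · rw [Function.update_of_ne hij]
          exact hy i (by simp [hij, hi])
      have := h (y j)
      rwa [Function.update_eq_self] at this
  exact key Finset.univ y fun j hj => absurd (Finset.mem_univ j) hj

lemma Lam_pureT {X : 𝒱.Obj} {R : ℕ} (u : Fin (R * 2) → W.H X) :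
    W.pureT u = (List.ofFn fun j : Fin R =>
      W.pull (Obj.proj X (R * 2) (finProdFinEquiv (j, 0))) (u (finProdFinEquiv (j, 0))) *
        W.pull (Obj.proj X (R * 2) (finProdFinEquiv (j, 1))) (u (finProdFinEquiv (j, 1)))).prod := by
  unfold pureT
  rw [List.ofFn_mul, List.prod_flatten, List.map_ofFn]
  congr 2
  funext j
  have h0 : (⟨(j : ℕ) * 2 + ((0 : Fin 2) : ℕ), by omega⟩ : Fin (R * 2)) = finProdFinEquiv (j, 0) := by
    apply Fin.ext
    simp [finProdFinEquiv, mul_comm]
  have h1 : (⟨(j : ℕ) * 2 + ((1 : Fin 2) : ℕ), by omega⟩ : Fin (R * 2)) = finProdFinEquiv (j, 1) := by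
    apply Fin.ext
    simp [finProdFinEquiv, mul_comm, add_comm]
  rw [← h0, ← h1]
  simp [List.ofFn_succ]

lemma Lam_pull_pairM {X : 𝒱.Obj} {R : ℕ} (j : Fin R) (a b : W.H X) :
    W.pull (pairM X R j) (W.p1 X X a * W.p2 X X b) =
      W.pull (Obj.proj X (R * 2) (finProdFinEquiv (j, 0))) a *
        W.pull (Obj.proj X (R * 2) (finProdFinEquiv (j, 1))) b := by
  rw [map_mul, ← W.pull_comp, ← W.pull_comp]
  unfold pairM
  rw [Obj.lift_fst, Obj.lift_snd]

lemma Lam_tr_pairs_pure {X : 𝒱.Obj} {R : ℕ} (a b : Fin R → W.H X) :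
    W.tr (X.pow (R * 2)) (List.ofFn fun j => W.pull (pairM X R j)
      (W.p1 X X (a j) * W.p2 X X (b j))).prod =
      ∏ j, W.tr (X.prod X) (W.p1 X X (a j) * W.p2 X X (b j)) := by
  let u : Fin (R * 2) → W.H X := fun s =>
    if (finProdFinEquiv.symm s).2 = 0 then a (finProdFinEquiv.symm s).1
    else b (finProdFinEquiv.symm s).1
  have hu0 : ∀ j : Fin R, u (finProdFinEquiv (j, 0)) = a j := by
    intro j
    simp only [u, Equiv.symm_apply_apply, if_true]
  have hu1 : ∀ j : Fin R, u (finProdFinEquiv (j, 1)) = b j := by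
    intro j
    simp only [u, Equiv.symm_apply_apply]
    rw [if_neg (by decide)]
  have h1 : (List.ofFn fun j => W.pull (pairM X R j)
      (W.p1 X X (a j) * W.p2 X X (b j))).prod = W.pureT u := by
    rw [W.Lam_pureT u]
    congr 2
    funext j
    rw [W.Lam_pull_pairM, hu0, hu1]
  rw [h1, W.tr_pureT, ← finProdFinEquiv.prod_comp, Fintype.prod_prod_type]
  refine Finset.prod_congr rfl fun j _ => ?_
  rw [Fin.prod_univ_two, hu0, hu1, W.tr_prod]

/-- `Tr (∏_j pull (pairM j) (y j)) = ∏_j Tr (y j)` for `y j ∈ H(X × X)`.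

Proof.  Both sides are multilinear in `y`; by the Künneth formula it is enough to treat
`y j = p1 (a j) * p2 (b j)` (for instance with `Module.Basis.ext_multilinear` and the basis of
`H(X × X)` obtained from a basis of `H(X) ⊗ H(X)` through `ku`; or by induction on a set of
coordinates).  Then `pull (pairM j) (y j) = q_{(j,0)}^* (a j) * q_{(j,1)}^* (b j)` and the product is
`pureT` of the family `(j, 0) ↦ a j`, `(j, 1) ↦ b j` (`List.ofFn_mul`), so that both sides are
`∏_j Tr (a j) * Tr (b j)` (`tr_pureT`, `tr_prod`). -/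
lemma tr_pairs {X : 𝒱.Obj} {R : ℕ} (y : Fin R → W.H (X.prod X)) :
    W.tr (X.pow (R * 2)) (List.ofFn fun j => W.pull (pairM X R j) (y j)).prod =
      ∏ j, W.tr (X.prod X) (y j) := by
  let F : MultilinearMap K (fun _ : Fin R => W.H (X.prod X)) K :=
    (W.tr (X.pow (R * 2))).compMultilinearMap
      ((MultilinearMap.mkPiAlgebraFin K R (W.H (X.pow (R * 2)))).compLinearMap
        fun j => (W.pull (pairM X R j)).toLinearMap)
  let G : MultilinearMap K (fun _ : Fin R => W.H (X.prod X)) K :=
    (MultilinearMap.mkPiAlgebra K (Fin R) K).compLinearMap fun _ => W.tr (X.prod X)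
  have hF : ∀ y, F y = W.tr (X.pow (R * 2))
      (List.ofFn fun j => W.pull (pairM X R j) (y j)).prod := fun y => by
    simp only [F, LinearMap.compMultilinearMap_apply, MultilinearMap.compLinearMap_apply,
      MultilinearMap.mkPiAlgebraFin_apply, AlgHom.toLinearMap_apply]
  have hG : ∀ y, G y = ∏ j, W.tr (X.prod X) (y j) := fun y => by
    simp only [G, MultilinearMap.compLinearMap_apply, MultilinearMap.mkPiAlgebra_apply]
  rw [← hF, ← hG]
  refine W.Lam_ind (P := fun y => F y = G y) ?_ ?_ y
  · intro y j a b ha hb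
    rw [F.map_update_add, G.map_update_add, ha, hb]
  · intro a b
    rw [hF, hG]
    exact W.Lam_tr_pairs_pure a b

end Weil

end Pool.Agent.WeilH_h6
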