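import Pool.Agent.WeilH_h6.NT

set_option autoImplicit false

/-!
# The word parts of the cohomology of `X^m`
-/

noncomputable section

namespace Pool.Agent.WeilH_h6

open AlgebraicGeometry CategoryTheory MonoidalCategory
open scoped TensorProduct DirectSum
open VarClass

universe u v w

namespace Weil

variable {k : Type u} [Field k] {𝒱 : VarClass k} {K : Type v} [Field K] (W : Weil.{u, v, w} 𝒱 K)

/-- The external power `g^{(m)}` of a linear endomorphism `g` of `H(X)`, acting on `H(X^m)`. -/
def powMap {X : 𝒱.Obj} : (m : ℕ) → (Fin m → Module.End K (W.H X)) →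
    Module.End K (W.H (X.pow m))
  | 0 => fun _ => LinearMap.id
  | m + 1 => fun φ => W.extHom (Y := X.pow m) (Z := X.pow m) (Y' := X) (Z' := X)
      (powMap m fun s => φ s.castSucc) (φ (Fin.last m))

/-- Proof: induction on `m`, `pureT_succ`, `extHom_apply` (`change` the types: `Obj.pfst X m` is
`Obj.fst (X.pow m) X`). -/
lemma powMap_pureT {X : 𝒱.Obj} {m : ℕ} (φ : Fin m → Module.End K (W.H X)) (v : Fin m → W.H X) :
    W.powMap m φ (W.pureT v) = W.pureT fun s => φ s (v s) := by
  induction m with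
  | zero =>
    rw [pureT_zero, pureT_zero]
    rfl
  | succ m ih =>
    rw [pureT_succ, pureT_succ, ← ih (fun s => φ s.castSucc) fun s => v s.castSucc]
    exact W.extHom_apply (Y := X.pow m) (Z := X.pow m) (Y' := X) (Z' := X)
      (W.powMap m fun s => φ s.castSucc) (φ (Fin.last m)) _ _

/-- Proof: induction on `m`, `extHom_mem_algHom`, `id_mem_algHom`. -/
lemma powMap_mem_algHom [CharZero K] {X : 𝒱.Obj} {m : ℕ} {φ : Fin m → Module.End K (W.H X)}
    (h : ∀ s, φ s ∈ W.algHom X X) : W.powMap m φ ∈ W.algHom (X.pow m) (X.pow m) := by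
  induction m with
  | zero => exact W.id_mem_algHom _
  | succ m ih =>
    exact W.extHom_mem_algHom (Y := X.pow m) (Z := X.pow m) (Y' := X) (Z' := X)
      (ih fun s => h s.castSucc) (h (Fin.last m))

/-- The subspace `U_1 ⊗ ⋯ ⊗ U_m` of `H(X^m)`: the span of the classes `q_1^* v_1 ⋯ q_m^* v_m` with
`v_s ∈ U_s`. -/
def partOf {X : 𝒱.Obj} {m : ℕ} (U : Fin m → Submodule K (W.H X)) : Submodule K (W.H (X.pow m)) :=
  Submodule.span K {a | ∃ v : Fin m → W.H X, (∀ s, v s ∈ U s) ∧ a = W.pureT v}

/-- `powMap` of maps with values in `U_s` has values in the part.  Proof: `pure_induction`. -/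
lemma powMap_mem_partOf {X : 𝒱.Obj} {m : ℕ} {φ : Fin m → Module.End K (W.H X)}
    {U : Fin m → Submodule K (W.H X)} (h : ∀ s v, φ s v ∈ U s) (z : W.H (X.pow m)) :
    W.powMap m φ z ∈ W.partOf U := by
  refine W.pure_induction (P := fun z => W.powMap m φ z ∈ W.partOf U) ?_ ?_ ?_ z
  · intro a b ha hb
    rw [map_add]; exact Submodule.add_mem _ ha hb
  · intro c a ha
    rw [map_smul]; exact Submodule.smul_mem _ _ ha
  · intro v
    rw [powMap_pureT]
    exact Submodule.subset_span ⟨_, fun s => h s (v s), rfl⟩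

/-- If `φ s` is the identity on `U s`, then `powMap φ` is the identity on the part. -/
lemma powMap_eq_self {X : 𝒱.Obj} {m : ℕ} {φ : Fin m → Module.End K (W.H X)}
    {U : Fin m → Submodule K (W.H X)} (h : ∀ s, ∀ v ∈ U s, φ s v = v) {z : W.H (X.pow m)}
    (hz : z ∈ W.partOf U) : W.powMap m φ z = z := by
  unfold partOf at hz
  induction hz using Submodule.span_induction with
  | mem a ha =>
    obtain ⟨v, hv, rfl⟩ := ha
    rw [powMap_pureT]
    congr 1
    funext s
    exact h s _ (hv s)
  | zero => rw [map_zero]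
  | add a b _ _ ha hb => rw [map_add, ha, hb]
  | smul c a _ ha => rw [map_smul, ha]

end Weil

end Pool.Agent.WeilH_h6
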