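import Pool.Agent.WeilH_h6.Parts

set_option autoImplicit false

/-!
# The definitions of the theorem on irreducible pieces

`Pieces`: a finite family of direct summands `V_i` of `H(X)`; `letter`, `wordPart`: the spaces
`V_i`, `V_i^∨` and their tensor products in `H(X^m)`; `HasClass`: such a tensor product contains a
nonzero algebraic class; `wdeg`: the multidegree of a word; `DegSymm`: the multidegrees of the words
with a nonzero algebraic class are symmetric up to multiples; `IsSymmetry`: symmetries of `H(X)`;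
`AbsIrr`: a set of symmetries acts absolutely irreducibly on each `V_i`.
-/

noncomputable section

namespace Pool.Agent.WeilH_h6

open AlgebraicGeometry CategoryTheory MonoidalCategory
open VarClass

universe u v w

/-- The multidegree of a word `ℓ`: the number of letters `(i, true)` minus the number of letters
`(i, false)`, for each `i`. -/
def wdeg {I : Type} {m : ℕ} (l : Fin m → I × Bool) (i : I) : ℤ :=
  (Nat.card {s // l s = (i, true)} : ℤ) - Nat.card {s // l s = (i, false)}

namespace Weil

variable {k : Type u} [Field k] {𝒱 : VarClass k} {K : Type v} [Field K] (W : Weil.{u, v, w} 𝒱 K)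

/-- `p` is idempotent. -/
def IsIdem {X : 𝒱.Obj} (p : W.Hom X X) : Prop :=
  ∀ v, W.ap p (W.ap p v) = W.ap p v

/-- `p` has values in `H^n(X)` and vanishes on the other `H^j(X)`. -/
def InDegree {X : 𝒱.Obj} (p : W.Hom X X) (n : ℕ) : Prop :=
  (∀ v, W.ap p v ∈ W.grad X n) ∧ ∀ j v, v ∈ W.grad X j → j ≠ n → W.ap p v = 0

/-- `p'` is the adjoint of `p` for Poincaré duality. -/
def IsAdjoint {X : 𝒱.Obj} (p p' : W.Hom X X) : Prop :=
  ∀ v v', W.deg (W.ap p v * v') = W.deg (v * W.ap p' v')

/-- A family of direct summands `V_i = p_i H(X)` of the cohomology of `X`, given by algebraic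
idempotents `p_i`, each contained in one degree `H^{n_i}(X)`; `p'_i` is the adjoint of `p_i` for
Poincaré duality, its range is the dual `V_i^∨` of `V_i`. -/
structure Pieces (X : 𝒱.Obj) (I : Type) where
  /-- the degree of `V_i` -/
  n : I → ℕ
  /-- the projector onto `V_i` -/
  p : I → W.Hom X X
  /-- the adjoint projector, onto `V_i^∨` -/
  p' : I → W.Hom X X
  alg : ∀ i, W.IsAlgEnd X (p i)
  isIdem : ∀ i, W.IsIdem (p i)
  inDegree : ∀ i, W.InDegree (p i) (n i)
  isAdjoint : ∀ i, W.IsAdjoint (p i) (p' i)

variable {W}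

namespace Pieces

variable {X : 𝒱.Obj} {I : Type} (P : W.Pieces X I)

/-- The space attached to a letter: `V_i` for `(i, true)` and `V_i^∨` for `(i, false)`. -/
def letter (l : I × Bool) : Submodule K (W.H X) :=
  if l.2 then LinearMap.range (P.p l.1) else LinearMap.range (P.p' l.1)

/-- The subspace `V_{ℓ_1} ⊗ ⋯ ⊗ V_{ℓ_m}` of `H(X^m)` attached to a word `ℓ`. -/
def wordPart {m : ℕ} (l : Fin m → I × Bool) : Submodule K (W.H (X.pow m)) :=
  W.partOf fun s => P.letter (l s)

/-- The space `V_{ℓ_1} ⊗ ⋯ ⊗ V_{ℓ_m}` contains a nonzero element of the `K`-span of the algebraic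
classes. -/
def HasClass {m : ℕ} (l : Fin m → I × Bool) : Prop :=
  ∃ z ∈ P.wordPart l, z ∈ W.algSpan (X.pow m) ∧ z ≠ 0

/-- The multidegrees of the words with a nonzero algebraic class are symmetric up to multiples: for
each such word `ℓ` there is another one, whose multidegree is `-N` times the one of `ℓ`, for some
`N ≥ 1`. -/
def DegSymm : Prop :=
  ∀ (m : ℕ) (l : Fin m → I × Bool), P.HasClass l →
    ∃ (N : ℕ) (m' : ℕ) (l' : Fin m' → I × Bool), 1 ≤ N ∧ P.HasClass l' ∧
      ∀ i, wdeg l' i = -(N * wdeg l i)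

/-- The `V_i` generate the `K`-algebra `H(X)`. -/
def Generate : Prop :=
  Algebra.adjoin K (⋃ i, (LinearMap.range (P.p i) : Set (W.H X))) = ⊤

end Pieces

variable (W)

/-- `g` multiplies the Poincaré pairing by the scalar `a`. -/
def ScalesTr {X : 𝒱.Obj} (g : W.Hom X X) (a : K) : Prop :=
  ∀ v v', W.deg (W.ap g v * W.ap g v') = a * W.deg (v * v')

/-- The external power `g ⊗ ⋯ ⊗ g`, that is, the linear endomorphism `G` of `H(X^m)` with
`G (v_1 ⊗ ⋯ ⊗ v_m) = g v_1 ⊗ ⋯ ⊗ g v_m`, multiplies the classes of all cycles of codimension `j` on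
`X^m` by `c^j`, for all `j`. -/
def ScalesCl {X : 𝒱.Obj} (g : W.Hom X X) (c : K) (m : ℕ) : Prop :=
  ∃ G : W.Hom (X.pow m) (X.pow m),
    (∀ v : Fin m → W.H X, W.ap G (W.pureT v) = W.pureT fun s => W.ap g (v s)) ∧
    ∀ (j : ℕ) (z : Cyc (X.pow m) j), W.ap G (W.cl z) = c ^ j • W.cl z

/-- A *symmetry* of `H(X)` with multiplier `c ∈ Kˣ`: a linear endomorphism `g` which is compatible
with Poincaré duality and whose external powers multiply the classes of all cycles of codimension `j`
on `X^m` by `c^j`, for all `m` and `j` (for instance an element of the Galois group of a field of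
definition of `X`, with `c` the value of the inverse of the cyclotomic character, or a monodromy
transformation, with `c = 1`, or multiplication by `t^i` on `H^i(X)`, with `c = t^2`). -/
structure IsSymmetry {X : 𝒱.Obj} (g : W.Hom X X) (c : K) : Prop where
  ne_zero : c ≠ 0
  scalesTr : W.ScalesTr g (c ^ X.dim)
  scalesCl : ∀ m : ℕ, W.ScalesCl g c m

/-- `g` and `p` commute. -/
def Commutes {X : 𝒱.Obj} (g p : W.Hom X X) : Prop :=
  ∀ v, W.ap g (W.ap p v) = W.ap p (W.ap g v)

/-- The set `S` of endomorphisms spans all the linear endomorphisms of the range of the idempotent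
`p`: for every endomorphism `φ` a linear combination of elements of `S` agrees with `p φ` on the range
of `p`. -/
def SpansEnd {X : 𝒱.Obj} (S : Set (W.Hom X X)) (p : W.Hom X X) : Prop :=
  ∀ φ : W.Hom X X, ∃ (r : ℕ) (t : Fin r → K) (g : Fin r → W.Hom X X), (∀ j, g j ∈ S) ∧
    ∀ v, ∑ j, t j • W.ap (g j) (W.ap p v) = W.ap p (W.ap φ (W.ap p v))

variable {W}

/-- `S` acts absolutely irreducibly on each piece: `S` consists of symmetries which commute with the
projectors, and spans the `K`-linear endomorphisms of each `V_i`. -/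
structure Pieces.AbsIrr {X : 𝒱.Obj} {I : Type} (P : W.Pieces X I)
    (S : Set (W.Hom X X)) : Prop where
  symm : ∀ g ∈ S, ∃ c : K, W.IsSymmetry g c
  commutes : ∀ g ∈ S, ∀ i, W.Commutes g (P.p i)
  spansEnd : ∀ i, W.SpansEnd S (P.p i)

end Weil

end Pool.Agent.WeilH_h6
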