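import Pool.Agent.WeilH_h6.PartsB
import Pool.Agent.WeilH_h6.BoxNZ
import Pool.Agent.WeilH_h6.ConvA

set_option autoImplicit false

/-!
# The condition on degrees in the self-dual case
-/

noncomputable section

namespace Pool.Agent.WeilH_h6

open AlgebraicGeometry CategoryTheory MonoidalCategory
open scoped TensorProduct DirectSum
open VarClass

universe u v w

namespace Weil

variable {k : Type u} [Field k] {𝒱 : VarClass k} {K : Type v} [Field K] {W : Weil.{u, v, w} 𝒱 K}

namespace Pieces

variable {X : 𝒱.Obj} {I : Type} (P : W.Pieces X I)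

/-- there is a nonzero algebraic class in a word part of multidegree `d` -/
def SelfDual_good (d : I → ℤ) : Prop :=
  ∃ (m : ℕ) (l : Fin m → I × Bool) (z : W.H (X.pow m)),
    z ∈ P.wordPart l ∧ z ∈ W.algSpan (X.pow m) ∧ z ≠ 0 ∧ ∀ j, wdeg l j = d j

variable {P}

lemma SelfDual_good_zero : P.SelfDual_good 0 := by
  refine ⟨0, fun s => s.elim0, 1, ?_, W.one_mem_algSpan _, ?_, ?_⟩
  · refine Submodule.subset_span ⟨fun s => s.elim0, fun s => s.elim0, ?_⟩
    rw [pureT_zero]
  · intro h
    have h1 := W.tr_pureT (X := X) (m := 0) (fun s => s.elim0)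
    rw [pureT_zero, Fin.prod_univ_zero] at h1
    have h2 : W.tr (X.pow 0) (1 : W.H (X.pow 0)) = 0 := by
      rw [h, map_zero]
    exact one_ne_zero (h1.symm.trans h2)
  · intro j
    simp [wdeg]

lemma SelfDual_good_add {d d' : I → ℤ} (h : P.SelfDual_good d) (h' : P.SelfDual_good d') :
    P.SelfDual_good (d + d') := by
  obtain ⟨m, l, z, h1, h2, h3, h4⟩ := h
  obtain ⟨m', l', z', h1', h2', h3', h4'⟩ := h'
  refine ⟨m + m', Fin.append l l', W.box2 z z', P.box2_mem_wordPart h1 h1', W.box2_mem h2 h2',
    W.box2_ne_zero h2' h3 h3', fun j => ?_⟩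
  rw [wdeg_append, h4, h4', Pi.add_apply]

lemma SelfDual_good_nsmul {d : I → ℤ} (h : P.SelfDual_good d) (n : ℕ) :
    P.SelfDual_good (n • d) := by
  induction n with
  | zero => rw [zero_smul]; exact SelfDual_good_zero
  | succ n ih => rw [add_smul, one_smul]; exact SelfDual_good_add ih h

/-- the degree of a letter -/
def SelfDual_deg [DecidableEq I] (x : I × Bool) : I → ℤ :=
  fun j => if x.1 = j then (if x.2 then 1 else -1) else 0

lemma SelfDual_word [DecidableEq I] {N : ℕ}
    (h : ∀ x : I × Bool, P.SelfDual_good (N • SelfDual_deg x)) :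
    ∀ (m : ℕ) (l : Fin m → I × Bool), P.SelfDual_good (fun i => -(N * wdeg l i)) := by
  intro m
  induction m with
  | zero =>
    intro l
    convert SelfDual_good_zero (P := P) using 1
    funext i
    simp [wdeg]
  | succ m ih =>
    intro l
    have h1 := SelfDual_good_add (ih fun s => l s.castSucc)
      (h ((l (Fin.last m)).1, !(l (Fin.last m)).2))
    convert h1 using 1
    funext i
    rw [wdeg_last, Pi.add_apply, Pi.smul_apply, SelfDual_deg, nsmul_eq_mul]
    by_cases h2 : (l (Fin.last m)).1 = i
    · rw [if_pos h2, if_pos h2]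
      cases (l (Fin.last m)).2 <;> simp <;> ring
    · rw [if_neg h2, if_neg h2]
      ring

variable (P)

/-- If for every `i` a positive and a negative multiple of the `i`-th unit vector is the degree of a
nonzero algebraic class, then the degrees are symmetric.

Proof.  Step 1: common multiple.  There is `N ≥ 1` such that for every letter `x = (i, b)` (with `i`
among the finitely many letters of the given word; or `I` finite) there is a word with a nonzero
algebraic class of degree `-N` times the degree of the letter `x`: take for `N` the product of the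
numbers `N_{i, b}` and external powers (`box_ne_zero`, `box_mem`, `box_mem_wordPart`, `wdeg_box`).
Step 2: induction on the length `m` of the word `l`, `wdeg_last`, `wdeg_append`, `box2_ne_zero`,
`box2_mem`, `box2_mem_wordPart`; for the empty word take the empty word and the class `1`. -/
theorem degSymm_of_letters [CharZero K] [Fintype I] [DecidableEq I]
    (h : ∀ (i : I) (b : Bool), ∃ (N : ℕ) (m : ℕ) (l : Fin m → I × Bool) (z : W.H (X.pow m)), 1 ≤ N ∧
      z ∈ P.wordPart l ∧ z ∈ W.algSpan (X.pow m) ∧ z ≠ 0 ∧
        ∀ j, wdeg l j = if i = j then (if b then (N : ℤ) else -N) else 0) : P.DegSymmX := by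
  have h' : ∀ x : I × Bool, ∃ N : ℕ, 1 ≤ N ∧ P.SelfDual_good (N • SelfDual_deg x) := by
    rintro ⟨i, b⟩
    obtain ⟨N, m, l, z, hN, h1, h2, h3, h4⟩ := h i b
    refine ⟨N, hN, m, l, z, h1, h2, h3, fun j => ?_⟩
    rw [h4, Pi.smul_apply, SelfDual_deg, nsmul_eq_mul]
    by_cases hij : i = j
    · rw [if_pos hij, if_pos hij]
      cases b <;> simp
    · rw [if_neg hij, if_neg hij, mul_zero]
  choose N hN hg using h'
  have hall : ∀ x : I × Bool, P.SelfDual_good ((∏ y, N y) • SelfDual_deg x) := by
    intro x
    have h1 : (∏ y, N y) = (∏ y ∈ Finset.univ.erase x, N y) * N x := by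
      rw [Finset.prod_erase_mul _ _ (Finset.mem_univ x)]
    rw [h1, mul_smul]
    exact SelfDual_good_nsmul (hg x) _
  intro m l z _ _ _
  obtain ⟨m', l', z', h1, h2, h3, h4⟩ := SelfDual_word hall m l
  exact ⟨∏ y, N y, m', l', z', Finset.one_le_prod' fun y _ => hN y, h1, h2, h3, h4⟩

end Pieces

end Weil

end Pool.Agent.WeilH_h6
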