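import Pool.Agent.WeilH_h6.PieceDefs
import Pool.Agent.WeilH_h6.Dual

set_option autoImplicit false

/-!
# The hypotheses of the theorem on irreducible pieces
-/

noncomputable section

namespace Pool.Agent.WeilH_h6

open AlgebraicGeometry CategoryTheory MonoidalCategory
open scoped TensorProduct DirectSum
open VarClass

universe u v w

namespace Weil

variable {k : Type u} [Field k] {𝒱 : VarClass k} {K : Type v} [Field K] (W : Weil.{u, v, w} 𝒱 K)

/-- The projection of `H(X)` onto `H^d(X)`. -/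
def setup_pr (X : 𝒱.Obj) (d : ℕ) : W.H X →ₗ[K] W.H X :=
  (DirectSum.toModule K ℕ (W.H X) fun i => if i = d then (W.grad X i).subtype else 0) ∘ₗ
    (LinearEquiv.ofBijective (DirectSum.coeLinearMap (W.grad X)) (W.isInternal X)).symm.toLinearMap

lemma setup_pr_apply {X : 𝒱.Obj} {d i : ℕ} {x : W.H X} (hx : x ∈ W.grad X i) :
    W.setup_pr X d x = if i = d then x else 0 := by
  have h : (LinearEquiv.ofBijective (DirectSum.coeLinearMap (W.grad X)) (W.isInternal X)).symm x =
      DirectSum.lof K ℕ (fun i => W.grad X i) i ⟨x, hx⟩ := by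
    rw [LinearEquiv.symm_apply_eq]
    change x = DirectSum.coeLinearMap (W.grad X) _
    rw [DirectSum.coeLinearMap_lof]
  change (DirectSum.toModule K ℕ (W.H X) fun i => if i = d then (W.grad X i).subtype else 0)
    ((LinearEquiv.ofBijective (DirectSum.coeLinearMap (W.grad X)) (W.isInternal X)).symm x) = _
  rw [h, DirectSum.toModule_lof]
  split_ifs with hid
  · rfl
  · rfl

lemma setup_pr_mem {X : 𝒱.Obj} (d : ℕ) (x : W.H X) : W.setup_pr X d x ∈ W.grad X d := by
  refine W.hom_induction (P := fun x => W.setup_pr X d x ∈ W.grad X d) ?_ ?_ ?_ x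
  · rw [map_zero]
    exact Submodule.zero_mem _
  · intro x y hx hy
    rw [map_add]
    exact Submodule.add_mem _ hx hy
  · intro i x hx
    rw [W.setup_pr_apply hx]
    split_ifs with hid
    · rw [← hid]
      exact hx
    · exact Submodule.zero_mem _

lemma setup_tr_pr {X : 𝒱.Obj} {l d : ℕ} (hld : l + d = 2 * X.dim) {y : W.H X}
    (hy : y ∈ W.grad X l) (x : W.H X) : W.tr X (y * W.setup_pr X d x) = W.tr X (y * x) := by
  refine W.hom_induction (P := fun x => W.tr X (y * W.setup_pr X d x) = W.tr X (y * x)) ?_ ?_ ?_ x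
  · rw [map_zero]
  · intro a b ha hb
    rw [map_add, mul_add, mul_add, map_add, map_add, ha, hb]
  · intro i x hx
    rw [W.setup_pr_apply hx]
    split_ifs with hid
    · rfl
    · rw [mul_zero, map_zero]
      exact (W.tr_grad X (l + i) _ (W.mul_mem_grad hy hx) (by omega)).symm

variable {W}

namespace Pieces

variable {X : 𝒱.Obj} {I : Type} (P : W.Pieces X I)

/-- The degrees of the nonzero algebraic classes are symmetric up to multiples: for every word `ℓ`
such that `V_{ℓ_1} ⊗ ⋯ ⊗ V_{ℓ_m}` contains a nonzero class of the `K`-span of the algebraic classes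
there is a word `ℓ'` with the same property whose multidegree is `-N` times the one of `ℓ`, for some
`N ≥ 1`. -/
def DegSymmX : Prop :=
  ∀ (m : ℕ) (l : Fin m → I × Bool) (z : W.H (X.pow m)), z ∈ P.wordPart l → z ∈ W.algSpan (X.pow m) →
    z ≠ 0 → ∃ (N : ℕ) (m' : ℕ) (l' : Fin m' → I × Bool) (z' : W.H (X.pow m')), 1 ≤ N ∧
      z' ∈ P.wordPart l' ∧ z' ∈ W.algSpan (X.pow m') ∧ z' ≠ 0 ∧ ∀ i, wdeg l' i = -(N * wdeg l i)

/-- The projector attached to a letter. -/
def proj (l : I × Bool) : Module.End K (W.H X) := if l.2 then P.p l.1 else P.p' l.1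

lemma idem (i : I) (v : W.H X) : P.p i (P.p i v) = P.p i v := P.isIdem i v

lemma adj (i : I) (v v' : W.H X) : W.tr X (P.p i v * v') = W.tr X (v * P.p' i v') :=
  P.isAdjoint i v v'

lemma mem_grad (i : I) (v : W.H X) : P.p i v ∈ W.grad X (P.n i) := (P.inDegree i).1 v

lemma apply_zero (i : I) (j : ℕ) (v : W.H X) (h : v ∈ W.grad X j) (hj : j ≠ P.n i) :
    P.p i v = 0 := (P.inDegree i).2 j v h hj

lemma alg' [CharZero K] (i : I) : P.p' i ∈ W.algHom X X :=
  W.adj_mem_algHom (W.isAlgEnd_iff.1 (P.alg i)) (P.adj i)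

lemma proj_mem [CharZero K] (l : I × Bool) : P.proj l ∈ W.algHom X X := by
  unfold proj
  split_ifs
  · exact W.isAlgEnd_iff.1 (P.alg _)
  · exact P.alg' _

lemma proj_apply_mem (l : I × Bool) (v : W.H X) : P.proj l v ∈ P.letter l := by
  unfold proj letter
  split_ifs
  · exact ⟨v, rfl⟩
  · exact ⟨v, rfl⟩

lemma idem_comp (i : I) : P.p i ∘ₗ P.p i = P.p i := LinearMap.ext fun v => P.idem i v

lemma degSymm_iff : P.DegSymm ↔ P.DegSymmX := by
  constructor
  · intro h m l z h1 h2 h3
    obtain ⟨N, m', l', hN, ⟨z', h4, h5, h6⟩, hd⟩ := h m l ⟨z, h1, h2, h3⟩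
    exact ⟨N, m', l', z', hN, h4, h5, h6, hd⟩
  · rintro h m l ⟨z, h1, h2, h3⟩
    obtain ⟨N, m', l', z', hN, h4, h5, h6, hd⟩ := h m l z h1 h2 h3
    exact ⟨N, m', l', hN, ⟨z', h4, h5, h6⟩, hd⟩

lemma idem' (i : I) : P.p' i ∘ₗ P.p' i = P.p' i := W.adj_idem (P.idem_comp i) (P.adj i)

lemma proj_eq_self (l : I × Bool) (v : W.H X) (hv : v ∈ P.letter l) : P.proj l v = v := by
  unfold proj
  unfold letter at hv
  split_ifs at hv ⊢
  · obtain ⟨u, rfl⟩ := hv
    exact P.idem l.1 u
  · obtain ⟨u, rfl⟩ := hv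
    exact LinearMap.congr_fun (P.idem' l.1) u

/-- The dual of `V_i` lies in degree `2 dim X - n_i`.

Proof: `Tr (v * p'_i v') = Tr (p_i v * v') = 0` for `v` homogeneous of degree `j ≠ n_i`
(`apply_zero`), so all components of `p'_i v'` in degrees different from `2 dim X - n_i` are zero
(duality; decompose `p'_i v'`).  Note `n_i ≤ 2 dim X` if `V_i ≠ 0`; if `V_i = 0` then `p'_i = 0`. -/
lemma mem_grad' [CharZero K] (i : I) (v : W.H X) :
    P.p' i v ∈ W.grad X (2 * X.dim - P.n i) := by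
  by_cases hn : P.n i ≤ 2 * X.dim
  · have key : W.setup_pr X (2 * X.dim - P.n i) (P.p' i v) = P.p' i v := by
      refine W.ext_tr' fun y => ?_
      refine W.hom_induction (P := fun y => W.tr X (y * W.setup_pr X (2 * X.dim - P.n i)
        (P.p' i v)) = W.tr X (y * P.p' i v)) ?_ ?_ ?_ y
      · rw [zero_mul, zero_mul]
      · intro a b ha hb
        rw [add_mul, add_mul, map_add, map_add, ha, hb]
      · intro l y hy
        by_cases hl : l = P.n i
        · exact W.setup_tr_pr (by omega) hy _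
        · rw [← P.adj, P.apply_zero i l y hy hl, zero_mul, map_zero]
          exact W.tr_grad X (l + (2 * X.dim - P.n i)) _
            (W.mul_mem_grad hy (W.setup_pr_mem _ _)) (by omega)
    rw [← key]
    exact W.setup_pr_mem _ _
  · have h0 : P.p' i v = 0 := by
      refine W.ext_tr' fun y => ?_
      have h1 := P.mem_grad i y
      rw [W.vanish X (P.n i) (by omega), Submodule.mem_bot] at h1
      rw [← P.adj, h1, zero_mul, mul_zero]
    rw [h0]
    exact Submodule.zero_mem _

lemma par_p (i : I) (v : W.H X) : W.par X (P.p i v) = ((-1 : K) ^ (P.n i)) • P.p i v :=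
  W.par_apply (P.mem_grad i v)

lemma par_p' [CharZero K] (i : I) (v : W.H X) :
    W.par X (P.p' i v) = ((-1 : K) ^ (P.n i)) • P.p' i v :=
  W.adj_parity (W.isAlgEnd_iff.1 (P.alg i)) (P.alg' i) (P.adj i) (P.par_p i) v

lemma par_letter [CharZero K] (l : I × Bool) (v : W.H X) (hv : v ∈ P.letter l) :
    W.par X v = ((-1 : K) ^ (P.n l.1)) • v := by
  unfold letter at hv
  split_ifs at hv
  · obtain ⟨u, rfl⟩ := hv; exact P.par_p _ _
  · obtain ⟨u, rfl⟩ := hv; exact P.par_p' _ _


lemma AbsIrr.comm {P : W.Pieces X I} {S : Set (Module.End K (W.H X))} (h : P.AbsIrr S)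
    (g : Module.End K (W.H X)) (hg : g ∈ S) (i : I) (v : W.H X) :
    g (P.p i v) = P.p i (g v) := h.commutes g hg i v

lemma AbsIrr.span {P : W.Pieces X I} {S : Set (Module.End K (W.H X))} (h : P.AbsIrr S)
    (i : I) (φ : Module.End K (W.H X)) : ∃ T ∈ Submodule.span K S, ∀ v,
      T (P.p i v) = P.p i (φ (P.p i v)) := by
  obtain ⟨r, t, g, hg, h0⟩ := h.spansEnd i φ
  have h1 : ∀ v, ∑ j, t j • g j (P.p i v) = P.p i (φ (P.p i v)) := h0
  refine ⟨∑ j, t j • g j, Submodule.sum_mem _ fun j _ => Submodule.smul_mem _ _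
    (Submodule.subset_span (hg j)), fun v => ?_⟩
  rw [← h1 v, LinearMap.sum_apply]
  rfl

end Pieces

lemma IsSymmetry.tr_mul {X : 𝒱.Obj} {g : Module.End K (W.H X)} {c : K}
    (h : W.IsSymmetry g c) (v v' : W.H X) :
    W.tr X (g v * g v') = c ^ X.dim * W.tr X (v * v') := h.scalesTr v v'

lemma IsSymmetry.powMap_cl {X : 𝒱.Obj} {g : Module.End K (W.H X)} {c : K}
    (h : W.IsSymmetry g c) (m j : ℕ) (z : Cyc (X.pow m) j) :
    W.powMap m (fun _ => g) (W.cl z) = c ^ j • W.cl z := by
  obtain ⟨G, h1', h2'⟩ := h.scalesCl m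
  have h1 : ∀ v : Fin m → W.H X, G (W.pureT v) = W.pureT fun s => g (v s) := h1'
  have h2 : ∀ (j : ℕ) (z : Cyc (X.pow m) j), G (W.cl z) = c ^ j • W.cl z := h2'
  have h3 : ∀ a, W.powMap m (fun _ => g) a = G a := by
    intro a
    refine W.pure_induction (P := fun a => W.powMap m (fun _ => g) a = G a) ?_ ?_ ?_ a
    · intro a b ha hb
      rw [map_add, map_add, ha, hb]
    · intro t a ha
      rw [map_smul, map_smul, ha]
    · intro v
      rw [h1, powMap_pureT]
  rw [h3, h2]

end Weil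

end Pool.Agent.WeilH_h6
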