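import Pool.Agent.WeilH_h6.Rat

set_option autoImplicit false

/-!
# Conjugation of relations between classes of cycles
-/

noncomputable section

namespace Pool.Agent.WeilH_h6

open AlgebraicGeometry CategoryTheory MonoidalCategory
open scoped TensorProduct DirectSum
open VarClass

universe u v w

namespace Weil

variable {k : Type u} [Field k] {𝒱 : VarClass k} {K : Type v} [Field K] (W : Weil.{u, v, w} 𝒱 K)

/-- Relations with algebraic coefficients can be conjugated. -/
lemma Sigma_homog_aux {K : Type v} [Field K] [CharZero K] {V : Type w} [AddCommGroup V]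
    [Module K V] {r : ℕ} (v : Fin r → V)
    (hind : ∀ (m : ℕ) (f : Fin m → Fin r), (∀ q : Fin m → ℚ, ∑ j, (q j : K) • v (f j) = 0 → q = 0) →
      ∀ t : Fin m → K, (∀ j, IsAlgebraic ℚ (t j)) → ∑ j, t j • v (f j) = 0 → t = 0)
    (σ : K ≃+* K) (t : Fin r → K) (ht : ∀ j, IsAlgebraic ℚ (t j)) (h0 : ∑ j, t j • v j = 0) :
    ∑ j, σ (t j) • v j = 0 := by
  classical
  let _ : Module ℚ V := Module.compHom V (algebraMap ℚ K)
  have hsm : ∀ (q : ℚ) (x : V), q • x = (q : K) • x := fun q x => by
    change (algebraMap ℚ K q) • x = (q : K) • x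
    rw [eq_ratCast]
  obtain ⟨κ, a, ha, hspan, hlin⟩ := exists_linearIndependent' (K := ℚ) v
  have : Finite κ := Finite.of_injective a ha
  have := Fintype.ofFinite κ
  let e := Fintype.equivFin κ
  let f : Fin (Fintype.card κ) → Fin r := fun k => a (e.symm k)
  have hf : ∀ q : Fin (Fintype.card κ) → ℚ, ∑ j, (q j : K) • v (f j) = 0 → q = 0 := by
    intro q hq
    have h1 : ∑ y : κ, q (e y) • (v ∘ a) y = 0 := by
      rw [← hq, ← e.symm.sum_comp]
      refine Finset.sum_congr rfl fun j _ => ?_
      rw [Equiv.apply_symm_apply, hsm]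
      rfl
    have h2 := Fintype.linearIndependent_iff.1 hlin (fun y => q (e y)) h1
    funext j
    have h3 := h2 (e.symm j)
    rw [Equiv.apply_symm_apply] at h3
    exact h3
  have hmem : ∀ j, ∃ c : Fin (Fintype.card κ) → ℚ, ∑ k, (c k : K) • v (f k) = v j := by
    intro j
    have h1 : v j ∈ Submodule.span ℚ (Set.range (v ∘ a)) := by
      rw [hspan]
      exact Submodule.subset_span ⟨j, rfl⟩
    obtain ⟨c, hc⟩ := (Submodule.mem_span_range_iff_exists_fun ℚ).1 h1
    refine ⟨fun k => c (e.symm k), ?_⟩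
    rw [← hc, ← e.symm.sum_comp]
    refine Finset.sum_congr rfl fun k _ => ?_
    rw [hsm]
    rfl
  choose q hq using hmem
  have hsum : ∀ t : Fin r → K, ∑ j, t j • v j = ∑ k, (∑ j, t j * (q j k : K)) • v (f k) := by
    intro t
    calc ∑ j, t j • v j = ∑ j, ∑ k, (t j * (q j k : K)) • v (f k) := by
          refine Finset.sum_congr rfl fun j _ => ?_
          conv_lhs => rw [← hq j, Finset.smul_sum]
          exact Finset.sum_congr rfl fun k _ => smul_smul _ _ _
      _ = ∑ k, ∑ j, (t j * (q j k : K)) • v (f k) := Finset.sum_comm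
      _ = _ := Finset.sum_congr rfl fun k _ => by rw [Finset.sum_smul]
  have h1 : (fun k => ∑ j, t j * (q j k : K)) = 0 := by
    refine hind _ f hf _ (fun k => ?_) (by rw [← hsum, h0])
    have h2 : ∀ s : Finset (Fin r), IsAlgebraic ℚ (∑ j ∈ s, t j * (q j k : K)) := by
      intro s
      induction s using Finset.induction_on with
      | empty =>
        rw [Finset.sum_empty]
        exact isAlgebraic_zero
      | insert j s hj ih =>
        rw [Finset.sum_insert hj]
        refine ((ht j).mul ?_).add ih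
        have h3 : ((q j k : ℚ) : K) = algebraMap ℚ K (q j k) := (eq_ratCast _ _).symm
        rw [h3]
        exact isAlgebraic_algebraMap _
    exact h2 _
  rw [hsum]
  refine Finset.sum_eq_zero fun k _ => ?_
  have h4 : ∑ j, σ (t j) * (q j k : K) = σ (∑ j, t j * (q j k : K)) := by
    rw [map_sum]
    exact Finset.sum_congr rfl fun j _ => by rw [map_mul, map_ratCast]
  have h5 := congrFun h1 k
  beta_reduce at h5
  rw [h4, h5, Pi.zero_apply, map_zero, zero_smul]

/-- An element of `ratSpan` is the sum of the classes of cycles of codimension `≤ dim`. -/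
lemma Sigma_ratSpan [CharZero K] {Y : 𝒱.Obj} {a : W.H Y} (ha : a ∈ W.ratSpan Y) :
    ∃ z : ∀ i : ℕ, Cyc Y i, a = ∑ i ∈ Finset.range (Y.dim + 1), W.cl (z i) := by
  classical
  induction ha using AddSubmonoid.closure_induction with
  | mem a ha =>
    obtain ⟨i, z, rfl⟩ := ha
    by_cases hi : i < Y.dim + 1
    · refine ⟨Function.update (fun _ => 0) i z, ?_⟩
      rw [Finset.sum_eq_single i, Function.update_self]
      · intro j _ hj
        rw [Function.update_of_ne hj, W.RatNT_cl_zero]
      · intro h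
        exact (h (Finset.mem_range.2 hi)).elim
    · refine ⟨fun _ => 0, ?_⟩
      rw [Finset.sum_eq_zero fun j _ => W.RatNT_cl_zero]
      have h1 := W.cl_mem_grad z
      rw [W.vanish Y (2 * i) (by omega)] at h1
      exact (Submodule.mem_bot K).1 h1
  | zero =>
    refine ⟨fun _ => 0, ?_⟩
    rw [Finset.sum_eq_zero fun j _ => W.RatNT_cl_zero]
  | add a b _ _ ha hb =>
    obtain ⟨z, hz⟩ := ha
    obtain ⟨z', hz'⟩ := hb
    refine ⟨fun i => z i + z' i, ?_⟩
    rw [hz, hz', ← Finset.sum_add_distrib]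
    exact Finset.sum_congr rfl fun i _ => by rw [W.cl_add]

/-- Relations between classes of cycles of one codimension, with algebraic coefficients, can be
conjugated if condition `I'` holds.

Proof.  Take a subset `J` of `Fin r`, maximal such that the classes of the `z_j`, `j ∈ J`, satisfy no
nontrivial rational relation.  Then `cl z_j = ∑_{k ∈ J} q_{j k} cl z_k` with rational `q_{j k}` for all
`j` (`q_{j k} = δ_{j k}` for `j ∈ J`), so `∑_{k ∈ J} (∑_j t_j q_{j k}) cl z_k = 0`, hence
`∑_j t_j q_{j k} = 0` for all `k ∈ J` by condition `I'` (the sums are algebraic; reindex `J` by some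
`Fin r'`).  Apply `σ` (`map_ratCast`): `∑_j σ (t_j) q_{j k} = 0`, and
`∑_j σ (t_j) cl z_j = ∑_k (∑_j σ (t_j) q_{j k}) cl z_k = 0`. -/
lemma sigma_homog [CharZero K] {Y : 𝒱.Obj} (h : W.CycIndepAlg Y) (σ : K ≃+* K) {i r : ℕ}
    (z : Fin r → Cyc Y i) (t : Fin r → K) (ht : ∀ j, IsAlgebraic ℚ (t j))
    (h0 : ∑ j, t j • W.cl (z j) = 0) : ∑ j, σ (t j) • W.cl (z j) = 0 :=
  Sigma_homog_aux (fun j => W.cl (z j)) (fun m f hq t' ht' h0' => h i m (fun j => z (f j)) hq t' ht' h0')
    σ t ht h0

/-- The same for elements of `ratSpan` (sums of classes of cycles of various codimensions).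

Proof.  Every `x j` is a finite sum of classes `cl (z j i)` with `z j i : Cyc Y i` (`i` in a finite
range common to all `j`; closure induction, `cl_add`).  The relation `∑ t_j x_j = 0` gives
`∑_j t_j cl (z j i) = 0` for each `i` (the classes are in `grad (2 i)`, `isInternal`), apply
`sigma_homog` for each `i`. -/
lemma sigma_rel [CharZero K] {Y : 𝒱.Obj} (h : W.CycIndepAlg Y) (σ : K ≃+* K) {ι : Type}
    [Fintype ι] (x : ι → W.H Y) (hx : ∀ j, x j ∈ W.ratSpan Y) (t : ι → K)
    (ht : ∀ j, IsAlgebraic ℚ (t j)) (h0 : ∑ j, t j • x j = 0) : ∑ j, σ (t j) • x j = 0 := by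
  classical
  choose z hz using fun j => W.Sigma_ratSpan (hx j)
  have hsum : ∀ t : ι → K, ∑ j, t j • x j =
      ∑ i ∈ Finset.range (Y.dim + 1), ∑ j, t j • W.cl (z j i) := by
    intro t
    rw [Finset.sum_comm]
    refine Finset.sum_congr rfl fun j _ => ?_
    rw [hz j, Finset.smul_sum]
  have hind : iSupIndep fun i : ℕ => W.grad Y (2 * i) :=
    (W.isInternal Y).submodule_iSupIndep.comp fun i j hij => by
      have : 2 * i = 2 * j := hij
      omega
  have h1 : ∀ i ∈ Finset.range (Y.dim + 1), ∑ j, t j • W.cl (z j i) = 0 := by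
    have h2 := (iSupIndep_iff_finsetSum_eq_zero_imp_eq_zero _).1 hind
    refine h2 (Finset.range (Y.dim + 1)) (fun i => ∑ j, t j • W.cl (z j i)) (fun i _ => ?_) ?_
    · exact Submodule.sum_mem _ fun j _ => Submodule.smul_mem _ _ (W.cl_mem_grad _)
    · rw [← hsum, h0]
  rw [hsum]
  refine Finset.sum_eq_zero fun i hi => ?_
  have e := Fintype.equivFin ι
  have h3 := W.sigma_homog h σ (fun k => z (e.symm k) i) (fun k => t (e.symm k))
    (fun k => ht _) (by
      have h4 := h1 i hi
      rw [← e.symm.sum_comp] at h4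
      exact h4)
  rw [← e.symm.sum_comp]
  exact h3

/-- `D(Y)` implies condition `I` for `Y`.

Proof.  Let the classes of `z_1, …, z_r` (codimension `i`) have only trivial `ℚ`-relations, and let
`∑ t_j cl z_j = 0` with `t ≠ 0`.  With a basis `β` of `K` over `ℚ` (`Module.Basis.ofVectorSpace ℚ K`)
write `t_j = ∑_e q_{j e} β_e`.  For every cycle `z'` of codimension `dim Y - i`:
`0 = Tr (∑ t_j cl z_j · cl z') = ∑_e β_e ∑_j q_{j e} ⟨z_j, z'⟩` with rational numbers `⟨z_j, z'⟩`
(`exists_rat`), so `∑_j q_{j e} ⟨z_j, z'⟩ = 0` for each `e`: the cycle `∑_j q_{j e} z_j` is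
numerically trivial, so its class `∑_j q_{j e} cl z_j` is zero by `D(Y)` (`cl_add`, `cl_smul`), so
`q_{j e} = 0` for all `j`, `e`.  If `i > dim Y` then all classes are zero (`vanish`) and `r = 0`. -/
lemma cycIndep_of_homEqNum [CharZero K] {Y : 𝒱.Obj} (h : W.HomEqNum Y) : W.CycIndep Y := by
  intro i r z hz t ht
  have hcl : ∀ q : Fin r → ℚ, W.cl (∑ j, q j • z j) = ∑ j, (q j : K) • W.cl (z j) := by
    intro q
    have h1 : ∀ s : Finset (Fin r), W.cl (∑ j ∈ s, q j • z j) = ∑ j ∈ s, (q j : K) • W.cl (z j) := by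
      classical
      intro s
      induction s using Finset.induction_on with
      | empty => rw [Finset.sum_empty, Finset.sum_empty, W.RatNT_cl_zero]
      | insert j s hj ih =>
        rw [Finset.sum_insert hj, Finset.sum_insert hj, W.cl_add, W.cl_smul, ih]
    exact h1 Finset.univ
  let β := Module.Basis.ofVectorSpace ℚ K
  have key : ∀ e, (fun j => β.repr (t j) e) = 0 := by
    intro e
    apply hz
    rw [← hcl, ← h i]
    intro j' z' hij
    choose q hq using fun j => W.exists_rat hij (z j) z'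
    have h1 : ∑ j, q j • t j = 0 := by
      have h2 : W.tr Y ((∑ j, t j • W.cl (z j)) * W.cl z') = 0 := by
        rw [ht, zero_mul, map_zero]
      rw [Finset.sum_mul, map_sum] at h2
      rw [← h2]
      refine Finset.sum_congr rfl fun j _ => ?_
      rw [smul_mul_assoc, map_smul, hq, smul_eq_mul, Rat.smul_def, mul_comm]
    have h3 : ∑ j, q j * β.repr (t j) e = 0 := by
      have h4 := congrArg (fun x => β.repr x e) h1
      simpa using h4
    rw [hcl, Finset.sum_mul, map_sum]
    have h5 : ∀ j, W.tr Y (((β.repr (t j) e : ℚ) : K) • W.cl (z j) * W.cl z') =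
        ((q j * β.repr (t j) e : ℚ) : K) := by
      intro j
      rw [smul_mul_assoc, map_smul, hq, smul_eq_mul, Rat.cast_mul, mul_comm]
    rw [Finset.sum_congr rfl fun j _ => h5 j, ← Rat.cast_sum, h3, Rat.cast_zero]
  funext j
  apply β.repr.injective
  rw [Pi.zero_apply, map_zero]
  ext e
  exact congrFun (key e) j

end Weil

end Pool.Agent.WeilH_h6
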